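import Mathlib

/-!
# Algebraically closed fields with a generic multiplicative circular order (ACFO)

The definitions of the theories `T_{m,p}`, `ACFO⁻` and `ACFO` (as the class of its models).
-/

namespace Q201.ACFO

open FirstOrder Language

/-- Function symbols of the language of groups. -/
inductive GpFn : ℕ → Type
  | one : GpFn 0
  | inv : GpFn 1
  | mul : GpFn 2

/-- Function symbols of the language of rings. -/
inductive RgFn : ℕ → Type
  | zero : RgFn 0
  | one : RgFn 0
  | neg : RgFn 1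
  | add : RgFn 2
  | mul : RgFn 2

/-- The relation symbols: the binary symbol `<` and the unary symbols `P^r_n`, `0 ≤ r < n`. -/
inductive OrdRel : ℕ → Type
  | lt : OrdRel 2
  | P (n : ℕ) (r : Fin n) : OrdRel 1

/-- The language `L_m`: groups with `<` and all `P^r_n`. -/
def Lm : FirstOrder.Language.{0, 0} := ⟨GpFn, OrdRel⟩

/-- The language `L_c`: rings with `<` and all `P^r_n`. -/
def Lc : FirstOrder.Language.{0, 0} := ⟨RgFn, OrdRel⟩

/-- Interpretations of the relation symbols on a set `G`. -/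
structure OrdData (G : Type*) where
  /-- the relation `<` -/
  lt : G → G → Prop
  /-- the relations `P^r_n` -/
  P : (n : ℕ) → Fin n → G → Prop

/-- A group with interpretations of `<` and `P^r_n`, as an `L_m`-structure. -/
@[reducible]
def gpStructure (G : Type*) [Group G] (D : OrdData G) : Lm.Structure G where
  funMap := fun {_} f v => match f, v with
    | .one, _ => 1
    | .inv, v => (v 0)⁻¹
    | .mul, v => v 0 * v 1
  RelMap := fun {_} r v => match r, v with
    | .lt, v => D.lt (v 0) (v 1)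
    | .P n r, v => D.P n r (v 0)

/-- A field `F` with interpretations of `<` and `P^r_n` on the multiplicative group `Fˣ`, as an
`L_c`-structure: the relations hold only for elements of `Fˣ`. -/
@[reducible]
def rgStructure (F : Type*) [Field F] (D : OrdData Fˣ) : Lc.Structure F where
  funMap := fun {_} f v => match f, v with
    | .zero, _ => 0
    | .one, _ => 1
    | .neg, v => - v 0
    | .add, v => v 0 + v 1
    | .mul, v => v 0 * v 1
  RelMap := fun {_} r v => match r, v with
    | .lt, v => ∃ a b : Fˣ, (a : F) = v 0 ∧ (b : F) = v 1 ∧ D.lt a b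
    | .P n r, v => ∃ a : Fˣ, (a : F) = v 0 ∧ D.P n r a

/-- The group `U_(p)` of the complex roots of unity of order prime to `p`; of all the roots of
unity if `p = 0`. -/
def U (p : ℕ) : Subgroup ℂˣ where
  carrier := {z | ∃ n : ℕ, 0 < n ∧ (p = 0 ∨ n.Coprime p) ∧ z ^ n = 1}
  one_mem' := ⟨1, one_pos, Or.inr (Nat.coprime_one_left p), by simp⟩
  mul_mem' := by
    rintro a b ⟨n, hn, hp, ha⟩ ⟨m, hm, hq, hb⟩
    refine ⟨n * m, Nat.mul_pos hn hm, ?_, ?_⟩
    · rcases hp with h | h
      · exact Or.inl h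
      · rcases hq with h' | h'
        · exact Or.inl h'
        · exact Or.inr (Nat.Coprime.mul_left h h')
    · rw [mul_pow, pow_mul, ha, one_pow, mul_comm n m, pow_mul, hb, one_pow, one_mul]
  inv_mem' := by
    rintro a ⟨n, hn, hp, ha⟩
    exact ⟨n, hn, hp, by rw [inv_pow, ha, inv_one]⟩

/-- The order of the unit circle obtained from the order of `[0, 1)` through
`α ↦ exp (2 π i α)`. -/
def angleLt (a b : ℂˣ) : Prop :=
  ∃ α β : ℝ, 0 ≤ α ∧ α < β ∧ β < 1 ∧ (a : ℂ) = Complex.exp (2 * Real.pi * α * Complex.I) ∧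
    (b : ℂ) = Complex.exp (2 * Real.pi * β * Complex.I)

/-- The winding number `wn(c, n)`: the number of `k` with `0 ≤ k ≤ n - 1` and
`c ^ (k + 1) < c ^ k`. -/
noncomputable def wn {G : Type*} [Group G] (lt : G → G → Prop) (c : G) (n : ℕ) : ℕ :=
  {k : ℕ | k < n ∧ lt (c ^ (k + 1)) (c ^ k)}.ncard

/-- The order of `U_(p)` and the sets `P^r_n = {a | ∃ c, c ^ n = a, wn(c, n) = r}`. -/
noncomputable def uData (p : ℕ) : OrdData (U p) where
  lt a b := angleLt a b
  P n r a := ∃ c : U p, c ^ n = a ∧ wn (fun a b : U p => angleLt a b) c n = r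

/-- The theory `T_{m,p}` of `(U_(p); <, P)`. -/
noncomputable def Tm (p : ℕ) : Lm.Theory :=
  letI := gpStructure (U p) (uData p)
  Lm.completeTheory (U p)

/-- `(F; <, P)` is a model of `ACFO⁻`: for some `p` prime or `0`, `F` is an algebraically closed
field of characteristic `p` and `(Fˣ; <, P)` is a model of `T_{m,p}`. -/
def IsACFOMinus (F : Type*) [Field F] (D : OrdData Fˣ) : Prop :=
  ∃ p : ℕ, (p.Prime ∨ p = 0) ∧ CharP F p ∧ IsAlgClosed F ∧
    @Theory.Model Lm Fˣ (gpStructure Fˣ D) (Tm p)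

/-- Zariski closed subsets of `F ^ m`. -/
def ZariskiClosed {F : Type*} [Field F] {m : ℕ} (Z : Set (Fin m → F)) : Prop :=
  ∃ I : Set (MvPolynomial (Fin m) F), Z = {x | ∀ f ∈ I, MvPolynomial.eval x f = 0}

/-- Irreducible Zariski closed subsets of `F ^ m`: nonempty, and not the union of two proper closed
subsets. -/
def IrreducibleClosed {F : Type*} [Field F] {m : ℕ} (Z : Set (Fin m → F)) : Prop :=
  ZariskiClosed Z ∧ Z.Nonempty ∧
    ∀ A B : Set (Fin m → F), ZariskiClosed A → ZariskiClosed B → Z ⊆ A ∪ B → Z ⊆ A ∨ Z ⊆ B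

/-- Quasi-affine varieties: nonempty Zariski open subsets of irreducible Zariski closed subsets of
`F ^ m`. -/
def QuasiAffineVariety {F : Type*} [Field F] {m : ℕ} (V : Set (Fin m → F)) : Prop :=
  ∃ Z W : Set (Fin m → F), IrreducibleClosed Z ∧ ZariskiClosed W ∧ V = Z \ W ∧ V.Nonempty

/-- The points of `V` in `(Fˣ) ^ m`. -/
def unitPoints {F : Type*} [Field F] {m : ℕ} (V : Set (Fin m → F)) : Set (Fin m → Fˣ) :=
  {x | (fun i => (x i : F)) ∈ V}

/-- `V` is multiplicatively large: for all `k ≠ 0` in `ℤ ^ m` and `c` in `Fˣ`, the set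
`V ∩ (Fˣ) ^ m` is not contained in `{x | x_1 ^ k_1 ⋯ x_m ^ k_m = c}`. -/
def MultLarge {F : Type*} [Field F] {m : ℕ} (V : Set (Fin m → F)) : Prop :=
  ∀ (k : Fin m → ℤ) (c : Fˣ), k ≠ 0 → ¬ unitPoints V ⊆ {x | ∏ i, x i ^ k i = c}

/-- The order topology on `Fˣ`, with the basis of the sets `{a | 1 ≤ a < c'}` and
`{a | c < a < c'}`. -/
def orderTopology {F : Type*} [Field F] (D : OrdData Fˣ) : TopologicalSpace Fˣ :=
  TopologicalSpace.generateFrom
    ({S | ∃ c' : Fˣ, S = {a | (a = 1 ∨ D.lt 1 a) ∧ D.lt a c'}} ∪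
     {S | ∃ c c' : Fˣ, S = {a | D.lt c a ∧ D.lt a c'}})

/-- `(F; <, P)` is generic: every multiplicatively large quasi-affine variety `V` over `F` has
`V ∩ (Fˣ) ^ m` dense in `(Fˣ) ^ m`, with the product of the order topologies. -/
def IsGeneric (F : Type*) [Field F] (D : OrdData Fˣ) : Prop :=
  ∀ (m : ℕ) (V : Set (Fin m → F)), QuasiAffineVariety V → MultLarge V →
    @Dense (Fin m → Fˣ) (@Pi.topologicalSpace (Fin m) (fun _ => Fˣ) fun _ => orderTopology D)
      (unitPoints V)

/-- The models of `ACFO`: the generic models of `ACFO⁻`. -/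
def IsACFO (F : Type*) [Field F] (D : OrdData Fˣ) : Prop :=
  IsACFOMinus F D ∧ IsGeneric F D

end Q201.ACFO
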