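import Pool.Agent.Q201.ACFOGen

/-!
# Polynomial functions and definable sets in models of ACFO
-/

set_option autoImplicit false

namespace Q201.ACFO

open FirstOrder Language

variable {F : Type*} [Field F] (D : OrdData Fˣ) {ι : Type*}

/-- The symbol `+`. -/
def addC : Lc.Functions 2 := RgFn.add

/-- The symbol `·`. -/
def mulC : Lc.Functions 2 := RgFn.mul

/-- The symbol `<`. -/
def ltC : Lc.Relations 2 := OrdRel.lt

/-- `f` is given by a term with parameters. -/
def IsTm (f : (ι → F) → F) : Prop :=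
  letI := rgStructure F D
  ∃ t : (Lc[[(Set.univ : Set F)]]).Term ι, ∀ v : ι → F, t.realize v = f v

theorem isTm_var (i : ι) : IsTm D (fun v : ι → F => v i) := ⟨Term.var i, fun _ => rfl⟩

theorem isTm_const (c : F) : IsTm D (fun _ : ι → F => c) := by
  let _ := rgStructure F D
  exact ⟨Constants.term (Lc.con (⟨c, trivial⟩ : (Set.univ : Set F))), fun v => by
    rw [Term.realize_con]⟩

theorem IsTm.add {f g : (ι → F) → F} (hf : IsTm D f) (hg : IsTm D g) :
    IsTm D (fun v => f v + g v) := by
  obtain ⟨t, ht⟩ := hf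
  obtain ⟨u, hu⟩ := hg
  refine ⟨Functions.apply₂ (Sum.inl addC) t u, fun v => ?_⟩
  show _ = f v + g v
  rw [← ht v, ← hu v]
  let _ := rgStructure F D
  exact Term.realize_functions_apply₂

theorem IsTm.mul {f g : (ι → F) → F} (hf : IsTm D f) (hg : IsTm D g) :
    IsTm D (fun v => f v * g v) := by
  obtain ⟨t, ht⟩ := hf
  obtain ⟨u, hu⟩ := hg
  refine ⟨Functions.apply₂ (Sum.inl mulC) t u, fun v => ?_⟩
  show _ = f v * g v
  rw [← ht v, ← hu v]
  let _ := rgStructure F D
  exact Term.realize_functions_apply₂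

theorem IsTm.pow {f : (ι → F) → F} (hf : IsTm D f) (n : ℕ) : IsTm D (fun v => f v ^ n) := by
  induction n with
  | zero => simpa using isTm_const D 1
  | succ n ih =>
    have := ih.mul D hf
    simpa [pow_succ] using this

theorem isTm_sum {κ : Type*} (S : Finset κ) (f : κ → (ι → F) → F) (h : ∀ i, IsTm D (f i)) :
    IsTm D (fun v => ∑ i ∈ S, f i v) := by
  classical
  induction S using Finset.induction_on with
  | empty => simpa using isTm_const D 0
  | insert a S ha ih =>
    have := (h a).add D ih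
    simpa [Finset.sum_insert ha] using this

theorem isTm_prod {κ : Type*} (S : Finset κ) (f : κ → (ι → F) → F) (h : ∀ i, IsTm D (f i)) :
    IsTm D (fun v => ∏ i ∈ S, f i v) := by
  classical
  induction S using Finset.induction_on with
  | empty => simpa using isTm_const D 1
  | insert a S ha ih =>
    have := (h a).mul D ih
    simpa [Finset.prod_insert ha] using this

/-- Definable with parameters. -/
def Dfb (S : Set (ι → F)) : Prop :=
  letI := rgStructure F D
  (Set.univ : Set F).Definable Lc S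

theorem dfb_eq {f g : (ι → F) → F} (hf : IsTm D f) (hg : IsTm D g) :
    Dfb D {v | f v = g v} := by
  obtain ⟨t, ht⟩ := hf
  obtain ⟨u, hu⟩ := hg
  let _ := rgStructure F D
  refine ⟨Term.equal t u, ?_⟩
  ext v
  simp only [Set.mem_ofPred_eq, Formula.realize_equal]
  rw [ht v, hu v]

theorem dfb_lt {f g : (ι → F) → F} (hf : IsTm D f) (hg : IsTm D g) :
    Dfb D {v | ∃ a b : Fˣ, (a : F) = f v ∧ (b : F) = g v ∧ D.lt a b} := by
  obtain ⟨t, ht⟩ := hf
  obtain ⟨u, hu⟩ := hg
  let _ := rgStructure F D
  refine ⟨Relations.formula₂ (Sum.inl ltC) t u, ?_⟩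
  ext v
  simp only [Set.mem_ofPred_eq]
  rw [← ht v, ← hu v]
  exact (Formula.realize_rel₂ (L := Lc[[(Set.univ : Set F)]]) (M := F) (R := Sum.inl ltC)
    (t₁ := t) (t₂ := u)).symm

theorem Dfb.inter {S T : Set (ι → F)} (hS : Dfb D S) (hT : Dfb D T) : Dfb D (S ∩ T) := by
  let _ := rgStructure F D
  exact Set.Definable.inter hS hT

theorem Dfb.compl {S : Set (ι → F)} (hS : Dfb D S) : Dfb D Sᶜ := by
  let _ := rgStructure F D
  exact Set.Definable.compl hS

theorem dfb_iInter {κ : Type*} [Fintype κ] {S : κ → Set (ι → F)} (h : ∀ i, Dfb D (S i)) :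
    Dfb D (⋂ i, S i) := by
  let _ := rgStructure F D
  exact Set.definable_iInter_of_finite (fun i => h i)

end Q201.ACFO
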