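import Pool.Agent.Q201.ACFO

/-!
# Consequences of genericity in models of ACFO
-/

set_option autoImplicit false

namespace Q201.ACFO

open FirstOrder Language

section Order

/-- The symbol `<`. -/
def ltSym : Lm.Relations 2 := OrdRel.lt

/-- The formula `&i < &j`. -/
def ltF {n : ℕ} (i j : Fin n) : Lm.BoundedFormula Empty n :=
  Relations.boundedFormula₂ ltSym (Term.var (Sum.inr i)) (Term.var (Sum.inr j))

theorem realize_ltF {G : Type*} [Group G] (D : OrdData G) {n : ℕ} (i j : Fin n) (v : Empty → G)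
    (xs : Fin n → G) :
    @BoundedFormula.Realize Lm G (gpStructure G D) _ _ (ltF i j) v xs ↔ D.lt (xs i) (xs j) := by
  let _ := gpStructure G D
  exact (BoundedFormula.realize_rel₂ (R := ltSym)).trans Iff.rfl

/-- `<` is irreflexive. -/
def sIrrefl : Lm.Sentence := BoundedFormula.all (n := 0) (∼(ltF (n := 1) 0 0))
/-- `<` is transitive. -/
def sTrans : Lm.Sentence :=
  BoundedFormula.all (n := 0) (BoundedFormula.all (n := 1) (BoundedFormula.all (n := 2)
    (ltF (n := 3) 0 1 ⟹ (ltF (n := 3) 1 2 ⟹ ltF (n := 3) 0 2))))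
/-- `<` is total. -/
def sTotal : Lm.Sentence :=
  BoundedFormula.all (n := 0) (BoundedFormula.all (n := 1)
    (∼(ltF (n := 2) 0 1) ⟹ (∼(ltF (n := 2) 1 0) ⟹
      (Term.bdEqual (Term.var (Sum.inr 0)) (Term.var (Sum.inr 1))))))
/-- `<` is dense. -/
def sDense : Lm.Sentence :=
  BoundedFormula.all (n := 0) (BoundedFormula.all (n := 1)
    (ltF (n := 2) 0 1 ⟹ BoundedFormula.ex (n := 2) (ltF (n := 3) 0 2 ⊓ ltF (n := 3) 2 1)))
/-- There is no largest element. -/
def sNoMax : Lm.Sentence :=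
  BoundedFormula.all (n := 0) (BoundedFormula.ex (n := 1) (ltF (n := 2) 0 1))

variable {G : Type*} [Group G] (D : OrdData G)

theorem r_irrefl : @Sentence.Realize Lm G (gpStructure G D) sIrrefl ↔ ∀ x, ¬ D.lt x x := by
  let _ := gpStructure G D
  unfold sIrrefl Sentence.Realize Formula.Realize
  simp only [BoundedFormula.realize_all, BoundedFormula.realize_not, realize_ltF]
  rfl

theorem r_trans : @Sentence.Realize Lm G (gpStructure G D) sTrans ↔
    ∀ x y z, D.lt x y → D.lt y z → D.lt x z := by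
  let _ := gpStructure G D
  unfold sTrans Sentence.Realize Formula.Realize
  simp only [BoundedFormula.realize_all, BoundedFormula.realize_imp, realize_ltF]
  rfl

theorem r_total : @Sentence.Realize Lm G (gpStructure G D) sTotal ↔
    ∀ x y, ¬ D.lt x y → ¬ D.lt y x → x = y := by
  let _ := gpStructure G D
  unfold sTotal Sentence.Realize Formula.Realize
  simp only [BoundedFormula.realize_all, BoundedFormula.realize_imp, BoundedFormula.realize_not,
    BoundedFormula.realize_bdEqual, realize_ltF]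
  rfl

theorem r_dense : @Sentence.Realize Lm G (gpStructure G D) sDense ↔
    ∀ x y, D.lt x y → ∃ z, D.lt x z ∧ D.lt z y := by
  let _ := gpStructure G D
  unfold sDense Sentence.Realize Formula.Realize
  simp only [BoundedFormula.realize_all, BoundedFormula.realize_imp, BoundedFormula.realize_ex,
    BoundedFormula.realize_inf, realize_ltF]
  rfl

theorem r_nomax : @Sentence.Realize Lm G (gpStructure G D) sNoMax ↔
    ∀ x, ∃ y, D.lt x y := by
  let _ := gpStructure G D
  unfold sNoMax Sentence.Realize Formula.Realize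
  simp only [BoundedFormula.realize_all, BoundedFormula.realize_ex, realize_ltF]
  rfl


/-- The point of the unit circle with the angle `α`. -/
noncomputable def pt (α : ℝ) : ℂ := Complex.exp (2 * Real.pi * α * Complex.I)

theorem pt_inj {α β : ℝ} (h0 : 0 ≤ α) (h1 : α < 1) (h2 : 0 ≤ β) (h3 : β < 1) (h : pt α = pt β) :
    α = β := by
  unfold pt at h
  rw [Complex.exp_eq_exp_iff_exists_int] at h
  obtain ⟨n, hn⟩ := h
  have h4 : (2 * Real.pi * Complex.I) * ((α : ℂ) - β - n) = 0 := by linear_combination hn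
  have h5 : (2 * (Real.pi : ℂ) * Complex.I) ≠ 0 := by
    simp [Real.pi_ne_zero]
  have h6 : (α : ℂ) - β - n = 0 := (mul_eq_zero.mp h4).resolve_left h5
  have h7 : α - β - n = 0 := by exact_mod_cast h6
  have h8 : (n : ℝ) < 1 := by linarith
  have h9 : (-1 : ℝ) < n := by linarith
  have h10 : n < 1 := by exact_mod_cast h8
  have h11 : -1 < n := by exact_mod_cast h9
  have h12 : n = 0 := by omega
  subst h12
  simp at h7
  linarith

theorem exists_pt {z : ℂ} (hz : ‖z‖ = 1) : ∃ α : ℝ, 0 ≤ α ∧ α < 1 ∧ z = pt α := by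
  obtain ⟨θ, hθ⟩ := (Complex.norm_eq_one_iff z).mp hz
  refine ⟨Int.fract (θ / (2 * Real.pi)), Int.fract_nonneg _, Int.fract_lt_one _, ?_⟩
  unfold pt
  rw [← hθ, Complex.exp_eq_exp_iff_exists_int]
  refine ⟨⌊θ / (2 * Real.pi)⌋, ?_⟩
  have h1 : θ = 2 * Real.pi * (Int.fract (θ / (2 * Real.pi)) + ⌊θ / (2 * Real.pi)⌋) := by
    rw [Int.fract_add_floor]
    field_simp
  have h2 : (θ : ℂ) = 2 * Real.pi * ((Int.fract (θ / (2 * Real.pi)) : ℝ) + (⌊θ / (2 * Real.pi)⌋ : ℂ)) := by
    exact_mod_cast h1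
  rw [h2]
  ring

theorem norm_U {p : ℕ} (z : U p) : ‖((z : ℂˣ) : ℂ)‖ = 1 := by
  obtain ⟨n, hn, _, h⟩ := z.2
  have h1 : ((z : ℂˣ) : ℂ) ^ n = 1 := by
    have := congrArg (fun w : ℂˣ => (w : ℂ)) h
    simpa using this
  exact (pow_eq_one_iff_of_nonneg (norm_nonneg _) hn.ne').mp (by rw [← norm_pow, h1, norm_one])

theorem exists_U (p : ℕ) {α β : ℝ} (h0 : 0 ≤ α) (h : α < β) :
    ∃ (z : U p) (γ : ℝ), α < γ ∧ γ < β ∧ ((z : ℂˣ) : ℂ) = pt γ := by
  obtain ⟨m, hm⟩ := exists_nat_gt (1 / (β - α))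
  have hβ : 0 < β - α := by linarith
  obtain ⟨n, hn1, hn2⟩ : ∃ n : ℕ, m + 1 ≤ n ∧ (p = 0 ∨ n.Coprime p) := by
    by_cases hp : p = 0
    · exact ⟨m + 1, le_rfl, Or.inl hp⟩
    · refine ⟨p * m + 1, ?_, Or.inr ?_⟩
      · have : 1 * m ≤ p * m := Nat.mul_le_mul_right m (Nat.pos_of_ne_zero hp)
        omega
      · simp
  have hn3 : (m : ℝ) + 1 ≤ n := by exact_mod_cast hn1
  have hm0 : (0 : ℝ) ≤ m := Nat.cast_nonneg m
  have hn0 : (0 : ℝ) < n := by linarith
  have hk1 : (0 : ℝ) ≤ α * n := mul_nonneg h0 hn0.le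
  set k : ℕ := ⌊α * n⌋₊ + 1 with hk
  have hk2 : α * n < k := by
    rw [hk]; push_cast; exact Nat.lt_floor_add_one _
  have hk3 : (k : ℝ) ≤ α * n + 1 := by
    rw [hk]; push_cast
    have := Nat.floor_le hk1
    linarith
  have hk4 : 1 < (β - α) * n := by
    rw [div_lt_iff₀ hβ] at hm
    nlinarith
  have hk5 : (k : ℝ) < β * n := by nlinarith
  have hz : pt ((k : ℝ) / n) ^ n = 1 := by
    unfold pt
    rw [← Complex.exp_nat_mul]
    have : (n : ℂ) * (2 * Real.pi * (((k : ℝ) / n : ℝ) : ℂ) * Complex.I) =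
        (k : ℂ) * (2 * Real.pi * Complex.I) := by
      push_cast
      have : (n : ℂ) ≠ 0 := by exact_mod_cast hn0.ne'
      field_simp
    rw [this, Complex.exp_nat_mul, Complex.exp_two_pi_mul_I, one_pow]
  have hne : pt ((k : ℝ) / n) ≠ 0 := Complex.exp_ne_zero _
  refine ⟨⟨Units.mk0 _ hne, n, by omega, hn2, ?_⟩, (k : ℝ) / n, ?_, ?_, rfl⟩
  · ext
    simpa using hz
  · rw [lt_div_iff₀ hn0]; exact hk2
  · rw [div_lt_iff₀ hn0]; exact hk5

theorem U_irrefl {p : ℕ} (x : U p) : ¬ (uData p).lt x x := by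
  rintro ⟨α, β, h0, h1, h2, h3, h4⟩
  have := pt_inj h0 (by linarith) (by linarith) h2 (h3.symm.trans h4)
  linarith

theorem U_trans {p : ℕ} (x y z : U p) (h : (uData p).lt x y) (h' : (uData p).lt y z) :
    (uData p).lt x z := by
  obtain ⟨α, β, h0, h1, h2, h3, h4⟩ := h
  obtain ⟨α', β', h0', h1', h2', h3', h4'⟩ := h'
  have := pt_inj (by linarith) h2 h0' (by linarith) (h4.symm.trans h3')
  exact ⟨α, β', h0, by linarith, h2', h3, h4'⟩

theorem U_total {p : ℕ} (x y : U p) (h : ¬ (uData p).lt x y) (h' : ¬ (uData p).lt y x) :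
    x = y := by
  obtain ⟨α, h1, h2, h3⟩ := exists_pt (norm_U x)
  obtain ⟨β, h4, h5, h6⟩ := exists_pt (norm_U y)
  have h7 : α = β := by
    rcases lt_trichotomy α β with hc | hc | hc
    · exact absurd ⟨α, β, h1, hc, h5, h3, h6⟩ h
    · exact hc
    · exact absurd ⟨β, α, h4, hc, h2, h6, h3⟩ h'
  apply Subtype.ext
  apply Units.ext
  rw [h3, h6, h7]

theorem U_dense {p : ℕ} (x y : U p) (h : (uData p).lt x y) :
    ∃ z, (uData p).lt x z ∧ (uData p).lt z y := by
  obtain ⟨α, β, h0, h1, h2, h3, h4⟩ := h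
  obtain ⟨z, γ, g1, g2, g3⟩ := exists_U p h0 h1
  exact ⟨z, ⟨α, γ, h0, g1, by linarith, h3, g3⟩, ⟨γ, β, by linarith, g2, h2, g3, h4⟩⟩

theorem U_nomax {p : ℕ} (x : U p) : ∃ y, (uData p).lt x y := by
  obtain ⟨α, h1, h2, h3⟩ := exists_pt (norm_U x)
  obtain ⟨z, γ, g1, g2, g3⟩ := exists_U p h1 h2
  exact ⟨z, α, γ, h1, g1, g2, h3, g3⟩

end Order

/-- The facts on the order of `Fˣ` that follow from `T_{m,p}`. -/
structure GoodOrder {G : Type*} (lt : G → G → Prop) : Prop where
  irrefl : ∀ x, ¬ lt x x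
  trans : ∀ x y z, lt x y → lt y z → lt x z
  total : ∀ x y, ¬ lt x y → ¬ lt y x → x = y
  dense : ∀ x y, lt x y → ∃ z, lt x z ∧ lt z y
  nomax : ∀ x, ∃ y, lt x y

theorem goodOrder {F : Type*} [Field F] {D : OrdData Fˣ} (h : IsACFOMinus F D) :
    GoodOrder D.lt := by
  obtain ⟨p, _, _, _, hm⟩ := h
  have key : ∀ s : Lm.Sentence, @Sentence.Realize Lm (U p) (gpStructure (U p) (uData p)) s →
      @Sentence.Realize Lm Fˣ (gpStructure Fˣ D) s := by
    intro s hs
    exact @Theory.realize_sentence_of_mem Lm Fˣ (gpStructure Fˣ D) (Tm p) hm s hs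
  exact ⟨(r_irrefl D).mp (key _ ((r_irrefl _).mpr U_irrefl)),
    (r_trans D).mp (key _ ((r_trans _).mpr U_trans)),
    (r_total D).mp (key _ ((r_total _).mpr U_total)),
    (r_dense D).mp (key _ ((r_dense _).mpr U_dense)),
    (r_nomax D).mp (key _ ((r_nomax _).mpr U_nomax))⟩

section Poly

open Polynomial
open scoped Polynomial.Bivariate

variable {F : Type*} [Field F]

/-- The leading coefficient in `Y` has leading coefficient `1`. -/
def Nrm (f : F[X][Y]) : Prop := f.leadingCoeff.leadingCoeff = 1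

theorem eq_of_associated {f g : F[X][Y]} (h : Associated f g) (hf : Nrm f) (hg : Nrm g) :
    f = g := by
  obtain ⟨u, hu⟩ := h
  obtain ⟨r, hr, hr'⟩ := Polynomial.isUnit_iff.mp u.isUnit
  obtain ⟨c, hc, hc'⟩ := Polynomial.isUnit_iff.mp hr
  have h1 : g.leadingCoeff.leadingCoeff = f.leadingCoeff.leadingCoeff * c := by
    rw [← hu, ← hr', ← hc', leadingCoeff_mul, leadingCoeff_C, leadingCoeff_mul, leadingCoeff_C]
  unfold Nrm at hf hg
  rw [hf, hg, one_mul] at h1
  rw [← hu, ← hr', ← hc', ← h1]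
  simp

theorem eq_zero_of_evalEval [Infinite F] {p : F[X][Y]} (h : ∀ σ τ : F, evalEval σ τ p = 0) :
    p = 0 := by
  apply Polynomial.eq_zero_of_infinite_isRoot
  apply Set.Infinite.mono (s := Set.range (fun τ : F => (C τ : F[X])))
  · rintro _ ⟨τ, rfl⟩
    show eval (C τ) p = 0
    apply Polynomial.funext
    intro σ
    rw [eval_zero]
    exact h σ τ
  · exact Set.infinite_range_of_injective C_injective

theorem mult_indep [Infinite F] {m : ℕ} (f : Fin m → F[X][Y]) (hinj : Function.Injective f)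
    (hirr : ∀ i, Irreducible (f i)) (hn : ∀ i, Nrm (f i)) (k : Fin m → ℤ) (hk : k ≠ 0) (c : F)
    (hc : c ≠ 0) :
    ∃ σ τ : F, (∀ i, evalEval σ τ (f i) ≠ 0) ∧ ∏ i, (evalEval σ τ (f i)) ^ k i ≠ c := by
  classical
  by_contra hcon
  push Not at hcon
  set P : F[X][Y] := ∏ i, f i ^ (k i).toNat with hP
  set N : F[X][Y] := ∏ i, f i ^ (- k i).toNat with hN
  have h1 : (P - C (C c) * N) * ∏ i, f i = 0 := by
    apply eq_zero_of_evalEval
    intro σ τ
    rw [← coe_evalEvalRingHom, map_mul, map_prod, map_sub, map_mul]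
    by_cases hz : ∀ i, evalEval σ τ (f i) ≠ 0
    · have h2 := hcon σ τ hz
      have h3 : evalEvalRingHom σ τ P = c * evalEvalRingHom σ τ N := by
        rw [hP, hN, map_prod, map_prod, ← h2, ← Finset.prod_mul_distrib]
        apply Finset.prod_congr rfl
        intro i _
        rw [map_pow, map_pow, coe_evalEvalRingHom]
        have h4 := hz i
        rw [← zpow_natCast, ← zpow_natCast, ← zpow_add₀ h4]
        congr 1
        omega
      have h5 : evalEvalRingHom σ τ (C (C c) : F[X][Y]) = c := by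
        rw [coe_evalEvalRingHom, evalEval_CC]
      rw [h3, h5]
      simp
    · push Not at hz
      obtain ⟨i, hi⟩ := hz
      rw [Finset.prod_eq_zero (Finset.mem_univ i) (by rw [coe_evalEvalRingHom]; exact hi), mul_zero]
  have h2 : ∏ i, f i ≠ 0 := Finset.prod_ne_zero_iff.mpr fun i _ => (hirr i).ne_zero
  have h3 : P = C (C c) * N := by
    have := (mul_eq_zero.mp h1).resolve_right h2
    exact sub_eq_zero.mp this
  have hcu : IsUnit (C (C c) : F[X][Y]) :=
    Polynomial.isUnit_C.mpr (Polynomial.isUnit_C.mpr (IsUnit.mk0 c hc))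
  have key : ∀ (a b : Fin m → ℕ) (i : Fin m), a i ≠ 0 → b i = 0 → ∀ j, b j ≠ 0 →
      ¬ f i ∣ f j := by
    intro a b i ha hb j hj hd
    have h4 : Associated (f i) (f j) := (hirr i).associated_of_dvd (hirr j) hd
    have h5 := hinj (eq_of_associated h4 (hn i) (hn j))
    rw [← h5] at hj
    exact hj hb
  obtain ⟨i, hi⟩ : ∃ i, k i ≠ 0 := by
    by_contra hcc
    push Not at hcc
    exact hk (funext hcc)
  have hpr : Prime (f i) := (hirr i).prime
  rcases lt_or_gt_of_ne hi with hlt | hgt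
  · -- `k i < 0`
    have h4 : f i ∣ N := by
      rw [hN]
      refine dvd_trans (dvd_pow_self (f i) ?_) (Finset.dvd_prod_of_mem _ (Finset.mem_univ i))
      omega
    have h5 : f i ∣ P := by
      rw [h3]; exact dvd_mul_of_dvd_right h4 _
    rw [hP] at h5
    obtain ⟨j, _, hj⟩ := hpr.exists_mem_finset_dvd h5
    have hj0 : (k j).toNat ≠ 0 := by
      intro h0
      rw [h0, pow_zero] at hj
      exact hpr.not_isUnit (isUnit_of_dvd_one hj)
    exact key (fun i => (- k i).toNat) (fun i => (k i).toNat) i (by omega)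
      (by omega) j hj0 (hpr.dvd_of_dvd_pow hj)
  · have h4 : f i ∣ P := by
      rw [hP]
      refine dvd_trans (dvd_pow_self (f i) ?_) (Finset.dvd_prod_of_mem _ (Finset.mem_univ i))
      omega
    have h5 : f i ∣ N := by
      rw [h3] at h4
      exact (hcu.dvd_mul_left).mp h4
    rw [hN] at h5
    obtain ⟨j, _, hj⟩ := hpr.exists_mem_finset_dvd h5
    have hj0 : (- k j).toNat ≠ 0 := by
      intro h0
      rw [h0, pow_zero] at hj
      exact hpr.not_isUnit (isUnit_of_dvd_one hj)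
    exact key (fun i => (k i).toNat) (fun i => (- k i).toNat) i (by omega)
      (by omega) j hj0 (hpr.dvd_of_dvd_pow hj)


/-- The polynomial in the coordinates `i0`, `i1`. -/
noncomputable def lift {m : ℕ} (i0 i1 : Fin m) : F[X][Y] →+* MvPolynomial (Fin m) F :=
  eval₂RingHom (eval₂RingHom MvPolynomial.C (MvPolynomial.X i0)) (MvPolynomial.X i1)

theorem eval_lift {m : ℕ} (i0 i1 : Fin m) (x : Fin m → F) (f : F[X][Y]) :
    MvPolynomial.eval x (lift i0 i1 f) = evalEval (x i0) (x i1) f := by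
  have h : (MvPolynomial.eval x).comp (lift i0 i1) = evalEvalRingHom (x i0) (x i1) := by
    apply Polynomial.ringHom_ext'
    · apply Polynomial.ringHom_ext'
      · ext a
        simp [lift]
      · simp [lift]
    · simp [lift]
  have := congrArg (fun g : F[X][Y] →+* F => g f) h
  simpa using this

/-- The image of `(σ, τ) ↦ (f i (σ, τ))_i`. -/
def V {m : ℕ} (f : Fin m → F[X][Y]) : Set (Fin m → F) :=
  Set.range fun p : F × F => fun i => evalEval p.1 p.2 (f i)

theorem V_eq {m : ℕ} (f : Fin m → F[X][Y]) {i0 i1 : Fin m} (h0 : f i0 = C X) (h1 : f i1 = X) :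
    V f = {x | ∀ i, x i = evalEval (x i0) (x i1) (f i)} := by
  ext x
  constructor
  · rintro ⟨⟨σ, τ⟩, rfl⟩ i
    simp [h0, h1, evalEval_C]
  · intro hx
    exact ⟨(x i0, x i1), funext fun i => (hx i).symm⟩

theorem V_quasiAffine [Infinite F] {m : ℕ} (f : Fin m → F[X][Y]) {i0 i1 : Fin m}
    (h0 : f i0 = C X) (h1 : f i1 = X) : QuasiAffineVariety (V f) := by
  have hne : (V f).Nonempty := ⟨_, (0, 0), rfl⟩
  refine ⟨V f, ∅, ⟨?_, hne, ?_⟩, ⟨{1}, ?_⟩, by simp, hne⟩
  · refine ⟨Set.range fun i => MvPolynomial.X i - lift i0 i1 (f i), ?_⟩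
    rw [V_eq f h0 h1]
    ext x
    simp only [Set.mem_ofPred_eq, Set.forall_mem_range, map_sub, MvPolynomial.eval_X, eval_lift,
      sub_eq_zero]
  · rintro _ _ ⟨I, rfl⟩ ⟨J, rfl⟩ hsub
    by_contra hcon
    push Not at hcon
    obtain ⟨hA, hB⟩ := hcon
    rw [Set.not_subset] at hA hB
    obtain ⟨_, ⟨p, rfl⟩, hp⟩ := hA
    obtain ⟨_, ⟨q, rfl⟩, hq⟩ := hB
    simp only [Set.mem_ofPred_eq, not_forall] at hp hq
    obtain ⟨g, hg, hgp⟩ := hp
    obtain ⟨h, hh, hhq⟩ := hq
    have hev : ∀ (g : MvPolynomial (Fin m) F) (p : F × F),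
        evalEval p.1 p.2 (MvPolynomial.eval₂Hom (C.comp C : F →+* F[X][Y]) f g) =
          MvPolynomial.eval (fun i => evalEval p.1 p.2 (f i)) g := by
      intro g p
      have : (evalEvalRingHom p.1 p.2).comp (MvPolynomial.eval₂Hom (C.comp C : F →+* F[X][Y]) f) =
          MvPolynomial.eval (fun i => evalEval p.1 p.2 (f i)) := by
        apply MvPolynomial.ringHom_ext
        · intro r; simp
        · intro i; simp
      exact congrArg (fun u : MvPolynomial (Fin m) F →+* F => u g) this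
    have hg0 : MvPolynomial.eval₂Hom (C.comp C : F →+* F[X][Y]) f g ≠ 0 := by
      intro h0
      apply hgp
      rw [← hev, h0, evalEval_zero]
    have hh0 : MvPolynomial.eval₂Hom (C.comp C : F →+* F[X][Y]) f h ≠ 0 := by
      intro h0
      apply hhq
      rw [← hev, h0, evalEval_zero]
    apply mul_ne_zero hg0 hh0
    apply eq_zero_of_evalEval
    intro σ τ
    rw [evalEval_mul]
    rcases hsub ⟨(σ, τ), rfl⟩ with hx | hx
    · have := hx g hg
      rw [← hev g (σ, τ)] at this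
      rw [this, zero_mul]
    · have := hx h hh
      rw [← hev h (σ, τ)] at this
      rw [this, mul_zero]
  · ext x
    simp

theorem V_multLarge [Infinite F] {m : ℕ} (f : Fin m → F[X][Y]) (hinj : Function.Injective f)
    (hirr : ∀ i, Irreducible (f i)) (hn : ∀ i, Nrm (f i)) : MultLarge (V f) := by
  intro k c hk hsub
  obtain ⟨σ, τ, h1, h2⟩ := mult_indep f hinj hirr hn k hk (c : F) c.ne_zero
  apply h2
  have h3 : (fun i => Units.mk0 _ (h1 i)) ∈ unitPoints (V f) := ⟨(σ, τ), rfl⟩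
  have h4 := hsub h3
  have h5 := congrArg (fun u : Fˣ => (u : F)) h4
  simpa using h5

end Poly

/-- Genericity, for a finite family of irreducible polynomials in two variables. -/
theorem generic_family {F : Type*} [Field F] [Infinite F] {D : OrdData Fˣ}
    (hD : ∀ x y, D.lt x y → ∃ z, D.lt x z ∧ D.lt z y) (hg : IsGeneric F D) {m : ℕ}
    (f : Fin m → Polynomial (Polynomial F)) (hinj : Function.Injective f)
    (hirr : ∀ i, Irreducible (f i)) (hn : ∀ i, Nrm (f i)) {i0 i1 : Fin m}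
    (h0 : f i0 = Polynomial.C Polynomial.X) (h1 : f i1 = Polynomial.X)
    (lo hi : Fin m → Fˣ) (hlh : ∀ i, D.lt (lo i) (hi i)) :
    ∃ σ τ : F, ∀ i, ∃ a : Fˣ, (a : F) = Polynomial.evalEval σ τ (f i) ∧ D.lt (lo i) a ∧
      D.lt a (hi i) := by
  let _ : TopologicalSpace Fˣ := orderTopology D
  have hd := hg m (V f) (V_quasiAffine f h0 h1) (V_multLarge f hinj hirr hn)
  have hopen : IsOpen (Set.pi Set.univ fun i => {a : Fˣ | D.lt (lo i) a ∧ D.lt a (hi i)}) := by
    apply isOpen_set_pi Set.finite_univ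
    intro i _
    exact TopologicalSpace.isOpen_generateFrom_of_mem (Or.inr ⟨lo i, hi i, rfl⟩)
  have hne : (Set.pi Set.univ fun i => {a : Fˣ | D.lt (lo i) a ∧ D.lt a (hi i)}).Nonempty := by
    choose z hz using fun i => hD _ _ (hlh i)
    exact ⟨z, fun i _ => hz i⟩
  obtain ⟨x, hx, hx'⟩ := hd.inter_open_nonempty _ hopen hne
  obtain ⟨⟨σ, τ⟩, hp⟩ := hx'
  refine ⟨σ, τ, fun i => ⟨x i, ?_, hx i (Set.mem_univ i)⟩⟩
  have := congrFun hp i
  exact this.symm

/-- Genericity, for a finite set of irreducible polynomials in two variables. -/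
theorem generic_finset {F : Type*} [Field F] [Infinite F] {D : OrdData Fˣ}
    (hD : ∀ x y, D.lt x y → ∃ z, D.lt x z ∧ D.lt z y) (hg : IsGeneric F D)
    (S : Finset (Polynomial (Polynomial F)))
    (hirr : ∀ f ∈ S, Irreducible f) (hn : ∀ f ∈ S, Nrm f)
    (h0 : Polynomial.C Polynomial.X ∈ S) (h1 : Polynomial.X ∈ S)
    (lo hi : Polynomial (Polynomial F) → Fˣ) (hlh : ∀ f ∈ S, D.lt (lo f) (hi f)) :
    ∃ σ τ : F, ∀ f ∈ S, ∃ a : Fˣ, (a : F) = Polynomial.evalEval σ τ f ∧ D.lt (lo f) a ∧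
      D.lt a (hi f) := by
  let e := S.equivFin
  obtain ⟨σ, τ, h⟩ := generic_family hD hg (fun i => ((e.symm i : S) : Polynomial (Polynomial F)))
    (fun i j hij => e.symm.injective (Subtype.ext hij)) (fun i => hirr _ (e.symm i).2)
    (fun i => hn _ (e.symm i).2) (i0 := e ⟨_, h0⟩) (i1 := e ⟨_, h1⟩) (by simp) (by simp)
    (fun i => lo (e.symm i)) (fun i => hi (e.symm i)) (fun i => hlh _ (e.symm i).2)
  refine ⟨σ, τ, fun f hf => ?_⟩
  have := h (e ⟨f, hf⟩)
  simpa using this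

end Q201.ACFO
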