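import Pool.Agent.Q201.ACFOGen

/-!
# The polynomials used for the random hypergraphs in models of ACFO
-/

set_option autoImplicit false

namespace Q201.ACFO.Hyp

open Polynomial
open scoped Polynomial.Bivariate

variable {F : Type*} [Field F]

/-- Distinct elements of `F`, the first of which is `0`. -/
noncomputable def pnt [Infinite F] (i : ℕ) : F :=
  Infinite.natEmbedding F i - Infinite.natEmbedding F 0

theorem pnt_inj [Infinite F] : Function.Injective (pnt : ℕ → F) := by
  intro i j h
  unfold pnt at h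
  exact (Infinite.natEmbedding F).injective (sub_left_injective h)

theorem pnt_zero [Infinite F] : pnt 0 = (0 : F) := by simp [pnt]

/-- The index of a pair. -/
def idx (n : ℕ) (u : Fin (n + 1) × Fin (n + 1)) : ℕ := u.1 * (n + 1) + u.2

theorem idx_inj (n : ℕ) : Function.Injective (idx n) := by
  rintro ⟨a, b⟩ ⟨c, d⟩ h
  unfold idx at h
  have hb := b.2
  have hd := d.2
  have h1 : (a : ℕ) = c := by
    have e1 : ((a : ℕ) * (n + 1) + b) / (n + 1) = a := by
      rw [mul_comm, Nat.mul_add_div (Nat.succ_pos n), Nat.div_eq_of_lt hb, add_zero]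
    have e2 : ((c : ℕ) * (n + 1) + d) / (n + 1) = c := by
      rw [mul_comm, Nat.mul_add_div (Nat.succ_pos n), Nat.div_eq_of_lt hd, add_zero]
    simp only at h
    rw [← e1, h, e2]
  have h2 : (b : ℕ) = d := by
    simp only [h1] at h
    omega
  exact Prod.ext (Fin.ext h1) (Fin.ext h2)

theorem idx_lt (n : ℕ) (u : Fin (n + 1) × Fin (n + 1)) : idx n u < (n + 1) ^ 2 := by
  unfold idx
  have h1 := u.1.2
  have h2 := u.2.2
  nlinarith

/-- The exponents. -/
def kk (n : ℕ) (u : Fin (n + 1) × Fin (n + 1)) : ℕ := 2 * (idx n u + 1)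

/-- The large odd exponent. -/
def bb (n : ℕ) : ℕ := 4 * (n + 1) ^ 2 + 3

/-- The linear forms. -/
noncomputable def ll [Infinite F] (n : ℕ) (u : Fin (n + 1) × Fin (n + 1)) (s t : F) : F :=
  1 + pnt u.1 * s + pnt u.2 * t

/-- The symmetric function `g`. -/
noncomputable def g [Infinite F] (n : ℕ) (s t : Fin (n + 1) → F) : F :=
  ∑ i, (t i ^ 2 + s i ^ bb n) + ∑ u, ∏ i, (ll n u (s i) (t i) * s i ^ kk n u)

variable {X : Type*} (s t : X → F)

/-- The coefficient `c_u`. -/
noncomputable def cc [Infinite F] (n : ℕ) (S : Finset X) (u : Fin (n + 1) × Fin (n + 1)) : F :=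
  ∏ x ∈ S, (ll n u (s x) (t x) * s x ^ kk n u)

/-- The polynomial `A_S`. -/
noncomputable def AA [Infinite F] (n : ℕ) (S : Finset X) : F[X] :=
  Polynomial.X ^ bb n + (C (∑ x ∈ S, (t x ^ 2 + s x ^ bb n)) +
    ∑ u, (C (cc s t n S u) * Polynomial.X ^ kk n u +
      C (cc s t n S u * pnt u.1) * Polynomial.X ^ (kk n u + 1)))

/-- The polynomial `B_S`. -/
noncomputable def BB [Infinite F] (n : ℕ) (S : Finset X) : F[X] :=
  ∑ u, C (cc s t n S u * pnt u.2) * Polynomial.X ^ kk n u

/-- The polynomial `G_S`. -/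
noncomputable def GG [Infinite F] (n : ℕ) (S : Finset X) : F[X][Y] :=
  Polynomial.X ^ 2 + C (BB s t n S) * Polynomial.X + C (AA s t n S)

theorem kk_le (n : ℕ) (u : Fin (n + 1) × Fin (n + 1)) : kk n u ≤ 2 * (n + 1) ^ 2 := by
  have := idx_lt n u
  unfold kk
  omega

theorem natDegree_BB [Infinite F] (n : ℕ) (S : Finset X) :
    (BB s t n S).natDegree ≤ 2 * (n + 1) ^ 2 := by
  unfold BB
  apply natDegree_sum_le_of_forall_le
  intro u _
  exact (natDegree_C_mul_X_pow_le _ _).trans (kk_le n u)

theorem natDegree_AA [Infinite F] (n : ℕ) (S : Finset X) :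
    (AA s t n S).natDegree = bb n := by
  unfold AA
  rw [natDegree_add_eq_left_of_natDegree_lt, natDegree_X_pow]
  rw [natDegree_X_pow]
  refine lt_of_le_of_lt (natDegree_add_le_of_degree_le (n := 2 * (n + 1) ^ 2 + 1) ?_ ?_) ?_
  · rw [natDegree_C]; exact Nat.zero_le _
  · apply natDegree_sum_le_of_forall_le
    intro u _
    have := kk_le n u
    refine natDegree_add_le_of_degree_le ?_ ?_
    · exact (natDegree_C_mul_X_pow_le _ _).trans (by omega)
    · exact (natDegree_C_mul_X_pow_le _ _).trans (by omega)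
  · unfold bb; omega

theorem GG_monic [Infinite F] (n : ℕ) (S : Finset X) : (GG s t n S).Monic := by
  unfold GG
  monicity!

theorem GG_natDegree [Infinite F] (n : ℕ) (S : Finset X) : (GG s t n S).natDegree = 2 := by
  unfold GG
  compute_degree!

theorem GG_irr [Infinite F] (n : ℕ) (S : Finset X) : Irreducible (GG s t n S) := by
  rw [(GG_monic s t n S).irreducible_iff_roots_eq_zero_of_degree_le_three
    (by rw [GG_natDegree]) (by rw [GG_natDegree]; norm_num)]
  by_contra hne
  obtain ⟨r, hr⟩ := Multiset.exists_mem_of_ne_zero hne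
  have hr1 : (GG s t n S).IsRoot r := (mem_roots'.mp hr).2
  have hr2 : r * (r + BB s t n S) = - AA s t n S := by
    unfold GG IsRoot at hr1
    simp only [eval_add, eval_pow, eval_X, eval_mul, eval_C] at hr1
    linear_combination hr1
  have hd := congrArg natDegree hr2
  rw [natDegree_neg, natDegree_AA] at hd
  have hA : AA s t n S ≠ 0 := by
    intro h
    have := natDegree_AA s t n S
    rw [h, natDegree_zero] at this
    unfold bb at this
    omega
  have hne1 : r ≠ 0 := by
    rintro rfl
    rw [zero_mul] at hr2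
    exact hA (neg_eq_zero.mp hr2.symm)
  have hne2 : r + BB s t n S ≠ 0 := by
    intro h
    rw [h, mul_zero] at hr2
    exact hA (neg_eq_zero.mp hr2.symm)
  rw [natDegree_mul hne1 hne2] at hd
  have hB := natDegree_BB s t n S
  by_cases hc : r.natDegree ≤ 2 * (n + 1) ^ 2
  · have h1 : (r + BB s t n S).natDegree ≤ 2 * (n + 1) ^ 2 :=
      natDegree_add_le_of_degree_le hc hB
    unfold bb at hd
    omega
  · rw [natDegree_add_eq_left_of_natDegree_lt (by omega)] at hd
    unfold bb at hd
    omega

theorem GG_nrm [Infinite F] (n : ℕ) (S : Finset X) : Nrm (GG s t n S) := by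
  unfold Nrm
  rw [(GG_monic s t n S).leadingCoeff, leadingCoeff_one]

theorem coeff_AA [Infinite F] (n : ℕ) (S : Finset X) (u : Fin (n + 1) × Fin (n + 1)) :
    (AA s t n S).coeff (kk n u) = cc s t n S u := by
  unfold AA
  have hk := kk_le n u
  have h1 : kk n u ≠ bb n := by unfold bb; omega
  have h2 : kk n u ≠ 0 := by unfold kk; omega
  rw [coeff_add, coeff_X_pow, if_neg h1, zero_add, coeff_add, coeff_C, if_neg h2, zero_add,
    finsetSum_coeff, Finset.sum_eq_single u]
  · rw [coeff_add, coeff_C_mul_X_pow, coeff_C_mul_X_pow, if_pos rfl, if_neg (by omega), add_zero]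
  · intro v _ hv
    rw [coeff_add, coeff_C_mul_X_pow, coeff_C_mul_X_pow]
    have h3 : kk n u ≠ kk n v := by
      unfold kk
      intro h
      exact hv (idx_inj n (by omega))
    have h4 : kk n u ≠ kk n v + 1 := by unfold kk; omega
    rw [if_neg h3, if_neg h4, add_zero]
  · intro h; exact absurd (Finset.mem_univ u) h

theorem cc_eq [Infinite F] {n : ℕ} {S T : Finset X} (h : GG s t n S = GG s t n T)
    (u : Fin (n + 1) × Fin (n + 1)) : cc s t n S u = cc s t n T u := by
  have h1 : AA s t n S = AA s t n T := by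
    have h2 := congrArg (fun p : F[X][Y] => p.coeff 0) h
    unfold GG at h2
    simpa using h2
  rw [← coeff_AA s t n S u, h1, coeff_AA]

theorem eval_GG [Infinite F] (n : ℕ) (S : Finset X) (σ τ : F) (e : Fin n → X)
    (he : Function.Injective e) (hr : Set.range e = (S : Set X)) :
    evalEval σ τ (GG s t n S) = g n (Fin.cons σ (s ∘ e)) (Fin.cons τ (t ∘ e)) := by
  classical
  have hS : S = Finset.univ.image e := by
    apply Finset.coe_injective
    rw [← hr]
    simp
  have h1 : ∀ f : X → F, ∑ x ∈ S, f x = ∑ i, f (e i) := by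
    intro f
    rw [hS, Finset.sum_image (fun i _ j _ h => he h)]
  have h2 : ∀ f : X → F, ∏ x ∈ S, f x = ∏ i, f (e i) := by
    intro f
    rw [hS, Finset.prod_image (fun i _ j _ h => he h)]
  unfold GG g
  simp only [evalEval_add, evalEval_mul, evalEval_C, evalEval_X, evalEval_pow]
  unfold AA BB cc
  simp only [h1, h2, eval_add, eval_C, eval_X, eval_pow, eval_finsetSum, eval_mul]
  rw [Fin.sum_univ_succ]
  simp only [Fin.prod_univ_succ, Fin.cons_zero, Fin.cons_succ, Function.comp_apply]
  rw [Finset.sum_mul]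
  have h3 : ∀ a b c d e : F, a + b + (c + (d + e)) = a + c + d + (b + e) := by intros; ring
  rw [h3, ← Finset.sum_add_distrib]
  congr 1
  apply Finset.sum_congr rfl
  intro u _
  unfold ll
  ring

/-- Two products of few affine polynomials that agree at many points are equal. -/
theorem affine_prod_eq [Infinite F] {n : ℕ} {S T : Finset X} (hS : S.card = n) (hT : T.card = n)
    (a b : X → F) (h : ∀ i : Fin (n + 1), ∏ x ∈ S, (a x + b x * pnt i) =
      ∏ x ∈ T, (a x + b x * pnt i)) (z : F) :
    ∏ x ∈ S, (a x + b x * z) = ∏ x ∈ T, (a x + b x * z) := by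
  classical
  have hdeg : ∀ S : Finset X, S.card = n →
      (∏ x ∈ S, (C (a x) + C (b x) * (Polynomial.X : F[X]))).degree < (n + 1 : ℕ) := by
    intro S hS
    apply lt_of_le_of_lt (degree_prod_le _ _)
    have h1 : ∀ x ∈ S, (C (a x) + C (b x) * (Polynomial.X : F[X])).degree ≤ 1 := by
      intro x _
      compute_degree
    calc ∑ x ∈ S, (C (a x) + C (b x) * (Polynomial.X : F[X])).degree
        ≤ ∑ x ∈ S, (1 : WithBot ℕ) := Finset.sum_le_sum h1
      _ = (n : WithBot ℕ) := by simp [hS]
      _ < ((n + 1 : ℕ) : WithBot ℕ) := by exact_mod_cast Nat.lt_succ_self n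
  have hinj : Function.Injective (fun i : Fin (n + 1) => (pnt (i : ℕ) : F)) :=
    fun i j hij => Fin.ext (pnt_inj hij)
  have hcard : (Finset.univ.image (fun i : Fin (n + 1) => (pnt (i : ℕ) : F))).card = n + 1 := by
    rw [Finset.card_image_of_injective _ hinj, Finset.card_univ, Fintype.card_fin]
  have heq : ∏ x ∈ S, (C (a x) + C (b x) * (Polynomial.X : F[X])) =
      ∏ x ∈ T, (C (a x) + C (b x) * (Polynomial.X : F[X])) := by
    apply Polynomial.eq_of_degrees_lt_of_eval_finset_eq
      (Finset.univ.image (fun i : Fin (n + 1) => (pnt (i : ℕ) : F)))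
    · rw [hcard]; exact hdeg S hS
    · rw [hcard]; exact hdeg T hT
    · intro y hy
      obtain ⟨i, _, rfl⟩ := Finset.mem_image.mp hy
      simp only [eval_prod, eval_add, eval_C, eval_mul, eval_X]
      exact h i
  have := congrArg (Polynomial.eval z) heq
  simpa [eval_prod] using this

theorem subset_of_cc [Infinite F] {n : ℕ} {S T : Finset X} (hs : ∀ x, s x ≠ 0)
    (hst : ∀ x y, s x = s y → t x = t y → x = y) (hS : S.card = n) (hT : T.card = n)
    (h : ∀ u, cc s t n S u = cc s t n T u) : S ⊆ T := by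
  classical
  -- the products of the coordinates
  have hP : ∀ S : Finset X, (∏ x ∈ S, s x) ≠ 0 := fun S => Finset.prod_ne_zero_iff.mpr fun x _ => hs x
  have hcc : ∀ (S : Finset X) u, cc s t n S u =
      (∏ x ∈ S, ll n u (s x) (t x)) * ((∏ x ∈ S, s x) ^ 2) ^ (idx n u + 1) := by
    intro S u
    unfold cc
    rw [Finset.prod_mul_distrib, Finset.prod_pow, ← pow_mul]
    rfl
  have h0 : (∏ x ∈ S, s x) ^ 2 = (∏ x ∈ T, s x) ^ 2 := by
    have := h (0, 0)
    rw [hcc, hcc] at this
    simpa [ll, idx, pnt_zero] using this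
  have h1 : ∀ u, ∏ x ∈ S, ll n u (s x) (t x) = ∏ x ∈ T, ll n u (s x) (t x) := by
    intro u
    have := h u
    rw [hcc, hcc, h0] at this
    exact mul_right_cancel₀ (pow_ne_zero _ (pow_ne_zero _ (hP T))) this
  have h2 : ∀ (i : Fin (n + 1)) (b : F), ∏ x ∈ S, ((1 + pnt (i : ℕ) * s x) + t x * b) =
      ∏ x ∈ T, ((1 + pnt (i : ℕ) * s x) + t x * b) := by
    intro i b
    apply affine_prod_eq hS hT
    intro j
    have := h1 (i, j)
    unfold ll at this
    simpa only [mul_comm (pnt (j : ℕ) : F)] using this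
  have h3 : ∀ a b : F, ∏ x ∈ S, ((1 + t x * b) + s x * a) = ∏ x ∈ T, ((1 + t x * b) + s x * a) := by
    intro a b
    apply affine_prod_eq hS hT
    intro i
    have h4 := h2 i b
    have e : ∀ x, (1 + t x * b) + s x * pnt (i : ℕ) = (1 + pnt (i : ℕ) * s x) + t x * b := by
      intro x; ring
    simp only [e]
    exact h4
  intro x hx
  have h4 : ∀ b : F, ∃ y : T, (1 + t y * b) + s y * (-(1 + t x * b) / s x) = 0 := by
    intro b
    have h5 : ∏ y ∈ S, ((1 + t y * b) + s y * (-(1 + t x * b) / s x)) = 0 := by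
      apply Finset.prod_eq_zero hx
      field_simp [hs x]
      ring
    rw [h3] at h5
    obtain ⟨y, hy, hy'⟩ := Finset.prod_eq_zero_iff.mp h5
    exact ⟨⟨y, hy⟩, hy'⟩
  choose y hy using h4
  obtain ⟨b, b', hbb, hyy⟩ := Finite.exists_ne_map_eq_of_infinite y
  have e1 := hy b
  have e2 := hy b'
  rw [← hyy] at e2
  have hsx := hs x
  have e1' : s x * (1 + t (y b) * b) = s (y b) * (1 + t x * b) := by
    field_simp at e1
    linear_combination e1
  have e2' : s x * (1 + t (y b) * b') = s (y b) * (1 + t x * b') := by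
    field_simp at e2
    linear_combination e2
  have e3 : (b - b') * (s x * t (y b) - s (y b) * t x) = 0 := by
    linear_combination e1' - e2'
  have e4 : s x * t (y b) - s (y b) * t x = 0 :=
    (mul_eq_zero.mp e3).resolve_left (sub_ne_zero.mpr hbb)
  have e5 : s x = s (y b) := by linear_combination e1' - b * e4
  have e6 : t x = t (y b) := by
    rw [← e5] at e4
    have : s x * (t (y b) - t x) = 0 := by linear_combination e4
    exact (sub_eq_zero.mp ((mul_eq_zero.mp this).resolve_left hsx)).symm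
  rw [hst x (y b) e5 e6]
  exact (y b).2

theorem GG_inj [Infinite F] {n : ℕ} {S T : Finset X} (hs : ∀ x, s x ≠ 0)
    (hst : ∀ x y, s x = s y → t x = t y → x = y) (hS : S.card = n) (hT : T.card = n)
    (h : GG s t n S = GG s t n T) : S = T :=
  Finset.eq_of_subset_of_card_le (subset_of_cc s t hs hst hS hT (cc_eq s t h)) (by omega)

end Q201.ACFO.Hyp
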