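import Mathlib

set_option autoImplicit false

/-! Smooth functions on the line which are algebraic on every bounded interval. -/

namespace Pool.Agent.Q201.AS

open Polynomial Topology Filter Asymptotics
open scoped ContDiff Polynomial.Bivariate

/-- `w` is algebraic on every bounded interval -/
def Alg (w : ℝ → ℝ) : Prop :=
  ∀ N : ℕ, ∃ P : ℝ[X][Y], P ≠ 0 ∧ ∀ x : ℝ, |x| ≤ N → evalEval x (w x) P = 0

/-- evaluation of polynomials -/
noncomputable def evH (I : Set ℝ) : ℝ[X] →+* (I → ℝ) :=
  RingHom.pi fun x : I => evalRingHom (x : ℝ)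

noncomputable local instance algI (I : Set ℝ) : Algebra ℝ[X] (I → ℝ) := (evH I).toAlgebra

/-- restriction of a function -/
def restr (I : Set ℝ) (w : ℝ → ℝ) : I → ℝ := fun x => w x

theorem aeval_restr (I : Set ℝ) (w : ℝ → ℝ) (P : ℝ[X][Y]) :
    (aeval (restr I w) P : I → ℝ) = restr I fun x => evalEval x (w x) P := by
  induction P using Polynomial.induction_on' with
  | add p q hp hq =>
    rw [map_add, hp, hq]
    funext x
    simp [restr, evalEval_add]
  | monomial n a =>
    rw [aeval_monomial]
    funext x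
    simp only [restr, evalEval, eval_monomial, eval_mul, eval_pow, eval_C]
    rfl

theorem isAlgebraic_iff (I : Set ℝ) (w : ℝ → ℝ) :
    IsAlgebraic ℝ[X] (restr I w) ↔
      ∃ P : ℝ[X][Y], P ≠ 0 ∧ ∀ x ∈ I, evalEval x (w x) P = 0 := by
  constructor
  · rintro ⟨P, hP, h⟩
    refine ⟨P, hP, fun x hx => ?_⟩
    rw [aeval_restr] at h
    exact congrFun h ⟨x, hx⟩
  · rintro ⟨P, hP, h⟩
    refine ⟨P, hP, ?_⟩
    rw [aeval_restr]
    funext x
    exact h x x.2

theorem Alg.iff {w : ℝ → ℝ} : Alg w ↔ ∀ N : ℕ, IsAlgebraic ℝ[X] (restr {x : ℝ | |x| ≤ N} w) :=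
  forall_congr' fun _ => (isAlgebraic_iff _ w).symm

theorem Alg.add {w u : ℝ → ℝ} (hw : Alg w) (hu : Alg u) : Alg (fun x => w x + u x) := by
  rw [Alg.iff] at *
  exact fun N => (hw N).add (hu N)

theorem Alg.mul {w u : ℝ → ℝ} (hw : Alg w) (hu : Alg u) : Alg (fun x => w x * u x) := by
  rw [Alg.iff] at *
  exact fun N => (hw N).mul (hu N)

theorem Alg.const (c : ℝ) : Alg (fun _ => c) := by
  intro N
  refine ⟨X - C (C c), X_sub_C_ne_zero _, fun x _ => ?_⟩
  simp [evalEval]

theorem Alg.id : Alg (fun x => x) := by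
  intro N
  refine ⟨X - C X, X_sub_C_ne_zero _, fun x _ => ?_⟩
  simp [evalEval]

theorem Alg.neg {w : ℝ → ℝ} (hw : Alg w) : Alg (fun x => -w x) := by
  have := (Alg.const (-1)).mul hw
  simpa using this

theorem Alg.evalEval {w : ℝ → ℝ} (hw : Alg w) (P : ℝ[X][Y]) : Alg (fun x => evalEval x (w x) P) := by
  rw [Alg.iff] at *
  intro N
  have h1 : (aeval (restr {x : ℝ | |x| ≤ N} w) P : {x : ℝ | |x| ≤ N} → ℝ) ∈
      Subalgebra.algebraicClosure ℝ[X] ({x : ℝ | |x| ≤ N} → ℝ) := by
    have : restr {x : ℝ | |x| ≤ N} w ∈ Subalgebra.algebraicClosure ℝ[X] ({x : ℝ | |x| ≤ N} → ℝ) :=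
      hw N
    exact (Algebra.adjoin_le (Set.singleton_subset_iff.2 this)) (aeval_mem_adjoin_singleton _ _)
  rw [aeval_restr] at h1
  exact h1

theorem Alg.shift {w : ℝ → ℝ} (hw : Alg w) (d : ℝ) : Alg (fun x => w (x + d)) := by
  intro N
  obtain ⟨M, hM⟩ := exists_nat_ge (N + |d|)
  obtain ⟨P, hP, h⟩ := hw M
  let φ : ℝ[X] →+* ℝ[X] := compRingHom (X + C d)
  have hφ : Function.Injective φ := by
    intro p q hpq
    have : p.comp (X + C d) = q.comp (X + C d) := hpq
    have h2 := congrArg (fun r => r.comp (X - C d)) this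
    simpa [comp_assoc] using h2
  refine ⟨P.map φ, fun h0 => hP (Polynomial.map_injective φ hφ (by rw [h0, Polynomial.map_zero])),
    fun x hx => ?_⟩
  have h1 : Polynomial.evalEval x (w (x + d)) (P.map φ) =
      Polynomial.evalEval (x + d) (w (x + d)) P := by
    generalize w (x + d) = y
    clear hP h
    induction P using Polynomial.induction_on' with
    | add p q hp hq =>
      rw [Polynomial.map_add, evalEval_add, evalEval_add, hp, hq]
    | monomial n a =>
      rw [Polynomial.map_monomial]
      simp only [Polynomial.evalEval, eval_monomial, eval_mul, eval_pow, eval_C]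
      congr 1
      change (a.comp (X + C d)).eval x = _
      rw [eval_comp]; simp
  rw [h1]
  refine h _ (le_trans (abs_add_le x d) (le_trans ?_ hM))
  linarith

theorem continuous_evalEval {w : ℝ → ℝ} (hw : Continuous w) (P : ℝ[X][Y]) :
    Continuous fun x => evalEval x (w x) P := by
  induction P using Polynomial.induction_on' with
  | add p q hp hq => simp only [evalEval_add]; exact hp.add hq
  | monomial n a =>
    simp only [Polynomial.evalEval, eval_monomial, eval_mul, eval_pow, eval_C]
    exact a.continuous.mul (hw.pow n)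

theorem contDiff_evalEval {w : ℝ → ℝ} (hw : ContDiff ℝ ∞ w) (P : ℝ[X][Y]) :
    ContDiff ℝ ∞ fun x => evalEval x (w x) P := by
  induction P using Polynomial.induction_on' with
  | add p q hp hq => simp only [evalEval_add]; exact hp.add hq
  | monomial n a =>
    simp only [Polynomial.evalEval, eval_monomial, eval_mul, eval_pow, eval_C]
    have ha : ContDiff ℝ ∞ fun x => a.eval x := by
      simpa [coe_aeval_eq_eval] using a.contDiff_aeval (𝕜 := ℝ) ∞
    exact ha.mul (hw.pow n)

/-- The identity principle. -/
theorem identity {w : ℝ → ℝ} (hw : ContDiff ℝ ∞ w) (hA : Alg w) {a b : ℝ} (hab : a < b)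
    (h0 : ∀ x ∈ Set.Ioo a b, w x = 0) : ∀ x, w x = 0 := by
  set O := interior {x | w x = 0} with hO
  have hOo : IsOpen O := isOpen_interior
  have hOne : O.Nonempty := by
    obtain ⟨c, hc⟩ := exists_between hab
    exact ⟨c, interior_mono (fun x hx => h0 x hx) (by rw [isOpen_Ioo.interior_eq]; exact hc)⟩
  have hOcl : IsClosed O := by
    rw [← closure_subset_iff_isClosed]
    intro b hb
    -- flatness
    have hflat : ∀ k : ℕ, iteratedDeriv k w b = 0 := by
      intro k
      have hcont : Continuous (iteratedDeriv k w) :=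
        hw.continuous_iteratedDeriv k (by exact_mod_cast le_top)
      have hcl : IsClosed {x | iteratedDeriv k w x = 0} := isClosed_singleton.preimage hcont
      have hsub : O ⊆ {x | iteratedDeriv k w x = 0} := by
        intro x hx
        have h1 : w =ᶠ[𝓝 x] fun _ => 0 := by
          filter_upwards [hOo.mem_nhds hx] with y hy
          exact (interior_subset (s := {x | w x = 0}) hy)
        have h2 := h1.iteratedDeriv_eq k
        change iteratedDeriv k w x = 0
        rw [h2]
        simp [iteratedDeriv_const]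
      exact (closure_minimal hsub hcl) hb
    have hwb : w b = 0 := by simpa using hflat 0
    have hlo : ∀ n : ℕ, w =o[𝓝 b] fun x => (x - b) ^ n := by
      intro n
      have h1 := taylor_isLittleO_univ (f := w) (x₀ := b) (n := n)
        (hw.of_le (by exact_mod_cast le_top))
      have h2 : ∀ x, taylorWithinEval w n Set.univ b x = 0 := by
        intro x
        rw [taylor_within_apply]
        refine Finset.sum_eq_zero fun k _ => ?_
        rw [iteratedDerivWithin_univ, hflat k, smul_zero]
      simpa [h2] using h1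
    by_contra hbO
    have hfreq : ∃ᶠ x in 𝓝 b, w x ≠ 0 := by
      intro hev
      apply hbO
      rw [hO, mem_interior_iff_mem_nhds]
      filter_upwards [hev] with x hx
      simpa using hx
    obtain ⟨N, hN⟩ := exists_nat_gt (|b|)
    obtain ⟨P, hP, hPz⟩ := hA N
    obtain ⟨Pt, hPt, hnd⟩ := exists_eq_pow_rootMultiplicity_mul_and_not_dvd P hP 0
    rw [C_0, sub_zero] at hPt hnd
    set r : ℝ[X] := Pt.coeff 0 with hr
    have hr0 : r ≠ 0 := by
      intro h
      exact hnd (X_dvd_iff.2 h)
    obtain ⟨ρ, hρ, hρnd⟩ := exists_eq_pow_rootMultiplicity_mul_and_not_dvd r hr0 b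
    set e := rootMultiplicity b r with he
    have hρb : ρ.eval b ≠ 0 := fun h => hρnd (dvd_iff_isRoot.2 h)
    have hPt2 : X * Pt.divX + C r = Pt := by rw [mul_comm]; exact divX_mul_X_add Pt
    -- a bound near `b`
    have hcont : ContinuousAt (fun x => evalEval x (w x) Pt.divX) b :=
      (continuous_evalEval hw.continuous _).continuousAt
    obtain ⟨K, hK⟩ : ∃ K : ℝ, ∀ᶠ x in 𝓝 b, |evalEval x (w x) Pt.divX| ≤ K := by
      refine ⟨|evalEval b (w b) Pt.divX| + 1, ?_⟩
      have := (hcont.abs).eventually_lt (continuousAt_const (y := |evalEval b (w b) Pt.divX| + 1))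
        (lt_add_one _)
      filter_upwards [this] with x hx using hx.le
    have hρev : ∀ᶠ x in 𝓝 b, |ρ.eval b| / 2 < |ρ.eval x| := by
      have h1 : ContinuousAt (fun x => |ρ.eval x|) b := ρ.continuous.continuousAt.abs
      exact (continuousAt_const (y := |ρ.eval b| / 2)).eventually_lt h1
        (by have := abs_pos.2 hρb; linarith)
    have hNev : ∀ᶠ x in 𝓝 b, |x| < (N : ℝ) :=
      (continuous_abs.continuousAt).eventually_lt continuousAt_const hN
    have hKpos : 0 < |K| + 1 := by positivity
    have hsmall := (hlo e).bound (c := |ρ.eval b| / 2 / (|K| + 1)) (by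
      have := abs_pos.2 hρb
      positivity)
    obtain ⟨x, hwx, h1, h2, h3, h4⟩ := (hfreq.and_eventually
      (hK.and (hρev.and (hNev.and hsmall)))).exists
    have hxb : x ≠ b := fun h => hwx (by rw [h, hwb])
    have h5 := hPz x h3.le
    have h6 : evalEval x (w x) Pt = 0 := by
      have : evalEval x (w x) P = (w x) ^ (rootMultiplicity 0 P) * evalEval x (w x) Pt := by
        conv_lhs => rw [hPt]
        rw [evalEval_mul, evalEval_pow]
        simp [Polynomial.evalEval]
      rw [this] at h5
      exact (mul_eq_zero.1 h5).resolve_left (pow_ne_zero _ hwx)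
    have h7 : w x * evalEval x (w x) Pt.divX + r.eval x = 0 := by
      rw [← hPt2, evalEval_add, evalEval_mul] at h6
      simpa [Polynomial.evalEval] using h6
    have h8 : r.eval x = (x - b) ^ e * ρ.eval x := by
      conv_lhs => rw [hρ]
      simp
    have h9 : |x - b| ^ e * |ρ.eval x| = |w x| * |evalEval x (w x) Pt.divX| := by
      rw [← abs_pow, ← abs_mul, ← h8, ← abs_mul]
      have : r.eval x = -(w x * evalEval x (w x) Pt.divX) := by linarith
      rw [this, abs_neg]
    simp only [Real.norm_eq_abs, abs_pow] at h4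
    have hxpos : 0 < |x - b| ^ e := pow_pos (abs_pos.2 (sub_ne_zero.2 hxb)) _
    have h10 : |w x| * |evalEval x (w x) Pt.divX| ≤
        |ρ.eval b| / 2 / (|K| + 1) * |x - b| ^ e * (|K| + 1) := by
      refine mul_le_mul h4 ?_ (abs_nonneg _) (by positivity)
      have := le_abs_self K
      linarith
    have h11 : |ρ.eval b| / 2 / (|K| + 1) * |x - b| ^ e * (|K| + 1) =
        |x - b| ^ e * (|ρ.eval b| / 2) := by
      field_simp
    rw [← h9, h11] at h10
    have h12 := le_of_mul_le_mul_left h10 hxpos
    linarith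
  have huniv : O = Set.univ := IsClopen.eq_univ ⟨hOcl, hOo⟩ hOne
  intro x
  have : x ∈ O := by rw [huniv]; trivial
  exact (interior_subset (s := {x | w x = 0}) this)

/-- A smooth function, algebraic on bounded intervals, with an additive quasi-period. -/
theorem affine_of_quasiperiod {f : ℝ → ℝ} (hf : ContDiff ℝ ∞ f) (hA : Alg f) {d k a b : ℝ}
    (hd : d ≠ 0) (hab : a < b) (h : ∀ x ∈ Set.Ioo a b, f (x + d) = f x + k) :
    ∃ α β : ℝ, ∀ x, f x = α * x + β := by
  have h1 : ∀ x, f (x + d) - f x - k = 0 := by
    have hs : ContDiff ℝ ∞ fun x => f (x + d) - f x - k :=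
      ((hf.comp (contDiff_id.add contDiff_const)).sub hf).sub contDiff_const
    have hAl : Alg fun x => f (x + d) - f x - k := by
      have := ((hA.shift d).add hA.neg).add (Alg.const (-k))
      simpa [sub_eq_add_neg] using this
    exact identity hs hAl hab fun x hx => by rw [h x hx]; ring
  let F : ℝ → ℝ := fun x => f x + (-(k / d)) * x
  have hFs : ContDiff ℝ ∞ F := hf.add (contDiff_const.mul contDiff_id)
  have hFA : Alg F := hA.add ((Alg.const (-(k / d))).mul Alg.id)
  have hFp : ∀ x, F (x + d) = F x := by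
    intro x
    have h2 : f (x + d) = f x + k := by linarith [h1 x]
    simp only [F]
    rw [h2]
    field_simp
    ring
  have hFp' : ∀ (n : ℕ) x, F (x + n * d) = F x := by
    intro n x
    induction n with
    | zero => simp
    | succ n ih =>
      rw [← ih, ← hFp (x + n * d)]
      congr 1; push_cast; ring
  obtain ⟨R, hR, hRz⟩ := hFA 1
  have hRall : ∀ x, evalEval x (F x) R = 0 :=
    identity (contDiff_evalEval hFs R) (hFA.evalEval R) (a := -1) (b := 1) (by norm_num)
      fun x hx => hRz x (by rw [abs_le]; push_cast; exact ⟨hx.1.le, hx.2.le⟩)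
  have hroot : ∀ x, R.eval (C (F x)) = 0 := by
    intro x
    refine Polynomial.eq_zero_of_infinite_isRoot _ ?_
    refine Set.infinite_of_injective_forall_mem (f := fun n : ℕ => x + n * d) ?_ ?_
    · intro n m hnm
      simp only [add_right_inj] at hnm
      exact_mod_cast mul_right_cancel₀ hd hnm
    · intro n
      have := hRall (x + n * d)
      rw [hFp'] at this
      exact this
  have hfin : (Set.range F).Finite := by
    have h2 : (Set.range fun x => (C (F x) : ℝ[X])).Finite := by
      refine (R.roots.toFinset.finite_toSet).subset ?_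
      rintro _ ⟨x, rfl⟩
      simp only [Finset.mem_coe, Multiset.mem_toFinset]
      rw [mem_roots hR]
      exact hroot x
    refine Set.Finite.of_finite_image (f := (C : ℝ → ℝ[X])) ?_ (C_injective.injOn)
    rwa [← Set.range_comp]
  have hsub : (Set.range F).Subsingleton := by
    by_contra hns
    rw [Set.not_subsingleton_iff] at hns
    exact ((isPreconnected_range hFs.continuous).infinite_of_nontrivial hns) hfin
  refine ⟨k / d, F 0, fun x => ?_⟩
  have := hsub ⟨x, rfl⟩ ⟨0, rfl⟩
  simp only [F] at this ⊢
  linarith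

end Pool.Agent.Q201.AS
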