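import Mathlib

set_option autoImplicit false

/-!
A generic back-and-forth lemma for countable types: a family of finite relations with the forth
and back properties, all of whose members are finite partial bijections, gives a bijection.
-/

namespace Q201.BF

open Classical

variable {V W : Type*}

/-- one step of the construction -/
theorem step [DecidableEq (V × W)] (R : Finset (V × W) → Prop)
    (forth : ∀ s, R s → ∀ v, ∃ w, R (insert (v, w) s))
    (back : ∀ s, R s → ∀ w, ∃ v, R (insert (v, w) s))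
    (ov : Option V) (ow : Option W) (s : Finset (V × W)) (hs : R s) :
    ∃ t, R t ∧ s ⊆ t ∧ (∀ v ∈ ov, ∃ w, (v, w) ∈ t) ∧ (∀ w ∈ ow, ∃ v, (v, w) ∈ t) := by
  have h1 : ∃ t, R t ∧ s ⊆ t ∧ (∀ v ∈ ov, ∃ w, (v, w) ∈ t) := by
    cases ov with
    | none => exact ⟨s, hs, Finset.Subset.refl _, by simp⟩
    | some v =>
      obtain ⟨w, hw⟩ := forth s hs v
      refine ⟨_, hw, Finset.subset_insert _ _, ?_⟩
      intro v' hv'
      simp only [Option.mem_def, Option.some.injEq] at hv'
      subst hv'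
      exact ⟨w, Finset.mem_insert_self _ _⟩
  obtain ⟨t, ht, hst, htv⟩ := h1
  cases ow with
  | none => exact ⟨t, ht, hst, htv, by simp⟩
  | some w =>
    obtain ⟨v, hv⟩ := back t ht w
    refine ⟨_, hv, hst.trans (Finset.subset_insert _ _), ?_, ?_⟩
    · intro v' hv'
      obtain ⟨w', hw'⟩ := htv v' hv'
      exact ⟨w', Finset.mem_insert_of_mem hw'⟩
    · intro w' hw'
      simp only [Option.mem_def, Option.some.injEq] at hw'
      subst hw'
      exact ⟨v, Finset.mem_insert_self _ _⟩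

/-- The back-and-forth lemma. -/
theorem backForth [Countable V] [Countable W] [DecidableEq (V × W)]
    (R : Finset (V × W) → Prop)
    (forth : ∀ s, R s → ∀ v, ∃ w, R (insert (v, w) s))
    (back : ∀ s, R s → ∀ w, ∃ v, R (insert (v, w) s))
    (inj : ∀ s, R s → ∀ p ∈ s, ∀ q ∈ s, (p.1 = q.1 ↔ p.2 = q.2))
    (s₀ : Finset (V × W)) (h₀ : R s₀) :
    ∃ e : V ≃ W, ∀ t : Finset V, ∃ s, R s ∧ s₀ ⊆ s ∧ (∀ v ∈ t, (v, e v) ∈ s) ∧
      (∀ p ∈ s, p.2 = e p.1) := by
  obtain ⟨iV⟩ := nonempty_encodable V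
  obtain ⟨iW⟩ := nonempty_encodable W
  choose g hg1 hg2 hg3 hg4 using fun (n : ℕ) (s : {s // R s}) =>
    step R forth back (iV.decode n) (iW.decode n) s.1 s.2
  let f : ℕ → {s // R s} := fun n => Nat.rec ⟨s₀, h₀⟩ (fun n s => ⟨g n s, hg1 n s⟩) n
  have hf0 : f 0 = ⟨s₀, h₀⟩ := rfl
  have hfs : ∀ n, f (n + 1) = ⟨g n (f n), hg1 n (f n)⟩ := fun n => rfl
  have hmono : Monotone (fun n => (f n).1) := by
    apply monotone_nat_of_le_succ
    intro n
    simp only [hfs]
    exact hg2 n (f n)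
  have hV : ∀ v : V, ∃ n w, (v, w) ∈ (f n).1 := by
    intro v
    refine ⟨iV.encode v + 1, ?_⟩
    rw [hfs]
    exact hg3 _ _ v (by simp [iV.encodek v])
  have hW : ∀ w : W, ∃ n v, (v, w) ∈ (f n).1 := by
    intro w
    refine ⟨iW.encode w + 1, ?_⟩
    rw [hfs]
    exact hg4 _ _ w (by simp [iW.encodek w])
  have hcompat : ∀ n m (p q : V × W), p ∈ (f n).1 → q ∈ (f m).1 → (p.1 = q.1 ↔ p.2 = q.2) := by
    intro n m p q hp hq
    exact inj _ (f (max n m)).2 p (hmono (le_max_left n m) hp) q (hmono (le_max_right n m) hq)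
  choose a F hF using hV
  choose b G hG using hW
  let e : V ≃ W :=
    { toFun := F
      invFun := G
      left_inv := fun v => ((hcompat _ _ _ _ (hF v) (hG (F v))).2 rfl).symm
      right_inv := fun w => ((hcompat _ _ _ _ (hG w) (hF (G w))).1 rfl).symm }
  refine ⟨e, fun t => ?_⟩
  have : ∃ N, ∀ v ∈ t, a v ≤ N := ⟨t.sup a, fun v hv => Finset.le_sup hv⟩
  obtain ⟨N, hN⟩ := this
  refine ⟨(f N).1, (f N).2, ?_, ?_, ?_⟩
  · have := hmono (Nat.zero_le N)
    simpa [hf0] using this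
  · intro v hv
    exact hmono (hN v hv) (hF v)
  · intro p hp
    exact (hcompat _ _ _ _ hp (hF p.1)).1 rfl

end Q201.BF
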