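import Mathlib

set_option autoImplicit false

/-!
Small library of computability lemmas: bounded sums, bounded quantifiers, unbounded search,
powers of two, binary digits, and a computable injective function with noncomputable range.
-/

namespace Q201.Comp

open Nat.Partrec Computable

variable {α β : Type*} [Primcodable α] [Primcodable β]

theorem sum {F : α → ℕ → ℕ} (hF : Computable₂ F) {n : α → ℕ} (hn : Computable n) :
    Computable (fun a => ∑ i ∈ Finset.range (n a), F a i) := by
  have h1 : Computable (fun a => Nat.rec (motive := fun _ => ℕ) 0
      (fun i acc => acc + F a i) (n a)) := by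
    refine Computable.nat_rec (h := fun a p => p.2 + F a p.1) hn (Computable.const 0) ?_
    have h3 : Computable (fun q : α × (ℕ × ℕ) => q.2.2) :=
      Computable.snd.comp Computable.snd
    have h4 : Computable (fun q : α × (ℕ × ℕ) => F q.1 q.2.1) :=
      hF.comp Computable.fst (Computable.fst.comp Computable.snd)
    exact (Primrec.nat_add.to_comp.comp h3 h4)
  refine h1.of_eq (fun a => ?_)
  induction n a with
  | zero => simp
  | succ k ih => rw [Finset.sum_range_succ, ← ih]

theorem bool_sum_zero {N : ℕ} {f : ℕ → Bool} :
    (∑ i ∈ Finset.range N, (f i).toNat = 0) ↔ ∀ i < N, f i = false := by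
  rw [Finset.sum_eq_zero_iff]
  constructor
  · intro h i hi
    have := h i (Finset.mem_range.2 hi)
    cases hfi : f i <;> simp_all
  · intro h i hi
    rw [h i (Finset.mem_range.1 hi)]; rfl

theorem toNat : Computable Bool.toNat := (Primrec.dom_finite _).to_comp

theorem eqZero : Computable (fun n : ℕ => decide (n = 0)) := by
  have : PrimrecPred (fun n : ℕ => n = 0) := Primrec.eq.comp Primrec.id (Primrec.const 0)
  obtain ⟨_, h⟩ := this
  exact (h.to_comp).of_eq (fun n => by congr)

theorem not : Computable Bool.not := (Primrec.dom_finite _).to_comp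

theorem and2 {f g : α → Bool} (hf : Computable f) (hg : Computable g) :
    Computable (fun a => f a && g a) :=
  (Primrec.and.to_comp.comp hf hg)

theorem or2 {f g : α → Bool} (hf : Computable f) (hg : Computable g) :
    Computable (fun a => f a || g a) :=
  (Primrec.or.to_comp.comp hf hg)

theorem not1 {f : α → Bool} (hf : Computable f) : Computable (fun a => !(f a)) := not.comp hf

theorem xor2 {f g : α → Bool} (hf : Computable f) (hg : Computable g) :
    Computable (fun a => xor (f a) (g a)) := by
  have h : Computable (fun p : Bool × Bool => xor p.1 p.2) := (Primrec.dom_finite _).to_comp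
  exact h.comp (hf.pair hg)

/-- bounded universal quantifier -/
theorem ball {P : α → ℕ → Bool} (hP : Computable₂ P) {n : α → ℕ} (hn : Computable n) :
    Computable (fun a => decide (∀ i < n a, P a i = true)) := by
  have h1 : Computable (fun a => ∑ i ∈ Finset.range (n a), (!(P a i)).toNat) := by
    refine sum (F := fun a i => (!(P a i)).toNat) ?_ hn
    exact toNat.comp (not.comp hP)
  refine (eqZero.comp h1).of_eq (fun a => ?_)
  apply decide_eq_decide.2
  rw [bool_sum_zero (f := fun i => !(P a i))]
  simp

/-- bounded existential quantifier -/
theorem bex {P : α → ℕ → Bool} (hP : Computable₂ P) {n : α → ℕ} (hn : Computable n) :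
    Computable (fun a => decide (∃ i < n a, P a i = true)) := by
  have h1 := not.comp (ball (P := fun a i => !(P a i)) (not.comp hP) hn)
  refine h1.of_eq (fun a => ?_)
  rw [Bool.not_eq_eq_eq_not, ← decide_not]
  apply decide_eq_decide.2
  push Not
  simp

theorem lt2 {f g : α → ℕ} (hf : Computable f) (hg : Computable g) :
    Computable (fun a => decide (f a < g a)) := by
  obtain ⟨_, h⟩ := Primrec.nat_lt
  exact ((h.to_comp).comp (hf.pair hg)).of_eq (fun n => by congr)

theorem le2 {f g : α → ℕ} (hf : Computable f) (hg : Computable g) :
    Computable (fun a => decide (f a ≤ g a)) := by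
  obtain ⟨_, h⟩ := Primrec.nat_le
  exact ((h.to_comp).comp (hf.pair hg)).of_eq (fun n => by congr)

theorem eq2 [DecidableEq β] {f g : α → β} (hf : Computable f) (hg : Computable g) :
    Computable (fun a => decide (f a = g a)) := by
  obtain ⟨_, h⟩ := (Primrec.eq (α := β))
  exact ((h.to_comp).comp (hf.pair hg)).of_eq (fun n => by congr)

theorem ite {c : α → Bool} {f g : α → β} (hc : Computable c) (hf : Computable f)
    (hg : Computable g) : Computable (fun a => if c a = true then f a else g a) :=
  (Computable.cond hc hf hg).of_eq (fun a => by cases c a <;> rfl)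

theorem add2 {f g : α → ℕ} (hf : Computable f) (hg : Computable g) :
    Computable (fun a => f a + g a) := Primrec.nat_add.to_comp.comp hf hg

theorem sub2 {f g : α → ℕ} (hf : Computable f) (hg : Computable g) :
    Computable (fun a => f a - g a) := Primrec.nat_sub.to_comp.comp hf hg

theorem mul2 {f g : α → ℕ} (hf : Computable f) (hg : Computable g) :
    Computable (fun a => f a * g a) := Primrec.nat_mul.to_comp.comp hf hg

theorem div2 {f g : α → ℕ} (hf : Computable f) (hg : Computable g) :
    Computable (fun a => f a / g a) := Primrec.nat_div.to_comp.comp hf hg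

theorem mod2 {f g : α → ℕ} (hf : Computable f) (hg : Computable g) :
    Computable (fun a => f a % g a) := Primrec.nat_mod.to_comp.comp hf hg

theorem max2 {f g : α → ℕ} (hf : Computable f) (hg : Computable g) :
    Computable (fun a => max (f a) (g a)) := Primrec.nat_max.to_comp.comp hf hg

theorem succ1 {f : α → ℕ} (hf : Computable f) : Computable (fun a => f a + 1) :=
  Computable.succ.comp hf

theorem pow2 {f g : α → ℕ} (hf : Computable f) (hg : Computable g) :
    Computable (fun a => f a ^ g a) := by
  have h1 : Computable (fun a => Nat.rec (motive := fun _ => ℕ) 1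
      (fun _ acc => acc * f a) (g a)) := by
    refine Computable.nat_rec (h := fun a p => p.2 * f a) hg (Computable.const 1) ?_
    exact mul2 (Computable.snd.comp Computable.snd) (hf.comp Computable.fst)
  refine h1.of_eq (fun a => ?_)
  induction g a with
  | zero => simp
  | succ k ih => rw [pow_succ, ← ih]

theorem testBit {f g : α → ℕ} (hf : Computable f) (hg : Computable g) :
    Computable (fun a => (f a).testBit (g a)) := by
  have h := eq2 (mod2 (div2 hf (pow2 (Computable.const 2) hg)) (Computable.const 2))
    (Computable.const (α := α) 1)
  refine h.of_eq (fun a => ?_)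
  rw [Nat.testBit_eq_decide_div_mod_eq]

/-- unbounded search -/
theorem search {P : α → ℕ → Bool} (hP : Computable₂ P) {g : α → ℕ}
    (hg : ∀ a, P a (g a) = true) (hm : ∀ a k, k < g a → P a k = false) : Computable g := by
  have h1 : Partrec (fun a => Nat.rfind (fun k => (Part.some (P a k) : Part Bool))) :=
    Partrec.rfind (p := fun a k => (Part.some (P a k) : Part Bool)) hP
  refine h1.of_eq_tot (fun a => ?_)
  refine Nat.mem_rfind.2 ⟨?_, ?_⟩
  · rw [hg]; simp
  · intro k hk
    rw [hm a k hk]; simp

/-- unbounded search for a number with a property which holds somewhere -/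
theorem search_ex {P : α → ℕ → Bool} (hP : Computable₂ P) (hex : ∀ a, ∃ k, P a k = true) :
    ∃ g : α → ℕ, Computable g ∧ ∀ a, P a (g a) = true := by
  classical
  refine ⟨fun a => Nat.find (hex a), ?_, fun a => Nat.find_spec (hex a)⟩
  refine search hP (fun a => Nat.find_spec (hex a)) ?_
  intro a k hk
  have := Nat.find_min (hex a) hk
  simpa using this

/-- A computable injective function with noncomputable range. -/
theorem exists_injective_noncomputable_range :
    ∃ g : ℕ → ℕ, Computable g ∧ Function.Injective g ∧
      ¬ ComputablePred (fun x => x ∈ Set.range g) := by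
  -- stage function
  let f : ℕ → ℕ := fun k =>
    if (Code.evaln k.unpair.1 (Denumerable.ofNat Code k.unpair.2) 0).isSome = true
    then k.unpair.2 + 1 else 0
  have hf : Computable f := by
    have h1 : Computable (fun k : ℕ =>
        Code.evaln k.unpair.1 (Denumerable.ofNat Code k.unpair.2) 0) := by
      have h2 : Primrec (fun k : ℕ =>
        Code.evaln k.unpair.1 (Denumerable.ofNat Code k.unpair.2) 0) :=
        Code.primrec_evaln.comp (((Primrec.fst.comp Primrec.unpair).pair
          ((Primrec.ofNat Code).comp (Primrec.snd.comp Primrec.unpair))).pair (Primrec.const 0))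
      exact h2.to_comp
    have h3 : Computable (fun k : ℕ =>
        (Code.evaln k.unpair.1 (Denumerable.ofNat Code k.unpair.2) 0).isSome) :=
      Primrec.option_isSome.to_comp.comp h1
    exact ite h3 (succ1 (Computable.snd.comp Computable.unpair)) (Computable.const 0)
  have hrange : ∀ c : Code, (c.eval 0).Dom ↔ ∃ k, f k = Encodable.encode c + 1 := by
    intro c
    constructor
    · intro h
      rw [Part.dom_iff_mem] at h
      obtain ⟨y, hy⟩ := h
      rw [Code.evaln_complete] at hy
      obtain ⟨s, hs⟩ := hy
      refine ⟨Nat.pair s (Encodable.encode c), ?_⟩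
      simp only [f, Nat.unpair_pair, Denumerable.ofNat_encode]
      have h2 : Code.evaln s c 0 = some y := hs
      rw [h2]
      simp
    · rintro ⟨k, hk⟩
      simp only [f] at hk
      split_ifs at hk with h
      · have h4 : k.unpair.2 = Encodable.encode c := by omega
        rw [h4, Denumerable.ofNat_encode] at h
        rw [Option.isSome_iff_exists] at h
        obtain ⟨y, hy⟩ := h
        rw [Part.dom_iff_mem]
        exact ⟨y, Code.evaln_sound hy⟩
  let g : ℕ → ℕ := fun k => if decide (∃ j < k, decide (f j = f k) = true) = true
    then 2 * k + 1 else 2 * f k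
  have hg : Computable g := by
    refine ite ?_ (succ1 (mul2 (Computable.const 2) Computable.id)) (mul2 (Computable.const 2) hf)
    refine bex (P := fun k j => decide (f j = f k)) ?_ Computable.id
    exact eq2 (hf.comp Computable.snd) (hf.comp Computable.fst)
  have hgodd : ∀ k, (∃ j < k, f j = f k) → g k = 2 * k + 1 := by
    intro k hk
    simp only [g, decide_eq_true_eq]
    rw [if_pos hk]
  have hgev : ∀ k, (¬ ∃ j < k, f j = f k) → g k = 2 * f k := by
    intro k hk
    simp only [g, decide_eq_true_eq]
    rw [if_neg hk]
  refine ⟨g, hg, ?_, ?_⟩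
  · intro a b hab
    by_cases ha : ∃ j < a, f j = f a
    · rw [hgodd a ha] at hab
      by_cases hb : ∃ j < b, f j = f b
      · rw [hgodd b hb] at hab; omega
      · rw [hgev b hb] at hab; omega
    · rw [hgev a ha] at hab
      by_cases hb : ∃ j < b, f j = f b
      · rw [hgodd b hb] at hab; omega
      · rw [hgev b hb] at hab
        have h5 : f a = f b := by omega
        rcases lt_trichotomy a b with h | h | h
        · exact absurd ⟨a, h, h5⟩ hb
        · exact h
        · exact absurd ⟨b, h, h5.symm⟩ ha
  · intro hcomp
    have hr : ∀ c : Code, (c.eval 0).Dom ↔ 2 * (Encodable.encode c + 1) ∈ Set.range g := by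
      intro c
      rw [hrange]
      constructor
      · intro h
        classical
        have h6 := Nat.find_spec h
        refine ⟨Nat.find h, ?_⟩
        rw [hgev, h6]
        rintro ⟨j, hj, hj2⟩
        exact Nat.find_min h hj (by rw [hj2, h6])
      · rintro ⟨k, hk⟩
        by_cases hb : ∃ j < k, f j = f k
        · rw [hgodd k hb] at hk; omega
        · rw [hgev k hb] at hk
          exact ⟨k, by omega⟩
    apply ComputablePred.halting_problem 0
    have h7 : Computable (fun c : Code => 2 * (Encodable.encode c + 1)) :=
      mul2 (Computable.const 2) (succ1 Computable.encode)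
    have h8 := ComputablePred.of_eq (p := fun c : Code => 2 * (Encodable.encode c + 1) ∈ Set.range g)
      (q := fun c : Code => (c.eval 0).Dom) ?_ (fun c => (hr c).symm)
    · exact h8
    · obtain ⟨_, h9⟩ := hcomp
      exact ⟨fun c => inferInstance, h9.comp h7⟩

end Q201.Comp
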