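import Mathlib
import Pool.Agent.Q200.DOAG

/-!
# Definable subsets and definable closure in divisible ordered abelian groups
-/

namespace Q201.DOAGC

open FirstOrder FirstOrder.Language Q200.DOAG

variable {G : Type*} [AddCommGroup G] [LinearOrder G] [IsOrderedAddMonoid G]

attribute [local instance] ogStructure

/-- Splitting off the free variable of a form. -/
theorem split1 {A : Type*} (l : ((A ⊕ Fin 1) ⊕ Fin 0) →₀ ℤ) :
    ∃ (l' : A →₀ ℤ) (m : ℤ), ∀ (f : A → G) (x : G) (d : Fin 0 → G),
      ev l (Sum.elim (Sum.elim f fun _ => x) d) = ev l' f + m • x := by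
  induction l using Finsupp.induction_linear with
  | zero => exact ⟨0, 0, fun f x d => by simp [ev]⟩
  | add l l' h h' =>
    obtain ⟨a, m, h⟩ := h
    obtain ⟨a', m', h'⟩ := h'
    refine ⟨a + a', m + m', fun f x d => ?_⟩
    rw [ev_add, h, h', add_smul, ev_add]
    abel
  | single i c =>
    rcases i with (g | j) | j
    · refine ⟨Finsupp.single g c, 0, fun f x d => ?_⟩
      simp [ev_single]
    · exact ⟨0, c, fun f x d => by simp [ev]⟩
    · exact j.elim0

/-- Truth of a formula depends on finitely many signs of affine forms. -/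
theorem finite_signs [Nontrivial G] (hdiv : ∀ (m : ℤ), m ≠ 0 → ∀ g : G, ∃ h : G, m • h = g)
    {A : Type*} (φ : Log.Formula (A ⊕ Fin 1)) :
    ∃ Λ : Finset ((A →₀ ℤ) × ℤ), ∀ (f f' : A → G) (x x' : G),
      (∀ q ∈ Λ, (0 < ev q.1 f + q.2 • x ↔ 0 < ev q.1 f' + q.2 • x') ∧
        (ev q.1 f + q.2 • x < 0 ↔ ev q.1 f' + q.2 • x' < 0)) →
      (φ.Realize (Sum.elim f fun _ => x) ↔ φ.Realize (Sum.elim f' fun _ => x')) := by
  classical
  obtain ⟨Λ, hΛ⟩ := qe (G := G) hdiv φ
  choose a m ham using split1 (G := G) (A := A)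
  refine ⟨Λ.image (fun l => (a l, m l)), fun f f' x x' h => ?_⟩
  refine hΛ _ _ _ _ ?_
  intro l hl
  rw [ham, ham]
  exact h (a l, m l) (Finset.mem_image_of_mem _ hl)

/-- Truth of a formula at `x` depends on the position of `x` with respect to finitely many
points which are rational combinations of the parameters. -/
theorem finite_points [Nontrivial G] (hdiv : ∀ (m : ℤ), m ≠ 0 → ∀ g : G, ∃ h : G, m • h = g)
    {A : Type*} (φ : Log.Formula (A ⊕ Fin 1)) (f : A → G) :
    ∃ P : Finset G, (∀ p ∈ P, ∃ (m : ℤ) (l : A →₀ ℤ), m ≠ 0 ∧ m • p = ev l f) ∧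
      ∀ x y : G, (∀ p ∈ P, (p < x ↔ p < y) ∧ (x < p ↔ y < p)) →
        (φ.Realize (Sum.elim f fun _ => x) ↔ φ.Realize (Sum.elim f fun _ => y)) := by
  classical
  obtain ⟨Λ, hΛ⟩ := finite_signs (G := G) hdiv φ
  have hp : ∀ q : (A →₀ ℤ) × ℤ, ∃ p : G, q.2 ≠ 0 → q.2 • p = - ev q.1 f := by
    intro q
    by_cases h : q.2 = 0
    · exact ⟨0, fun h' => absurd h h'⟩
    · obtain ⟨p, hp⟩ := hdiv q.2 h (- ev q.1 f)
      exact ⟨p, fun _ => hp⟩
  choose p hp using hp
  refine ⟨(Λ.filter (fun q => q.2 ≠ 0)).image p, ?_, fun x y hxy => ?_⟩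
  · intro z hz
    simp only [Finset.mem_image, Finset.mem_filter] at hz
    obtain ⟨q, ⟨_, hq⟩, rfl⟩ := hz
    exact ⟨q.2, -q.1, hq, by rw [hp q hq, ev_neg]⟩
  · refine hΛ f f x y fun q hq => ?_
    by_cases hm : q.2 = 0
    · rw [hm, zero_smul, zero_smul]
      exact ⟨Iff.rfl, Iff.rfl⟩
    · have hz := hxy (p q) (Finset.mem_image_of_mem _ (Finset.mem_filter.mpr ⟨hq, hm⟩))
      have e1 : ∀ z : G, ev q.1 f + q.2 • z = q.2 • (z - p q) := by
        intro z
        rw [smul_sub, hp q hm]; abel
      rw [e1, e1, (zsmul_pos_iff' hm _).1, (zsmul_pos_iff' hm _).1, (zsmul_pos_iff' hm _).2,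
        (zsmul_pos_iff' hm _).2]
      simp only [sub_pos, sub_neg]
      rw [hz.1, hz.2]
      exact ⟨Iff.rfl, Iff.rfl⟩

theorem exists_pos [Nontrivial G] : ∃ e : G, 0 < e := by
  obtain ⟨a, ha⟩ := exists_ne (0 : G)
  rcases lt_or_gt_of_ne ha with h | h
  · exact ⟨-a, by simpa using h⟩
  · exact ⟨a, h⟩

theorem noMax [Nontrivial G] : NoMaxOrder G := by
  obtain ⟨e, he⟩ := exists_pos (G := G)
  exact ⟨fun a => ⟨a + e, by simpa using he⟩⟩

theorem noMin [Nontrivial G] : NoMinOrder G := by
  obtain ⟨e, he⟩ := exists_pos (G := G)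
  exact ⟨fun a => ⟨a - e, by simpa using he⟩⟩

theorem dense (hdiv : ∀ (m : ℤ), m ≠ 0 → ∀ g : G, ∃ h : G, m • h = g) : DenselyOrdered G := by
  refine ⟨fun a b hab => ?_⟩
  obtain ⟨c, hc⟩ := hdiv 2 (by norm_num) (b - a)
  have hc' : 0 < c := by
    by_contra hcc
    have : (2 : ℤ) • c ≤ 0 := smul_nonpos_of_nonneg_of_nonpos (by norm_num) (not_lt.mp hcc)
    rw [hc] at this
    exact absurd hab (not_lt.mpr (sub_nonpos.mp this))
  refine ⟨a + c, by simpa using hc', ?_⟩
  have : b = a + c + c := by
    have : (2 : ℤ) • c = c + c := two_zsmul c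
    rw [this] at hc
    rw [add_assoc, hc]; abel
  rw [this]
  simpa using hc'

/-- Elements of the definable closure are rational combinations. -/
theorem dcl_form [Nontrivial G] (hdiv : ∀ (m : ℤ), m ≠ 0 → ∀ g : G, ∃ h : G, m • h = g)
    {A : Set G} {e : G} (he : A.Definable₁ Log ({e} : Set G)) :
    ∃ (m : ℤ) (l : A →₀ ℤ), m ≠ 0 ∧ m • e = ev l (Subtype.val : A → G) := by
  classical
  rw [Set.Definable₁, Set.definable_iff_exists_formula_sum] at he
  obtain ⟨φ, hφ⟩ := he
  obtain ⟨P, hP, hφP⟩ := finite_points (G := G) hdiv φ (Subtype.val : A → G)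
  by_cases heP : e ∈ P
  · exact hP e heP
  · exfalso
    have := noMax (G := G)
    have := noMin (G := G)
    have := dense hdiv
    obtain ⟨y, h1, h2⟩ := Order.exists_between_finsets (P.filter (fun p => p < e))
      (insert e (P.filter (fun p => e < p))) (by
        intro x hx z hz
        simp only [Finset.mem_filter, Finset.mem_insert] at hx hz
        rcases hz with rfl | hz
        · exact hx.2
        · exact hx.2.trans hz.2)
    have hr : ∀ x : G, x = e ↔ φ.Realize (Sum.elim Subtype.val (fun _ : Fin 1 => x)) := by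
      intro x
      have := Set.ext_iff.mp hφ (fun _ => x)
      simpa using this
    have hye : y < e := h2 e (Finset.mem_insert_self _ _)
    have hpos : ∀ p ∈ P, (p < e ↔ p < y) ∧ (e < p ↔ y < p) := by
      intro p hp
      rcases lt_trichotomy p e with h | h | h
      · have h3 := h1 p (Finset.mem_filter.mpr ⟨hp, h⟩)
        exact ⟨⟨fun _ => h3, fun _ => h⟩, ⟨fun hh => absurd hh (not_lt.mpr h.le),
          fun hh => absurd hh (not_lt.mpr h3.le)⟩⟩
      · exact absurd (h ▸ hp) heP
      · have h3 := h2 p (Finset.mem_insert_of_mem (Finset.mem_filter.mpr ⟨hp, h⟩))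
        exact ⟨⟨fun hh => absurd hh (not_lt.mpr h.le),
          fun hh => absurd hh (not_lt.mpr h3.le)⟩, ⟨fun _ => h3, fun _ => h⟩⟩
    have h4 := (hφP e y hpos).mp ((hr e).mp rfl)
    exact absurd ((hr y).mpr h4) hye.ne

/-- The set of points in the same position as `x` with respect to the finite set `P`. -/
def posClass (P : Finset G) (x : G) : Set G := {y | ∀ p ∈ P, (p < x ↔ p < y) ∧ (x < p ↔ y < p)}

omit [AddCommGroup G] [IsOrderedAddMonoid G] in
/-- Position classes are points or open intervals. -/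
theorem posClass_cases (P : Finset G) (x : G) :
    posClass P x = {x} ∨ (∃ a b, posClass P x = {y | a < y ∧ y < b}) ∨
      (∃ a, posClass P x = {y | a < y}) ∨ (∃ b, posClass P x = {y | y < b}) ∨
      posClass P x = Set.univ := by
  classical
  by_cases hx : x ∈ P
  · left
    ext y
    constructor
    · intro hy
      have := hy x hx
      simp only [lt_irrefl, false_iff, not_lt] at this
      exact le_antisymm this.1 this.2
    · rintro rfl
      exact fun p _ => ⟨Iff.rfl, Iff.rfl⟩
  · right
    have hmem : ∀ y, y ∈ posClass P x ↔ (∀ p ∈ P.filter (fun p => p < x), p < y) ∧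
        (∀ p ∈ P.filter (fun p => x < p), y < p) := by
      intro y
      constructor
      · intro h
        refine ⟨fun p hp => ?_, fun p hp => ?_⟩
        · rw [Finset.mem_filter] at hp
          exact (h p hp.1).1.mp hp.2
        · rw [Finset.mem_filter] at hp
          exact (h p hp.1).2.mp hp.2
      · rintro ⟨h1, h2⟩ p hp
        rcases lt_trichotomy p x with h | h | h
        · have h3 := h1 p (Finset.mem_filter.mpr ⟨hp, h⟩)
          exact ⟨⟨fun _ => h3, fun _ => h⟩, ⟨fun hh => absurd hh (not_lt.mpr h.le),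
            fun hh => absurd hh (not_lt.mpr h3.le)⟩⟩
        · exact absurd (h ▸ hp) hx
        · have h3 := h2 p (Finset.mem_filter.mpr ⟨hp, h⟩)
          exact ⟨⟨fun hh => absurd hh (not_lt.mpr h.le),
            fun hh => absurd hh (not_lt.mpr h3.le)⟩, ⟨fun _ => h3, fun _ => h⟩⟩
    by_cases h1 : (P.filter (fun p => p < x)).Nonempty
    · obtain ⟨a, ha, ha'⟩ := Finset.exists_max_image _ id h1
      have e1 : ∀ y, (∀ p ∈ P.filter (fun p => p < x), p < y) ↔ a < y :=
        fun y => ⟨fun h => h a ha, fun h p hp => lt_of_le_of_lt (ha' p hp) h⟩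
      by_cases h2 : (P.filter (fun p => x < p)).Nonempty
      · obtain ⟨b, hb, hb'⟩ := Finset.exists_min_image _ id h2
        have e2 : ∀ y, (∀ p ∈ P.filter (fun p => x < p), y < p) ↔ y < b :=
          fun y => ⟨fun h => h b hb, fun h p hp => lt_of_lt_of_le h (hb' p hp)⟩
        left
        refine ⟨a, b, ?_⟩
        ext y
        rw [hmem, e1, e2]
        rfl
      · right; left
        refine ⟨a, ?_⟩
        ext y
        rw [hmem, e1, Finset.not_nonempty_iff_eq_empty.mp h2]
        simp
    · by_cases h2 : (P.filter (fun p => x < p)).Nonempty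
      · obtain ⟨b, hb, hb'⟩ := Finset.exists_min_image _ id h2
        have e2 : ∀ y, (∀ p ∈ P.filter (fun p => x < p), y < p) ↔ y < b :=
          fun y => ⟨fun h => h b hb, fun h p hp => lt_of_lt_of_le h (hb' p hp)⟩
        right; right; left
        refine ⟨b, ?_⟩
        ext y
        rw [hmem, e2, Finset.not_nonempty_iff_eq_empty.mp h1]
        simp
      · right; right; right
        ext y
        rw [hmem, Finset.not_nonempty_iff_eq_empty.mp h1, Finset.not_nonempty_iff_eq_empty.mp h2]
        simp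

/-- A definable subset is a finite union of position classes. -/
theorem definable_union [Nontrivial G]
    (hdiv : ∀ (m : ℤ), m ≠ 0 → ∀ g : G, ∃ h : G, m • h = g) (S : Set G)
    (hS : (Set.univ : Set G).Definable₁ Log S) :
    ∃ (P : Finset G) (F : Set (Set G)), F.Finite ∧ (∀ C ∈ F, ∃ x, C = posClass P x) ∧
      S = ⋃₀ F := by
  classical
  rw [Set.Definable₁, Set.definable_iff_exists_formula_sum] at hS
  obtain ⟨φ, hφ⟩ := hS
  obtain ⟨P, -, hφP⟩ := finite_points (G := G) hdiv φ (Subtype.val : ↥(Set.univ : Set G) → G)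
  have hr : ∀ x : G, x ∈ S ↔ φ.Realize (Sum.elim Subtype.val (fun _ : Fin 1 => x)) := by
    intro x
    have := Set.ext_iff.mp hφ (fun _ => x)
    simpa using this
  refine ⟨P, posClass P '' S, ?_, ?_, ?_⟩
  · have : (Set.range (posClass P)).Finite := by
      let c : G → Finset G × Finset G := fun x => (P.filter (fun p => p < x),
        P.filter (fun p => x < p))
      have hc : ∀ x y, c x = c y → posClass P x = posClass P y := by
        intro x y h
        have h1 : P.filter (fun p => p < x) = P.filter (fun p => p < y) := congrArg Prod.fst h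
        have h2 : P.filter (fun p => x < p) = P.filter (fun p => y < p) := congrArg Prod.snd h
        have k1 : ∀ p ∈ P, (p < x ↔ p < y) := fun p hp => by
          have := Finset.ext_iff.mp h1 p
          simpa [hp] using this
        have k2 : ∀ p ∈ P, (x < p ↔ y < p) := fun p hp => by
          have := Finset.ext_iff.mp h2 p
          simpa [hp] using this
        ext z
        constructor
        · intro hz p hp
          rw [← k1 p hp, ← k2 p hp]
          exact hz p hp
        · intro hz p hp
          rw [k1 p hp, k2 p hp]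
          exact hz p hp
      have hfin : (Set.range c).Finite := by
        refine Set.Finite.subset ((P.powerset ×ˢ P.powerset).finite_toSet) ?_
        rintro _ ⟨x, rfl⟩
        simp only [Finset.coe_product, Set.mem_prod, Finset.mem_coe, Finset.mem_powerset, c]
        exact ⟨Finset.filter_subset _ _, Finset.filter_subset _ _⟩
      choose! r hr using fun (y : Finset G × Finset G) (hy : y ∈ Set.range c) => hy
      refine (hfin.image (fun y => posClass P (r y))).subset ?_
      rintro _ ⟨x, rfl⟩
      exact ⟨c x, ⟨x, rfl⟩, hc _ _ (hr (c x) ⟨x, rfl⟩)⟩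
    exact this.subset (Set.image_subset_range _ _)
  · rintro _ ⟨x, _, rfl⟩
    exact ⟨x, rfl⟩
  · ext y
    constructor
    · intro hy
      exact ⟨posClass P y, ⟨y, hy, rfl⟩, fun p _ => ⟨Iff.rfl, Iff.rfl⟩⟩
    · rintro ⟨_, ⟨x, hx, rfl⟩, hy⟩
      rw [hr] at hx ⊢
      exact (hφP x y hy).mp hx

end Q201.DOAGC
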