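import Mathlib
import Pool.Agent.Q200.DOAG

/-!
# Models of the theory of divisible ordered abelian groups

Every model of the complete theory of `(ℚ, +, -, 0, <)` is a nontrivial divisible ordered abelian
group with its standard structure.
-/

namespace Q201.DOAGM

open FirstOrder FirstOrder.Language FirstOrder.Language.Structure Q200.DOAG

universe u

/-- The complete theory of the ordered group of rational numbers. -/
def Tq : Log.Theory :=
  letI := ogStructure ℚ
  Log.completeTheory ℚ

def zeroS : Log.Functions 0 := OgFn.zero
def negS : Log.Functions 1 := OgFn.neg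
def addS : Log.Functions 2 := OgFn.add
def ltS : Log.Relations 2 := LtRel.lt

/-- The term `0`. -/
def tzero {β : Type*} : Log.Term β := Constants.term zeroS
/-- The term `-t`. -/
def tneg {β : Type*} (t : Log.Term β) : Log.Term β := negS.apply₁ t
/-- The term `s + t`. -/
def tadd {β : Type*} (s t : Log.Term β) : Log.Term β := addS.apply₂ s t
/-- The term `t + ... + t`. -/
def tmul {β : Type*} : ℕ → Log.Term β → Log.Term β
  | 0, _ => tzero
  | n + 1, t => tadd (tmul n t) t
/-- The formula `s < t`. -/
def flt {β : Type*} {n : ℕ} (s t : Log.Term (β ⊕ Fin n)) : Log.BoundedFormula β n :=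
  ltS.boundedFormula₂ s t

section og
variable {G : Type*} [AddCommGroup G] [LinearOrder G]

attribute [local instance] ogStructure

theorem og_tzero {β : Type*} (v : β → G) : (tzero : Log.Term β).realize v = 0 := rfl
theorem og_tneg {β : Type*} (t : Log.Term β) (v : β → G) : (tneg t).realize v = - t.realize v := rfl
theorem og_tadd {β : Type*} (s t : Log.Term β) (v : β → G) :
    (tadd s t).realize v = s.realize v + t.realize v := rfl
theorem og_tmul {β : Type*} (n : ℕ) (t : Log.Term β) (v : β → G) :
    (tmul n t).realize v = n • t.realize v := by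
  induction n with
  | zero => rw [zero_smul]; rfl
  | succ n ih => rw [succ_nsmul, ← ih]; rfl
theorem og_flt {β : Type*} {n : ℕ} (s t : Log.Term (β ⊕ Fin n)) (v : β → G) (xs : Fin n → G) :
    (flt s t).Realize v xs ↔ s.realize (Sum.elim v xs) < t.realize (Sum.elim v xs) := Iff.rfl

end og

/-- Universal closures of formulas true in `ℚ` hold in all models of the theory. -/
theorem transfer {U : Type u} [Log.Structure U] [U ⊨ Tq] {n : ℕ}
    (φ : Log.BoundedFormula Empty n)
    (h : ∀ (v : Empty → ℚ) (xs : Fin n → ℚ),
      @BoundedFormula.Realize Log ℚ (ogStructure ℚ) Empty n φ v xs)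
    (xs : Fin n → U) : φ.Realize (Empty.elim : Empty → U) xs := by
  have hm : φ.alls ∈ Tq := by
    let _ := ogStructure ℚ
    change ℚ ⊨ φ.alls
    rw [Sentence.Realize, BoundedFormula.realize_alls]
    exact h _
  have h2 := Theory.realize_sentence_of_mem (M := U) Tq hm
  rw [Sentence.Realize, BoundedFormula.realize_alls] at h2
  rw [Subsingleton.elim (Empty.elim : Empty → U) default]
  exact h2 xs

section model
variable {U : Type u} [Log.Structure U]

def uadd (x y : U) : U := funMap addS ![x, y]
def uzero : U := funMap zeroS ![]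
def uneg (x : U) : U := funMap negS ![x]
def ult (x y : U) : Prop := RelMap ltS ![x, y]

theorem r_tzero {β : Type*} (v : β → U) : (tzero : Log.Term β).realize v = uzero := by
  unfold tzero uzero
  rw [Term.realize_constants]
  rfl
theorem r_tneg {β : Type*} (t : Log.Term β) (v : β → U) :
    (tneg t).realize v = uneg (t.realize v) := by
  unfold tneg uneg
  rw [Term.realize_functions_apply₁]
theorem r_tadd {β : Type*} (s t : Log.Term β) (v : β → U) :
    (tadd s t).realize v = uadd (s.realize v) (t.realize v) := by
  unfold tadd uadd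
  rw [Term.realize_functions_apply₂]
theorem r_flt {β : Type*} {n : ℕ} (s t : Log.Term (β ⊕ Fin n)) (v : β → U) (xs : Fin n → U) :
    (flt s t).Realize v xs ↔ ult (s.realize (Sum.elim v xs)) (t.realize (Sum.elim v xs)) := by
  unfold flt ult
  rw [BoundedFormula.realize_rel₂]

variable [U ⊨ Tq]

theorem add_assoc' (x y z : U) : uadd (uadd x y) z = uadd x (uadd y z) := by
  have := transfer (U := U) (n := 3) (tadd (tadd (&0) (&1)) (&2) =' tadd (&0) (tadd (&1) (&2)))
    (fun v xs => by
      let _ := ogStructure ℚ
      change (xs 0 + xs 1) + xs 2 = xs 0 + (xs 1 + xs 2)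
      ring) ![x, y, z]
  simpa [r_tadd] using this

theorem add_comm' (x y : U) : uadd x y = uadd y x := by
  have := transfer (U := U) (n := 2) (tadd (&0) (&1) =' tadd (&1) (&0))
    (fun v xs => by
      let _ := ogStructure ℚ
      change xs 0 + xs 1 = xs 1 + xs 0
      ring) ![x, y]
  simpa [r_tadd] using this

theorem zero_add' (x : U) : uadd uzero x = x := by
  have := transfer (U := U) (n := 1) (tadd tzero (&0) =' (&0))
    (fun v xs => by
      let _ := ogStructure ℚ
      change 0 + xs 0 = xs 0
      ring) ![x]
  simpa [r_tadd, r_tzero] using this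

theorem neg_add' (x : U) : uadd (uneg x) x = uzero := by
  have := transfer (U := U) (n := 1) (tadd (tneg (&0)) (&0) =' tzero)
    (fun v xs => by
      let _ := ogStructure ℚ
      change - xs 0 + xs 0 = 0
      ring) ![x]
  simpa [r_tadd, r_tzero, r_tneg] using this

theorem lt_irrefl' (x : U) : ¬ ult x x := by
  have := transfer (U := U) (n := 1) (∼(flt (&0) (&0)))
    (fun v xs => by
      let _ := ogStructure ℚ
      rw [BoundedFormula.realize_not, og_flt]
      exact lt_irrefl (xs 0)) ![x]
  rw [BoundedFormula.realize_not, r_flt] at this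
  simpa using this

theorem lt_trans' (x y z : U) (h1 : ult x y) (h2 : ult y z) : ult x z := by
  have := transfer (U := U) (n := 3) (flt (&0) (&1) ⟹ (flt (&1) (&2) ⟹ flt (&0) (&2)))
    (fun v xs => by
      let _ := ogStructure ℚ
      rw [BoundedFormula.realize_imp, BoundedFormula.realize_imp, og_flt, og_flt, og_flt]
      exact fun a b => lt_trans (show xs 0 < xs 1 from a) (show xs 1 < xs 2 from b)) ![x, y, z]
  rw [BoundedFormula.realize_imp, BoundedFormula.realize_imp, r_flt, r_flt, r_flt] at this
  simpa using this (by simpa using h1) (by simpa using h2)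

theorem lt_tri' (x y : U) : ult x y ∨ x = y ∨ ult y x := by
  have := transfer (U := U) (n := 2) (flt (&0) (&1) ⊔ ((&0 =' &1) ⊔ flt (&1) (&0)))
    (fun v xs => by
      let _ := ogStructure ℚ
      rw [BoundedFormula.realize_sup, BoundedFormula.realize_sup, og_flt, og_flt]
      exact lt_trichotomy (xs 0) (xs 1)) ![x, y]
  rw [BoundedFormula.realize_sup, BoundedFormula.realize_sup, r_flt, r_flt] at this
  simpa using this

theorem add_lt' (x y z : U) (h : ult x y) : ult (uadd z x) (uadd z y) := by
  have := transfer (U := U) (n := 3) (flt (&0) (&1) ⟹ flt (tadd (&2) (&0)) (tadd (&2) (&1)))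
    (fun v xs => by
      let _ := ogStructure ℚ
      rw [BoundedFormula.realize_imp, og_flt, og_flt]
      intro a
      change xs 2 + xs 0 < xs 2 + xs 1
      have a' : xs 0 < xs 1 := a
      linarith) ![x, y, z]
  rw [BoundedFormula.realize_imp, r_flt, r_flt] at this
  simpa [r_tadd] using this (by simpa using h)

theorem exists_pos' : ∃ x : U, ult uzero x := by
  have := transfer (U := U) (n := 0) (∃' (flt tzero (&0)))
    (fun v xs => by
      let _ := ogStructure ℚ
      rw [BoundedFormula.realize_ex]
      refine ⟨1, ?_⟩
      rw [og_flt]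
      change (0 : ℚ) < 1
      norm_num) ![]
  rw [BoundedFormula.realize_ex] at this
  obtain ⟨a, ha⟩ := this
  rw [r_flt] at ha
  exact ⟨a, by simpa [r_tzero, Fin.snoc] using ha⟩

/-- Iterated sums. -/
def umul : ℕ → U → U
  | 0, _ => uzero
  | n + 1, x => uadd (umul n x) x

omit [U ⊨ Tq] in
theorem r_tmul {β : Type*} (n : ℕ) (t : Log.Term β) (v : β → U) :
    (tmul n t).realize v = umul n (t.realize v) := by
  induction n with
  | zero => exact r_tzero v
  | succ n ih => rw [tmul, r_tadd, ih]; rfl

theorem div' (n : ℕ) (hn : n ≠ 0) (x : U) : ∃ y : U, umul n y = x := by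
  have := transfer (U := U) (n := 1) (∃' (tmul n (&1) =' (&0)))
    (fun v xs => by
      let _ := ogStructure ℚ
      rw [BoundedFormula.realize_ex]
      refine ⟨xs 0 / n, ?_⟩
      rw [BoundedFormula.realize_bdEqual, og_tmul]
      change n • (xs 0 / n) = xs 0
      rw [nsmul_eq_mul]
      field_simp) ![x]
  rw [BoundedFormula.realize_ex] at this
  obtain ⟨a, ha⟩ := this
  rw [BoundedFormula.realize_bdEqual, r_tmul] at ha
  exact ⟨a, by simpa using ha⟩

/-- The group structure on a model. -/
@[reducible] def grp : AddCommGroup U :=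
  letI : Zero U := ⟨uzero⟩
  letI : Add U := ⟨uadd⟩
  letI : Neg U := ⟨uneg⟩
  { add := uadd
    zero := uzero
    neg := uneg
    add_assoc := add_assoc'
    zero_add := zero_add'
    add_zero := fun x => by
      change uadd x uzero = x
      rw [add_comm', zero_add']
    neg_add_cancel := neg_add'
    add_comm := add_comm'
    nsmul := nsmulRec
    zsmul := zsmulRec }

theorem strict : IsStrictTotalOrder U ult where
  irrefl := lt_irrefl'
  trans := lt_trans'
  trichotomous x y h1 h2 := ((lt_tri' x y).resolve_left h1).resolve_right h2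

/-- The order on a model. -/
@[reducible] noncomputable def ord : LinearOrder U :=
  haveI := strict (U := U)
  haveI : DecidableRel (ult : U → U → Prop) := Classical.decRel _
  linearOrderOfSTO ult

theorem le_cases (x y : U) : (ord (U := U)).le x y ↔ x = y ∨ ult x y := Iff.rfl

omit [U ⊨ Tq] in
theorem umul_eq (g : AddCommGroup U) (h0 : g.zero = uzero) (h : ∀ x y : U, g.add x y = uadd x y)
    (n : ℕ) (x : U) : n • x = umul n x := by
  induction n with
  | zero => rw [zero_smul]; exact h0
  | succ n ih =>
    rw [succ_nsmul, ih]
    exact h _ _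

/-- Every model of `Tq` is a nontrivial divisible ordered abelian group with its standard
structure. -/
theorem exists_group (U : Type u) [i : Log.Structure U] [U ⊨ Tq] :
    ∃ (g : AddCommGroup U) (o : LinearOrder U), IsOrderedAddMonoid U ∧ Nontrivial U ∧
      (∀ (m : ℤ), m ≠ 0 → ∀ g : U, ∃ h : U, m • h = g) ∧ i = ogStructure U := by
  let g := grp (U := U)
  let o := ord (U := U)
  have hm : ∀ a b : U, a ≤ b → ∀ c, c + a ≤ c + b := by
    intro a b hab c
    rcases (le_cases a b).mp hab with rfl | hab
    · exact le_refl _
    · exact le_of_lt (add_lt' a b c hab)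
  refine ⟨g, o, ⟨fun a b hab c => ?_, fun a b hab c => hm a b hab c⟩, ?_, ?_, ?_⟩
  · rw [add_comm a c, add_comm b c]
    exact hm a b hab c
  · obtain ⟨x, hx⟩ := exists_pos' (U := U)
    exact ⟨x, uzero, fun h => lt_irrefl' _ (h ▸ hx)⟩
  · have hn : ∀ n : ℕ, n ≠ 0 → ∀ x : U, ∃ y : U, n • y = x := by
      intro n hn x
      obtain ⟨y, hy⟩ := div' n hn x
      exact ⟨y, by rw [umul_eq g rfl (fun _ _ => rfl)]; exact hy⟩
    intro m hm x
    obtain ⟨y, hy⟩ := hn m.natAbs (by omega) x
    rcases Int.natAbs_eq m with h | h
    · refine ⟨y, ?_⟩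
      rw [h, natCast_zsmul]
      exact hy
    · refine ⟨-y, ?_⟩
      rw [h, neg_smul, smul_neg, neg_neg, natCast_zsmul]
      exact hy
  · refine Structure.ext ?_ ?_
    · funext n f v
      cases f with
      | zero =>
        change funMap zeroS v = uzero
        rw [uzero, Subsingleton.elim v (![] : Fin 0 → U)]
      | neg =>
        change funMap negS v = uneg (v 0)
        rw [uneg]
        congr 1
        funext k
        fin_cases k
        rfl
      | add =>
        change funMap addS v = uadd (v 0) (v 1)
        rw [uadd]
        congr 1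
        funext k
        fin_cases k <;> rfl
    · funext n r v
      cases r with
      | lt =>
        change RelMap ltS v = ult (v 0) (v 1)
        rw [ult]
        congr 1
        funext k
        fin_cases k <;> rfl

end model

end Q201.DOAGM
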