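import Mathlib

set_option autoImplicit false

/-!
Definable predicates on assignments of the variables indexed by the natural numbers, with closure
properties.
-/

namespace Q201.Dfn

open FirstOrder FirstOrder.Language

universe u v w

variable (L : FirstOrder.Language.{u, v}) {M : Type w} [L.Structure M]

/-- `D` is defined by a formula with free variables indexed by `ℕ` -/
def Df (D : (ℕ → M) → Prop) : Prop := ∃ φ : L.Formula ℕ, ∀ v, φ.Realize v ↔ D v

/-- `P` is defined by a formula with one free variable -/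
def Df1 (P : M → Prop) : Prop := ∃ φ : L.Formula (Fin 1), ∀ a, φ.Realize (fun _ => a) ↔ P a

variable {L}

theorem Df.congr {D D' : (ℕ → M) → Prop} (h : Df L D) (hD : ∀ v, D v ↔ D' v) : Df L D' := by
  obtain ⟨φ, hφ⟩ := h
  exact ⟨φ, fun v => (hφ v).trans (hD v)⟩

theorem Df.eq (t s : L.Term ℕ) : Df L (fun v : ℕ → M => t.realize v = s.realize v) :=
  ⟨Term.equal t s, fun v => by rw [Formula.realize_equal]⟩

theorem Df.eqVar (i j : ℕ) : Df L (fun v : ℕ → M => v i = v j) :=
  ⟨Term.equal (Term.var i) (Term.var j), fun v => by simp [Formula.realize_equal]⟩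

theorem Df.not {D : (ℕ → M) → Prop} (h : Df L D) : Df L (fun v => ¬ D v) := by
  obtain ⟨φ, hφ⟩ := h
  exact ⟨φ.not, fun v => by rw [Formula.realize_not, hφ]⟩

theorem Df.imp {D D' : (ℕ → M) → Prop} (h : Df L D) (h' : Df L D') :
    Df L (fun v => D v → D' v) := by
  obtain ⟨φ, hφ⟩ := h
  obtain ⟨φ', hφ'⟩ := h'
  exact ⟨φ.imp φ', fun v => by rw [Formula.realize_imp, hφ, hφ']⟩

theorem Df.and {D D' : (ℕ → M) → Prop} (h : Df L D) (h' : Df L D') :
    Df L (fun v => D v ∧ D' v) :=
  (h.imp h'.not).not.congr (fun v => by tauto)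

theorem Df.or {D D' : (ℕ → M) → Prop} (h : Df L D) (h' : Df L D') :
    Df L (fun v => D v ∨ D' v) :=
  (h.not.imp h').congr (fun v => by tauto)

theorem Df.iff {D D' : (ℕ → M) → Prop} (h : Df L D) (h' : Df L D') :
    Df L (fun v => D v ↔ D' v) :=
  ((h.imp h').and (h'.imp h)).congr (fun v => by tauto)

theorem Df.ex (i : ℕ) {D : (ℕ → M) → Prop} (h : Df L D) :
    Df L (fun v => ∃ x, D (Function.update v i x)) := by
  obtain ⟨φ, hφ⟩ := h
  let g : ℕ → ℕ ⊕ Fin 1 := fun j => if j = i then Sum.inr 0 else Sum.inl j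
  refine ⟨(φ.relabel g).iExs (Fin 1), fun v => ?_⟩
  rw [Formula.realize_iExs]
  have key : ∀ w : Fin 1 → M, (φ.relabel g).Realize (fun a => Sum.elim v w a) ↔
      D (Function.update v i (w 0)) := by
    intro w
    rw [Formula.realize_relabel, hφ]
    have : ((fun a => Sum.elim v w a) ∘ g) = Function.update v i (w 0) := by
      funext j
      by_cases hj : j = i
      · subst hj
        simp [g]
      · simp [g, hj]
    rw [this]
  constructor
  · rintro ⟨w, hw⟩
    exact ⟨w 0, (key w).1 hw⟩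
  · rintro ⟨x, hx⟩
    exact ⟨fun _ => x, (key _).2 hx⟩

theorem Df.all (i : ℕ) {D : (ℕ → M) → Prop} (h : Df L D) :
    Df L (fun v => ∀ x, D (Function.update v i x)) :=
  (h.not.ex i).not.congr (fun v => by push Not; rfl)

/-- substitution of variables -/
theorem Df.sub (f : ℕ → ℕ) {D : (ℕ → M) → Prop} (h : Df L D) : Df L (fun v => D (v ∘ f)) := by
  obtain ⟨φ, hφ⟩ := h
  exact ⟨φ.relabel f, fun v => by rw [Formula.realize_relabel, hφ]⟩

theorem Df.df1 {P : M → Prop} (h : Df L (fun v : ℕ → M => P (v 0))) : Df1 L P := by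
  obtain ⟨φ, hφ⟩ := h
  refine ⟨φ.relabel (fun _ => 0), fun a => ?_⟩
  rw [Formula.realize_relabel, hφ]
  rfl

/-- The `n`-tuples `μ` and `ν` satisfy the same formulas. -/
def SameType (L : FirstOrder.Language.{u, v}) {M : Type w} [L.Structure M] {n : ℕ} (μ ν : Fin n → M) : Prop :=
  ∀ φ : L.Formula (Fin n), φ.Realize μ ↔ φ.Realize ν

theorem SameType.df1 {n : ℕ} {μ ν : Fin n → M} (h : SameType L μ ν) {P : M → Prop}
    (hP : Df1 L P) (i : Fin n) : P (μ i) ↔ P (ν i) := by
  obtain ⟨φ, hφ⟩ := hP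
  have := h (φ.relabel (fun _ => i))
  rw [Formula.realize_relabel, Formula.realize_relabel] at this
  rw [← hφ, ← hφ]
  exact this

end Q201.Dfn
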