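import Mathlib

set_option autoImplicit false

/-!
The tree structure on `ZMod (2^k)` given by the orders of the differences.
-/

namespace Q201.Dy

/-- the group -/
abbrev G (k : ℕ) : Type := ZMod (2 ^ k)

instance (k : ℕ) : NeZero (2 ^ k) := ⟨by positivity⟩

theorem card_G (k : ℕ) : Nat.card (G k) = 2 ^ k := by
  rw [Nat.card_eq_fintype_card, ZMod.card]

theorem ord_pow {k : ℕ} (u : G k) : ∃ i ≤ k, addOrderOf u = 2 ^ i := by
  have h1 : addOrderOf u ∣ 2 ^ k := by
    have := addOrderOf_dvd_natCard u
    rwa [card_G] at this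
  exact (Nat.dvd_prime_pow Nat.prime_two).1 h1

theorem ord_two {k i : ℕ} {u : G k} (h : addOrderOf u = 2 ^ (i + 1)) :
    addOrderOf (2 • u) = 2 ^ i := by
  rw [addOrderOf_nsmul_of_dvd (by norm_num) (by rw [h, pow_succ]; exact dvd_mul_left _ _), h,
    pow_succ]
  simp

/-- Transfer of the distance along a map compatible with doubling. -/
theorem transfer {k : ℕ} {X : Type} (f : X ≃ G k) (d : X → X → ℕ) (h0 : ∀ x, d x x = 1)
    (h : ∀ x y z w, addOrderOf (f z - f w) = 2 * addOrderOf (f x - f y) → d z w = 2 * d x y)
    (z w : X) : d z w = addOrderOf (f z - f w) := by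
  obtain ⟨i, -, hi⟩ := ord_pow (f z - f w)
  induction i generalizing z w with
  | zero =>
    rw [pow_zero, AddMonoid.addOrderOf_eq_one_iff, sub_eq_zero] at hi
    have hzw := f.injective hi
    subst hzw
    rw [h0, sub_self, addOrderOf_zero]
  | succ i ih =>
    have h2 := ord_two hi
    have h3 := ih (f.symm (2 • (f z - f w))) (f.symm 0) (by
      rw [f.apply_symm_apply, f.apply_symm_apply, sub_zero, h2])
    have h4 := h (f.symm (2 • (f z - f w))) (f.symm 0) z w (by
      rw [f.apply_symm_apply, f.apply_symm_apply, sub_zero, h2, hi, pow_succ, mul_comm])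
    rw [h4, h3, f.apply_symm_apply, f.apply_symm_apply, sub_zero, h2, hi, pow_succ, mul_comm]

/-- The trees of different heights do not embed in each other. -/
theorem antichain {k j : ℕ} (f : G k → G j)
    (hS : ∀ x y z w, addOrderOf (z - w) = 2 * addOrderOf (x - y) ↔
      addOrderOf (f z - f w) = 2 * addOrderOf (f x - f y))
    (hU : ∀ x y, addOrderOf (x - y) = 2 ^ k ↔ addOrderOf (f x - f y) = 2 ^ j) : k = j := by
  have h1 := transfer (Equiv.refl (G k)) (fun x y => addOrderOf (f x - f y)) (by
    intro x
    simp) (fun x y z w h => (hS x y z w).1 h) 1 0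
  have h2 : addOrderOf ((1 : G k) - 0) = 2 ^ k := by
    rw [sub_zero]
    exact ZMod.addOrderOf_one _
  have h3 := (hU 1 0).1 h2
  simp only [Equiv.refl_apply] at h1
  rw [h3, h2] at h1
  exact (Nat.pow_right_injective le_rfl h1).symm

/-- A relabelling of the tree structure which is invariant under translations is the tree
structure. -/
theorem unique {k : ℕ} (f : G k ≃ G k)
    (hS : ∀ g x y z w, addOrderOf (f z - f w) = 2 * addOrderOf (f x - f y) →
      addOrderOf (f (z + g) - f (w + g)) = 2 * addOrderOf (f (x + g) - f (y + g))) (x y : G k) :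
    addOrderOf (f x - f y) = addOrderOf (x - y) := by
  classical
  -- translation invariance
  have htr : ∀ g x y, addOrderOf (f (x + g) - f (y + g)) = addOrderOf (f x - f y) := by
    intro g x y
    exact transfer f (fun x y => addOrderOf (f (x + g) - f (y + g))) (by
      intro x
      simp) (fun x y z w h => hS g x y z w h) x y
  have hE : ∀ i x y, 2 ^ i • (f x - f y) = 0 ↔ addOrderOf (f x - f y) ∣ 2 ^ i := fun i x y =>
    addOrderOf_dvd_iff_nsmul_eq_zero.symm
  -- the balls around zero are subgroups
  have hball : ∀ i : ℕ, ∀ x, 2 ^ i • (f x - f 0) = 0 ↔ 2 ^ i • x = 0 := by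
    intro i
    let H : AddSubgroup (G k) :=
      { carrier := {x | 2 ^ i • (f x - f 0) = 0}
        zero_mem' := by
          change 2 ^ i • (f 0 - f 0) = 0
          rw [sub_self, smul_zero]
        add_mem' := by
          intro a b ha hb
          have ha' : 2 ^ i • (f a - f 0) = 0 := ha
          have hb' : 2 ^ i • (f b - f 0) = 0 := hb
          have h1 : 2 ^ i • (f (a + b) - f b) = 0 := by
            rw [hE]
            have := htr b a 0
            rw [zero_add] at this
            rw [this, ← hE]
            exact ha'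
          have h2 : f (a + b) - f 0 = (f (a + b) - f b) + (f b - f 0) := by ring
          change 2 ^ i • (f (a + b) - f 0) = 0
          rw [h2, smul_add, h1, hb', add_zero]
        neg_mem' := by
          intro a ha
          have ha' : 2 ^ i • (f a - f 0) = 0 := ha
          have h1 : 2 ^ i • (f 0 - f (-a)) = 0 := by
            rw [hE]
            have := htr (-a) a 0
            rw [zero_add, add_neg_cancel] at this
            rw [this, ← hE]
            exact ha'
          change 2 ^ i • (f (-a) - f 0) = 0
          have h2 : f (-a) - f 0 = -(f 0 - f (-a)) := by ring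
          rw [h2, smul_neg, h1, neg_zero] }
    have hH : ∀ x, x ∈ H ↔ 2 ^ i • (f x - f 0) = 0 := fun x => Iff.rfl
    let T : Set (G k) := {u | 2 ^ i • u = 0}
    have hT : Nat.card T ≤ 2 ^ i := by
      have h1 := IsAddCyclic.card_nsmul_eq_zero_le (α := G k) (n := 2 ^ i) (by positivity)
      rw [Nat.card_eq_fintype_card, Fintype.card_subtype]
      exact h1
    have hcard : Nat.card H = Nat.card T := by
      refine Nat.card_congr ⟨fun x => ⟨f x - f 0, x.2⟩, fun u => ⟨f.symm (u + f 0), ?_⟩, ?_, ?_⟩
      · rw [hH, f.apply_symm_apply, add_sub_cancel_right]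
        exact u.2
      · intro x
        apply Subtype.ext
        simp
      · intro u
        apply Subtype.ext
        simp
    have hdvd : Nat.card H ∣ 2 ^ k := by
      have := H.card_addSubgroup_dvd_card
      rwa [card_G] at this
    obtain ⟨j, -, hj⟩ := (Nat.dvd_prime_pow Nat.prime_two).1 hdvd
    have hji : j ≤ i := by
      rw [← hcard, hj] at hT
      exact (Nat.pow_le_pow_iff_right (by norm_num)).1 hT
    have hHT : (H : Set (G k)) ⊆ T := by
      intro x hx
      have h1 : Nat.card H • (⟨x, hx⟩ : H) = 0 := card_nsmul_eq_zero'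
      have h2 : Nat.card H • x = 0 := congrArg Subtype.val h1
      change 2 ^ i • x = 0
      obtain ⟨c, hc⟩ := pow_dvd_pow 2 hji
      rw [hc, ← hj, mul_comm, mul_smul, h2, smul_zero]
    have hHT' : (H : Set (G k)) = T := by
      apply Set.eq_of_subset_of_ncard_le hHT
      rw [← Nat.card_coe_set_eq, ← Nat.card_coe_set_eq]
      exact hcard.ge
    intro x
    have h1 : x ∈ (H : Set (G k)) ↔ x ∈ T := by rw [hHT']
    exact h1
  have hzero : ∀ x, addOrderOf (f x - f 0) = addOrderOf x := by
    intro x
    obtain ⟨i, -, hi⟩ := ord_pow x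
    obtain ⟨j, -, hj⟩ := ord_pow (f x - f 0)
    apply Nat.dvd_antisymm
    · rw [hi, addOrderOf_dvd_iff_nsmul_eq_zero, hball, ← hi]
      exact addOrderOf_nsmul_eq_zero x
    · rw [hj, addOrderOf_dvd_iff_nsmul_eq_zero, ← hball, ← hj]
      exact addOrderOf_nsmul_eq_zero _
  have h1 := htr (-y) x y
  rw [← h1, add_neg_cancel, hzero, sub_eq_add_neg]

end Q201.Dy
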