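import Mathlib

set_option autoImplicit false

/-!
# Extremal multidimensional (0,1)-matrices from weighted majority

Let `w` be integer weights of total `W` and let every set of indices have weight at most `W - q` or at
least `q`.  We extend the family of the sets of weight at least `q` (cells of a `d`-dimensional array
of order `2`) to an array of any order `n ≥ 2`; it is an extremal matrix, and its deficiency is
`2 - W / q` if the weights solve the linear program of the optimal cover.
-/

namespace Q201.ExtMat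

open Finset

variable {d n : ℕ}

/-- `K` is a polyplex of the `d`-dimensional (0,1)-matrix of order `n` whose unit entries are the cells
in `A`. -/
def IsPolyplex (A : Set (Fin d → Fin n)) (K : (Fin d → Fin n) → ℝ) : Prop :=
  (∀ α, 0 ≤ K α) ∧ (∀ α, α ∉ A → K α = 0) ∧ ∀ (i : Fin d) (j : Fin n), ∑ α with α i = j, K α ≤ 1

/-- `Λ` is a hyperplane cover of the matrix `A`. -/
def IsCover (A : Set (Fin d → Fin n)) (Λ : Fin d → Fin n → ℝ) : Prop :=
  (∀ i j, 0 ≤ Λ i j) ∧ ∀ α ∈ A, 1 ≤ ∑ i, Λ i (α i)

theorem sum_fiber (K : (Fin d → Fin n) → ℝ) (i : Fin d) :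
    ∑ j, ∑ α with α i = j, K α = ∑ α, K α :=
  Finset.sum_fiberwise _ _ _

theorem weak_duality {A : Set (Fin d → Fin n)} {K : (Fin d → Fin n) → ℝ} {Λ : Fin d → Fin n → ℝ}
    (hK : IsPolyplex A K) (hΛ : IsCover A Λ) : ∑ α, K α ≤ ∑ i, ∑ j, Λ i j := by
  classical
  calc ∑ α, K α ≤ ∑ α, K α * ∑ i, Λ i (α i) := by
        refine Finset.sum_le_sum fun α _ => ?_
        by_cases h : α ∈ A
        · have := hK.1 α
          nlinarith [hΛ.2 α h]
        · rw [hK.2.1 α h]; simp
    _ = ∑ i, ∑ α, K α * Λ i (α i) := by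
        simp_rw [Finset.mul_sum]
        exact Finset.sum_comm
    _ = ∑ i, ∑ j, Λ i j * ∑ α with α i = j, K α := by
        refine Finset.sum_congr rfl fun i _ => ?_
        rw [← Finset.sum_fiberwise (s := Finset.univ) (g := fun α : Fin d → Fin n => α i)]
        refine Finset.sum_congr rfl fun j _ => ?_
        rw [Finset.mul_sum]
        refine Finset.sum_congr rfl fun α hα => ?_
        rw [(Finset.mem_filter.1 hα).2]; ring
    _ ≤ ∑ i, ∑ j, Λ i j := by
        refine Finset.sum_le_sum fun i _ => Finset.sum_le_sum fun j _ => ?_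
        have h1 := hK.2.2 i j
        have h2 := hΛ.1 i j
        nlinarith

section combo

variable {ι : Type*} [Fintype ι] (c : ι → ℝ) (x : ι → Fin d → Fin n)

/-- a combination of cells -/
noncomputable def combo (α : Fin d → Fin n) : ℝ := ∑ k, if x k = α then c k else 0

theorem combo_sum : ∑ α, combo c x α = ∑ k, c k := by
  classical
  unfold combo
  rw [Finset.sum_comm]
  refine Finset.sum_congr rfl fun k _ => ?_
  simp

theorem combo_row (i : Fin d) (j : Fin n) :
    ∑ α with α i = j, combo c x α = ∑ k, if x k i = j then c k else 0 := by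
  classical
  unfold combo
  rw [Finset.sum_comm]
  refine Finset.sum_congr rfl fun k _ => ?_
  rw [Finset.sum_ite_eq]
  simp

theorem combo_polyplex {A : Set (Fin d → Fin n)} (hc : ∀ k, 0 ≤ c k) (hx : ∀ k, x k ∈ A)
    (h : ∀ i j, (∑ k, if x k i = j then c k else 0) ≤ 1) : IsPolyplex A (combo c x) := by
  classical
  refine ⟨fun α => Finset.sum_nonneg fun k _ => ?_, fun α hα => ?_, fun i j => ?_⟩
  · split_ifs
    · exact hc k
    · exact le_rfl
  · refine Finset.sum_eq_zero fun k _ => ?_
    rw [if_neg]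
    rintro rfl
    exact hα (hx k)
  · rw [combo_row]; exact h i j

end combo

/-- the (scaled) cover: label `1` of direction `i` gets `w i`, the labels `≥ 2` of the first direction
get `q`. -/
def lam (w : ℕ → ℕ) (q : ℕ) (i : Fin d) (j : Fin n) : ℕ :=
  if (j : ℕ) = 1 then w i else if 2 ≤ (j : ℕ) ∧ (i : ℕ) = 0 then q else 0

theorem lam_two (w : ℕ → ℕ) (q : ℕ) {i : Fin d} {j : Fin n} (hi : (i : ℕ) = 0) (hj : 2 ≤ (j : ℕ)) :
    lam w q i j = q := by
  unfold lam
  have h1 : ¬ (j : ℕ) = 1 := by omega
  rw [if_neg h1, if_pos ⟨hj, hi⟩]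

/-- the matrix -/
def mat (d n : ℕ) (w : ℕ → ℕ) (q : ℕ) : Set (Fin d → Fin n) :=
  {α | q ≤ ∑ i, lam w q i (α i)}

theorem cover_mat {w : ℕ → ℕ} {q : ℕ} (hq : 0 < q) :
    IsCover (mat d n w q) fun i j => (lam w q i j : ℝ) / q := by
  refine ⟨fun i j => by positivity, fun α hα => ?_⟩
  rw [← Finset.sum_div, le_div_iff₀ (by exact_mod_cast hq), one_mul]
  exact_mod_cast hα

theorem sum_lam_row (w : ℕ → ℕ) (q : ℕ) (hn : 2 ≤ n) (i : Fin d) :
    ∑ j : Fin n, lam w q i j = w i + if (i : ℕ) = 0 then (n - 2) * q else 0 := by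
  obtain ⟨k, rfl⟩ : ∃ k, n = k + 2 := ⟨n - 2, by omega⟩
  rw [Fin.sum_univ_succ, Fin.sum_univ_succ]
  have h0 : lam w q i (0 : Fin (k + 2)) = 0 := by simp [lam]
  have h1 : lam w q i (Fin.succ (0 : Fin (k + 1))) = w i := by simp [lam]
  have h2 : ∀ j : Fin k, lam w q i (Fin.succ (Fin.succ j)) = if (i : ℕ) = 0 then q else 0 := by
    intro j
    simp [lam]
  rw [h0, h1, Finset.sum_congr rfl fun j _ => h2 j]
  simp only [Finset.sum_const, Finset.card_univ, Fintype.card_fin, smul_eq_mul, Nat.add_sub_cancel,
    zero_add]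
  split_ifs <;> simp

theorem sum_lam (w : ℕ → ℕ) (q : ℕ) (hn : 2 ≤ n) (hd : 1 ≤ d) :
    ∑ i : Fin d, ∑ j : Fin n, lam w q i j = (∑ i : Fin d, w i) + (n - 2) * q := by
  rw [Finset.sum_congr rfl fun i _ => sum_lam_row w q hn i, Finset.sum_add_distrib]
  congr 1
  obtain ⟨e, rfl⟩ : ∃ e, d = e + 1 := ⟨d - 1, by omega⟩
  rw [Fin.sum_univ_succ]
  simp

/-- every cell outside of the matrix completes a diagonal -/
theorem diagonal_of_notMem {w : ℕ → ℕ} {q : ℕ} (hn : 2 ≤ n) (hd : 1 ≤ d)
    (hsplit : ∀ S : Finset (Fin d), q ≤ ∑ i ∈ S, w i ∨ q ≤ ∑ i ∈ Sᶜ, w i)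
    {α : Fin d → Fin n} (hα : α ∉ mat d n w q) :
    ∃ K, IsPolyplex (insert α (mat d n w q)) K ∧ ∀ i j, ∑ β with β i = j, K β = 1 := by
  classical
  have hlt : ∑ i, lam w q i (α i) < q := not_le.1 hα
  let z : Fin n := ⟨0, by omega⟩
  let o : Fin n := ⟨1, by omega⟩
  have hzo : z ≠ o := by simp [z, o, Fin.ext_iff]
  let β : Fin d → Fin n := fun i => if α i = o then z else o
  have hαβ : ∀ i, α i ≠ β i := by
    intro i
    by_cases h : α i = o
    · simp only [β, h, if_true]; exact hzo.symm
    · simp only [β, h, if_false]; exact h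
  have hex : ∀ i, ∃ σ : Equiv.Perm (Fin n), σ z = α i ∧ σ o = β i := by
    intro i
    obtain ⟨σ, hσ⟩ := Equiv.Perm.exists_extending_pair (fun b : Bool => if b then z else o)
      (fun b : Bool => if b then α i else β i) (by
        intro a b hab
        cases a <;> cases b <;> simp_all [hzo.symm]) (by
        intro a b hab
        have := hαβ i
        cases a <;> cases b <;> simp_all [this.symm])
    exact ⟨σ, by simpa using hσ true, by simpa using hσ false⟩
  choose σ hσz hσo using hex
  have hi0 : (⟨0, by omega⟩ : Fin d).val = 0 := rfl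
  have hα0 : ¬ 2 ≤ (α ⟨0, by omega⟩ : ℕ) := by
    intro h
    have h1 : lam w q (⟨0, by omega⟩ : Fin d) (α ⟨0, by omega⟩) = q := lam_two w q rfl h
    have h2 : lam w q (⟨0, by omega⟩ : Fin d) (α ⟨0, by omega⟩) ≤ ∑ i, lam w q i (α i) :=
      Finset.single_le_sum (f := fun i => lam w q i (α i)) (fun _ _ => Nat.zero_le _)
        (Finset.mem_univ _)
    omega
  have hβA : β ∈ mat d n w q := by
    have h1 := hsplit (Finset.univ.filter fun i => α i = o)
    rcases h1 with h1 | h1
    · exfalso
      have h2 : ∑ i ∈ Finset.univ.filter (fun i => α i = o), w i ≤ ∑ i, lam w q i (α i) := by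
        rw [Finset.sum_filter]
        refine Finset.sum_le_sum fun i _ => ?_
        split_ifs with h
        · rw [h]; simp [lam, o]
        · exact Nat.zero_le _
      omega
    · refine h1.trans ?_
      have h3 : ∑ i ∈ (Finset.univ.filter fun i => α i = o)ᶜ, w i =
          ∑ i, if α i = o then 0 else w i := by
        rw [← Finset.sum_filter_add_sum_filter_not Finset.univ (fun i => α i = o)]
        rw [Finset.sum_eq_zero (s := Finset.univ.filter fun i => α i = o)]
        · rw [zero_add]
          have : (Finset.univ.filter fun i => α i = o)ᶜ = Finset.univ.filter fun i => ¬ α i = o := by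
            ext i; simp
          rw [this]
          refine Finset.sum_congr rfl fun i hi => ?_
          rw [if_neg (Finset.mem_filter.1 hi).2]
        · intro i hi
          rw [if_pos (Finset.mem_filter.1 hi).2]
      rw [h3]
      refine Finset.sum_le_sum fun i _ => ?_
      by_cases h : α i = o
      · simp [h]
      · simp [β, h, lam, o]
  have hkA : ∀ k : Fin n, k ≠ z → k ≠ o → (fun i => σ i k) ∈ mat d n w q := by
    intro k hkz hko
    have h1 : 2 ≤ (σ ⟨0, by omega⟩ k : ℕ) := by
      have h2 : σ ⟨0, by omega⟩ k ≠ α ⟨0, by omega⟩ := by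
        rw [← hσz]; exact fun h => hkz ((σ _).injective h)
      have h3 : σ ⟨0, by omega⟩ k ≠ β ⟨0, by omega⟩ := by
        rw [← hσo]; exact fun h => hko ((σ _).injective h)
      by_cases h4 : α ⟨0, by omega⟩ = o
      · simp only [β, h4, if_true] at h3
        rw [h4] at h2
        simp only [ne_eq, Fin.ext_iff, z, o] at h2 h3
        omega
      · simp only [β, h4, if_false] at h3
        have h5 : α ⟨0, by omega⟩ = z := by
          rw [Fin.ext_iff] at h4 ⊢
          simp only [z, o] at h4 ⊢
          omega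
        rw [h5] at h2
        simp only [ne_eq, Fin.ext_iff, z, o] at h2 h3
        omega
    change q ≤ _
    have h6 : lam w q (⟨0, by omega⟩ : Fin d) (σ ⟨0, by omega⟩ k) = q := lam_two w q rfl h1
    calc q = lam w q (⟨0, by omega⟩ : Fin d) (σ ⟨0, by omega⟩ k) := h6.symm
      _ ≤ _ := Finset.single_le_sum (f := fun i => lam w q i (σ i k)) (fun _ _ => Nat.zero_le _)
        (Finset.mem_univ _)
  have hrow : ∀ (i : Fin d) (j : Fin n), (∑ k : Fin n, if σ i k = j then (1 : ℝ) else 0) = 1 := by
    intro i j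
    have : ∀ k, (if σ i k = j then (1 : ℝ) else 0) = if k = (σ i).symm j then 1 else 0 := by
      intro k
      exact if_congr (Equiv.eq_symm_apply (σ i)).symm rfl rfl
    rw [Finset.sum_congr rfl fun k _ => this k]
    simp
  refine ⟨combo (fun _ : Fin n => (1 : ℝ)) (fun k i => σ i k),
    combo_polyplex _ _ (fun _ => zero_le_one) (fun k => ?_) (fun i j => (hrow i j).le), fun i j => ?_⟩
  · by_cases hkz : k = z
    · left
      funext i
      rw [hkz, hσz]
    · by_cases hko : k = o
      · right
        have : (fun i => σ i k) = β := by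
          funext i
          rw [hko, hσo]
        rw [this]; exact hβA
      · right
        exact hkA k hkz hko
  · rw [combo_row]; exact hrow i j

/-- The primal certificate: sets `S k` of weight at least `q` with multiplicities `c k` which cover
every index `i < r` exactly `q` times; the total multiplicity is `W`. -/
theorem exists_polyplex {w : ℕ → ℕ} {q W r m : ℕ} (hn : 2 ≤ n) (hr : r ≤ d) (hr1 : 1 ≤ r)
    (hq : 0 < q) (hWq : W ≤ 2 * q)
    (S : Fin m → ℕ → Bool) (c : Fin m → ℕ)
    (hS : ∀ k, q ≤ ∑ i ∈ Finset.range r, if S k i then w i else 0)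
    (hc : ∀ i, i < r → (∑ k, if S k i then c k else 0) = q) (hcW : ∑ k, c k = W) :
    ∃ K, IsPolyplex (mat d n w q) K ∧ ∑ α, K α = n - (2 * q - W : ℝ) / q := by
  classical
  let z : Fin n := ⟨0, by omega⟩
  let o : Fin n := ⟨1, by omega⟩
  have hzo : z ≠ o := by simp [z, o, Fin.ext_iff]
  have hq' : (0 : ℝ) < q := by exact_mod_cast hq
  let bit : Bool → Fin n := fun b => if b then o else z
  let x : (Fin m × Bool) ⊕ {j : Fin n // 2 ≤ (j : ℕ)} → Fin d → Fin n :=
    Sum.elim (fun p i => if (i : ℕ) < r then bit (S p.1 i) else bit p.2) (fun j _ => j)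
  let cc : (Fin m × Bool) ⊕ {j : Fin n // 2 ≤ (j : ℕ)} → ℝ :=
    Sum.elim (fun p => (c p.1 : ℝ) / (2 * q)) (fun _ => 1)
  have hbit2 : ∀ b, ¬ 2 ≤ (bit b : ℕ) := by
    intro b; cases b <;> simp [bit, z, o]
  have hbit1 : ∀ b, bit b = o ↔ b = true := by
    intro b; cases b <;> simp [bit, hzo]
  have hbit0 : ∀ b, bit b = z ↔ b = false := by
    intro b; cases b <;> simp [bit, hzo.symm]
  -- membership
  have hx : ∀ k, x k ∈ mat d n w q := by
    rintro (⟨k, b⟩ | ⟨j, hj⟩)
    · change q ≤ _
      refine (hS k).trans ?_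
      have h1 : ∑ i ∈ Finset.range r, (if S k i then w i else 0) =
          ∑ i ∈ Finset.range d, if i < r ∧ S k i = true then w i else 0 := by
        rw [← Finset.sum_subset (Finset.range_subset_range.2 hr)]
        · refine Finset.sum_congr rfl fun i hi => ?_
          simp [Finset.mem_range.1 hi]
        · intro i _ hi
          rw [if_neg]
          rintro ⟨h, -⟩
          exact hi (Finset.mem_range.2 h)
      rw [h1, ← Fin.sum_univ_eq_sum_range (fun i => if i < r ∧ S k i = true then w i else 0) d]
      refine Finset.sum_le_sum fun i _ => ?_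
      split_ifs with h
      · have : x (Sum.inl (k, b)) i = o := by
          simp only [x, Sum.elim_inl, h.1, if_true]
          exact (hbit1 _).2 h.2
        rw [this]
        simp [lam, o]
      · exact Nat.zero_le _
    · change q ≤ _
      have h6 : lam w q (⟨0, by omega⟩ : Fin d) j = q := lam_two w q rfl hj
      calc q = lam w q (⟨0, by omega⟩ : Fin d) j := h6.symm
        _ ≤ _ := Finset.single_le_sum (f := fun i => lam w q i j) (fun _ _ => Nat.zero_le _)
          (Finset.mem_univ _)
  -- row sums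
  have hcW' : (∑ k, (c k : ℝ)) = W := by exact_mod_cast hcW
  have hWq' : (W : ℝ) ≤ 2 * q := by exact_mod_cast hWq
  have hpart2 : ∀ j : Fin n, (∑ k : {j : Fin n // 2 ≤ (j : ℕ)}, if (k : Fin n) = j then (1 : ℝ) else 0) =
      if 2 ≤ (j : ℕ) then 1 else 0 := by
    intro j
    split_ifs with h
    · rw [Finset.sum_eq_single_of_mem (⟨j, h⟩ : {j : Fin n // 2 ≤ (j : ℕ)}) (Finset.mem_univ _)]
      · simp
      · intro k _ hk
        rw [if_neg]
        intro h'; exact hk (Subtype.ext h')
    · refine Finset.sum_eq_zero fun k _ => ?_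
      rw [if_neg]
      rintro h'; exact h (h' ▸ k.2)
  have hrow : ∀ (i : Fin d) (j : Fin n), (∑ k, if x k i = j then cc k else 0) ≤ 1 := by
    intro i j
    have e1 : (∑ k, if x k i = j then cc k else 0) =
        (∑ k : Fin m, ((if (if (i : ℕ) < r then bit (S k i) else bit true) = j then
          (c k : ℝ) / (2 * q) else 0) + (if (if (i : ℕ) < r then bit (S k i) else bit false) = j then
          (c k : ℝ) / (2 * q) else 0))) +
        ∑ k : {j : Fin n // 2 ≤ (j : ℕ)}, if (k : Fin n) = j then (1 : ℝ) else 0 := by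
      rw [Fintype.sum_sum_type, Fintype.sum_prod_type]
      simp only [Fintype.sum_bool]
      rfl
    rw [e1, hpart2]
    by_cases hj : 2 ≤ (j : ℕ)
    · rw [if_pos hj]
      have : ∀ b, ¬ bit b = j := fun b h => hbit2 b (h ▸ hj)
      rw [Finset.sum_eq_zero]
      · simp
      · intro k _
        have h1 : ∀ b, ¬ (if (i : ℕ) < r then bit (S k i) else bit b) = j := by
          intro b; split_ifs
          · exact this _
          · exact this _
        rw [if_neg (h1 true), if_neg (h1 false), add_zero]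
    · rw [if_neg hj, add_zero]
      have hjz : j = o ∨ j = z := by
        rw [Fin.ext_iff, Fin.ext_iff]; simp only [z, o]; omega
      by_cases hi : (i : ℕ) < r
      · simp only [hi, if_true]
        have hc' : (∑ k, if S k i then (c k : ℝ) else 0) = q := by
          have := hc i hi
          exact_mod_cast this
        rcases hjz with rfl | rfl
        · have h1 : ∀ k, ((if bit (S k i) = o then (c k : ℝ) / (2 * q) else 0) +
              if bit (S k i) = o then (c k : ℝ) / (2 * q) else 0) =
              (if S k i then (c k : ℝ) else 0) / q := by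
            intro k
            by_cases h : S k i = true
            · simp only [hbit1, h, if_true]; field_simp; ring
            · simp only [hbit1, h]; simp
          rw [Finset.sum_congr rfl fun k _ => h1 k, ← Finset.sum_div, hc', div_self hq'.ne']
        · have h1 : ∀ k, ((if bit (S k i) = z then (c k : ℝ) / (2 * q) else 0) +
              if bit (S k i) = z then (c k : ℝ) / (2 * q) else 0) =
              ((c k : ℝ) - if S k i then (c k : ℝ) else 0) / q := by
            intro k
            by_cases h : S k i = true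
            · simp only [hbit0, h]; simp
            · simp only [Bool.not_eq_true] at h
              simp only [hbit0, h, if_true]; simp; field_simp; ring
          rw [Finset.sum_congr rfl fun k _ => h1 k, ← Finset.sum_div, Finset.sum_sub_distrib, hc', hcW',
            div_le_one hq']
          linarith
      · simp only [hi, if_false]
        have h2 : (∑ k, (c k : ℝ) / (2 * q)) = W / (2 * q) := by rw [← Finset.sum_div, hcW']
        have h3 : (W : ℝ) / (2 * q) ≤ 1 := by rw [div_le_one (by positivity)]; exact hWq'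
        rcases hjz with rfl | rfl
        · simp only [hbit1]
          simpa [h2] using h3
        · simp only [hbit0]
          simpa [h2] using h3
  refine ⟨combo cc x, combo_polyplex _ _ ?_ hx hrow, ?_⟩
  · rintro (⟨k, b⟩ | j)
    · simp only [cc, Sum.elim_inl]; positivity
    · simp only [cc, Sum.elim_inr]; exact zero_le_one
  · rw [combo_sum, Fintype.sum_sum_type]
    simp only [cc, Sum.elim_inl, Sum.elim_inr]
    rw [Fintype.sum_prod_type]
    simp only [Fintype.sum_bool]
    have h1 : ∀ k, (c k : ℝ) / (2 * q) + (c k : ℝ) / (2 * q) = c k / q := by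
      intro k; field_simp; ring
    rw [Finset.sum_congr rfl fun k _ => h1 k, ← Finset.sum_div, hcW']
    simp only [Finset.sum_const, Finset.card_univ, nsmul_eq_mul, mul_one]
    have hcard : Fintype.card {j : Fin n // 2 ≤ (j : ℕ)} = n - 2 := by
      rw [Fintype.card_subtype]
      have h4 : (Finset.univ.filter fun j : Fin n => 2 ≤ (j : ℕ)) =
          (Finset.univ : Finset (Fin n)) \ {z, o} := by
        ext j
        simp only [Finset.mem_filter, Finset.mem_univ, true_and, Finset.mem_sdiff, Finset.mem_insert,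
          Finset.mem_singleton, Fin.ext_iff, z, o]
        omega
      rw [h4, Finset.card_sdiff_of_subset (Finset.subset_univ _), Finset.card_pair hzo,
        Finset.card_univ, Fintype.card_fin]
    rw [hcard, Nat.cast_sub hn]
    field_simp
    push_cast
    ring

/-- sums over the directions -/
theorem sum_dir {w : ℕ → ℕ} {r : ℕ} (hr : r ≤ d) (hw : ∀ i, r ≤ i → w i = 0) (b : ℕ → Bool) :
    ∑ i : Fin d, (if b i then w i else 0) = ∑ i ∈ Finset.range r, if b i then w i else 0 := by
  rw [Fin.sum_univ_eq_sum_range (fun i => if b i then w i else 0) d]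
  symm
  refine Finset.sum_subset (Finset.range_subset_range.2 hr) fun i _ hi => ?_
  rw [hw i (by simpa using hi)]
  simp

theorem split_of {w : ℕ → ℕ} {q W r : ℕ} (hr : r ≤ d) (hw : ∀ i, r ≤ i → w i = 0)
    (hW : ∑ i ∈ Finset.range r, w i = W)
    (h : ∀ b : ℕ → Bool, q ≤ ∑ i ∈ Finset.range r, (if b i then w i else 0) ∨
      (∑ i ∈ Finset.range r, if b i then w i else 0) + q ≤ W) (S : Finset (Fin d)) :
    q ≤ ∑ i ∈ S, w i ∨ q ≤ ∑ i ∈ Sᶜ, w i := by
  classical
  let b : ℕ → Bool := fun i => decide (∃ h : i < d, (⟨i, h⟩ : Fin d) ∈ S)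
  have hb : ∀ i : Fin d, b i = true ↔ i ∈ S := by
    intro i
    simp [b]
  have h1 : ∑ i ∈ S, w i = ∑ i ∈ Finset.range r, if b i then w i else 0 := by
    rw [← sum_dir hr hw, ← Finset.sum_filter]
    congr 1
    ext i
    simp [hb]
  have h2 : ∑ i ∈ S, w i + ∑ i ∈ Sᶜ, w i = W := by
    rw [Finset.sum_add_sum_compl, ← hW]
    have := sum_dir hr hw fun _ => true
    simpa using this
  rcases h b with h3 | h3
  · left; omega
  · right; omega

/-- the value of a cell -/
theorem sum_lam_apply {w : ℕ → ℕ} {q r : ℕ} (hr : r ≤ d) (hd : 1 ≤ d) (hw : ∀ i, r ≤ i → w i = 0)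
    (α : Fin d → Fin n) :
    ∑ i, lam w q i (α i) =
      (∑ i ∈ Finset.range r, if decide (∃ h : i < d, (α ⟨i, h⟩ : ℕ) = 1) then w i else 0) +
        if 2 ≤ (α ⟨0, by omega⟩ : ℕ) then q else 0 := by
  classical
  rw [← sum_dir hr hw]
  have h1 : ∀ i : Fin d, lam w q i (α i) =
      (if decide (∃ h : (i : ℕ) < d, (α ⟨i, h⟩ : ℕ) = 1) then w i else 0) +
        if i = (⟨0, by omega⟩ : Fin d) then (if 2 ≤ (α ⟨0, by omega⟩ : ℕ) then q else 0) else 0 := by
    intro i
    have h2 : decide (∃ h : (i : ℕ) < d, (α ⟨i, h⟩ : ℕ) = 1) = decide ((α i : ℕ) = 1) := by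
      rw [decide_eq_decide]
      exact ⟨fun ⟨_, h⟩ => h, fun h => ⟨i.2, h⟩⟩
    rw [h2]
    unfold lam
    by_cases h3 : (α i : ℕ) = 1
    · rw [if_pos h3, if_pos (show decide ((α i : ℕ) = 1) = true by simpa using h3)]
      split_ifs with h4 h5
      · rw [← h4] at h5; omega
      · rfl
      · rfl
    · rw [if_neg h3, if_neg (show ¬ decide ((α i : ℕ) = 1) = true by simpa using h3), zero_add]
      by_cases h4 : i = (⟨0, by omega⟩ : Fin d)
      · rw [if_pos h4, ← h4]
        have h5 : (i : ℕ) = 0 := by rw [h4]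
        simp [h5]
      · rw [if_neg h4, if_neg]
        rintro ⟨-, h5⟩
        exact h4 (Fin.ext h5)
  rw [Finset.sum_congr rfl fun i _ => h1 i, Finset.sum_add_distrib]
  simp

/-- value of the scaled cover -/
theorem cover_weight {w : ℕ → ℕ} {q W r : ℕ} (hn : 2 ≤ n) (hr : r ≤ d) (hr1 : 1 ≤ r)
    (hw : ∀ i, r ≤ i → w i = 0) (hq : 0 < q) (hW : ∑ i ∈ Finset.range r, w i = W) :
    ∑ i : Fin d, ∑ j : Fin n, (lam w q i j : ℝ) / q = n - (2 * q - W : ℝ) / q := by
  have h1 := sum_lam (n := n) (d := d) w q hn (by omega)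
  have h2 : ∑ i : Fin d, w i = W := by
    rw [← hW]
    have := sum_dir hr hw fun _ => true
    simpa using this
  rw [h2] at h1
  have h3 : (∑ i : Fin d, ∑ j : Fin n, (lam w q i j : ℝ)) = W + (n - 2) * q := by
    have h4 : ((∑ i : Fin d, ∑ j : Fin n, lam w q i j : ℕ) : ℝ) = ((W + (n - 2) * q : ℕ) : ℝ) := by
      rw [h1]
    push_cast [Nat.cast_sub hn] at h4
    exact h4
  simp_rw [← Finset.sum_div]
  rw [h3]
  have : (q : ℝ) ≠ 0 := by exact_mod_cast hq.ne'
  field_simp
  ring

end Q201.ExtMat
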