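import Mathlib

/-!
# Frayne's theorem

A model of the complete theory of `N` embeds elementarily in an ultrapower of `N`.
-/

namespace Q201.Frayne

open FirstOrder FirstOrder.Language Filter

universe u

theorem exClosure_iff {L : FirstOrder.Language.{0, 0}} {M : Type*} [L.Structure M] [Nonempty M]
    {α : Type*} [DecidableEq α] (φ : L.Formula α) :
    M ⊨ φ.exClosure ↔ ∃ v : α → M, φ.Realize v := by
  rw [← Formula.exists_realize_equivSentence_iff_realize_exClosure]
  refine exists_congr fun v => ?_
  have := Formula.realize_equivSentence_symm M (Formula.equivSentence φ) v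
  rw [Equiv.symm_apply_apply] at this
  exact this.symm

/-- A sentence true in a model of the complete theory of `N` is true in `N`. -/
theorem true_of_true {L : FirstOrder.Language.{0, 0}} (N : Type) [L.Structure N] (U : Type u)
    [L.Structure U] [U ⊨ L.completeTheory N] {σ : L.Sentence} (h : U ⊨ σ) : N ⊨ σ := by
  by_contra hc
  have h1 : σ.not ∈ L.completeTheory N := by
    change N ⊨ σ.not
    rw [Sentence.Realize, Formula.realize_not]
    exact hc
  have h2 := Theory.realize_sentence_of_mem (M := U) (L.completeTheory N) h1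
  rw [Sentence.Realize, Formula.realize_not] at h2
  exact h2 h

theorem frayne {L : FirstOrder.Language.{0, 0}} (N : Type) [L.Structure N] [Nonempty N]
    (U : Type u) [L.Structure U] [Nonempty U] [U ⊨ L.completeTheory N] :
    ∃ (I : Type u) (𝒰 : Ultrafilter I),
      Nonempty (U ↪ₑ[L] ((𝒰 : Filter I).Product (fun _ => N))) := by
  classical
  let I := Finset {φ : L.Formula U // φ.Realize (id : U → U)}
  have hf : ∀ F : I, ∃ v : U → N, ∀ φ ∈ F, (φ : L.Formula U).Realize v := by
    intro F
    have h1 : U ⊨ (Formula.iInf (fun x : F => (x.1.1 : L.Formula U))).exClosure := by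
      rw [exClosure_iff]
      refine ⟨id, ?_⟩
      rw [Formula.realize_iInf]
      exact fun x => x.1.2
    have h2 := true_of_true N U h1
    rw [exClosure_iff] at h2
    obtain ⟨v, hv⟩ := h2
    rw [Formula.realize_iInf] at hv
    exact ⟨v, fun φ hφ => hv ⟨φ, hφ⟩⟩
  choose f hf using hf
  let 𝒰 : Ultrafilter I := Ultrafilter.of atTop
  have hle : (𝒰 : Filter I) ≤ atTop := Ultrafilter.of_le atTop
  have hev : ∀ φ : {φ : L.Formula U // φ.Realize (id : U → U)},
      ∀ᶠ F in (𝒰 : Filter I), (φ : L.Formula U).Realize (f F) := by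
    intro φ
    have h1 : ∀ᶠ F in (atTop : Filter I), (φ : L.Formula U).Realize (f F) := by
      filter_upwards [eventually_ge_atTop ({φ} : I)] with F hF
      exact hf F φ (hF (Finset.mem_singleton_self φ))
    exact Filter.Eventually.filter_mono hle h1
  refine ⟨I, 𝒰, ⟨⟨fun u => ((fun F => f F u : ∀ _ : I, N) : (𝒰 : Filter I).Product fun _ => N),
    fun n φ x => ?_⟩⟩⟩
  have h1 := Ultraproduct.realize_formula_cast (M := fun _ : I => N) (u := 𝒰) φ
    (fun i => fun F => f F (x i))
  have h2 : ∀ ψ : L.Formula (Fin n), ψ.Realize x →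
      ∀ᶠ F in (𝒰 : Filter I), ψ.Realize (fun i => f F (x i)) := by
    intro ψ hψ
    have h3 : (ψ.relabel x).Realize (id : U → U) := by
      rw [Formula.realize_relabel]
      exact hψ
    have h4 := hev ⟨ψ.relabel x, h3⟩
    filter_upwards [h4] with F hF
    rw [Formula.realize_relabel] at hF
    exact hF
  refine Iff.trans h1 ?_
  constructor
  · intro h
    by_contra hc
    have h5 := h2 φ.not (by rwa [Formula.realize_not])
    obtain ⟨F, hF1, hF2⟩ := (h.and h5).exists
    rw [Formula.realize_not] at hF2
    exact hF2 hF1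
  · exact h2 φ

end Q201.Frayne
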