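import Mathlib
import Pool.Agent.Q201.BackForth

set_option autoImplicit false

/-!
The countable generic `K_n`-free graphs: construction on the natural numbers, ultrahomogeneity
and the age.
-/

namespace Q201.Hen

open Classical

/-- a finite set of natural numbers coded by `j`; every finite set has arbitrarily large codes -/
noncomputable def code (j : ℕ) : Finset ℕ := (Encodable.decode (α := Finset ℕ) j.unpair.1).getD ∅

theorem exists_code (A : Finset ℕ) (N : ℕ) : ∃ j, N ≤ j ∧ code j = A := by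
  refine ⟨Nat.pair (Encodable.encode A) N, Nat.right_le_pair _ _, ?_⟩
  simp [code]

/-- the smaller neighbours of `j`, in the `K_(n+1)`-free graph -/
noncomputable def nb (n : ℕ) (j : ℕ) : Finset ℕ :=
  if code j ⊆ Finset.range j ∧ ∀ K ⊆ code j, K.card = n →
      ¬ (∀ a ∈ K, ∀ b ∈ K, a < b → a ∈ (if _h : b < j then nb n b else ∅))
  then code j else ∅
termination_by j

/-- `K` is a clique for the relation of being a smaller neighbour -/
def Cl (n : ℕ) (K : Finset ℕ) : Prop := ∀ a ∈ K, ∀ b ∈ K, a < b → a ∈ nb n b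

theorem nb_sub (n j : ℕ) : nb n j ⊆ Finset.range j := by
  rw [nb]
  split_ifs with h
  · exact h.1
  · simp

theorem nb_free (n j : ℕ) (hn : 1 ≤ n) (K : Finset ℕ) (hK : K ⊆ nb n j) (hc : K.card = n) :
    ¬ Cl n K := by
  rw [nb] at hK
  split_ifs at hK with h
  · intro hcl
    refine h.2 K hK hc ?_
    intro a ha b hb hab
    rw [dif_pos (Finset.mem_range.1 (h.1 (hK hb)))]
    exact hcl a ha b hb hab
  · have : K = ∅ := Finset.subset_empty.1 hK
    subst this
    simp at hc
    omega

theorem nb_eq (n j : ℕ) (h1 : code j ⊆ Finset.range j)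
    (h2 : ∀ K ⊆ code j, K.card = n → ¬ Cl n K) : nb n j = code j := by
  rw [nb, if_pos]
  refine ⟨h1, fun K hK hc h => h2 K hK hc ?_⟩
  intro a ha b hb hab
  have h3 := h a ha b hb hab
  rwa [dif_pos (Finset.mem_range.1 (h1 (hK hb)))] at h3

/-- the generic `K_(n+1)`-free graph on the natural numbers -/
noncomputable def gr (n : ℕ) : SimpleGraph ℕ where
  Adj a b := (a < b ∧ a ∈ nb n b) ∨ (b < a ∧ b ∈ nb n a)
  symm := ⟨fun a b h => h.symm⟩
  loopless := ⟨fun a h => by simp at h⟩

theorem gr_adj_lt {n a b : ℕ} (h : a < b) : (gr n).Adj a b ↔ a ∈ nb n b := by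
  constructor
  · rintro (h1 | h1)
    · exact h1.2
    · omega
  · intro h1
    exact Or.inl ⟨h, h1⟩

theorem cl_iff {n : ℕ} {K : Finset ℕ} : Cl n K ↔ (gr n).IsClique (K : Set ℕ) := by
  constructor
  · intro h a ha b hb hab
    rcases lt_or_gt_of_ne hab with h1 | h1
    · exact (gr_adj_lt h1).2 (h a ha b hb h1)
    · exact ((gr_adj_lt h1).2 (h b hb a ha h1)).symm
  · intro h a ha b hb hab
    exact (gr_adj_lt hab).1 (h ha hb hab.ne)

theorem gr_free (n : ℕ) (hn : 1 ≤ n) : (gr n).CliqueFree (n + 1) := by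
  intro s hs
  have hne : s.Nonempty := by
    rw [← Finset.card_pos, hs.card_eq]; omega
  set j := s.max' hne with hj
  have hjs : j ∈ s := s.max'_mem hne
  have hlt : ∀ a ∈ s.erase j, a < j := by
    intro a ha
    have h1 := s.le_max' a (Finset.mem_of_mem_erase ha)
    exact lt_of_le_of_ne h1 (Finset.ne_of_mem_erase ha)
  refine nb_free n j hn (s.erase j) ?_ ?_ ?_
  · intro a ha
    exact (gr_adj_lt (hlt a ha)).1 (hs.isClique (Finset.mem_of_mem_erase ha) hjs (hlt a ha).ne)
  · rw [Finset.card_erase_of_mem hjs, hs.card_eq]; rfl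
  · rw [cl_iff]
    exact hs.isClique.subset (by simp)

/-- the extension property of the generic `K_(n+1)`-free graph -/
def Ext (n : ℕ) {V : Type*} (G : SimpleGraph V) : Prop :=
  ∀ A B : Finset V, Disjoint A B → (∀ K ⊆ A, K.card = n → ¬ G.IsClique (K : Set V)) →
    ∃ j, j ∉ A ∧ j ∉ B ∧ (∀ a ∈ A, G.Adj a j) ∧ (∀ b ∈ B, ¬ G.Adj b j)

theorem gr_ext (n : ℕ) : Ext n (gr n) := by
  intro A B hAB hA
  obtain ⟨j, hj, hc⟩ := exists_code A ((A ∪ B).sup id + 1)
  have hlt : ∀ a ∈ A ∪ B, a < j := by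
    intro a ha
    have := Finset.le_sup (f := id) ha
    simp only [id] at this
    omega
  have hnb : nb n j = A := by
    rw [nb_eq, hc]
    · rw [hc]
      intro a ha
      exact Finset.mem_range.2 (hlt a (Finset.mem_union_left _ ha))
    · rw [hc]
      intro K hK hKc
      rw [cl_iff]
      exact hA K hK hKc
  refine ⟨j, ?_, ?_, ?_, ?_⟩
  · intro h
    exact lt_irrefl _ (hlt j (Finset.mem_union_left _ h))
  · intro h
    exact lt_irrefl _ (hlt j (Finset.mem_union_right _ h))
  · intro a ha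
    rw [gr_adj_lt (hlt a (Finset.mem_union_left _ ha)), hnb]
    exact ha
  · intro b hb
    rw [gr_adj_lt (hlt b (Finset.mem_union_right _ hb)), hnb]
    intro h
    exact Finset.disjoint_left.1 hAB h hb

/-- finite partial isomorphisms -/
def PI {V W : Type*} (G : SimpleGraph V) (H : SimpleGraph W) (s : Finset (V × W)) : Prop :=
  ∀ p ∈ s, ∀ q ∈ s, (p.1 = q.1 ↔ p.2 = q.2) ∧ (G.Adj p.1 q.1 ↔ H.Adj p.2 q.2)

theorem pi_forth {n : ℕ} {V W : Type*} {G : SimpleGraph V} {H : SimpleGraph W}
    (hG : G.CliqueFree (n + 1)) (hH : Ext n H) (s : Finset (V × W)) (hs : PI G H s) (v : V) :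
    ∃ w, PI G H (insert (v, w) s) := by
  by_cases hv : ∃ p ∈ s, p.1 = v
  · obtain ⟨p, hp, rfl⟩ := hv
    refine ⟨p.2, ?_⟩
    rw [Finset.insert_eq_self.2 (by simpa using hp)]
    exact hs
  · push Not at hv
    let A := (s.filter (fun p => G.Adj p.1 v)).image Prod.snd
    let B := (s.filter (fun p => ¬ G.Adj p.1 v)).image Prod.snd
    have hAB : Disjoint A B := by
      rw [Finset.disjoint_left]
      intro w hwA hwB
      simp only [A, B, Finset.mem_image, Finset.mem_filter] at hwA hwB
      obtain ⟨p, ⟨hp, hpv⟩, hpw⟩ := hwA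
      obtain ⟨q, ⟨hq, hqv⟩, hqw⟩ := hwB
      have : p.1 = q.1 := (hs p hp q hq).1.2 (by rw [hpw, hqw])
      rw [this] at hpv
      exact hqv hpv
    have hA : ∀ K ⊆ A, K.card = n → ¬ H.IsClique (K : Set W) := by
      intro K hK hKc hcl
      have hpre : ∀ w ∈ K, ∃ p ∈ s, G.Adj p.1 v ∧ p.2 = w := by
        intro w hw
        have := hK hw
        simp only [A, Finset.mem_image, Finset.mem_filter] at this
        obtain ⟨p, ⟨hp, hpv⟩, hpw⟩ := this
        exact ⟨p, hp, hpv, hpw⟩
      have : Nonempty (V × W) := by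
        by_contra hne
        rw [not_nonempty_iff] at hne
        have hK0 : K = ∅ := by
          rw [Finset.eq_empty_iff_forall_notMem]
          intro w hw
          obtain ⟨p, -⟩ := hpre w hw
          exact hne.elim p
        subst hK0
        simp at hKc
        subst hKc
        exact hG {v} (by simp [SimpleGraph.isNClique_iff])
      choose! g hg1 hg2 hg3 using hpre
      have hinj : Set.InjOn (fun w => (g w).1) (K : Set W) := by
        intro w hw w' hw' h
        have := (hs _ (hg1 w hw) _ (hg1 w' hw')).1.1 h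
        rw [hg3 w hw, hg3 w' hw'] at this
        exact this
      let K' := K.image (fun w => (g w).1)
      have hvK' : v ∉ K' := by
        intro h
        simp only [K', Finset.mem_image] at h
        obtain ⟨w, hw, h⟩ := h
        exact hv _ (hg1 w hw) h
      refine hG (insert v K') ⟨?_, ?_⟩
      · rw [Finset.coe_insert, SimpleGraph.isClique_insert]
        refine ⟨?_, ?_⟩
        · intro x hx y hy hxy
          simp only [K', Finset.coe_image, Set.mem_image, Finset.mem_coe] at hx hy
          obtain ⟨w, hw, rfl⟩ := hx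
          obtain ⟨w', hw', rfl⟩ := hy
          rw [(hs _ (hg1 w hw) _ (hg1 w' hw')).2, hg3 w hw, hg3 w' hw']
          refine hcl hw hw' ?_
          rintro rfl
          exact hxy rfl
        · intro b hb _
          simp only [K', Finset.coe_image, Set.mem_image, Finset.mem_coe] at hb
          obtain ⟨w, hw, rfl⟩ := hb
          exact (hg2 w hw).symm
      · rw [Finset.card_insert_of_notMem hvK', Finset.card_image_of_injOn hinj, hKc]
    obtain ⟨w, hwA, hwB, hw1, hw2⟩ := hH A B hAB hA
    have hadj : ∀ p ∈ s, (G.Adj p.1 v ↔ H.Adj p.2 w) := by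
      intro p hp
      by_cases hpv : G.Adj p.1 v
      · simp only [hpv, true_iff]
        exact hw1 _ (Finset.mem_image.2 ⟨p, Finset.mem_filter.2 ⟨hp, hpv⟩, rfl⟩)
      · simp only [hpv, false_iff]
        exact hw2 _ (Finset.mem_image.2 ⟨p, Finset.mem_filter.2 ⟨hp, hpv⟩, rfl⟩)
    have hne : ∀ p ∈ s, p.2 ≠ w := by
      intro p hp hpw
      by_cases hpv : G.Adj p.1 v
      · exact hwA (Finset.mem_image.2 ⟨p, Finset.mem_filter.2 ⟨hp, hpv⟩, hpw⟩)
      · exact hwB (Finset.mem_image.2 ⟨p, Finset.mem_filter.2 ⟨hp, hpv⟩, hpw⟩)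
    refine ⟨w, ?_⟩
    intro p hp q hq
    rw [Finset.mem_insert] at hp hq
    rcases hp with rfl | hp
    · rcases hq with rfl | hq
      · simp
      · refine ⟨⟨fun h => absurd h.symm (hv q hq), fun h => absurd h.symm (hne q hq)⟩, ?_⟩
        rw [G.adj_comm, H.adj_comm]
        exact hadj q hq
    · rcases hq with rfl | hq
      · refine ⟨⟨fun h => absurd h (hv p hp), fun h => absurd h (hne p hp)⟩, ?_⟩
        exact hadj p hp
      · exact hs p hp q hq

theorem pi_symm {V W : Type*} {G : SimpleGraph V} {H : SimpleGraph W} {s : Finset (V × W)}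
    (hs : PI G H s) : PI H G (s.image Prod.swap) := by
  intro p hp q hq
  simp only [Finset.mem_image] at hp hq
  obtain ⟨p, hp, rfl⟩ := hp
  obtain ⟨q, hq, rfl⟩ := hq
  exact ⟨(hs p hp q hq).1.symm, (hs p hp q hq).2.symm⟩

theorem pi_back {n : ℕ} {V W : Type*} {G : SimpleGraph V} {H : SimpleGraph W}
    (hH : H.CliqueFree (n + 1)) (hG : Ext n G) (s : Finset (V × W)) (hs : PI G H s) (w : W) :
    ∃ v, PI G H (insert (v, w) s) := by
  obtain ⟨v, hv⟩ := pi_forth hH hG _ (pi_symm hs) w
  refine ⟨v, ?_⟩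
  have := pi_symm hv
  rw [Finset.image_insert, Finset.image_image] at this
  simpa using this

/-- Two countable graphs with the extension property: every finite isomorphism extends. -/
theorem extend {n : ℕ} {V W : Type*} [Countable V] [Countable W] {G : SimpleGraph V}
    {H : SimpleGraph W} (hG : G.CliqueFree (n + 1)) (hGe : Ext n G) (hH : H.CliqueFree (n + 1))
    (hHe : Ext n H) (s : Finset (V × W)) (hs : PI G H s) :
    ∃ F : G ≃g H, ∀ p ∈ s, F p.1 = p.2 := by
  obtain ⟨e, he⟩ := Q201.BF.backForth (PI G H) (fun s hs v => pi_forth hG hHe s hs v)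
    (fun s hs w => pi_back hH hGe s hs w) (fun s hs p hp q hq => (hs p hp q hq).1) s hs
  refine ⟨⟨e, ?_⟩, ?_⟩
  · intro a b
    obtain ⟨t, ht, -, ht2, -⟩ := he {a, b}
    exact ((ht _ (ht2 a (by simp)) _ (ht2 b (by simp))).2).symm
  · intro p hp
    obtain ⟨t, ht, hst, -, ht3⟩ := he ∅
    exact (ht3 p (hst hp)).symm

/-- finite `K_(n+1)`-free graphs embed -/
theorem embed {n : ℕ} {V W : Type*} {G : SimpleGraph V} {H : SimpleGraph W}
    (hG : G.CliqueFree (n + 1)) (hHe : Ext n H) (T : Finset V) :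
    ∃ s : Finset (V × W), PI G H s ∧ ∀ v ∈ T, ∃ w, (v, w) ∈ s := by
  induction T using Finset.induction_on with
  | empty => exact ⟨∅, by intro p hp; simp at hp, by simp⟩
  | insert v T hv ih =>
    obtain ⟨s, hs, hT⟩ := ih
    obtain ⟨w, hw⟩ := pi_forth hG hHe s hs v
    refine ⟨_, hw, ?_⟩
    intro u hu
    rcases Finset.mem_insert.1 hu with rfl | hu
    · exact ⟨w, by simp⟩
    · obtain ⟨w', hw'⟩ := hT u hu
      exact ⟨w', by simp [hw']⟩

theorem embed' {n : ℕ} {V W : Type*} [Finite V] {G : SimpleGraph V} {H : SimpleGraph W}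
    (hG : G.CliqueFree (n + 1)) (hHe : Ext n H) : Nonempty (G ↪g H) := by
  have := Fintype.ofFinite V
  obtain ⟨s, hs, hT⟩ := embed hG hHe Finset.univ
  choose f hf using fun v => hT v (Finset.mem_univ v)
  refine ⟨⟨⟨f, ?_⟩, ?_⟩⟩
  · intro a b hab
    exact (hs _ (hf a) _ (hf b)).1.2 hab
  · intro a b
    exact ((hs _ (hf a) _ (hf b)).2).symm

end Q201.Hen
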