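import Mathlib

/-!
# Induced unitary representations and the universal norm on group algebras
-/

namespace Q201.GroupCStar

universe u

section Induced

variable {H : Type u} [Group H] (K : Subgroup H) {E : Type u} [NormedAddCommGroup E]
  [InnerProductSpace ℂ E] (σ : K →* (E ≃ₗᵢ[ℂ] E))

open Classical in
/-- A section of `H → H ⧸ K` sending the trivial coset to `1`. -/
noncomputable def sec (x : H ⧸ K) : H := if x = ((1 : H) : H ⧸ K) then 1 else Quotient.out x

theorem mk_sec (x : H ⧸ K) : ((sec K x : H) : H ⧸ K) = x := by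
  unfold sec
  split_ifs with h
  · exact h.symm
  · exact QuotientGroup.out_eq' x

theorem sec_one : sec K ((1 : H) : H ⧸ K) = 1 := by
  unfold sec
  rw [if_pos rfl]

/-- The cocycle. -/
noncomputable def coc (h : H) (x : H ⧸ K) : K :=
  ⟨(sec K (h • x))⁻¹ * (h * sec K x), by
    rw [← QuotientGroup.eq, mk_sec]
    conv_lhs => rw [← mk_sec K x]
    rfl⟩

theorem coc_mul (g h : H) (x : H ⧸ K) : coc K (g * h) x = coc K g (h • x) * coc K h x := by
  apply Subtype.ext
  simp only [coc, Subgroup.coe_mul, mul_smul]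
  group

theorem coc_one (x : H ⧸ K) : coc K 1 x = 1 := by
  apply Subtype.ext
  simp only [coc, one_smul, Subgroup.coe_one]
  group

theorem coc_base (k : K) : coc K (k : H) ((1 : H) : H ⧸ K) = k := by
  apply Subtype.ext
  have h : (k : H) • ((1 : H) : H ⧸ K) = ((1 : H) : H ⧸ K) := by
    have h1 : (k : H) • ((1 : H) : H ⧸ K) = (((k : H) * 1 : H) : H ⧸ K) := rfl
    rw [h1, QuotientGroup.eq]
    simp
  simp only [coc, h, sec_one]
  group

/-- The Hilbert space of the induced representation. -/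
abbrev IndSpace (E : Type u) [NormedAddCommGroup E] := lp (fun _ : H ⧸ K => E) 2

theorem two_toReal : (2 : ENNReal).toReal = 2 := by norm_num

theorem act_mem (h : H) (ξ : IndSpace K E) :
    Memℓp (fun y : H ⧸ K => σ (coc K h (h⁻¹ • y)) (ξ (h⁻¹ • y))) 2 := by
  have h1 : Memℓp (fun y : H ⧸ K => ξ y) 2 := lp.memℓp ξ
  rw [memℓp_gen_iff (by rw [two_toReal]; norm_num)] at h1 ⊢
  have h2 := (MulAction.toPerm (h⁻¹ : H) : Equiv.Perm (H ⧸ K)).summable_iff.mpr h1
  refine h2.congr fun y => ?_
  simp only [Function.comp_apply, MulAction.toPerm_apply, LinearIsometryEquiv.norm_map]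

/-- The action of `h` on the induced space. -/
noncomputable def act (h : H) (ξ : IndSpace K E) : IndSpace K E :=
  ⟨fun y => σ (coc K h (h⁻¹ • y)) (ξ (h⁻¹ • y)), act_mem K σ h ξ⟩

theorem act_apply (h : H) (ξ : IndSpace K E) (y : H ⧸ K) :
    act K σ h ξ y = σ (coc K h (h⁻¹ • y)) (ξ (h⁻¹ • y)) := rfl

theorem act_mul (g h : H) (ξ : IndSpace K E) : act K σ (g * h) ξ = act K σ g (act K σ h ξ) := by
  apply lp.ext
  funext y
  rw [act_apply, act_apply, act_apply, coc_mul, map_mul]
  have h1 : (g * h)⁻¹ • y = h⁻¹ • g⁻¹ • y := by rw [mul_inv_rev, mul_smul]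
  rw [h1, smul_inv_smul]
  rfl

theorem act_one (ξ : IndSpace K E) : act K σ 1 ξ = ξ := by
  apply lp.ext
  funext y
  rw [act_apply, coc_one, map_one, inv_one, one_smul]
  rfl

theorem act_norm (h : H) (ξ : IndSpace K E) : ‖act K σ h ξ‖ = ‖ξ‖ := by
  rw [lp.norm_eq_tsum_rpow (by rw [two_toReal]; norm_num),
    lp.norm_eq_tsum_rpow (by rw [two_toReal]; norm_num)]
  congr 1
  rw [← (MulAction.toPerm (h⁻¹ : H) : Equiv.Perm (H ⧸ K)).tsum_eq
    (fun y => ‖ξ y‖ ^ ENNReal.toReal 2)]
  refine tsum_congr fun y => ?_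
  rw [act_apply, LinearIsometryEquiv.norm_map]
  rfl

/-- The action of `h` as a linear isometric automorphism. -/
noncomputable def actEquiv (h : H) : IndSpace K E ≃ₗᵢ[ℂ] IndSpace K E where
  toFun := act K σ h
  map_add' ξ η := by
    apply lp.ext
    funext y
    simp only [act_apply, lp.coeFn_add, Pi.add_apply, map_add]
  map_smul' c ξ := by
    apply lp.ext
    funext y
    simp only [act_apply, lp.coeFn_smul, Pi.smul_apply, RingHom.id_apply, map_smul]
  invFun := act K σ h⁻¹
  left_inv ξ := by rw [← act_mul, inv_mul_cancel, act_one]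
  right_inv ξ := by rw [← act_mul, mul_inv_cancel, act_one]
  norm_map' := act_norm K σ h

/-- The induced representation. -/
noncomputable def ind : H →* (IndSpace K E ≃ₗᵢ[ℂ] IndSpace K E) where
  toFun := actEquiv K σ
  map_one' := by
    ext1 ξ
    exact act_one K σ ξ
  map_mul' g h := by
    ext1 ξ
    exact act_mul K σ g h ξ

open Classical in
theorem ind_single (k : K) (v : E) :
    ind K σ (k : H) (lp.single 2 ((1 : H) : H ⧸ K) v) =
      lp.single 2 ((1 : H) : H ⧸ K) (σ k v) := by
  apply lp.ext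
  funext y
  change act K σ (k : H) _ y = _
  rw [act_apply]
  have hk : (k : H) • ((1 : H) : H ⧸ K) = ((1 : H) : H ⧸ K) := by
    have h1 : (k : H) • ((1 : H) : H ⧸ K) = (((k : H) * 1 : H) : H ⧸ K) := rfl
    rw [h1, QuotientGroup.eq]
    simp
  by_cases hy : y = ((1 : H) : H ⧸ K)
  · subst hy
    have h1 : (k : H)⁻¹ • ((1 : H) : H ⧸ K) = ((1 : H) : H ⧸ K) := by
      rw [inv_smul_eq_iff, hk]
    rw [h1, coc_base, lp.single_apply_self, lp.single_apply_self]
  · have h1 : (k : H)⁻¹ • y ≠ ((1 : H) : H ⧸ K) := by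
      intro h
      rw [inv_smul_eq_iff, hk] at h
      exact hy h
    rw [lp.single_apply_ne _ _ _ h1, lp.single_apply_ne _ _ _ hy, map_zero]

end Induced

section Norm

/-- A unitary representation applied to a formal linear combination of group elements. -/
noncomputable def repSum {G : Type u} [Group G] {A : Type*} [Ring A] [Module ℂ A]
    (π : G →* A) (f : G →₀ ℂ) : A := f.sum fun g c => c • π g

/-- The norms of `f` in the unitary representations of `G`. -/
def repNorms (G : Type u) [Group G] (f : G →₀ ℂ) : Set ℝ :=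
  {r | ∃ (E : Type u) (_ : NormedAddCommGroup E) (_ : InnerProductSpace ℂ E) (_ : CompleteSpace E)
    (π : G →* unitary (E →L[ℂ] E)), r = ‖f.sum fun g c => c • (π g : E →L[ℂ] E)‖}

/-- The universal norm on the group algebra. -/
noncomputable def univNorm (G : Type u) [Group G] (f : G →₀ ℂ) : ℝ := sSup (repNorms G f)

variable {G : Type u} [Group G]

theorem norm_unitary_le {E : Type u} [NormedAddCommGroup E] [InnerProductSpace ℂ E]
    [CompleteSpace E] (U : unitary (E →L[ℂ] E)) : ‖(U : E →L[ℂ] E)‖ ≤ 1 := by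
  refine ContinuousLinearMap.opNorm_le_bound _ zero_le_one fun x => ?_
  rw [one_mul]
  exact (ContinuousLinearMap.norm_map_of_mem_unitary U.2 x).le

theorem repNorms_bdd (f : G →₀ ℂ) : BddAbove (repNorms G f) := by
  refine ⟨f.sum fun _ c => ‖c‖, ?_⟩
  rintro _ ⟨E, _, _, _, π, rfl⟩
  unfold Finsupp.sum
  refine (norm_sum_le _ _).trans (Finset.sum_le_sum fun g _ => ?_)
  rw [norm_smul]
  exact mul_le_of_le_one_right (norm_nonneg _) (norm_unitary_le _)

theorem repNorms_nonempty (f : G →₀ ℂ) : (repNorms G f).Nonempty :=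
  ⟨_, EuclideanSpace ℂ PUnit.{u + 1}, inferInstance, inferInstance, inferInstance, 1, rfl⟩

theorem le_univNorm (f : G →₀ ℂ) {E : Type u} [NormedAddCommGroup E] [InnerProductSpace ℂ E]
    [CompleteSpace E] (π : G →* unitary (E →L[ℂ] E)) :
    ‖f.sum fun g c => c • (π g : E →L[ℂ] E)‖ ≤ univNorm G f :=
  le_csSup (repNorms_bdd f) ⟨E, _, _, _, π, rfl⟩

/-- The inducing step: a representation of the group generated by `a` gives one of `H`. -/
theorem exists_rep {H : Type u} [Group H] {ι : Type} (a : ι → G) (b : ι → H)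
    (hab : ∀ w : FreeGroup ι, FreeGroup.lift b w = 1 → FreeGroup.lift a w = 1)
    {E : Type u} [NormedAddCommGroup E] [InnerProductSpace ℂ E] [CompleteSpace E]
    (π : G →* unitary (E →L[ℂ] E)) (c : FreeGroup ι →₀ ℂ) :
    ‖c.sum fun w z => z • (π (FreeGroup.lift a w) : E →L[ℂ] E)‖ ≤
      univNorm H (c.mapDomain (FreeGroup.lift b)) := by
  classical
  set K : Subgroup H := (FreeGroup.lift b).range with hK
  set π' : FreeGroup ι →* (E ≃ₗᵢ[ℂ] E) :=
    (Unitary.linearIsometryEquiv.toMonoidHom.comp π).comp (FreeGroup.lift a) with hπ'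
  have hsurj : Function.Surjective (FreeGroup.lift b).rangeRestrict :=
    (FreeGroup.lift b).rangeRestrict_surjective
  have hker : (FreeGroup.lift b).rangeRestrict.ker ≤ π'.ker := by
    intro w hw
    rw [MonoidHom.mem_ker] at hw ⊢
    have h1 : FreeGroup.lift b w = 1 := congrArg Subtype.val hw
    rw [hπ', MonoidHom.comp_apply, hab w h1, map_one]
  set σ : K →* (E ≃ₗᵢ[ℂ] E) := (FreeGroup.lift b).rangeRestrict.liftOfSurjective hsurj
    ⟨π', hker⟩ with hσ
  have hσw : ∀ w, σ ((FreeGroup.lift b).rangeRestrict w) = π' w := fun w =>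
    MonoidHom.liftOfRightInverse_comp_apply _ _ _ _ _
  set ρ : H →* unitary (IndSpace K E →L[ℂ] IndSpace K E) :=
    Unitary.linearIsometryEquiv.symm.toMonoidHom.comp (ind K σ) with hρ
  have h1 : ‖c.sum fun w z => z • (π (FreeGroup.lift a w) : E →L[ℂ] E)‖ ≤
      ‖c.sum fun w z => z • (ρ (FreeGroup.lift b w) : IndSpace K E →L[ℂ] IndSpace K E)‖ := by
    refine ContinuousLinearMap.opNorm_le_bound _ (norm_nonneg _) fun v => ?_
    have h2 : (c.sum fun w z => z • (ρ (FreeGroup.lift b w) : IndSpace K E →L[ℂ] IndSpace K E))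
        (lp.single 2 ((1 : H) : H ⧸ K) v) = lp.single 2 ((1 : H) : H ⧸ K)
          ((c.sum fun w z => z • (π (FreeGroup.lift a w) : E →L[ℂ] E)) v) := by
      unfold Finsupp.sum
      rw [sum_apply, sum_apply]
      have h3 : ∀ (s : Finset (FreeGroup ι)) (f : FreeGroup ι → E),
          lp.single 2 ((1 : H) : H ⧸ K) (∑ w ∈ s, f w) =
            ∑ w ∈ s, (lp.single 2 ((1 : H) : H ⧸ K) (f w) : IndSpace K E) := fun s f =>
        map_sum (lp.singleAddMonoidHom (E := fun _ : H ⧸ K => E) 2 ((1 : H) : H ⧸ K)) f s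
      rw [h3]
      refine Finset.sum_congr rfl fun w _ => ?_
      rw [smul_apply, smul_apply, lp.single_smul]
      congr 1
      have h4 := ind_single K σ ((FreeGroup.lift b).rangeRestrict w) v
      rw [hσw] at h4
      exact h4
    have h3 := ContinuousLinearMap.le_opNorm
      (c.sum fun w z => z • (ρ (FreeGroup.lift b w) : IndSpace K E →L[ℂ] IndSpace K E))
      (lp.single 2 ((1 : H) : H ⧸ K) v)
    rw [h2, lp.norm_single (by norm_num), lp.norm_single (by norm_num)] at h3
    exact h3
  refine h1.trans ?_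
  have h2 := le_univNorm (c.mapDomain (FreeGroup.lift b)) ρ
  rw [Finsupp.sum_mapDomain_index (by simp) (by intro x y z; rw [add_smul])] at h2
  exact h2

/-- The universal norm depends only on the marked subgroup generated by a tuple. -/
theorem univNorm_eq {H : Type u} [Group H] {ι : Type} (a : ι → G) (b : ι → H)
    (hab : ∀ w : FreeGroup ι, FreeGroup.lift a w = 1 ↔ FreeGroup.lift b w = 1)
    (c : FreeGroup ι →₀ ℂ) :
    univNorm G (c.mapDomain (FreeGroup.lift a)) = univNorm H (c.mapDomain (FreeGroup.lift b)) := by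
  apply le_antisymm
  · refine csSup_le (repNorms_nonempty _) ?_
    rintro _ ⟨E, _, _, _, π, rfl⟩
    rw [Finsupp.sum_mapDomain_index (by simp) (by intro x y z; rw [add_smul])]
    exact exists_rep a b (fun w hw => (hab w).mpr hw) π c
  · refine csSup_le (repNorms_nonempty _) ?_
    rintro _ ⟨E, _, _, _, π, rfl⟩
    rw [Finsupp.sum_mapDomain_index (by simp) (by intro x y z; rw [add_smul])]
    exact exists_rep b a (fun w hw => (hab w).mp hw) π c

end Norm

end Q201.GroupCStar
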