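import Mathlib
import Pool.Agent.Q201.Comp

set_option autoImplicit false

/-!
A computable copy of the algebra of finite and cofinite sets in which the ideal of finite
elements is not computable.  It is the interval algebra of `1 + M` where `M` is a computable
linear order of type `ω + ω*` whose initial part `ω` is not computable.
-/

namespace Q201.IA

open Q201.Comp

variable (g : ℕ → ℕ)

/-- `n` appears to be a true stage at `m` -/
def T (n m : ℕ) : Prop := ∀ k, n < k → k ≤ m → g n < g k

/-- the strict order -/
def lt (a b : ℕ) : Prop := (a < b ∧ T g a b) ∨ (b < a ∧ ¬ T g b a)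

/-- the order -/
def le (a b : ℕ) : Prop := a = b ∨ lt g a b

theorem lt_irrefl (a : ℕ) : ¬ lt g a a := by
  rintro (h | h) <;> omega

theorem total (a b : ℕ) (h : a ≠ b) : lt g a b ∨ lt g b a := by
  unfold lt
  rcases lt_or_gt_of_ne h with h1 | h1
  · by_cases hT : T g a b
    · exact Or.inl (Or.inl ⟨h1, hT⟩)
    · exact Or.inr (Or.inr ⟨h1, hT⟩)
  · by_cases hT : T g b a
    · exact Or.inr (Or.inl ⟨h1, hT⟩)
    · exact Or.inl (Or.inr ⟨h1, hT⟩)

theorem lt_trans {a b c : ℕ} (h1 : lt g a b) (h2 : lt g b c) : lt g a c := by
  rcases h1 with ⟨hab, h1⟩ | ⟨hab, h1⟩ <;> rcases h2 with ⟨hbc, h2⟩ | ⟨hbc, h2⟩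
  · left
    refine ⟨by omega, fun k hk1 hk2 => ?_⟩
    rcases le_or_gt k b with h | h
    · exact h1 k hk1 h
    · exact (h1 b hab le_rfl).trans (h2 k h hk2)
  · rcases lt_trichotomy a c with hac | hac | hac
    · exact Or.inl ⟨hac, fun k hk1 hk2 => h1 k hk1 (by omega)⟩
    · subst hac
      exact absurd h1 h2
    · right
      refine ⟨hac, fun h3 => h2 ?_⟩
      intro k hk1 hk2
      rcases le_or_gt k a with h | h
      · exact h3 k hk1 h
      · exact (h3 a hac le_rfl).trans (h1 k h hk2)
  · rcases lt_trichotomy a c with hac | hac | hac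
    · exact absurd (fun k hk1 hk2 => h2 k hk1 (by omega)) h1
    · subst hac
      exact absurd h2 h1
    · right
      refine ⟨hac, fun h3 => h1 ?_⟩
      intro k hk1 hk2
      rcases le_or_gt k c with h | h
      · exact h2 k hk1 h
      · exact (h2 c hbc le_rfl).trans (h3 k h hk2)
  · right
    refine ⟨by omega, fun h3 => h2 ?_⟩
    intro k hk1 hk2
    exact h3 k hk1 (by omega)

theorem lt_asymm {a b : ℕ} (h1 : lt g a b) (h2 : lt g b a) : False :=
  lt_irrefl g a (lt_trans g h1 h2)

theorem le_trans {a b c : ℕ} (h1 : le g a b) (h2 : le g b c) : le g a c := by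
  rcases h1 with rfl | h1
  · exact h2
  · rcases h2 with rfl | h2
    · exact Or.inr h1
    · exact Or.inr (lt_trans g h1 h2)

theorem not_le {a b : ℕ} : ¬ le g a b ↔ lt g b a := by
  constructor
  · intro h
    have hne : a ≠ b := fun h' => h (Or.inl h')
    rcases total g a b hne with h1 | h1
    · exact absurd (Or.inr h1) h
    · exact h1
  · rintro h (rfl | h1)
    · exact lt_irrefl g a h
    · exact lt_asymm g h h1

theorem exists_greatest (V : Finset ℕ) (hV : V.Nonempty) : ∃ z ∈ V, ∀ w ∈ V, le g w z := by
  induction hV using Finset.Nonempty.cons_induction with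
  | singleton a => exact ⟨a, by simp, fun w hw => Or.inl (Finset.mem_singleton.1 hw)⟩
  | cons a s ha hs ih =>
    obtain ⟨z, hz, hmax⟩ := ih
    by_cases haz : le g z a
    · refine ⟨a, by simp, fun w hw => ?_⟩
      rcases Finset.mem_cons.1 hw with rfl | hw
      · exact Or.inl rfl
      · exact le_trans g (hmax w hw) haz
    · refine ⟨z, by simp [hz], fun w hw => ?_⟩
      rcases Finset.mem_cons.1 hw with rfl | hw
      · exact Or.inr ((not_le g).1 haz)
      · exact hmax w hw

theorem exists_least (V : Finset ℕ) (hV : V.Nonempty) : ∃ z ∈ V, ∀ w ∈ V, le g z w := by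
  induction hV using Finset.Nonempty.cons_induction with
  | singleton a => exact ⟨a, by simp, fun w hw => Or.inl (Finset.mem_singleton.1 hw).symm⟩
  | cons a s ha hs ih =>
    obtain ⟨z, hz, hmin⟩ := ih
    by_cases haz : le g a z
    · refine ⟨a, by simp, fun w hw => ?_⟩
      rcases Finset.mem_cons.1 hw with rfl | hw
      · exact Or.inl rfl
      · exact le_trans g haz (hmin w hw)
    · refine ⟨z, by simp [hz], fun w hw => ?_⟩
      rcases Finset.mem_cons.1 hw with rfl | hw
      · exact Or.inr ((not_le g).1 haz)
      · exact hmin w hw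

/-- true stages -/
def Tr (n : ℕ) : Prop := ∀ k, n < k → g n < g k

variable {g}

theorem exists_true (hg : Function.Injective g) (N : ℕ) : ∃ n, N ≤ n ∧ Tr g n := by
  classical
  have hex : ∃ v, ∃ n, N ≤ n ∧ g n = v := ⟨_, N, le_rfl, rfl⟩
  obtain ⟨n, hn, hv⟩ := Nat.find_spec hex
  refine ⟨n, hn, fun k hk => ?_⟩
  have h1 : Nat.find hex ≤ g k := Nat.find_min' hex ⟨k, by omega, rfl⟩
  rw [← hv] at h1
  exact lt_of_le_of_ne h1 (fun h => by have := hg h; omega)

theorem le_of_true {n m : ℕ} (hn : Tr g n) (h : n < m) : lt g n m :=
  Or.inl ⟨h, fun k hk _ => hn k hk⟩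

theorem exists_lt_of_false (hg : Function.Injective g) {n : ℕ} (hn : ¬ Tr g n) :
    ∃ N, ∀ m, N ≤ m → lt g m n := by
  unfold Tr at hn
  push Not at hn
  obtain ⟨k, hk, hkn⟩ := hn
  refine ⟨k, fun m hm => Or.inr ⟨by omega, fun h => ?_⟩⟩
  have := h k hk hm
  omega

/-- the relation `le i y` is eventually constant in `y` -/
theorem eventually (hg : Function.Injective g) (i : ℕ) :
    ∃ N, ∀ y, N ≤ y → (le g i y ↔ Tr g i) := by
  by_cases hi : Tr g i
  · refine ⟨i + 1, fun y hy => ?_⟩
    simp only [hi, iff_true]
    exact Or.inr (le_of_true hi (by omega))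
  · obtain ⟨N, hN⟩ := exists_lt_of_false hg hi
    refine ⟨N, fun y hy => ?_⟩
    simp only [hi, iff_false]
    exact (not_le g).2 (hN y hy)

theorem finite_below {z : ℕ} (hz : Tr g z) : {w | le g w z}.Finite := by
  refine (Set.finite_Iic z).subset ?_
  intro w hw
  by_contra h
  have h' : z < w := by
    by_contra h2
    exact h (Set.mem_Iic.2 (by omega))
  exact (not_le g).2 (le_of_true hz h') hw

/-- least element of a set of the form `{z | y < z}` -/
theorem exists_succ (hg : Function.Injective g) (y : ℕ) (hne : ∃ z, lt g y z) :
    ∃ z, lt g y z ∧ ∀ w, lt g y w → le g z w := by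
  classical
  obtain ⟨v, hv, hfin⟩ : ∃ v, lt g y v ∧ {w | lt g y w ∧ le g w v}.Finite := by
    by_cases hy : Tr g y
    · obtain ⟨v, hyv, hv⟩ := exists_true hg (y + 1)
      exact ⟨v, le_of_true hy (by omega), (finite_below hv).subset fun w hw => hw.2⟩
    · obtain ⟨N, hN⟩ := exists_lt_of_false hg hy
      obtain ⟨z, hz⟩ := hne
      refine ⟨z, hz, (Set.finite_Iio N).subset fun w hw => ?_⟩
      by_contra h
      simp only [Set.mem_Iio, not_lt] at h
      exact lt_asymm g (hN w h) hw.1
  obtain ⟨z, hz, hmin⟩ := exists_least g hfin.toFinset ⟨v, by simpa using ⟨hv, Or.inl rfl⟩⟩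
  rw [Set.Finite.mem_toFinset] at hz
  refine ⟨z, hz.1, fun w hw => ?_⟩
  by_cases hwv : le g w v
  · exact hmin w (by rw [Set.Finite.mem_toFinset]; exact ⟨hw, hwv⟩)
  · exact le_trans g hz.2 (Or.inr ((not_le g).1 hwv))

theorem exists_min (hg : Function.Injective g) : ∃ z, ∀ w, le g z w := by
  classical
  obtain ⟨v, -, hv⟩ := exists_true hg 0
  have hfin := finite_below hv
  obtain ⟨z, hz, hmin⟩ := exists_least g hfin.toFinset ⟨v, by
    rw [Set.Finite.mem_toFinset]; exact Or.inl rfl⟩
  rw [Set.Finite.mem_toFinset] at hz
  refine ⟨z, fun w => ?_⟩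
  by_cases hwv : le g w v
  · exact hmin w (by rw [Set.Finite.mem_toFinset]; exact hwv)
  · exact le_trans g hz (Or.inr ((not_le g).1 hwv))

/-! ### codes -/

open Classical in
/-- the number of changes of the code `n` up to `y`; only digits below `N` are looked at -/
noncomputable def cnt (g : ℕ → ℕ) (N n y : ℕ) : ℕ :=
  ∑ i ∈ Finset.range N, (n.testBit (i + 1) && decide (le g i y)).toNat

theorem testBit_false {n i : ℕ} (h : n ≤ i) : n.testBit i = false :=
  Nat.testBit_lt_two_pow (h.trans_lt Nat.lt_two_pow_self)

theorem cnt_eq (N n y : ℕ) (h : n ≤ N) : cnt g N n y = cnt g n n y := by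
  unfold cnt
  symm
  apply Finset.sum_subset
  · intro i hi
    simp only [Finset.mem_range] at hi ⊢
    omega
  · intro i _ hi
    simp only [Finset.mem_range, not_lt] at hi
    rw [testBit_false (by omega)]
    rfl

/-- the characteristic function of the set coded by `n` -/
noncomputable def val (g : ℕ → ℕ) (n : ℕ) : Option ℕ → Bool
  | none => n.testBit 0
  | some y => xor (n.testBit 0) (decide (cnt g n n y % 2 = 1))

theorem xor_par (a b : Bool) : (xor a b).toNat % 2 = (a.toNat + b.toNat) % 2 := by
  cases a <;> cases b <;> rfl

theorem sum_par (N : ℕ) (a b : ℕ → ℕ) (h : ∀ i, a i % 2 = b i % 2) :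
    (∑ i ∈ Finset.range N, a i) % 2 = (∑ i ∈ Finset.range N, b i) % 2 := by
  induction N with
  | zero => rfl
  | succ N ih =>
    rw [Finset.sum_range_succ, Finset.sum_range_succ]
    have := h N
    omega

theorem cnt_xor (N m n y : ℕ) :
    cnt g N (m ^^^ n) y % 2 = (cnt g N m y + cnt g N n y) % 2 := by
  classical
  unfold cnt
  rw [← Finset.sum_add_distrib]
  apply sum_par
  intro i
  rw [Nat.testBit_xor]
  cases m.testBit (i + 1) <;> cases n.testBit (i + 1) <;>
    by_cases h : le g i y <;> simp [h]

theorem val_xor (m n : ℕ) (x : Option ℕ) :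
    val g (m ^^^ n) x = xor (val g m x) (val g n x) := by
  cases x with
  | none => exact Nat.testBit_xor m n 0
  | some y =>
    have h1 := cnt_xor (g := g) (max (m ^^^ n) (max m n)) m n y
    rw [cnt_eq _ _ _ (le_max_left _ _),
      cnt_eq _ m _ ((le_max_left _ _).trans (le_max_right _ _)),
      cnt_eq _ n _ ((le_max_right _ _).trans (le_max_right _ _))] at h1
    simp only [val, Nat.testBit_xor]
    have h2 : decide (cnt g (m ^^^ n) (m ^^^ n) y % 2 = 1) =
        xor (decide (cnt g m m y % 2 = 1)) (decide (cnt g n n y % 2 = 1)) := by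
      rw [h1]
      rcases Nat.mod_two_eq_zero_or_one (cnt g m m y) with h3 | h3 <;>
        rcases Nat.mod_two_eq_zero_or_one (cnt g n n y) with h4 | h4 <;>
        simp [Nat.add_mod, h3, h4]
    rw [h2]
    cases m.testBit 0 <;> cases n.testBit 0 <;> simp

theorem val_one (x : Option ℕ) : val g 1 x = true := by
  cases x with
  | none => simp [val]
  | some y =>
    have : cnt g 1 1 y = 0 := by
      unfold cnt
      rw [Finset.sum_range_one]
      rfl
    simp [val, this]

theorem val_pow (s : ℕ) : val g (2 ^ (s + 1)) none = false ∧
    ∀ y, val g (2 ^ (s + 1)) (some y) = true ↔ le g s y := by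
  classical
  have h0 : (2 ^ (s + 1)).testBit 0 = false := by
    rw [Nat.testBit_two_pow]; simp
  refine ⟨h0, fun y => ?_⟩
  have h1 : cnt g (2 ^ (s + 1)) (2 ^ (s + 1)) y = (decide (le g s y)).toNat := by
    unfold cnt
    rw [Finset.sum_eq_single s]
    · rw [Nat.testBit_two_pow]; simp
    · intro i _ hi
      rw [Nat.testBit_two_pow]
      have : ¬ (s = i) := fun h => hi h.symm
      simp [this]
    · intro h
      exfalso
      apply h
      rw [Finset.mem_range]
      exact (Nat.lt_succ_self s).trans Nat.lt_two_pow_self
  simp only [val, h0, h1]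
  by_cases h : le g s y <;> simp [h]

theorem val_kernel {n : ℕ} (h : ∀ x, val g n x = false) : n = 0 := by
  classical
  have h0 : n.testBit 0 = false := h none
  by_contra hn
  obtain ⟨j, hj⟩ : ∃ j, n.testBit j = true := by
    by_contra hall
    push Not at hall
    apply hn
    apply Nat.eq_of_testBit_eq
    intro i
    rw [Nat.zero_testBit]
    simpa using hall i
  have hj0 : j ≠ 0 := by
    rintro rfl
    rw [h0] at hj
    exact absurd hj (by simp)
  obtain ⟨i, rfl⟩ : ∃ i, j = i + 1 := ⟨j - 1, by omega⟩
  have hlt : ∀ i, n.testBit (i + 1) = true → i < n := by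
    intro i hi
    by_contra hcon
    rw [testBit_false (by omega)] at hi
    exact absurd hi (by simp)
  obtain ⟨z, hz, hmin⟩ := exists_least g
    ((Finset.range n).filter (fun i => n.testBit (i + 1) = true)) ⟨i, by
      simp only [Finset.mem_filter, Finset.mem_range]
      exact ⟨hlt i hj, hj⟩⟩
  simp only [Finset.mem_filter, Finset.mem_range] at hz hmin
  have h1 : cnt g n n z = 1 := by
    unfold cnt
    rw [Finset.sum_eq_single z]
    · rw [hz.2]
      have : le g z z := Or.inl rfl
      simp [this]
    · intro k hk hkz
      cases hb : n.testBit (k + 1) with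
      | false => simp
      | true =>
        have h2 : ¬ le g k z := by
          intro h3
          rcases h3 with h3 | h3
          · exact hkz h3
          · have h4 := hmin k ⟨Finset.mem_range.1 hk, hb⟩
            exact (not_le g).2 h3 h4
        simp [h2]
    · intro h2
      exact absurd (Finset.mem_range.2 hz.1) h2
  have h2 := h (some z)
  simp [val, h0, h1] at h2

theorem val_injective : Function.Injective (val g) := by
  intro m n h
  have h1 : m ^^^ n = 0 := by
    apply val_kernel (g := g)
    intro x
    rw [val_xor, h]
    simp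
  exact Nat.xor_eq_zero_iff.1 h1

/-- sets which are finite or cofinite -/
def FC (h : Option ℕ → Bool) : Prop := {x | h x = true}.Finite ∨ {x | h x = false}.Finite

theorem val_FC (hg : Function.Injective g) (n : ℕ) : FC (val g n) := by
  classical
  choose N hN using fun i => eventually hg i
  have hB : ∀ i < n, N i ≤ (Finset.range n).sup N := fun i hi =>
    Finset.le_sup (f := N) (Finset.mem_range.2 hi)
  set B := (Finset.range n).sup N
  have h1 : ∀ y, B ≤ y → val g n (some y) = val g n (some B) := by
    intro y hy
    have h2 : cnt g n n y = cnt g n n B := by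
      unfold cnt
      apply Finset.sum_congr rfl
      intro i hi
      have hi' := hB i (Finset.mem_range.1 hi)
      congr 2
      apply decide_eq_decide.2
      rw [hN i y (by omega), hN i B hi']
    simp only [val, h2]
  have h3 : (insert none (some '' Set.Iio B) : Set (Option ℕ)).Finite :=
    ((Set.finite_Iio B).image _).insert _
  have h4 : ∀ x, x ∉ (insert none (some '' Set.Iio B) : Set (Option ℕ)) →
      val g n x = val g n (some B) := by
    intro x hx
    cases x with
    | none => simp at hx
    | some y =>
      apply h1
      by_contra hlt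
      apply hx
      right
      exact ⟨y, by simpa using hlt, rfl⟩
  cases hb : val g n (some B) with
  | false =>
    left
    refine h3.subset fun x hx => ?_
    by_contra hcon
    have := h4 x hcon
    rw [hb] at this
    have hx' : val g n x = true := hx
    rw [this] at hx'
    exact absurd hx' (by simp)
  | true =>
    right
    refine h3.subset fun x hx => ?_
    by_contra hcon
    have := h4 x hcon
    rw [hb] at this
    have hx' : val g n x = false := hx
    rw [this] at hx'
    exact absurd hx' (by simp)

theorem exists_single (hg : Function.Injective g) (x : Option ℕ) :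
    ∃ n, ∀ y, val g n y = true ↔ y = x := by
  cases x with
  | none =>
    obtain ⟨z, hz⟩ := exists_min hg
    refine ⟨1 ^^^ 2 ^ (z + 1), fun y => ?_⟩
    rw [val_xor, val_one]
    cases y with
    | none => rw [(val_pow z).1]; simp
    | some y =>
      have := ((val_pow (g := g) z).2 y).2 (hz y)
      rw [this]
      simp
  | some s =>
    by_cases hne : ∃ z, lt g s z
    · obtain ⟨z, hz, hmin⟩ := exists_succ hg s hne
      refine ⟨2 ^ (s + 1) ^^^ 2 ^ (z + 1), fun y => ?_⟩
      rw [val_xor]
      cases y with
      | none => rw [(val_pow z).1, (val_pow s).1]; simp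
      | some y =>
        have h1 := (val_pow (g := g) z).2 y
        have h2 := (val_pow (g := g) s).2 y
        have h3 : ∀ a b : Bool, (xor a b = true) ↔ ¬ (a = true ↔ b = true) := by decide
        rw [h3, h1, h2, Option.some.injEq]
        constructor
        · intro h4
          by_contra hys
          apply h4
          constructor
          · intro h5
            rcases h5 with h5 | h5
            · exact absurd h5.symm hys
            · exact hmin y h5
          · intro h5
            exact le_trans g (Or.inr hz) h5
        · rintro rfl h4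
          exact (not_le g).2 hz (h4.1 (Or.inl rfl))
    · refine ⟨2 ^ (s + 1), fun y => ?_⟩
      cases y with
      | none => rw [(val_pow s).1]; simp
      | some y =>
        rw [(val_pow s).2, Option.some.injEq]
        constructor
        · rintro (h | h)
          · exact h.symm
          · exact absurd ⟨y, h⟩ hne
        · rintro rfl
          exact Or.inl rfl

theorem exists_finset (hg : Function.Injective g) (F : Finset (Option ℕ)) :
    ∃ n, ∀ y, val g n y = true ↔ y ∈ F := by
  classical
  induction F using Finset.induction_on with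
  | empty =>
    refine ⟨0, fun y => ?_⟩
    cases y with
    | none => simp [val]
    | some y =>
      have : cnt g 0 0 y = 0 := by simp [cnt]
      simp [val, this]
  | insert a F ha ih =>
    obtain ⟨n, hn⟩ := ih
    obtain ⟨m, hm⟩ := exists_single hg a
    refine ⟨m ^^^ n, fun y => ?_⟩
    rw [val_xor]
    have h3 : ∀ a b : Bool, (xor a b = true) ↔ ¬ (a = true ↔ b = true) := by decide
    rw [h3, hm, hn, Finset.mem_insert]
    constructor
    · intro h
      tauto
    · rintro (rfl | h)
      · simp [ha]
      · intro h4
        have := h4.2 h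
        subst this
        exact ha h

theorem exists_val (hg : Function.Injective g) (h : Option ℕ → Bool) (hfc : FC h) :
    ∃ n, val g n = h := by
  classical
  rcases hfc with hf | hf
  · obtain ⟨n, hn⟩ := exists_finset hg hf.toFinset
    refine ⟨n, ?_⟩
    funext y
    rw [Bool.eq_iff_iff, hn, Set.Finite.mem_toFinset]
    rfl
  · obtain ⟨n, hn⟩ := exists_finset hg hf.toFinset
    refine ⟨1 ^^^ n, ?_⟩
    funext y
    rw [val_xor, val_one]
    have h1 := hn y
    rw [Set.Finite.mem_toFinset] at h1
    change _ ↔ h y = false at h1
    cases hv : val g n y <;> cases hh : h y <;> simp_all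

/-! ### computability -/

theorem comp_T (hc : Computable g) {α : Type*} [Primcodable α] {f1 f2 : α → ℕ}
    (h1 : Computable f1) (h2 : Computable f2) :
    ∃ P : α → Bool, Computable P ∧ ∀ a, P a = true ↔ T g (f1 a) (f2 a) := by
  refine ⟨fun a => decide (∀ i < f2 a + 1,
    (fun (a : α) (i : ℕ) => (!(decide (f1 a < i))) || decide (g (f1 a) < g i)) a i = true), ?_, ?_⟩
  · refine ball ?_ (succ1 h2)
    refine or2 (not1 (lt2 (h1.comp Computable.fst) Computable.snd)) ?_
    exact lt2 (hc.comp (h1.comp Computable.fst)) (hc.comp Computable.snd)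
  · intro a
    simp only [decide_eq_true_eq, Bool.or_eq_true, Bool.not_eq_true', decide_eq_false_iff_not]
    constructor
    · intro h k hk1 hk2
      rcases h k (by omega) with h3 | h3
      · exact absurd hk1 h3
      · exact h3
    · intro h i hi
      by_cases h3 : f1 a < i
      · exact Or.inr (h i h3 (by omega))
      · exact Or.inl h3

theorem comp_le (hc : Computable g) {α : Type*} [Primcodable α] {f1 f2 : α → ℕ}
    (h1 : Computable f1) (h2 : Computable f2) :
    ∃ P : α → Bool, Computable P ∧ ∀ a, P a = true ↔ le g (f1 a) (f2 a) := by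
  obtain ⟨P1, hP1, hP1'⟩ := comp_T hc h1 h2
  obtain ⟨P2, hP2, hP2'⟩ := comp_T hc h2 h1
  refine ⟨fun a => decide (f1 a = f2 a) || ((decide (f1 a < f2 a) && P1 a) ||
    (decide (f2 a < f1 a) && !(P2 a))), ?_, ?_⟩
  · exact or2 (eq2 h1 h2) (or2 (and2 (lt2 h1 h2) hP1) (and2 (lt2 h2 h1) (not1 hP2)))
  · intro a
    have h5 : P2 a = false ↔ ¬ T g (f2 a) (f1 a) := by
      rw [← hP2']; simp
    simp only [Bool.or_eq_true, decide_eq_true_eq, Bool.and_eq_true, Bool.not_eq_true', le, lt,
      hP1', h5]

/-- `val` as a computable function of the code and of a point -/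
theorem comp_val (hc : Computable g) {α : Type*} [Primcodable α] {f1 f2 : α → ℕ}
    (h1 : Computable f1) (h2 : Computable f2) :
    Computable (fun a => val g (f1 a) (some (f2 a))) := by
  classical
  obtain ⟨P, hP, hP'⟩ := comp_le (g := g) (α := α × ℕ) hc Computable.snd (h2.comp Computable.fst)
  have h3 : Computable (fun a : α => ∑ i ∈ Finset.range (f1 a),
      ((f1 a).testBit (i + 1) && P (a, i)).toNat) := by
    refine sum (F := fun a i => ((f1 a).testBit (i + 1) && P (a, i)).toNat) ?_ h1
    refine toNat.comp (and2 (testBit (h1.comp Computable.fst) (succ1 Computable.snd)) ?_)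
    exact hP
  have h4 : Computable (fun a : α => xor ((f1 a).testBit 0)
      (decide ((∑ i ∈ Finset.range (f1 a),
      ((f1 a).testBit (i + 1) && P (a, i)).toNat) % 2 = 1))) := by
    refine xor2 (testBit h1 (Computable.const 0)) ?_
    exact eq2 (mod2 h3 (Computable.const 2)) (Computable.const 1)
  refine h4.of_eq (fun a => ?_)
  simp only [val, cnt]
  congr 6
  funext i
  congr 2
  have := hP' (a, i)
  simp only at this
  rw [Bool.eq_iff_iff, this]
  simp

/-- three codes which satisfy a Boolean identity at their common change points satisfy it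
everywhere -/
theorem agree (G : Bool → Bool → Bool) (m n k : ℕ)
    (h0 : val g k none = G (val g m none) (val g n none))
    (h : ∀ y < m + n + k, val g k (some y) = G (val g m (some y)) (val g n (some y))) :
    ∀ x, val g k x = G (val g m x) (val g n x) := by
  classical
  intro x
  cases x with
  | none => exact h0
  | some y =>
    -- the change points of the three codes up to `y`
    let V := (Finset.range (m + n + k)).filter (fun i => le g i y ∧
      (m.testBit (i + 1) = true ∨ n.testBit (i + 1) = true ∨ k.testBit (i + 1) = true))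
    by_cases hV : V.Nonempty
    · obtain ⟨z, hz, hmax⟩ := exists_greatest g V hV
      have hz' := Finset.mem_filter.1 hz
      have key : ∀ c, (c = m ∨ c = n ∨ c = k) → val g c (some y) = val g c (some z) := by
        intro c hc
        have h1 : cnt g c c y = cnt g c c z := by
          unfold cnt
          apply Finset.sum_congr rfl
          intro i hi
          cases hb : c.testBit (i + 1) with
          | false => simp
          | true =>
            congr 2
            apply decide_eq_decide.2
            constructor
            · intro h2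
              apply hmax
              apply Finset.mem_filter.2
              have hi' := Finset.mem_range.1 hi
              refine ⟨Finset.mem_range.2 ?_, h2, ?_⟩
              · rcases hc with rfl | rfl | rfl <;> omega
              · rcases hc with rfl | rfl | rfl <;> simp [hb]
            · intro h2
              exact le_trans g h2 hz'.2.1
        simp only [val, h1]
      rw [key m (Or.inl rfl), key n (Or.inr (Or.inl rfl)), key k (Or.inr (Or.inr rfl))]
      exact h z (Finset.mem_range.1 hz'.1)
    · have key : ∀ c, (c = m ∨ c = n ∨ c = k) → val g c (some y) = val g c none := by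
        intro c hc
        have h1 : cnt g c c y = 0 := by
          unfold cnt
          apply Finset.sum_eq_zero
          intro i hi
          cases hb : c.testBit (i + 1) with
          | false => simp
          | true =>
            have h2 : ¬ le g i y := by
              intro h2
              apply hV
              refine ⟨i, Finset.mem_filter.2 ?_⟩
              have hi' := Finset.mem_range.1 hi
              refine ⟨Finset.mem_range.2 ?_, h2, ?_⟩
              · rcases hc with rfl | rfl | rfl <;> omega
              · rcases hc with rfl | rfl | rfl <;> simp [hb]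
            simp [h2]
        simp [val, h1]
      rw [key m (Or.inl rfl), key n (Or.inr (Or.inl rfl)), key k (Or.inr (Or.inr rfl))]
      exact h0

/-- a Boolean operation is computable on the codes -/
theorem comp_op (hc : Computable g) (G : Bool → Bool → Bool) (o : ℕ → ℕ → ℕ)
    (ho : ∀ m n x, val g (o m n) x = G (val g m x) (val g n x)) : Computable₂ o := by
  classical
  have hG : Computable (fun p : Bool × Bool => G p.1 p.2) := (Primrec.dom_finite _).to_comp
  let P : ℕ × ℕ → ℕ → Bool := fun p k =>
    decide (k.testBit 0 = G (p.1.testBit 0) (p.2.testBit 0)) &&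
    decide (∀ i < p.1 + p.2 + k, (fun (q : (ℕ × ℕ) × ℕ) (i : ℕ) =>
      decide (val g q.2 (some i) = G (val g q.1.1 (some i)) (val g q.1.2 (some i)))) (p, k) i = true)
  have hP : Computable₂ P := by
    refine and2 (eq2 (testBit Computable.snd (Computable.const 0)) (hG.comp
      ((testBit (Computable.fst.comp Computable.fst) (Computable.const 0)).pair
      (testBit (Computable.snd.comp Computable.fst) (Computable.const 0))))) ?_
    have h1 : Computable (fun q : (ℕ × ℕ) × ℕ => q.1.1 + q.1.2 + q.2) :=
      add2 (add2 (Computable.fst.comp Computable.fst) (Computable.snd.comp Computable.fst))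
        Computable.snd
    refine (ball (α := (ℕ × ℕ) × ℕ) (P := fun q i => decide (val g q.2 (some i) =
      G (val g q.1.1 (some i)) (val g q.1.2 (some i)))) ?_ h1)
    refine eq2 (g := fun p : ((ℕ × ℕ) × ℕ) × ℕ => G (val g p.1.1.1 (some p.2))
      (val g p.1.1.2 (some p.2))) (comp_val hc (Computable.snd.comp Computable.fst)
      Computable.snd) ?_
    refine hG.comp (g := fun p : ((ℕ × ℕ) × ℕ) × ℕ => (val g p.1.1.1 (some p.2),
      val g p.1.1.2 (some p.2))) ?_
    exact (comp_val hc (Computable.fst.comp (Computable.fst.comp Computable.fst))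
      Computable.snd).pair (comp_val hc (Computable.snd.comp (Computable.fst.comp Computable.fst))
      Computable.snd)
  have hspec : ∀ p k, P p k = true ↔ k = o p.1 p.2 := by
    intro p k
    constructor
    · intro h
      simp only [P, Bool.and_eq_true, decide_eq_true_eq] at h
      apply val_injective (g := g)
      funext x
      rw [ho]
      exact agree G _ _ _ h.1 h.2 x
    · rintro rfl
      simp only [P, Bool.and_eq_true, decide_eq_true_eq]
      exact ⟨ho _ _ none, fun i _ => ho _ _ (some i)⟩
  refine search hP (g := fun p => o p.1 p.2) (fun p => (hspec p _).2 rfl) ?_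
  intro p k hk
  have : ¬ (P p k = true) := by
    rw [hspec]
    exact Nat.ne_of_lt hk
  simpa using this

end Q201.IA
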