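import Pool.Agent.Q196.XF.Hyp

/-! The distance from a line on simply connected domains. -/

set_option autoImplicit false
set_option linter.unusedSectionVars false

open scoped Topology ContDiff Manifold RealInnerProductSpace Gradient
open Set Metric Filter Module Pool.Agent.Q196.XB Pool.Agent.Q196.XF

noncomputable section

namespace Pool.Agent.Q201.Lines

variable {V : Type} [NormedAddCommGroup V] [InnerProductSpace ℝ V] [FiniteDimensional ℝ V]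

/-- half of the square of the distance from the line through `p` in the direction `e` -/
def ld (p e : V) (y : V) : ℝ := (⟪y - p, y - p⟫ - ⟪y - p, e⟫ ^ 2) / 2

lemma ld_smooth (p e : V) : ContDiff ℝ ∞ (ld p e) := by
  unfold ld
  have h1 : ContDiff ℝ ∞ (fun y : V => y - p) := contDiff_id.sub contDiff_const
  exact ((h1.inner ℝ h1).sub ((h1.inner ℝ contDiff_const).pow 2)).div_const 2

lemma ld_grad (p e y : V) : ∇ (ld p e) y = (y - p) - ⟪y - p, e⟫ • e := by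
  have h1 : HasFDerivAt (fun y : V => y - p) (ContinuousLinearMap.id ℝ V) y :=
    (hasFDerivAt_id y).sub_const p
  have h2 := h1.inner ℝ h1
  have h3 := (h1.inner ℝ (hasFDerivAt_const e y)).pow 2
  have h4 := ((h2.sub h3).mul_const (1 / 2 : ℝ))
  have h5 : HasGradientAt (ld p e) ((y - p) - ⟪y - p, e⟫ • e) y := by
    rw [hasGradientAt_iff_hasFDerivAt]
    have h6 : ld p e = fun y : V => ((⟪y - p, y - p⟫ : ℝ) - (⟪y - p, e⟫ : ℝ) ^ 2) * (1 / 2 : ℝ) := by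
      funext z; unfold ld; ring
    rw [h6]
    refine h4.congr_fderiv ?_
    ext v
    simp [inner_sub_left, inner_sub_right, real_inner_comm]
    ring
  exact h5.gradient

lemma ld_hess (p e y v : V) : fderiv ℝ (∇ (ld p e)) y v = v - ⟪v, e⟫ • e := by
  have h0 : ∇ (ld p e) = fun y => (y - p) - ⟪y - p, e⟫ • e := funext fun y => ld_grad p e y
  rw [h0]
  have h1 : HasFDerivAt (fun y : V => y - p) (ContinuousLinearMap.id ℝ V) y :=
    (hasFDerivAt_id y).sub_const p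
  have h3 := (h1.inner ℝ (hasFDerivAt_const e y)).smul_const e
  have h4 : HasFDerivAt (fun y => y - p - ⟪y - p, e⟫ • e) _ y := h1.sub h3
  rw [h4.fderiv]
  simp

lemma norm_comb {v w : V} (hv : ‖v‖ = 1) (hw : ‖w‖ = 1) (hvw : ⟪v, w⟫ = 0) (a c : ℝ) :
    ⟪a • v + c • w, a • v + c • w⟫ = a ^ 2 + c ^ 2 := by
  have hwv : ⟪w, v⟫ = 0 := by rw [real_inner_comm]; exact hvw
  rw [inner_add_left, inner_add_right, inner_add_right]
  simp only [inner_smul_left, inner_smul_right, conj_trivial, real_inner_self_eq_norm_sq, hv, hw,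
    hvw, hwv]
  ring

/-- **Lines.** -/
theorem lines_two {ρ : V → ℝ} (hρ : ContDiff ℝ ∞ ρ) (hcomp : IsCompact {x | ρ x ≤ 0})
    (hne : {x | ρ x ≤ 0}.Nonempty) (hconn : IsPreconnected {x | ρ x ≤ 0})
    (hL : Lifts {x | ρ x ≤ 0}) (hreg : ∀ x, ρ x = 0 → ∇ ρ x ≠ 0)
    (hball : ¬ IsBall V {x | ρ x ≤ 0}) (p e : V) (he : ‖e‖ = 1) :
    ∃ x, ρ x = 0 ∧ ∃ s t : ℝ, 0 < s ∧ ⟪∇ ρ x, e⟫ = 0 ∧ x + s • ∇ ρ x = p + t • e ∧
      ∃ v w : V, ‖v‖ = 1 ∧ ‖w‖ = 1 ∧ ⟪v, w⟫ = 0 ∧ ⟪∇ ρ x, v⟫ = 0 ∧ ⟪∇ ρ x, w⟫ = 0 ∧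
      ∀ a c : ℝ, s * ⟪fderiv ℝ (∇ ρ) x (a • v + c • w), a • v + c • w⟫ ≤
        ⟪a • v + c • w, e⟫ ^ 2 - (a ^ 2 + c ^ 2) := by
  obtain ⟨x, hx, s, hs, hsρ, hg, v, w, hv, hw, hvw, h1, h2, h3⟩ :=
    exists_crit2 id_ld' hρ.contMDiff hcomp hne hconn hL
      (fun x hx => by rw [gr_id' hρ]; exact hreg x hx) hball (ld_smooth p e).contMDiff
  rw [gr_id' hρ, gr_id' (ld_smooth p e), ld_grad] at hg
  rw [gr_id' hρ] at h1 h2
  have h4 : ∀ a c : ℝ, s * ⟪fderiv ℝ (∇ ρ) x (a • v + c • w), a • v + c • w⟫ ≤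
      ⟪a • v + c • w, e⟫ ^ 2 - (a ^ 2 + c ^ 2) := by
    intro a c
    have h5 := h3 a c
    rw [hb_id' hρ, hb_id' (ld_smooth p e), ld_hess, inner_sub_left, norm_comb hv hw hvw,
      inner_smul_left, conj_trivial, real_inner_comm (a • v + c • w) e] at h5
    nlinarith [h5]
  have hs0 : s ≠ 0 := by
    rintro rfl
    have h6 := h4 ⟪w, e⟫ (-⟪v, e⟫)
    have h7 : ⟪⟪w, e⟫ • v + (-⟪v, e⟫) • w, e⟫ = 0 := by
      rw [inner_add_left, inner_smul_left, inner_smul_left]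
      simp only [conj_trivial]
      ring
    rw [h7, zero_mul] at h6
    have h8 : ⟪v, e⟫ = 0 := by nlinarith [sq_nonneg ⟪w, e⟫, sq_nonneg ⟪v, e⟫]
    have h9 := h4 1 0
    rw [one_smul, zero_smul, add_zero, h8] at h9
    norm_num at h9
  have hsp : 0 < s := lt_of_le_of_ne hs (Ne.symm hs0)
  have he1 : ⟪e, e⟫ = 1 := by rw [real_inner_self_eq_norm_sq, he, one_pow]
  have hor : ⟪∇ ρ x, e⟫ = 0 := by
    have h6 : ⟪x - p - ⟪x - p, e⟫ • e + s • ∇ ρ x, e⟫ = 0 := by rw [hg, inner_zero_left]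
    rw [inner_add_left, inner_sub_left, inner_smul_left, inner_smul_left, he1] at h6
    simp only [conj_trivial] at h6
    have h7 : s * ⟪∇ ρ x, e⟫ = 0 := by linarith
    exact (mul_eq_zero.1 h7).resolve_left hs0
  refine ⟨x, (mul_eq_zero.1 hsρ).resolve_left hs0, s, ⟪x - p, e⟫, hsp, hor, ?_, v, w, hv, hw, hvw,
    (mul_eq_zero.1 h1).resolve_left hs0, (mul_eq_zero.1 h2).resolve_left hs0, h4⟩
  have h6 : x + s • ∇ ρ x - (p + ⟪x - p, e⟫ • e) = 0 := by rw [← hg]; abel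
  exact sub_eq_zero.1 h6

variable {n : ℕ} {X : Type} [TopologicalSpace X] [ChartedSpace (EuclideanSpace ℝ (Fin n)) X]
  [IsManifold (𝓡 n) ∞ X]

theorem hyp_lines [SimplyConnectedSpace X] {j : X → EuclideanSpace ℝ (Fin (n + 1))}
    (hj : Manifold.IsSmoothEmbedding (𝓡 n) (𝓡 (n + 1)) ∞ j)
    {ρ : EuclideanSpace ℝ (Fin (n + 1)) → ℝ} (hρ : ContDiff ℝ ∞ ρ)
    (hreg : ∀ x, ρ x = 0 → ∇ ρ x ≠ 0) (hcomp : IsCompact {x | ρ x ≤ 0})
    (hconn : IsConnected {x | ρ x ≤ 0}) (hr : range j = {x | ρ x = 0})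
    (p e : EuclideanSpace ℝ (Fin (n + 1))) (he : ‖e‖ = 1)
    (h : ∀ x, ρ x = 0 → ⟪∇ ρ x, e⟫ = 0 → ∀ s t : ℝ, 0 < s → x + s • ∇ ρ x = p + t • e →
      ∀ v w, ‖v‖ = 1 → ‖w‖ = 1 → ⟪v, w⟫ = 0 → ⟪∇ ρ x, v⟫ = 0 → ⟪∇ ρ x, w⟫ = 0 → ∃ a b : ℝ,
        ⟪a • v + b • w, e⟫ ^ 2 - (a ^ 2 + b ^ 2) <
          s * ⟪fderiv ℝ (∇ ρ) x (a • v + b • w), a • v + b • w⟫) :
    Nonempty (X ≃ₘ⟮𝓡 n, 𝓡 n⟯ sphere (0 : EuclideanSpace ℝ (Fin (n + 1))) 1) := by
  by_cases hb : IsBall (EuclideanSpace ℝ (Fin (n + 1))) {x | ρ x ≤ 0}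
  · exact diffeo_of_ball hj hρ hreg hr hb
  · exfalso
    obtain ⟨x, hx, s, t, hs, ho, hg, v, w, hv, hw, hvw, h1, h2, h3⟩ :=
      lines_two hρ hcomp hconn.nonempty hconn.isPreconnected
        (lifts_of_embedded hj.isEmbedding hρ.continuous hr) hreg hb p e he
    obtain ⟨a, b, hab⟩ := h x hx ho s t hs hg v w hv hw hvw h1 h2
    have := h3 a b
    linarith

end Pool.Agent.Q201.Lines
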