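import Mathlib

set_option autoImplicit false

/-! The quaternion group of order 60 acting on `5 + 60` points. -/

namespace Pool.Agent.Q201.QG

open QuaternionGroup

abbrev Q := QuaternionGroup 15

/-- reduction modulo 5 -/
def rd : ZMod (2 * 15) →+* ZMod 5 := ZMod.castHom (by norm_num) (ZMod 5)

/-- action of the group on `ZMod 5` through the dihedral group of order 10 -/
def D : Q → ZMod 5 → ZMod 5
  | a i, z => z + rd i
  | xa i, z => -(z + rd i)

theorem rd15 : rd ((15 : ℕ) : ZMod (2 * 15)) = 0 := by decide

theorem D_mul (u v : Q) (z : ZMod 5) : D (u * v) z = D u (D v z) := by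
  rcases u with i | i <;> rcases v with j | j
  · rw [a_mul_a]; simp only [D, map_add]; ring
  · rw [a_mul_xa]; simp only [D, map_sub]; ring
  · rw [xa_mul_a]; simp only [D, map_add]; ring
  · rw [xa_mul_xa]; simp only [D, map_add, map_sub, rd15]; ring

theorem D_one (z : ZMod 5) : D 1 z = z := by
  rw [one_def]; simp [D]

def dec (n : ℕ) : Q := if n < 30 then a (n : ZMod (2 * 15)) else xa (n : ZMod (2 * 15))

def code : Q → ℕ
  | a i => i.val
  | xa i => 30 + i.val

theorem code_lt (u : Q) : code u < 60 := by
  rcases u with i | i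
  · have := ZMod.val_lt i; simp only [code]; omega
  · have := ZMod.val_lt i; simp only [code]; omega

theorem dec_code : ∀ u : Q, dec (code u) = u := by
  rintro (i | i) <;> revert i <;> decide +kernel

theorem code_dec {n : ℕ} (h : n < 60) : code (dec n) = n := by
  revert n; decide

/-- the action on the numbers below 65 (5 points for the dihedral part and 60 points for the
regular action) -/
def act (v : Q) (r : ℕ) : ℕ :=
  if r < 5 then (D v (r : ZMod 5)).val else if r < 65 then 5 + code (v * dec (r - 5)) else r

theorem act_lt5 (v : Q) {r : ℕ} (h : r < 5) : act v r < 5 := by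
  rw [act, if_pos h]; exact ZMod.val_lt _

theorem act_ge5 (v : Q) {r : ℕ} (h : 5 ≤ r) : 5 ≤ act v r := by
  rw [act, if_neg (by omega)]
  split_ifs
  · omega
  · exact h

theorem act_lt65 (v : Q) {r : ℕ} (h : r < 65) : act v r < 65 := by
  rw [act]
  split_ifs with h1
  · exact lt_trans (ZMod.val_lt _) (by norm_num)
  · have := code_lt (v * dec (r - 5)); omega

theorem act_mul (u v : Q) (r : ℕ) : act (u * v) r = act u (act v r) := by
  by_cases h1 : r < 5
  · have h2 := act_lt5 v h1
    have h3 : act v r = (D v (r : ZMod 5)).val := by rw [act, if_pos h1]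
    rw [act, if_pos h1, D_mul]
    rw [act, if_pos h2, h3, ZMod.natCast_zmod_val]
  · by_cases h2 : r < 65
    · have h3 : act v r = 5 + code (v * dec (r - 5)) := by rw [act, if_neg h1, if_pos h2]
      have h4 := code_lt (v * dec (r - 5))
      rw [act, if_neg h1, if_pos h2, h3, act, if_neg (by omega), if_pos (by omega),
        Nat.add_sub_cancel_left, dec_code, mul_assoc]
    · have h3 : act v r = r := by rw [act, if_neg h1, if_neg h2]
      rw [h3, act, if_neg h1, if_neg h2, act, if_neg h1, if_neg h2]

theorem act_one (r : ℕ) : act 1 r = r := by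
  by_cases h1 : r < 5
  · rw [act, if_pos h1, D_one, ZMod.val_natCast_of_lt h1]
  · by_cases h2 : r < 65
    · rw [act, if_neg h1, if_pos h2, one_mul, code_dec (by omega)]; omega
    · rw [act, if_neg h1, if_neg h2]

/-- the elements acting trivially on the dihedral part -/
def inN (v : Q) : Prop := ∀ z : ZMod 5, D v z = z

instance (v : Q) : Decidable (inN v) := by unfold inN; infer_instance

theorem inN_iff (v : Q) : inN v ↔ ∀ r < 5, act v r = r := by
  constructor
  · intro h r hr
    rw [act, if_pos hr, h, ZMod.val_natCast_of_lt hr]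
  · intro h z
    have h1 := h z.val (ZMod.val_lt z)
    rw [act, if_pos (ZMod.val_lt z), ZMod.natCast_zmod_val] at h1
    exact ZMod.val_injective _ h1

theorem faithful (v : Q) : v = 1 ↔ ∀ r, 5 ≤ r → act v r = r := by
  constructor
  · rintro rfl r -
    exact act_one r
  · intro h
    have h1 := h (5 + code 1) (by omega)
    have h2 := code_lt 1
    rw [act, if_neg (by omega), if_pos (by omega), Nat.add_sub_cancel_left, dec_code, mul_one] at h1
    have h3 : code v = code 1 := by omega
    rw [← dec_code v, h3, dec_code]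

theorem fact1 : ∀ u : Q, inN (u * xa 0 * u⁻¹ * (xa 0)⁻¹) → inN (u * xa 1 * u⁻¹ * (xa 1)⁻¹) → inN u := by
  rintro (i | i) <;> revert i <;> decide +kernel

theorem fact1' : inN (xa 0 * xa 0) ∧ inN (xa 1 * xa 1) := by decide +kernel

theorem fact2 : ∀ u : Q, inN (u * u * u) → inN (u * u) := by
  rintro (i | i) <;> revert i <;> decide +kernel

theorem fact3 : ∀ u : Q, u * u = 1 → xa 0 * u = u * xa 0 := by
  rintro (i | i) <;> revert i <;> decide +kernel

theorem fact4 : ∀ u : Q, u * u * u = 1 → xa 0 * u * (xa 0)⁻¹ * u = 1 := by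
  rintro (i | i) <;> revert i <;> decide +kernel

theorem fact5 : ∀ u : Q, u * a 10 * u⁻¹ * a 10 = 1 → act u 0 ≠ 0 ∨ act u 1 ≠ 1 := by
  rintro (i | i) <;> revert i <;> decide +kernel

theorem fact5' : (a 10 * a 10 * a 10 : Q) = 1 := by decide +kernel

end Pool.Agent.Q201.QG
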