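import Mathlib

/-!
# Realising finitely satisfiable sets of formulas in elementary extensions

A set of formulas with parameters in a structure `U` and with free variables indexed by `α`,
finitely satisfiable in `U`, is realised in an elementary extension of `U` living in the same
universe.
-/

namespace Q201.Realize

open FirstOrder FirstOrder.Language

universe u

variable {L : FirstOrder.Language.{0, 0}} {U : Type u} [L.Structure U] {α : Type}

/-- Compactness for types over a structure. -/
theorem exists_extension [Nonempty U] (S : Set (L.Formula (U ⊕ α)))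
    (hfin : ∀ F : Finset (L.Formula (U ⊕ α)), (F : Set (L.Formula (U ⊕ α))) ⊆ S →
      ∃ a : α → U, ∀ φ ∈ F, φ.Realize (Sum.elim id a)) :
    ∃ (W : Type u) (_ : L.Structure W) (j : U ↪ₑ[L] W) (b : α → W),
      ∀ φ ∈ S, φ.Realize (Sum.elim j b) := by
  classical
  -- the formulas without new variables true in `U`
  let D : Set (L.Formula (U ⊕ α)) :=
    {φ | ∃ ψ : L.Formula U, ψ.Realize (id : U → U) ∧ φ = ψ.relabel Sum.inl}
  let T : L[[U ⊕ α]].Theory := Formula.equivSentence '' (S ∪ D)
  have hsat : T.IsSatisfiable := by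
    rw [Theory.isSatisfiable_iff_isFinitelySatisfiable]
    intro T0 hT0
    obtain ⟨F, hF, hFT⟩ := Finset.subset_set_image_iff.mp hT0
    -- the finite part coming from `S`
    obtain ⟨a, ha⟩ := hfin (F.filter (fun φ => φ ∈ S)) (by
      intro φ hφ
      simp only [Finset.coe_filter] at hφ
      exact hφ.2)
    let _ : (constantsOn (U ⊕ α)).Structure U := constantsOn.structure (Sum.elim id a)
    have _ : U ⊨ (T0 : L[[U ⊕ α]].Theory) := by
      refine ⟨fun σ hσ => ?_⟩
      rw [← hFT] at hσ
      simp only [Finset.coe_image, Set.mem_image, Finset.mem_coe] at hσ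
      obtain ⟨φ, hφ, rfl⟩ := hσ
      rw [Formula.realize_equivSentence]
      have hcon : (fun c => (L.con c : U)) = Sum.elim id a := by
        funext c
        rfl
      rw [hcon]
      rcases hF hφ with h | h
      · exact ha φ (Finset.mem_filter.mpr ⟨hφ, h⟩)
      · obtain ⟨ψ, hψ, rfl⟩ := h
        rw [Formula.realize_relabel]
        exact hψ
    exact Theory.Model.isSatisfiable U
  obtain ⟨W⟩ := hsat
  let _ : L.Structure W := (L.lhomWithConstants (U ⊕ α)).reduct W
  have _ : (L.lhomWithConstants (U ⊕ α)).IsExpansionOn W :=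
    LHom.isExpansionOn_reduct _ _
  have hreal : ∀ φ ∈ S ∪ D, φ.Realize (fun c => (L.con c : W)) := by
    intro φ hφ
    rw [← Formula.realize_equivSentence]
    exact Theory.realize_sentence_of_mem T ⟨φ, hφ, rfl⟩
  have hU : ∀ ψ : L.Formula U, ψ.Realize (id : U → U) →
      ψ.Realize (fun u : U => (L.con (Sum.inl u : U ⊕ α) : W)) := by
    intro ψ hψ
    have := hreal (ψ.relabel Sum.inl) (Or.inr ⟨ψ, hψ, rfl⟩)
    rwa [Formula.realize_relabel] at this
  have hU' : ∀ ψ : L.Formula U, ψ.Realize (fun u : U => (L.con (Sum.inl u : U ⊕ α) : W)) ↔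
      ψ.Realize (id : U → U) := by
    intro ψ
    refine ⟨fun h => ?_, hU ψ⟩
    by_contra hc
    have := hU ψ.not (by rwa [Formula.realize_not])
    rw [Formula.realize_not] at this
    exact this h
  refine ⟨W, inferInstance, ⟨fun u => (L.con (Sum.inl u : U ⊕ α) : W), ?_⟩,
    fun i => (L.con (Sum.inr i : U ⊕ α) : W), fun φ hφ => ?_⟩
  · intro n φ x
    have := hU' (φ.relabel x)
    rw [Formula.realize_relabel, Formula.realize_relabel] at this
    exact this
  · have := hreal φ (Or.inl hφ)
    convert this using 1
    funext c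
    rcases c with c | c <;> rfl

end Q201.Realize
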