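import Mathlib

set_option autoImplicit false

/-! Turing ideals and Scott ideals. -/

namespace Pool.Agent.Q201.SI

open Encodable

/-- A Turing ideal, given by the set of all total functions whose degree belongs to it. -/
structure IsTuringIdeal (I : Set (ℕ → ℕ)) : Prop where
  nonempty : I.Nonempty
  /-- closed downwards under Turing reducibility -/
  down : ∀ f g : ℕ → ℕ, g ∈ I → TuringReducible (fun n => Part.some (f n)) (fun n => Part.some (g n)) → f ∈ I
  /-- closed under joins; `n ↦ ⟨f n, g n⟩` has the degree `deg f ∨ deg g` -/
  join : ∀ f g : ℕ → ℕ, f ∈ I → g ∈ I → (fun n => Nat.pair (f n) (g n)) ∈ I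

open Classical in
/-- characteristic function of a set of strings over an encodable alphabet -/
noncomputable def charFn {α : Type*} [Encodable α] (T : Set α) : ℕ → ℕ :=
  fun n => if ∃ τ ∈ T, encode τ = n then 1 else 0

/-- A Scott ideal: a Turing ideal such that every infinite binary tree computable from a member has
an infinite path computable from a member. -/
structure IsScottIdeal (I : Set (ℕ → ℕ)) : Prop extends IsTuringIdeal I where
  path : ∀ T : Set (List Bool), (∀ σ τ : List Bool, τ ∈ T → σ <+: τ → σ ∈ T) → T.Infinite →
    charFn T ∈ I → ∃ X : ℕ → Bool, (∀ n, (List.range n).map X ∈ T) ∧ (fun n => (X n).toNat) ∈ I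


end Pool.Agent.Q201.SI
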