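import Pool.Agent.Y785.EN.Cone
import Pool.Agent.Q201.ScottDefs

set_option autoImplicit false

/-! Cone avoidance for relativized `Pi01` classes, and Scott ideals avoiding a given noncomputable set. -/

namespace Pool.Agent.Q201.SI

open Pool.Agent.Helper227 Pool.Agent.Helper227.EN Pool.Agent.Y785.EN
open Nat.Partrec (Code)
open Encodable

theorem isClosed_PiC (D : List Bool × List Bool → Prop) (X : ℕ → Bool) : IsClosed (PiC D X) := by
  have : PiC D X = ⋂ s, {y | ¬ D (pre X s, pre y s)} := by
    ext y; simp [PiC]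
  rw [this]
  refine isClosed_iInter fun s => ?_
  have hc : Continuous fun y : ℕ → Bool => fun i : Fin s => y i :=
    continuous_pi fun i => continuous_apply _
  have h2 : {y : ℕ → Bool | ¬ D (pre X s, pre y s)} =
      (fun y : ℕ → Bool => fun i : Fin s => y i) ⁻¹' {z | ¬ D (pre X s, List.ofFn z)} := by
    ext y
    simp only [Set.mem_ofPred_eq, Set.mem_preimage]
    have : List.ofFn (fun i : Fin s => y i) = pre y s := by
      refine List.ext_getElem (by simp) fun i h1 h2 => ?_
      rw [getElem_pre]
      simp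
    rw [this]
  rw [h2]
  exact (isClosed_discrete _).preimage hc

theorem step {V C : ℕ → Bool} (hC : ¬ TLe C V) {D : List Bool × List Bool → Prop} (hD : S1 D)
    (hne : (PiC D V).Nonempty) (c : Code) :
    ∃ D' : List Bool × List Bool → Prop, S1 D' ∧ (PiC D' V).Nonempty ∧ PiC D' V ⊆ PiC D V ∧
      ∀ P ∈ PiC D' V, ¬ cpt2 c C V P := by
  have hC' : ¬ TLe C (join V V) := fun h => hC (h.trans (join_tLe (TLe.refl V) (TLe.refl V)))
  obtain ⟨D', hD', hne', hsub, hav⟩ := avoid_step hC' hD hne c
  let g : List Bool → List Bool := fun σ => (List.range σ.length).map fun i => σ.getD (i / 2) false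
  have hg : Primrec g := by
    refine Primrec.list_map (Primrec.list_range.comp Primrec.list_length) ?_
    exact (Primrec.list_getD false).comp Primrec.fst (Primrec.nat_div.comp Primrec.snd (Primrec.const 2))
  have hgp : ∀ s, g (pre V s) = pre (join V V) s := by
    intro s
    refine List.ext_getElem (by simp [g]) fun i h1 h2 => ?_
    rw [getElem_pre]
    simp only [g, List.getElem_map, List.getElem_range]
    rw [pre_getD _ _ _ _ (by simp at h2; omega)]
    unfold join
    split_ifs <;> rfl
  have heq : PiC (fun x => D' (g x.1, x.2)) V = PiC D' (join V V) := by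
    ext y
    simp only [PiC, Set.mem_ofPred_eq, hgp]
  refine ⟨fun x => D' (g x.1, x.2), hD'.comp ((hg.comp Primrec.fst).pair Primrec.snd), ?_, ?_, ?_⟩
  · rw [heq]; exact hne'
  · rw [heq]; exact hsub
  · rw [heq]; exact hav

theorem cone_basis {V C : ℕ → Bool} (hC : ¬ TLe C V) {D : List Bool × List Bool → Prop} (hD : S1 D)
    (hne : (PiC D V).Nonempty) : ∃ P ∈ PiC D V, ¬ TLe C (join V P) := by
  classical
  let St := {D : List Bool × List Bool → Prop // S1 D ∧ (PiC D V).Nonempty}
  have hstep : ∀ (d : St) (n : ℕ), ∃ d' : St, PiC d'.1 V ⊆ PiC d.1 V ∧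
      ∀ P ∈ PiC d'.1 V, ¬ cpt2 (Denumerable.ofNat Code n) C V P := by
    intro d n
    obtain ⟨D', h1, h2, h3, h4⟩ := step hC d.2.1 d.2.2 (Denumerable.ofNat Code n)
    exact ⟨⟨D', h1, h2⟩, h3, h4⟩
  choose nx hnx1 hnx2 using hstep
  let s : ℕ → St := fun n => Nat.rec ⟨D, hD, hne⟩ (fun n d => nx d n) n
  have hs : ∀ n, s (n + 1) = nx (s n) n := fun n => rfl
  have hmono : ∀ n, PiC (s (n + 1)).1 V ⊆ PiC (s n).1 V := fun n => by
    rw [hs]; exact hnx1 _ _
  obtain ⟨P, hP⟩ := IsCompact.nonempty_iInter_of_sequence_nonempty_isCompact_isClosed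
    (fun n => PiC (s n).1 V) hmono (fun n => (s n).2.2) (isClosed_PiC _ _).isCompact
    (fun n => isClosed_PiC _ _)
  rw [Set.mem_iInter] at hP
  refine ⟨P, hP 0, fun h => ?_⟩
  obtain ⟨c, hc⟩ := exists_cpt2 h
  have := hnx2 (s (encode c)) (encode c) P (by rw [← hs]; exact hP (encode c + 1))
  rw [Denumerable.ofNat_encode] at this
  exact this hc

theorem cone_basis' {O U C : ℕ → Bool} (hC : ¬ TLe C U) (hOU : TLe O U)
    {D : List Bool × List Bool → Prop} (hD : S1 D)
    (hne : (PiC D O).Nonempty) : ∃ P ∈ PiC D O, ¬ TLe C (join U P) := by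
  have hC' : ¬ TLe C (join O U) := fun h => hC (h.trans (join_tLe hOU (TLe.refl U)))
  obtain ⟨D', hD', hne', hsub, -⟩ := avoid_step hC' hD hne Code.zero
  obtain ⟨P, hP, hCP⟩ := cone_basis hC' hD' hne'
  refine ⟨P, hsub hP, fun h => hCP (h.trans ?_)⟩
  exact join_tLe ((tLe_join_right O U).trans (tLe_join_left _ _)) (tLe_join_right _ _)

/-- The increasing sequence of oracles. -/
theorem exists_seq {C : ℕ → Bool} (hC : ¬ Computable C) :
    ∃ J : ℕ → (ℕ → Bool), (∀ n, TLe (J n) (J (n + 1))) ∧ (∀ n, ¬ TLe C (J n)) ∧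
      ∀ m, ∀ D : List Bool × List Bool → Prop, S1 D → (PiC D (J m)).Nonempty →
        ∃ P ∈ PiC D (J m), ∃ n, TLe P (J n) := by
  classical
  have h0 : ¬ TLe C (fun _ => false) := fun h => hC (computable_iff_tLe.2 h)
  -- predicates given by codes
  let Dc : Code → List Bool × List Bool → Prop := fun c x => (c.eval (encode x)).Dom
  have hDc : ∀ c, S1 (Dc c) := by
    intro c
    refine S1.of_eq (p := fun x : List Bool × List Bool =>
      ∃ r : ℕ, (c.evaln r (encode x)).isSome = true) (S1.ex (S1.of_prim ?_)) ?_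
    · exact Primrec.eq.comp (Primrec.option_isSome.comp (Nat.Partrec.Code.primrec_evaln.comp
        ((Primrec.snd.pair (Primrec.const c)).pair (Primrec.encode.comp Primrec.fst))))
        (Primrec.const true)
    · intro x
      constructor
      · rintro ⟨n, hn⟩
        obtain ⟨y, hy⟩ := Option.isSome_iff_exists.1 hn
        exact Part.dom_iff_mem.2 ⟨y, Nat.Partrec.Code.evaln_sound hy⟩
      · intro h
        obtain ⟨y, hy⟩ := Part.dom_iff_mem.1 h
        obtain ⟨k, hk⟩ := Nat.Partrec.Code.evaln_complete.1 hy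
        exact ⟨k, Option.isSome_iff_exists.2 ⟨y, hk⟩⟩
  have hDc' : ∀ D : List Bool × List Bool → Prop, S1 D → ∃ c, Dc c = D := by
    intro D hD
    obtain ⟨c, hc⟩ := Nat.Partrec.Code.exists_code.1 hD.re
    refine ⟨c, ?_⟩
    funext x
    simp only [Dc]
    rw [hc]
    simp [Part.assert]
  -- states: finite lists of oracles, increasing
  let St := {L : ℕ → (ℕ → Bool) // ∀ n, ¬ TLe C (L n)}
  -- step: given the top oracle U and an oracle O ≤ U and a code, produce the next
  have key : ∀ (U O : ℕ → Bool) (c : Code), ¬ TLe C U → TLe O U →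
      ∃ U' : ℕ → Bool, TLe U U' ∧ ¬ TLe C U' ∧
        ((PiC (Dc c) O).Nonempty → ∃ P ∈ PiC (Dc c) O, TLe P U') := by
    intro U O c hU hO
    by_cases hne : (PiC (Dc c) O).Nonempty
    · obtain ⟨P, hP, hCP⟩ := cone_basis' hU hO (hDc c) hne
      exact ⟨join U P, tLe_join_left _ _, hCP, fun _ => ⟨P, hP, tLe_join_right _ _⟩⟩
    · exact ⟨U, TLe.refl U, hU, fun h => absurd h hne⟩
  choose! nx hnx1 hnx2 hnx3 using key
  -- build the sequence of histories
  let H : ℕ → List (ℕ → Bool) := fun n => Nat.rec [fun _ => false]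
    (fun n l => l ++ [nx (l.getD n (fun _ => false)) (l.getD n.unpair.1 (fun _ => false))
      (Denumerable.ofNat Code n.unpair.2)]) n
  have Hs : ∀ n, H (n + 1) = H n ++ [nx ((H n).getD n (fun _ => false))
      ((H n).getD n.unpair.1 (fun _ => false)) (Denumerable.ofNat Code n.unpair.2)] := fun n => rfl
  have Hl : ∀ n, (H n).length = n + 1 := by
    intro n
    induction n with
    | zero => rfl
    | succ n ih => rw [Hs, List.length_append, ih]; rfl
  let J : ℕ → (ℕ → Bool) := fun n => (H n).getD n (fun _ => false)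
  have HJ : ∀ n m, m ≤ n → (H n).getD m (fun _ => false) = J m := by
    intro n
    induction n with
    | zero => intro m hm; obtain rfl : m = 0 := by omega
              rfl
    | succ n ih =>
      intro m hm
      rcases Nat.lt_or_ge m (n + 1) with h | h
      · rw [Hs, List.getD_append _ _ _ _ (by rw [Hl]; exact h)]
        exact ih m (by omega)
      · obtain rfl : m = n + 1 := by omega
        rfl
  have Js : ∀ n, J (n + 1) = nx (J n) (J n.unpair.1) (Denumerable.ofNat Code n.unpair.2) := by
    intro n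
    have : J (n + 1) = nx ((H n).getD n (fun _ => false))
      ((H n).getD n.unpair.1 (fun _ => false)) (Denumerable.ofNat Code n.unpair.2) := by
      change (H (n + 1)).getD (n + 1) _ = _
      rw [Hs, List.getD_append_right _ _ _ _ (by rw [Hl]), Hl]
      simp
    rw [this, HJ n n le_rfl, HJ n _ (Nat.unpair_left_le n)]
  have hall : ∀ n, ¬ TLe C (J n) ∧ ∀ m ≤ n, TLe (J m) (J n) := by
    intro n
    induction n with
    | zero =>
      refine ⟨h0, fun m hm => ?_⟩
      obtain rfl : m = 0 := by omega
      exact TLe.refl _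
    | succ n ih =>
      have hle : TLe (J n.unpair.1) (J n) := ih.2 _ (Nat.unpair_left_le n)
      have h1 : TLe (J n) (J (n + 1)) := by rw [Js]; exact hnx1 _ _ _ ih.1 hle
      refine ⟨by rw [Js]; exact hnx2 _ _ _ ih.1 hle, fun m hm => ?_⟩
      rcases Nat.lt_or_ge m (n + 1) with h | h
      · exact (ih.2 m (by omega)).trans h1
      · obtain rfl : m = n + 1 := by omega
        exact TLe.refl _
  refine ⟨J, fun n => (hall (n + 1)).2 n (by omega), fun n => (hall n).1, ?_⟩
  intro m D hD hne
  obtain ⟨c, rfl⟩ := hDc' D hD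
  let n := Nat.pair m (encode c)
  have hn1 : n.unpair.1 = m := by simp [n]
  have hn2 : Denumerable.ofNat Code n.unpair.2 = c := by simp [n]
  have hle : TLe (J n.unpair.1) (J n) := (hall n).2 _ (Nat.unpair_left_le n)
  have := hnx3 (J n) (J n.unpair.1) (Denumerable.ofNat Code n.unpair.2) (hall n).1 hle
  rw [hn1, hn2] at this
  obtain ⟨P, hP, hPle⟩ := this hne
  refine ⟨P, hP, n + 1, ?_⟩
  rw [Js, hn1, hn2]
  exact hPle

theorem konig {T : Set (List Bool)} (hT : ∀ σ τ : List Bool, τ ∈ T → σ <+: τ → σ ∈ T)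
    (hinf : T.Infinite) : ∃ X : ℕ → Bool, ∀ n, pre X n ∈ T := by
  have hlen : ∀ n, ∃ τ ∈ T, τ.length = n := by
    intro n
    have hfin : {τ : List Bool | τ.length < n}.Finite := List.finite_length_lt Bool n
    obtain ⟨τ, hτ, hτ'⟩ := hinf.exists_notMem_finite hfin
    simp only [Set.mem_ofPred_eq, not_lt] at hτ'
    exact ⟨τ.take n, hT _ _ hτ (List.take_prefix _ _), by simp [hτ']⟩
  let F : ℕ → Set (ℕ → Bool) := fun n => {y | pre y n ∈ T}
  have hF : ∀ n, F n = PiC (fun x => x.2.length = n ∧ x.2 ∉ T) (fun _ => false) := by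
    intro n
    ext y
    simp only [F, PiC, Set.mem_ofPred_eq, length_pre, not_and, not_not]
    exact ⟨fun h s hs => by rw [hs]; exact h, fun h => h n rfl⟩
  obtain ⟨X, hX⟩ := IsCompact.nonempty_iInter_of_sequence_nonempty_isCompact_isClosed F
    (fun n y hy => hT _ _ hy (pre_prefix y (Nat.le_succ n)))
    (fun n => by
      obtain ⟨τ, hτ, hl⟩ := hlen n
      refine ⟨fun i => τ.getD i false, ?_⟩
      have : pre (fun i => τ.getD i false) n = τ := by
        refine List.ext_getElem (by simp [hl]) fun i h1 h2 => ?_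
        rw [getElem_pre, List.getD_eq_getElem _ _ h2]
      simp only [F, Set.mem_ofPred_eq, this]
      exact hτ)
    ((hF 0) ▸ (isClosed_PiC _ _).isCompact) (fun n => (hF n) ▸ isClosed_PiC _ _)
  rw [Set.mem_iInter] at hX
  exact ⟨X, hX⟩

/-- For every noncomputable set there is a Scott ideal which does not contain it. -/
theorem exists_scott {C : ℕ → Bool} (hC : ¬ Computable C) :
    ∃ I : Set (ℕ → ℕ), IsScottIdeal I ∧ (fun n => (C n).toNat) ∉ I := by
  classical
  obtain ⟨J, hJ1, hJ2, hJ3⟩ := exists_seq hC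
  have hmono : ∀ m n, m ≤ n → TLe (J m) (J n) := by
    intro m n h
    induction n with
    | zero => obtain rfl : m = 0 := by omega
              exact TLe.refl _
    | succ n ih =>
      rcases Nat.lt_or_ge m (n + 1) with h' | h'
      · exact (ih (by omega)).trans (hJ1 n)
      · obtain rfl : m = n + 1 := by omega
        exact TLe.refl _
  refine ⟨{f | ∃ n, TuringReducible (fun k => Part.some (f k)) (chi (J n))}, ?_, ?_⟩
  · refine { nonempty := ?_, down := ?_, join := ?_, path := ?_ }
    · exact ⟨fun n => ((J 0) n).toNat, 0, TuringReducible.refl _⟩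
    · rintro f g ⟨n, hn⟩ hfg
      exact ⟨n, hfg.trans hn⟩
    · rintro f g ⟨n, hn⟩ ⟨m, hm⟩
      refine ⟨max n m, ?_⟩
      have h1 : TuringReducible (fun k => Part.some (f k)) (chi (J (max n m))) :=
        hn.trans (hmono _ _ (le_max_left _ _))
      have h2 : TuringReducible (fun k => Part.some (g k)) (chi (J (max n m))) :=
        hm.trans (hmono _ _ (le_max_right _ _))
      have h3 := Nat.RecursiveIn.pair (RecursiveIn.iff_nat.1 h1) (RecursiveIn.iff_nat.1 h2)
      refine RecursiveIn.iff_nat.2 (h3.of_eq fun k => ?_)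
      simp [Seq.seq]
    · rintro T hT hinf ⟨m, hm⟩
      -- the characteristic sequence
      let t : ℕ → Bool := fun n => decide (∃ τ ∈ T, encode τ = n)
      have ht : TLe t (J m) := by
        refine TuringReducible.trans (g := fun k => Part.some (charFn T k)) ?_ hm
        have : chi t = fun k => Part.some (charFn T k) := by
          funext k
          simp only [chi, t, charFn]
          split_ifs with h <;> simp [h]
        rw [this]
        exact TuringReducible.refl _
      obtain ⟨E, hE, mE, eE⟩ := tLe_iff.1 ht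
      have htT : ∀ τ : List Bool, t (encode τ) = false ↔ τ ∉ T := by
        intro τ
        simp only [t, decide_eq_false_iff_not, not_exists, not_and]
        exact ⟨fun h h' => h τ h' rfl, fun h σ hσ hστ => h (encode_injective hστ ▸ hσ)⟩
      let D : List Bool × List Bool → Prop := fun x =>
        ∃ k < x.2.length + 1, E (x.1, encode (x.2.take k), false)
      have hD : S1 D := by
        refine S1.of_eq (p := fun x : List Bool × List Bool =>
          ∃ k : ℕ, k < x.2.length + 1 ∧ E (x.1, encode (x.2.take k), false)) ?_ (fun x => Iff.rfl)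
        refine S1.ex (S1.and (S1.of_prim ?_) (hE.comp ?_))
        · exact Primrec.nat_lt.comp Primrec.snd (Primrec.succ.comp (Primrec.list_length.comp
            (Primrec.snd.comp Primrec.fst)))
        · exact (Primrec.fst.comp Primrec.fst).pair ((Primrec.encode.comp
            (Primrec.list_take.comp Primrec.snd (Primrec.snd.comp Primrec.fst))).pair
            (Primrec.const false))
      have hPi : ∀ y, y ∈ PiC D (J m) ↔ ∀ n, pre y n ∈ T := by
        intro y
        constructor
        · intro hy n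
          by_contra hn
          obtain ⟨s, hs⟩ := (eE (encode (pre y n)) false).1 ((htT _).2 hn)
          refine hy (max s n) ⟨n, by simp, ?_⟩
          simp only
          rw [take_pre _ _ _ (le_max_right _ _)]
          exact mE _ _ _ _ (pre_prefix _ (le_max_left _ _)) hs
        · rintro hy s ⟨k, hk, hEk⟩
          simp only [length_pre] at hk
          rw [take_pre _ _ _ (by simpa using Nat.lt_succ_iff.1 hk)] at hEk
          exact (htT _).1 ((eE _ _).2 ⟨s, hEk⟩) (hy k)
      obtain ⟨X, hX⟩ := konig hT hinf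
      obtain ⟨P, hP, n, hn⟩ := hJ3 m D hD ⟨X, (hPi X).2 hX⟩
      exact ⟨P, (hPi P).1 hP, n, hn⟩
  · rintro ⟨n, hn⟩
    exact hJ2 n hn

end Pool.Agent.Q201.SI
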