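import Mathlib

set_option autoImplicit false

/-!
Back-and-forth for algebras of sets containing all finite sets.

`M` is a structure in a language without relation symbols, with homomorphisms `χ x : M → Z₂` for
`x : X` which separate the elements of `M`.  If `M` is closed under Boolean combinations and finite
modifications (`Rich`), then the truth of a formula at a tuple depends only on the sizes, up to some
finite bound, of the cells of the tuple.
-/

namespace Q201.SetAlg

open FirstOrder FirstOrder.Language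

universe u v

/-- sets have the same size up to `N` -/
def Sim {X : Type} (N : ℕ) (A B : Set X) : Prop :=
  A.encard = B.encard ∨ ((N : ℕ∞) ≤ A.encard ∧ (N : ℕ∞) ≤ B.encard)

theorem Sim.mono {X : Type} {N N' : ℕ} (h : N' ≤ N) {A B : Set X} (hs : Sim N A B) :
    Sim N' A B := by
  rcases hs with hs | ⟨h1, h2⟩
  · exact Or.inl hs
  · have : (N' : ℕ∞) ≤ (N : ℕ∞) := by exact_mod_cast h
    exact Or.inr ⟨this.trans h1, this.trans h2⟩

theorem Sim.symm {X : Type} {N : ℕ} {A B : Set X} (hs : Sim N A B) : Sim N B A := by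
  rcases hs with hs | ⟨h1, h2⟩
  · exact Or.inl hs.symm
  · exact Or.inr ⟨h2, h1⟩

/-- take a subset of given finite size -/
theorem exists_sub {X : Type} {D : Set X} {k : ℕ} (h : (k : ℕ∞) ≤ D.encard) :
    ∃ E ⊆ D, E.Finite ∧ E.encard = k := by
  obtain ⟨E, hE, hk⟩ := Set.exists_subset_encard_eq h
  refine ⟨E, hE, ?_, hk⟩
  rw [← Set.encard_lt_top_iff, hk]
  exact WithTop.coe_lt_top k

theorem enat_sub {a b k : ℕ∞} (hk : k ≠ ⊤) (h : k + a = k + b) : a = b :=
  ENat.add_right_injective_of_ne_top hk h

/-- The splitting lemma: one side finite. -/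
theorem split_one {X : Type} {N : ℕ} {C1 C2 D : Set X} (hdis : Disjoint C1 C2)
    (hs : Sim (2 * N) (C1 ∪ C2) D) (hC1 : C1.encard < N) :
    ∃ E ⊆ D, E.Finite ∧ Sim N C1 E ∧ Sim N C2 (D \ E) := by
  obtain ⟨k, hk⟩ := ENat.ne_top_iff_exists.1 (ne_top_of_lt hC1)
  have hkN : k < N := by
    rw [← hk] at hC1
    exact_mod_cast hC1
  have hun : (C1 ∪ C2).encard = C1.encard + C2.encard := Set.encard_union_eq hdis
  have hkD : (k : ℕ∞) ≤ D.encard := by
    rcases hs with hs | ⟨-, h2⟩
    · rw [← hs, hun, ← hk]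
      exact le_self_add
    · refine le_trans ?_ h2
      have : k ≤ 2 * N := by omega
      exact_mod_cast this
  obtain ⟨E, hE, hEf, hEk⟩ := exists_sub hkD
  refine ⟨E, hE, hEf, Or.inl (by rw [hEk, ← hk]), ?_⟩
  have hD : E.encard + (D \ E).encard = D.encard := by
    rw [add_comm]
    exact Set.encard_sdiff_add_encard_of_subset hE
  rcases hs with hs | ⟨h1, h2⟩
  · left
    rw [hun, ← hD, hEk, ← hk] at hs
    exact enat_sub (ENat.natCast_ne_top k) hs
  · right
    rw [hun, ← hk] at h1
    rw [← hD, hEk] at h2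
    constructor
    · by_contra hlt
      rw [not_le] at hlt
      obtain ⟨m, hm⟩ := ENat.ne_top_iff_exists.1 (ne_top_of_lt hlt)
      rw [← hm] at h1 hlt
      have h3 : 2 * N ≤ k + m := by exact_mod_cast h1
      have h4 : m < N := by exact_mod_cast hlt
      omega
    · by_contra hlt
      rw [not_le] at hlt
      obtain ⟨m, hm⟩ := ENat.ne_top_iff_exists.1 (ne_top_of_lt hlt)
      rw [← hm] at h2 hlt
      have h3 : 2 * N ≤ k + m := by exact_mod_cast h2
      have h4 : m < N := by exact_mod_cast hlt
      omega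

/-- The splitting lemma. -/
theorem split {X : Type} {N : ℕ} {C1 C2 D : Set X} (hdis : Disjoint C1 C2)
    (hs : Sim (2 * N) (C1 ∪ C2) D) :
    ∃ E ⊆ D, (E.Finite ∨ (D \ E).Finite) ∧ Sim N C1 E ∧ Sim N C2 (D \ E) := by
  by_cases h1 : C1.encard < N
  · obtain ⟨E, hE, hf, ha, hb⟩ := split_one hdis hs h1
    exact ⟨E, hE, Or.inl hf, ha, hb⟩
  by_cases h2 : C2.encard < N
  · rw [Set.union_comm] at hs
    obtain ⟨E, hE, hf, ha, hb⟩ := split_one hdis.symm hs h2
    refine ⟨D \ E, Set.sdiff_subset, Or.inr ?_, hb, ?_⟩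
    · rw [Set.sdiff_sdiff_cancel_left hE]
      exact hf
    · rw [Set.sdiff_sdiff_cancel_left hE]
      exact ha
  · rw [not_lt] at h1 h2
    have hC : ((2 * N : ℕ) : ℕ∞) ≤ (C1 ∪ C2).encard := by
      rw [Set.encard_union_eq hdis]
      have : ((2 * N : ℕ) : ℕ∞) = (N : ℕ∞) + N := by
        rw [two_mul]; push_cast; rfl
      rw [this]
      exact add_le_add h1 h2
    have hD : ((2 * N : ℕ) : ℕ∞) ≤ D.encard := by
      rcases hs with hs | ⟨-, h⟩
      · rwa [← hs]
      · exact h
    obtain ⟨E, hE, hEf, hEk⟩ := exists_sub (k := N) (D := D) (by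
      refine le_trans ?_ hD
      have : N ≤ 2 * N := by omega
      exact_mod_cast this)
    refine ⟨E, hE, Or.inl hEf, Or.inr ⟨h1, hEk.ge⟩, Or.inr ⟨h2, ?_⟩⟩
    have hD' : E.encard + (D \ E).encard = D.encard := by
      rw [add_comm]
      exact Set.encard_sdiff_add_encard_of_subset hE
    by_contra hlt
    rw [not_le] at hlt
    obtain ⟨m, hm⟩ := ENat.ne_top_iff_exists.1 (ne_top_of_lt hlt)
    rw [← hD', hEk, ← hm] at hD
    rw [← hm] at hlt
    have h3 : 2 * N ≤ N + m := by exact_mod_cast hD
    have h4 : m < N := by exact_mod_cast hlt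
    omega

section

variable {L : FirstOrder.Language.{u, v}} {M : Type} [L.Structure M] {X : Type} {V : Type} [L.Structure V]
  (χ : X → (M →[L] V))

/-- the cell of a tuple -/
def cell {β : Type} (v : β → M) (σ : β → V) : Set X := {x | ∀ i, χ x (v i) = σ i}

/-- closure under Boolean combinations and finite modifications, stated for two-valued `V` through
a predicate: every function on `X` which off a finite set is a function of the values of a finite
tuple is given by an element of `M` -/
def Rich : Prop :=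
  ∀ (n : ℕ) (w : Fin n → M) (h : X → V), (∃ (G : (Fin n → V) → V) (F : Set X), F.Finite ∧
    ∀ x ∉ F, h x = G (fun i => χ x (w i))) → ∃ m : M, ∀ x, χ x m = h x

variable {χ}

theorem extend [Finite V] (hR : Rich χ) (hV : ∃ a b : V, a ≠ b ∧ ∀ c, c = a ∨ c = b)
    {n : ℕ} (N : ℕ) (v w : Fin n → M) (h : ∀ σ, Sim (2 * N) (cell χ v σ) (cell χ w σ)) (m : M) :
    ∃ m' : M, ∀ σ c, Sim N (cell χ v σ ∩ {x | χ x m = c}) (cell χ w σ ∩ {x | χ x m' = c}) := by
  classical
  obtain ⟨a, b, hab, hall⟩ := hV
  have hsp : ∀ σ : Fin n → V, ∃ E ⊆ cell χ w σ, (E.Finite ∨ (cell χ w σ \ E).Finite) ∧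
      Sim N (cell χ v σ ∩ {x | χ x m = a}) E ∧
      Sim N (cell χ v σ ∩ {x | χ x m = b}) (cell χ w σ \ E) := by
    intro σ
    refine split ?_ ?_
    · rw [Set.disjoint_left]
      rintro x ⟨-, h1⟩ ⟨-, h2⟩
      exact hab ((Eq.symm h1).trans h2)
    · have : cell χ v σ ∩ {x | χ x m = a} ∪ cell χ v σ ∩ {x | χ x m = b} = cell χ v σ := by
        rw [← Set.inter_union_distrib_left]
        apply Set.inter_eq_left.2
        intro x _
        exact hall _
      rw [this]
      exact h σ
  choose E hE hfin hs1 hs2 using hsp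
  -- the function to be realised
  let pat : X → (Fin n → V) := fun x i => χ x (w i)
  let hh : X → V := fun x => if x ∈ E (pat x) then a else b
  let G : (Fin n → V) → V := fun σ => if (E σ).Finite then b else a
  let F : Set X := ⋃ σ : Fin n → V, (if (E σ).Finite then E σ else cell χ w σ \ E σ)
  have hF : F.Finite := by
    apply Set.finite_iUnion
    intro σ
    split_ifs with h1
    · exact h1
    · exact (hfin σ).resolve_left h1
  obtain ⟨m', hm'⟩ := hR n w hh ⟨G, F, hF, by
    intro x hx
    have hx' : ∀ σ : Fin n → V, x ∉ (if (E σ).Finite then E σ else cell χ w σ \ E σ) := by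
      intro σ hσ
      exact hx (Set.mem_iUnion.2 ⟨σ, hσ⟩)
    have h1 := hx' (pat x)
    simp only [hh, G]
    change _ = if (E (pat x)).Finite then b else a
    by_cases hfx : (E (pat x)).Finite
    · rw [if_pos hfx] at h1 ⊢
      rw [if_neg h1]
    · rw [if_neg hfx] at h1 ⊢
      rw [if_pos]
      by_contra h2
      exact h1 ⟨fun i => rfl, h2⟩⟩
  refine ⟨m', ?_⟩
  intro σ c
  have hcell : ∀ x ∈ cell χ w σ, pat x = σ := fun x hx => funext hx
  have ha : cell χ w σ ∩ {x | χ x m' = a} = E σ := by
    ext x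
    constructor
    · rintro ⟨h1, h2⟩
      have h3 : hh x = a := (hm' x).symm.trans h2
      simp only [hh] at h3
      rw [hcell x h1] at h3
      by_contra h4
      rw [if_neg h4] at h3
      exact hab h3.symm
    · intro h1
      refine ⟨hE σ h1, ?_⟩
      change χ x m' = a
      rw [hm']
      simp only [hh]
      rw [hcell x (hE σ h1), if_pos h1]
  have hb : cell χ w σ ∩ {x | χ x m' = b} = cell χ w σ \ E σ := by
    ext x
    constructor
    · rintro ⟨h1, h2⟩
      refine ⟨h1, fun h4 => ?_⟩
      have h3 : hh x = b := (hm' x).symm.trans h2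
      simp only [hh] at h3
      rw [hcell x h1, if_pos h4] at h3
      exact hab h3
    · rintro ⟨h1, h4⟩
      refine ⟨h1, ?_⟩
      change χ x m' = b
      rw [hm']
      simp only [hh]
      rw [hcell x h1, if_neg h4]
  rcases hall c with rfl | rfl
  · rw [ha]
    exact hs1 σ
  · rw [hb]
    exact hs2 σ

theorem nonempty_of_sim {N : ℕ} (hN : 1 ≤ N) {A B : Set X} (h : Sim N A B) (hA : A.Nonempty) :
    B.Nonempty := by
  rw [← Set.encard_pos]
  rcases h with h | ⟨-, h⟩
  · rw [← h, Set.encard_pos]
    exact hA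
  · have : (1 : ℕ∞) ≤ (N : ℕ∞) := by exact_mod_cast hN
    exact lt_of_lt_of_le (by norm_num) (this.trans h)

/-- The main theorem: formulas with free variables in `Fin 0`-indexed part and bound variables.
For a bounded formula whose free variables are the `Fin n` bound ones. -/
theorem main [Finite V] [L.IsAlgebraic] (hR : Rich χ)
    (hV : ∃ a b : V, a ≠ b ∧ ∀ c, c = a ∨ c = b)
    (hinj : ∀ m m' : M, (∀ x, χ x m = χ x m') → m = m')
    {n : ℕ} (φ : L.BoundedFormula Empty n) :
    ∃ N : ℕ, 1 ≤ N ∧ ∀ v w : Fin n → M, (∀ σ, Sim N (cell χ v σ) (cell χ w σ)) →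
      (φ.Realize Empty.elim v ↔ φ.Realize Empty.elim w) := by
  induction φ with
  | falsum => exact ⟨1, le_rfl, fun v w _ => Iff.rfl⟩
  | @equal n t1 t2 =>
    refine ⟨1, le_rfl, ?_⟩
    have key : ∀ v w : Fin n → M, (∀ σ, Sim 1 (cell χ v σ) (cell χ w σ)) →
        t1.realize (Sum.elim Empty.elim v) = t2.realize (Sum.elim Empty.elim v) →
        t1.realize (Sum.elim Empty.elim w) = t2.realize (Sum.elim Empty.elim w) := by
      intro v w h heq
      apply hinj
      intro x
      have hx : (cell χ w (fun i => χ x (w i))).Nonempty := ⟨x, fun i => rfl⟩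
      obtain ⟨y, hy⟩ := nonempty_of_sim le_rfl (h _).symm hx
      have hpat : (χ y ∘ Sum.elim (Empty.elim : Empty → M) v) =
          (χ x ∘ Sum.elim (Empty.elim : Empty → M) w) := by
        funext i
        rcases i with i | i
        · exact i.elim
        · exact hy i
      have e1 : ∀ t : L.Term (Empty ⊕ Fin n), χ x (t.realize (Sum.elim Empty.elim w)) =
          χ y (t.realize (Sum.elim Empty.elim v)) := by
        intro t
        rw [← HomClass.realize_term, ← HomClass.realize_term, hpat]
      rw [e1, e1, heq]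
    intro v w h
    exact ⟨key v w h, key w v (fun σ => (h σ).symm)⟩
  | rel R ts => exact isEmptyElim R
  | imp f1 f2 ih1 ih2 =>
    obtain ⟨N1, hN1, h1⟩ := ih1
    obtain ⟨N2, hN2, h2⟩ := ih2
    refine ⟨max N1 N2, le_trans hN1 (le_max_left _ _), fun v w h => ?_⟩
    rw [BoundedFormula.realize_imp, BoundedFormula.realize_imp,
      h1 v w (fun σ => (h σ).mono (le_max_left _ _)),
      h2 v w (fun σ => (h σ).mono (le_max_right _ _))]
  | @all n f ih =>
    obtain ⟨N, hN, h1⟩ := ih
    refine ⟨2 * N, by omega, ?_⟩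
    have key : ∀ v w : Fin n → M, (∀ σ, Sim (2 * N) (cell χ v σ) (cell χ w σ)) →
        (∀ a, f.Realize Empty.elim (Fin.snoc v a)) →
        (∀ a, f.Realize Empty.elim (Fin.snoc w a)) := by
      intro v w h hall a
      obtain ⟨m', hm'⟩ := extend hR hV N w v (fun σ => (h σ).symm) a
      rw [h1 _ (Fin.snoc v m')]
      · exact hall m'
      · intro σ
        have hc : ∀ (u : Fin n → M) (m : M), cell χ (Fin.snoc u m : Fin (n + 1) → M) σ =
            cell χ u (fun i => σ (Fin.castSucc i)) ∩ {x | χ x m = σ (Fin.last n)} := by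
          intro u m
          ext x
          constructor
          · intro hx
            refine ⟨fun i => ?_, ?_⟩
            · have := hx (Fin.castSucc i)
              rwa [Fin.snoc_castSucc] at this
            · have := hx (Fin.last n)
              rwa [Fin.snoc_last] at this
          · rintro ⟨hx1, hx2⟩ i
            refine Fin.lastCases ?_ (fun i => ?_) i
            · rw [Fin.snoc_last]
              exact hx2
            · rw [Fin.snoc_castSucc]
              exact hx1 i
        rw [hc, hc]
        exact hm' _ _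
    intro v w h
    rw [BoundedFormula.realize_all, BoundedFormula.realize_all]
    exact ⟨key v w h, key w v (fun σ => (h σ).symm)⟩

/-- Tuples whose cells have the same size, or are both infinite, satisfy the same formulas. -/
theorem sameType [Finite V] [L.IsAlgebraic] (hR : Rich χ)
    (hV : ∃ a b : V, a ≠ b ∧ ∀ c, c = a ∨ c = b)
    (hinj : ∀ m m' : M, (∀ x, χ x m = χ x m') → m = m')
    {n : ℕ} (v w : Fin n → M) (h : ∀ σ N, Sim N (cell χ v σ) (cell χ w σ))
    (φ : L.Formula (Fin n)) : φ.Realize v ↔ φ.Realize w := by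
  let ψ : L.BoundedFormula Empty n := BoundedFormula.relabel
    (fun i : Fin n => (Sum.inr i : Empty ⊕ Fin n)) φ
  obtain ⟨N, -, hN⟩ := main hR hV hinj ψ
  have h1 := hN v w (fun σ => h σ N)
  have key : ∀ u : Fin n → M, ψ.Realize Empty.elim u ↔ φ.Realize u := by
    intro u
    have h2 := BoundedFormula.realize_relabel (L := L) (φ := φ)
      (g := fun i : Fin n => (Sum.inr i : Empty ⊕ Fin n)) (v := (Empty.elim : Empty → M)) (xs := u)
    refine h2.trans ?_
    unfold Formula.Realize
    apply iff_of_eq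
    congr 1
    exact Subsingleton.elim _ _
  rw [key, key] at h1
  exact h1

end

end Q201.SetAlg
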