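import Mathlib
import Pool.Agent.Q200.DOAG

/-!
# Generic ultrametric spaces over divisible ordered abelian groups

Language: a relation symbol of arity `k` for each integer matrix `c`, saying that
`∑ c i j • d (x i) (x j) > 0`.
-/

namespace Q201.UM

open FirstOrder FirstOrder.Language Q200.DOAG

/-- The language: a relation symbol of arity `k` for each integer `k × k` matrix. -/
def Lu : FirstOrder.Language.{0, 0} := ⟨fun _ => Empty, fun k => Fin k → Fin k → ℤ⟩

/-- The structure given by a distance function with values in an ordered abelian group. -/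
@[reducible]
def umStructure {X Γ : Type*} [AddCommGroup Γ] [LinearOrder Γ] (d : X → X → Γ) :
    Lu.Structure X where
  funMap := fun {_} f _ => Empty.elim f
  RelMap := fun {k} (c : Fin k → Fin k → ℤ) v => 0 < ∑ i, ∑ j, c i j • d (v i) (v j)

/-- `(X, d)` is a generic ultrametric space over `Γ` (with `d x x = 0` by convention). -/
structure Generic {X Γ : Type*} [AddCommGroup Γ] [LinearOrder Γ] (d : X → X → Γ) : Prop where
  self : ∀ x, d x x = 0
  symm : ∀ x y, d x y = d y x
  ultra : ∀ x y z, x ≠ y → y ≠ z → x ≠ z → d x z ≤ max (d x y) (d y z)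
  branch : ∀ (S : Finset X) (x : X) (γ : Γ), ∃ z, z ≠ x ∧ z ∉ S ∧ d z x = γ ∧
    ∀ s ∈ S, s ≠ x → γ ≤ d z s

section Forms

variable {X Γ : Type*} [AddCommGroup Γ] [LinearOrder Γ] (d : X → X → Γ)

/-- Evaluation of an integer linear form in the distances. -/
noncomputable def evd {β : Type*} (l : β × β →₀ ℤ) (v : β → X) : Γ :=
  l.sum fun p c => c • d (v p.1) (v p.2)

omit [LinearOrder Γ] in
theorem evd_zero {β : Type*} (v : β → X) : evd d (0 : β × β →₀ ℤ) v = 0 := by simp [evd]

omit [LinearOrder Γ] in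
theorem evd_add {β : Type*} (l m : β × β →₀ ℤ) (v : β → X) :
    evd d (l + m) v = evd d l v + evd d m v := by
  classical
  unfold evd
  rw [Finsupp.sum_add_index' (by simp) (by intro a b c; exact add_smul _ _ _)]

omit [LinearOrder Γ] in
theorem evd_smul {β : Type*} (n : ℤ) (l : β × β →₀ ℤ) (v : β → X) :
    evd d (n • l) v = n • evd d l v := by
  unfold evd
  rw [Finsupp.sum_smul_index (by simp), Finsupp.smul_sum]
  simp [mul_smul]

omit [LinearOrder Γ] in
theorem evd_neg {β : Type*} (l : β × β →₀ ℤ) (v : β → X) : evd d (-l) v = - evd d l v := by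
  have := evd_smul d (-1) l v
  simpa using this

omit [LinearOrder Γ] in
theorem evd_sub {β : Type*} (l m : β × β →₀ ℤ) (v : β → X) :
    evd d (l - m) v = evd d l v - evd d m v := by
  rw [sub_eq_add_neg, evd_add, evd_neg, sub_eq_add_neg]

omit [LinearOrder Γ] in
theorem evd_single {β : Type*} (p : β × β) (c : ℤ) (v : β → X) :
    evd d (Finsupp.single p c) v = c • d (v p.1) (v p.2) := by
  simp [evd]

omit [LinearOrder Γ] in
theorem evd_finsum {β ι : Type*} (s : Finset ι) (f : ι → (β × β →₀ ℤ)) (v : β → X) :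
    evd d (∑ i ∈ s, f i) v = ∑ i ∈ s, evd d (f i) v := by
  classical
  induction s using Finset.induction_on with
  | empty => simp [evd_zero]
  | insert i s hi ih => rw [Finset.sum_insert hi, Finset.sum_insert hi, evd_add, ih]

omit [LinearOrder Γ] in
theorem evd_mapDomain {β γ : Type*} (e : β → γ) (l : β × β →₀ ℤ) (v : γ → X) :
    evd d (l.mapDomain (Prod.map e e)) v = evd d l (v ∘ e) := by
  unfold evd
  rw [Finsupp.sum_mapDomain_index (by simp) (by intro a b c; exact add_smul _ _ _)]
  rfl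

/-- `v` and `v'` satisfy the same equalities in `E` and give the same signs to the forms
in `Λ`. -/
def Same {β : Type*} (E : Finset (β × β)) (Λ : Finset (β × β →₀ ℤ)) (v v' : β → X) : Prop :=
  (∀ p ∈ E, v p.1 = v p.2 ↔ v' p.1 = v' p.2) ∧
    ∀ l ∈ Λ, (0 < evd d l v ↔ 0 < evd d l v') ∧ (evd d l v < 0 ↔ evd d l v' < 0)

variable {d}

theorem Same.symm {β : Type*} {E : Finset (β × β)} {Λ : Finset (β × β →₀ ℤ)} {v v' : β → X}
    (h : Same d E Λ v v') : Same d E Λ v' v :=
  ⟨fun p hp => (h.1 p hp).symm, fun l hl => ⟨(h.2 l hl).1.symm, (h.2 l hl).2.symm⟩⟩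

theorem Same.mono {β : Type*} {E E' : Finset (β × β)} {Λ Λ' : Finset (β × β →₀ ℤ)}
    {v v' : β → X} (h : Same d E Λ v v') (hE : E' ⊆ E) (hΛ : Λ' ⊆ Λ) : Same d E' Λ' v v' :=
  ⟨fun p hp => h.1 p (hE hp), fun l hl => h.2 l (hΛ hl)⟩

/-- Adding a value for a new variable. -/
def ext1 {β : Type*} (w : β → X) (z : X) : Option β → X := fun o => o.elim z w

open Classical in
/-- Reduction of the distances to the new point. -/
noncomputable def red1 {β : Type*} (j0 : β) (P : Finset β) :
    Option β × Option β → (β × β →₀ ℤ) × ℤ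
  | (some a, some b) => (Finsupp.single (a, b) 1, 0)
  | (some a, none) => if a ∈ P then (Finsupp.single (j0, a) 1, 0) else (0, 1)
  | (none, some a) => if a ∈ P then (Finsupp.single (j0, a) 1, 0) else (0, 1)
  | (none, none) => (0, 0)

/-- Reduction of a form in the new point. -/
noncomputable def red {β : Type*} (j0 : β) (P : Finset β) (l : Option β × Option β →₀ ℤ) :
    (β × β →₀ ℤ) × ℤ :=
  (∑ p ∈ l.support, l p • (red1 j0 P p).1, ∑ p ∈ l.support, l p * (red1 j0 P p).2)

/-- The variables of a finite set of forms and pairs. -/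
noncomputable def vars {β : Type*} (E : Finset (Option β × Option β))
    (Λ : Finset (Option β × Option β →₀ ℤ)) : Finset β :=
  by classical exact
  (E.image Prod.fst ∪ E.image Prod.snd ∪
    Λ.biUnion fun l => l.support.image Prod.fst ∪ l.support.image Prod.snd).eraseNone

theorem mem_vars_E {β : Type*} {E : Finset (Option β × Option β)}
    {Λ : Finset (Option β × Option β →₀ ℤ)} {p : Option β × Option β} (hp : p ∈ E) {a : β} :
    (p.1 = some a → a ∈ vars E Λ) ∧ (p.2 = some a → a ∈ vars E Λ) := by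
  classical
  constructor
  · intro h
    unfold vars
    rw [Finset.mem_eraseNone]
    exact Finset.mem_union_left _ (Finset.mem_union_left _ (Finset.mem_image.mpr ⟨p, hp, h⟩))
  · intro h
    unfold vars
    rw [Finset.mem_eraseNone]
    exact Finset.mem_union_left _ (Finset.mem_union_right _ (Finset.mem_image.mpr ⟨p, hp, h⟩))

theorem mem_vars_Λ {β : Type*} {E : Finset (Option β × Option β)}
    {Λ : Finset (Option β × Option β →₀ ℤ)} {l : Option β × Option β →₀ ℤ} (hl : l ∈ Λ)
    {p : Option β × Option β} (hp : p ∈ l.support) {a : β} :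
    (p.1 = some a → a ∈ vars E Λ) ∧ (p.2 = some a → a ∈ vars E Λ) := by
  classical
  constructor
  · intro h
    unfold vars
    rw [Finset.mem_eraseNone]
    exact Finset.mem_union_right _ (Finset.mem_biUnion.mpr ⟨l, hl, Finset.mem_union_left _
      (Finset.mem_image.mpr ⟨p, hp, h⟩)⟩)
  · intro h
    unfold vars
    rw [Finset.mem_eraseNone]
    exact Finset.mem_union_right _ (Finset.mem_biUnion.mpr ⟨l, hl, Finset.mem_union_right _
      (Finset.mem_image.mpr ⟨p, hp, h⟩)⟩)

/-- The new point `z` is at the position `(j0, P, γ)` over `w`. -/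
def At (d : X → X → Γ) {β : Type*} (J : Finset β) (w : β → X) (j0 : β) (P : Finset β) (γ : Γ)
    (z : X) : Prop :=
  ∀ a ∈ J, (a ∈ P → d (w a) z = d (w j0) (w a)) ∧ (a ∉ P → d (w a) z = γ)

theorem evd_red (hd : Generic d) {β : Type*} {E : Finset (Option β × Option β)}
    {Λ : Finset (Option β × Option β →₀ ℤ)} {w : β → X} {j0 : β} {P : Finset β} {γ : Γ} {z : X}
    (h : At d (vars E Λ) w j0 P γ z) {l : Option β × Option β →₀ ℤ} (hl : l ∈ Λ) :
    evd d l (ext1 w z) = evd d (red j0 P l).1 w + (red j0 P l).2 • γ := by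
  classical
  unfold red
  simp only
  rw [evd_finsum, Finset.sum_smul, ← Finset.sum_add_distrib]
  unfold evd
  rw [Finsupp.sum]
  refine Finset.sum_congr rfl fun p hp => ?_
  have key : d (ext1 w z p.1) (ext1 w z p.2) =
      evd d (red1 j0 P p).1 w + (red1 j0 P p).2 • γ := by
    rcases p with ⟨_ | a, _ | b⟩
    · simp [red1, ext1, hd.self, evd_zero]
    · have hb : b ∈ vars E Λ := (mem_vars_Λ hl hp).2 rfl
      simp only [red1, ext1, Option.elim]
      by_cases hP : b ∈ P
      · rw [if_pos hP, evd_single, hd.symm, (h b hb).1 hP]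
        simp
      · rw [if_neg hP, evd_zero, hd.symm, (h b hb).2 hP]
        simp
    · have ha : a ∈ vars E Λ := (mem_vars_Λ hl hp).1 rfl
      simp only [red1, ext1, Option.elim]
      by_cases hP : a ∈ P
      · rw [if_pos hP, evd_single, (h a ha).1 hP]
        simp
      · rw [if_neg hP, evd_zero, (h a ha).2 hP]
        simp
    · simp [red1, ext1, evd_single]
  rw [key, smul_add, mul_smul]
  congr 1
  have := evd_smul d (l p) (red1 j0 P p).1 w
  exact this.symm

open Classical in
/-- The critical pairs. -/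
noncomputable def crit {β : Type*} (J : Finset β) (Λ : Finset (Option β × Option β →₀ ℤ)) (j0 : β)
    (P : Finset β) : Finset ((β × β →₀ ℤ) × ℤ) :=
  Λ.image (red j0 P) ∪ J.image fun a => (Finset.sum {a} fun a => Finsupp.single (j0, a) 1, -1)

/-- Substitution of the old variable `b` for the new variable. -/
noncomputable def sub1 {β : Type*} (b : β) (l : Option β × Option β →₀ ℤ) : β × β →₀ ℤ :=
  l.mapDomain (Prod.map (fun o => o.getD b) (fun o => o.getD b))

omit [LinearOrder Γ] in
theorem evd_sub1 {β : Type*} (b : β) (l : Option β × Option β →₀ ℤ) (w : β → X) :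
    evd d (sub1 b l) w = evd d l (ext1 w (w b)) := by
  unfold sub1
  rw [evd_mapDomain]
  congr 1
  funext o
  rcases o with _ | a <;> rfl

/-- Isosceles triangles. -/
theorem isosc (hd : Generic d) {x y z : X} (hxy : x ≠ y) (hyz : y ≠ z) (hxz : x ≠ z)
    (h : d x y < d y z) : d x z = d y z := by
  apply le_antisymm
  · have := hd.ultra x y z hxy hyz hxz
    rwa [max_eq_right h.le] at this
  · have := hd.ultra y x z hxy.symm hxz hyz
    rw [hd.symm y x] at this
    rcases le_max_iff.mp this with h1 | h1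
    · exact absurd h (not_lt.mpr h1)
    · exact h1

/-- Signs of `l + m γ` in terms of the position of `γ`. -/
theorem sign_transfer [IsOrderedAddMonoid Γ] {m : ℤ} {L L' γ γ' ρ ρ' : Γ}
    (h0 : m = 0 → (0 < L ↔ 0 < L') ∧ (L < 0 ↔ L' < 0))
    (h1 : m ≠ 0 → m • ρ = -L ∧ m • ρ' = -L' ∧ (ρ < γ ↔ ρ' < γ') ∧ (γ < ρ ↔ γ' < ρ')) :
    (0 < L + m • γ ↔ 0 < L' + m • γ') ∧ (L + m • γ < 0 ↔ L' + m • γ' < 0) := by
  by_cases hm : m = 0
  · rw [hm, zero_smul, zero_smul, add_zero, add_zero]
    exact h0 hm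
  · obtain ⟨e1, e2, h2, h3⟩ := h1 hm
    have e3 : L + m • γ = m • (γ - ρ) := by rw [smul_sub, e1]; abel
    have e4 : L' + m • γ' = m • (γ' - ρ') := by rw [smul_sub, e2]; abel
    rw [e3, e4, (zsmul_pos_iff' hm _).1, (zsmul_pos_iff' hm _).1, (zsmul_pos_iff' hm _).2,
      (zsmul_pos_iff' hm _).2]
    simp only [sub_pos, sub_neg]
    rw [h2, h3]
    exact ⟨Iff.rfl, Iff.rfl⟩

/-- The position of the nearest point, at a new point `z`. -/
theorem exists_at (hd : Generic d) {β : Type*} {J : Finset β} (hJ : J.Nonempty) (w : β → X)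
    (z : X) (hz : ∀ b ∈ J, w b ≠ z) : ∃ j0 ∈ J, ∃ P ⊆ J, At d J w j0 P (d (w j0) z) z ∧
      (∀ a ∈ J, a ∈ P ↔ w a ≠ w j0 ∧ d (w j0) z < d (w j0) (w a)) ∧
      ∀ a ∈ J, d (w j0) z ≤ d (w a) z := by
  classical
  obtain ⟨j0, hj0, hmin⟩ := Finset.exists_min_image J (fun a => d (w a) z) hJ
  refine ⟨j0, hj0, J.filter (fun a => w a ≠ w j0 ∧ d (w j0) z < d (w j0) (w a)),
    Finset.filter_subset _ _, ?_, ?_, hmin⟩
  · intro a ha
    constructor
    · intro haP
      obtain ⟨_, hne, hlt⟩ := Finset.mem_filter.mp haP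
      rw [hd.symm (w a) z, hd.symm (w j0) (w a)]
      rw [hd.symm (w j0) z] at hlt
      rw [isosc hd (hz j0 hj0).symm hne.symm (hz a ha).symm hlt, hd.symm]
    · intro haP
      rw [Finset.mem_filter] at haP
      push Not at haP
      by_cases hne : w a = w j0
      · rw [hne]
      · have hle := haP ha hne
        apply le_antisymm _ (hmin a ha)
        have := hd.ultra (w a) (w j0) z hne (hz j0 hj0) (hz a ha)
        rw [hd.symm (w a) (w j0), max_eq_right hle] at this
        exact this
  · intro a ha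
    rw [Finset.mem_filter]
    exact ⟨fun h => h.2, fun h => ⟨ha, h⟩⟩

/-- One-point extensions. -/
theorem one_point [IsOrderedAddMonoid Γ] [Nontrivial Γ]
    (hdiv : ∀ (m : ℤ), m ≠ 0 → ∀ g : Γ, ∃ h : Γ, m • h = g) (hd : Generic d) {β : Type*}
    (E : Finset (Option β × Option β)) (Λ : Finset (Option β × Option β →₀ ℤ)) :
    ∃ (E' : Finset (β × β)) (Λ' : Finset (β × β →₀ ℤ)), ∀ w w' : β → X, Same d E' Λ' w w' →
      ∀ z, ∃ z', Same d E Λ (ext1 w z) (ext1 w' z') := by
  classical
  set J := vars E Λ with hJdef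
  refine ⟨J ×ˢ J, (J.biUnion fun b => Λ.image (sub1 b)) ∪
    (J.biUnion fun j0 => J.powerset.biUnion fun P => (crit J Λ j0 P).image Prod.fst ∪
      ((crit J Λ j0 P) ×ˢ (crit J Λ j0 P)).image fun q => q.2.2 • q.1.1 - q.1.2 • q.2.1),
    fun w w' h z => ?_⟩
  have hEold : ∀ a ∈ J, ∀ b ∈ J, (w a = w b ↔ w' a = w' b) := fun a ha b hb =>
    h.1 (a, b) (Finset.mem_product.mpr ⟨ha, hb⟩)
  by_cases hz : ∃ b ∈ J, w b = z
  · -- an old point
    obtain ⟨b, hb, rfl⟩ := hz
    refine ⟨w' b, fun p hp => ?_, fun l hl => ?_⟩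
    · have e : ∀ (w : β → X) (o : Option β), ext1 w (w b) o = w (o.getD b) := by
        intro w o
        rcases o with _ | a <;> rfl
      have hmem : ∀ o : Option β, (∀ a, o = some a → a ∈ J) → o.getD b ∈ J := by
        intro o ho
        rcases o with _ | a
        · exact hb
        · exact ho a rfl
      rw [e, e, e, e]
      exact hEold _ (hmem _ fun a ha => (mem_vars_E (Λ := Λ) hp).1 ha) _
        (hmem _ fun a ha => (mem_vars_E (Λ := Λ) hp).2 ha)
    · rw [← evd_sub1, ← evd_sub1]
      exact h.2 _ (Finset.mem_union_left _ (Finset.mem_biUnion.mpr ⟨b, hb,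
        Finset.mem_image_of_mem _ hl⟩))
  push Not at hz
  by_cases hJ : J.Nonempty
  · -- a new point
    obtain ⟨j0, hj0, P, hPJ, hAt, hPiff, hmin⟩ := exists_at hd hJ w z hz
    set γ := d (w j0) z with hγ
    set C := crit J Λ j0 P with hC
    have hCfst : ∀ c ∈ C, (0 < evd d c.1 w ↔ 0 < evd d c.1 w') ∧
        (evd d c.1 w < 0 ↔ evd d c.1 w' < 0) := fun c hc =>
      h.2 _ (Finset.mem_union_right _ (Finset.mem_biUnion.mpr ⟨j0, hj0, Finset.mem_biUnion.mpr
        ⟨P, Finset.mem_powerset.mpr hPJ, Finset.mem_union_left _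
          (Finset.mem_image_of_mem _ hc)⟩⟩))
    have hCdiff : ∀ c ∈ C, ∀ c' ∈ C, (0 < evd d (c'.2 • c.1 - c.2 • c'.1) w ↔
        0 < evd d (c'.2 • c.1 - c.2 • c'.1) w') ∧
        (evd d (c'.2 • c.1 - c.2 • c'.1) w < 0 ↔ evd d (c'.2 • c.1 - c.2 • c'.1) w' < 0) :=
      fun c hc c' hc' =>
      h.2 _ (Finset.mem_union_right _ (Finset.mem_biUnion.mpr ⟨j0, hj0, Finset.mem_biUnion.mpr
        ⟨P, Finset.mem_powerset.mpr hPJ, Finset.mem_union_right _ (Finset.mem_image.mpr
          ⟨(c, c'), Finset.mem_product.mpr ⟨hc, hc'⟩, rfl⟩)⟩⟩))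
    have hp : ∀ (w : β → X) (c : (β × β →₀ ℤ) × ℤ), ∃ ρ : Γ, c.2 ≠ 0 →
        c.2 • ρ = - evd d c.1 w := by
      intro w c
      by_cases hc : c.2 = 0
      · exact ⟨0, fun h' => absurd hc h'⟩
      · obtain ⟨ρ, hρ⟩ := hdiv c.2 hc (- evd d c.1 w)
        exact ⟨ρ, fun _ => hρ⟩
    choose ρ hρ using hp w
    choose ρ' hρ' using hp w'
    obtain ⟨γ', hγ'⟩ := exists_position hdiv (C.filter fun c => c.2 ≠ 0) ρ ρ' (by
      intro c hc c' hc'
      rw [Finset.mem_filter] at hc hc'
      have hmem := hCdiff c hc.1 c' hc'.1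
      have e1 : (c.2 * c'.2) • (ρ c' - ρ c) = evd d (c'.2 • c.1 - c.2 • c'.1) w := by
        rw [evd_sub, evd_smul, evd_smul]
        have b1 : evd d c.1 w = - (c.2 • ρ c) := by rw [hρ c hc.2, neg_neg]
        have b2 : evd d c'.1 w = - (c'.2 • ρ c') := by rw [hρ c' hc'.2, neg_neg]
        rw [b1, b2, smul_sub, smul_neg, smul_neg, smul_smul, smul_smul, mul_comm c'.2 c.2]
        abel
      have e2 : (c.2 * c'.2) • (ρ' c' - ρ' c) = evd d (c'.2 • c.1 - c.2 • c'.1) w' := by
        rw [evd_sub, evd_smul, evd_smul]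
        have b1 : evd d c.1 w' = - (c.2 • ρ' c) := by rw [hρ' c hc.2, neg_neg]
        have b2 : evd d c'.1 w' = - (c'.2 • ρ' c') := by rw [hρ' c' hc'.2, neg_neg]
        rw [b1, b2, smul_sub, smul_neg, smul_neg, smul_smul, smul_smul, mul_comm c'.2 c.2]
        abel
      rw [← e1, ← e2] at hmem
      have hmm : c.2 * c'.2 ≠ 0 := mul_ne_zero hc.2 hc'.2
      have q1 := zsmul_pos_iff' hmm (ρ c' - ρ c)
      have q2 := zsmul_pos_iff' hmm (ρ' c' - ρ' c)
      rw [q1.1, q1.2, q2.1, q2.2] at hmem
      simp only [sub_pos, sub_neg] at hmem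
      rcases lt_or_gt_of_ne hmm with h | h
      · have h' : ¬ 0 < c.2 * c'.2 := not_lt.mpr h.le
        simp only [h, h', true_and, false_and, false_or] at hmem
        exact hmem.2
      · have h' : ¬ c.2 * c'.2 < 0 := not_lt.mpr h.le
        simp only [h, h', true_and, false_and, or_false] at hmem
        exact hmem.1) γ
    -- the critical pairs giving the distances
    have hdist : ∀ a ∈ J, (d (w j0) (w a) < γ ↔ d (w' j0) (w' a) < γ') ∧
        (γ < d (w j0) (w a) ↔ γ' < d (w' j0) (w' a)) := by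
      intro a ha
      set c : (β × β →₀ ℤ) × ℤ := (Finset.sum {a} fun a => Finsupp.single (j0, a) 1, -1) with hc
      have hcC : c ∈ C := Finset.mem_union_right _ (Finset.mem_image_of_mem _ ha)
      have hc2 : c.2 ≠ 0 := by norm_num [hc]
      have e1 : ρ c = d (w j0) (w a) := by
        have := hρ c hc2
        rw [hc] at this ⊢
        simpa [evd_single] using this
      have e2 : ρ' c = d (w' j0) (w' a) := by
        have := hρ' c hc2
        rw [hc] at this ⊢
        simpa [evd_single] using this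
      rw [← e1, ← e2]
      exact hγ' c (Finset.mem_filter.mpr ⟨hcC, hc2⟩)
    obtain ⟨z', hz'0, hz'S, hz'd, hz'b⟩ := hd.branch (J.image w') (w' j0) γ'
    have hz' : ∀ b ∈ J, w' b ≠ z' := fun b hb hb' =>
      hz'S (hb' ▸ Finset.mem_image_of_mem _ hb)
    have hAt' : At d J w' j0 P γ' z' := by
      intro a ha
      constructor
      · intro haP
        obtain ⟨hne, hlt⟩ := (hPiff a ha).mp haP
        have hne' : w' a ≠ w' j0 := fun h => hne ((hEold a ha j0 hj0).mpr h)
        have hlt' := (hdist a ha).2.mp hlt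
        rw [hd.symm (w' a) z', hd.symm (w' j0) (w' a), ← hz'd] at *
        rw [hd.symm (w' a) (w' j0)] at hlt' ⊢
        exact isosc hd (hz' j0 hj0).symm hne'.symm (hz' a ha).symm hlt'
      · intro haP
        by_cases hne : w a = w j0
        · rw [(hEold a ha j0 hj0).mp hne, hd.symm, hz'd]
        · have hne' : w' a ≠ w' j0 := fun h => hne ((hEold a ha j0 hj0).mpr h)
          have hle : ¬ γ < d (w j0) (w a) := fun hc => haP ((hPiff a ha).mpr ⟨hne, hc⟩)
          have hle' : d (w' j0) (w' a) ≤ γ' := not_lt.mp fun hc => hle ((hdist a ha).2.mpr hc)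
          apply le_antisymm
          · have := hd.ultra (w' a) (w' j0) z' hne' (hz' j0 hj0) (hz' a ha)
            rw [hd.symm (w' a) (w' j0), hd.symm (w' j0) z', hz'd, max_eq_right hle'] at this
            exact this
          · rw [hd.symm]
            exact hz'b _ (Finset.mem_image_of_mem _ ha) hne'
    refine ⟨z', fun p hp => ?_, fun l hl => ?_⟩
    · rcases p with ⟨_ | a, _ | b⟩
      · exact ⟨fun _ => rfl, fun _ => rfl⟩
      · have hb : b ∈ J := (mem_vars_E (Λ := Λ) hp).2 rfl
        exact ⟨fun h => absurd h.symm (hz b hb), fun h => absurd h.symm (hz' b hb)⟩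
      · have ha : a ∈ J := (mem_vars_E (Λ := Λ) hp).1 rfl
        exact ⟨fun h => absurd h (hz a ha), fun h => absurd h (hz' a ha)⟩
      · exact hEold a ((mem_vars_E (Λ := Λ) hp).1 rfl) b ((mem_vars_E (Λ := Λ) hp).2 rfl)
    · rw [evd_red hd hAt hl, evd_red hd hAt' hl]
      have hcC : red j0 P l ∈ C := Finset.mem_union_left _ (Finset.mem_image_of_mem _ hl)
      exact sign_transfer (fun _ => hCfst _ hcC) (fun hm => ⟨hρ _ hm, hρ' _ hm,
        hγ' _ (Finset.mem_filter.mpr ⟨hcC, hm⟩)⟩)
  · -- no old variables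
    rw [Finset.not_nonempty_iff_eq_empty] at hJ
    have hE : ∀ p ∈ E, p = (none, none) := by
      rintro ⟨_ | a, _ | b⟩ hp
      · rfl
      · have := (mem_vars_E (Λ := Λ) hp (a := b)).2 rfl
        rw [← hJdef, hJ] at this
        exact absurd this (Finset.notMem_empty _)
      · have := (mem_vars_E (Λ := Λ) hp (a := a)).1 rfl
        rw [← hJdef, hJ] at this
        exact absurd this (Finset.notMem_empty _)
      · have := (mem_vars_E (Λ := Λ) hp (a := a)).1 rfl
        rw [← hJdef, hJ] at this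
        exact absurd this (Finset.notMem_empty _)
    have hΛ : ∀ l ∈ Λ, ∀ p ∈ l.support, p = (none, none) := by
      rintro l hl ⟨_ | a, _ | b⟩ hp
      · rfl
      · have := (mem_vars_Λ (E := E) hl hp (a := b)).2 rfl
        rw [← hJdef, hJ] at this
        exact absurd this (Finset.notMem_empty _)
      · have := (mem_vars_Λ (E := E) hl hp (a := a)).1 rfl
        rw [← hJdef, hJ] at this
        exact absurd this (Finset.notMem_empty _)
      · have := (mem_vars_Λ (E := E) hl hp (a := a)).1 rfl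
        rw [← hJdef, hJ] at this
        exact absurd this (Finset.notMem_empty _)
    refine ⟨z, fun p hp => ?_, fun l hl => ?_⟩
    · rw [hE p hp]
      exact ⟨fun _ => rfl, fun _ => rfl⟩
    · have : evd d l (ext1 w z) = evd d l (ext1 w' z) := by
        unfold evd
        refine Finsupp.sum_congr fun p hp => ?_
        rw [hΛ l hl p hp]
        rfl
      rw [this]
      exact ⟨Iff.rfl, Iff.rfl⟩

end Forms

end Q201.UM
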