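import Pool.Agent.Q201.UM

/-!
# Limits in ultrametric spaces

Commutation of iterated limits along two ultrafilters.
-/

set_option linter.unusedSectionVars false

namespace Q201.UM

open Filter

section Stable

variable {α β : Type*} (F : Filter α) (G : Filter β)

/-- The predicate has the same value in both iterated limits. -/
def Stable (P : α → β → Prop) : Prop :=
  ∃ τ : Prop, (∀ᶠ x in F, ∀ᶠ a in G, (P x a ↔ τ)) ∧ ∀ᶠ a in G, ∀ᶠ x in F, (P x a ↔ τ)

variable {F G}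

theorem Stable.finite [NeBot F] [NeBot G] {ι : Type*} [Finite ι] {P : ι → α → β → Prop}
    (h : ∀ i, Stable F G (P i)) (D : α → β → Prop)
    (hD : ∀ x a x' a', (∀ i, P i x a ↔ P i x' a') → (D x a ↔ D x' a')) : Stable F G D := by
  choose τ h1 h2 using h
  have h3 : ∀ᶠ x in F, ∀ᶠ a in G, ∀ i, (P i x a ↔ τ i) := by
    filter_upwards [eventually_all.mpr h1] with x hx
    exact eventually_all.mpr hx
  have h4 : ∀ᶠ a in G, ∀ᶠ x in F, ∀ i, (P i x a ↔ τ i) := by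
    filter_upwards [eventually_all.mpr h2] with x hx
    exact eventually_all.mpr hx
  obtain ⟨x0, hx0⟩ := h3.exists
  obtain ⟨a0, ha0⟩ := hx0.exists
  refine ⟨D x0 a0, ?_, ?_⟩
  · filter_upwards [h3] with x hx
    filter_upwards [hx] with a ha
    exact hD _ _ _ _ fun i => (ha i).trans (ha0 i).symm
  · filter_upwards [h4] with a ha
    filter_upwards [ha] with x hx
    exact hD _ _ _ _ fun i => (hx i).trans (ha0 i).symm

theorem Stable.comm [NeBot F] [NeBot G] {P : α → β → Prop} (h : Stable F G P) :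
    (∀ᶠ x in F, ∀ᶠ a in G, P x a) ↔ ∀ᶠ a in G, ∀ᶠ x in F, P x a := by
  obtain ⟨τ, h1, h2⟩ := h
  constructor
  · intro h
    obtain ⟨x, hx1, hx2⟩ := (h.and h1).exists
    obtain ⟨a, ha1, ha2⟩ := (hx1.and hx2).exists
    have hτ : τ := ha2.mp ha1
    filter_upwards [h2] with a ha
    filter_upwards [ha] with x hx
    exact hx.mpr hτ
  · intro h
    obtain ⟨x, hx1, hx2⟩ := (h.and h2).exists
    obtain ⟨a, ha1, ha2⟩ := (hx1.and hx2).exists
    have hτ : τ := ha2.mp ha1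
    filter_upwards [h1] with a ha
    filter_upwards [ha] with x hx
    exact hx.mpr hτ

theorem eventually_swap {P : α × β → Prop} (h : ∀ᶠ p in F ×ˢ G, P p) :
    ∀ᶠ a in G, ∀ᶠ x in F, P (x, a) := by
  have h1 : ∀ᶠ p in G ×ˢ F, P p.swap := by
    rw [prod_comm] at h
    exact h
  exact h1.curry

/-- An almost everywhere constant predicate is stable. -/
theorem Stable.of_const {P : α → β → Prop} {τ : Prop}
    (h : ∀ᶠ p in F ×ˢ G, (P p.1 p.2 ↔ τ)) : Stable F G P :=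
  ⟨τ, h.curry, eventually_swap h⟩

theorem Stable.congr {P Q : α → β → Prop} (h : ∀ᶠ p in F ×ˢ G, (P p.1 p.2 ↔ Q p.1 p.2))
    (hQ : Stable F G Q) : Stable F G P := by
  obtain ⟨τ, h1, h2⟩ := hQ
  refine ⟨τ, ?_, ?_⟩
  · filter_upwards [h1, h.curry] with x hx hx'
    filter_upwards [hx, hx'] with a ha ha'
    exact ha'.trans ha
  · filter_upwards [h2, eventually_swap h] with x hx hx'
    filter_upwards [hx, hx'] with a ha ha'
    exact ha'.trans ha

end Stable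

section Sign

variable {Γ : Type*} [AddCommGroup Γ] [LinearOrder Γ] [IsOrderedAddMonoid Γ]

theorem sign_big {u v : Γ} (h : |v| < |u|) : (0 < u + v ↔ 0 < u) ∧ (u + v < 0 ↔ u < 0) := by
  have hv1 := neg_abs_le v
  have hv2 := le_abs_self v
  rcases le_total 0 u with hu | hu
  · rw [abs_of_nonneg hu] at h
    have h1 : 0 < u + v := by
      have : -v < u := lt_of_le_of_lt (neg_le_abs v) h
      have := add_lt_add_left this v
      simpa [add_comm] using this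
    have h2 : 0 < u := lt_of_le_of_lt (abs_nonneg v) h
    exact ⟨⟨fun _ => h2, fun _ => h1⟩, ⟨fun h3 => absurd h3 (not_lt.mpr h1.le),
      fun h3 => absurd h3 (not_lt.mpr h2.le)⟩⟩
  · rw [abs_of_nonpos hu] at h
    have h1 : u + v < 0 := by
      have : v < -u := lt_of_le_of_lt hv2 h
      have := add_lt_add_left this u
      simpa [add_comm] using this
    have h2 : u < 0 := by
      have := lt_of_le_of_lt (abs_nonneg v) h
      simpa using this
    exact ⟨⟨fun h3 => absurd h3 (not_lt.mpr h1.le), fun h3 => absurd h3 (not_lt.mpr h2.le)⟩,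
      ⟨fun _ => h2, fun _ => h1⟩⟩

theorem zsmul_sign {n : ℤ} (hn : n ≠ 0) {k : Γ} (hk : 0 < k) : (0 < n • k ↔ 0 < n) ∧
    (n • k < 0 ↔ n < 0) := by
  rcases lt_or_gt_of_ne hn with h | h
  · have h1 : n • k < 0 := by
      have : 0 < (-n) • k := zsmul_pos hk (by omega)
      rw [neg_smul] at this
      simpa using this
    exact ⟨⟨fun h2 => absurd h2 (not_lt.mpr h1.le), fun h2 => absurd h2 (not_lt.mpr h.le)⟩,
      ⟨fun _ => h, fun _ => h1⟩⟩
  · have h1 : 0 < n • k := zsmul_pos hk h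
    exact ⟨⟨fun _ => h, fun _ => h1⟩, ⟨fun h2 => absurd h2 (not_lt.mpr h1.le),
      fun h2 => absurd h2 (not_lt.mpr h.le)⟩⟩

theorem le_abs_zsmul {n : ℤ} (hn : n ≠ 0) {k : Γ} (hk : 0 ≤ k) : k ≤ |n • k| := by
  rw [abs_zsmul, abs_of_nonneg hk]
  have h1 : (1 : ℤ) ≤ |n| := Int.one_le_abs hn
  calc k = (1 : ℤ) • k := (one_smul _ _).symm
    _ ≤ |n| • k := zsmul_le_zsmul_left hk h1

end Sign

section Context

variable {U Γ : Type*} [AddCommGroup Γ] [LinearOrder Γ] [IsOrderedAddMonoid Γ]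

/-- The configuration used for the counterexample. -/
structure Ctx (δ : U → U → Γ) (M : Set U) (H : AddSubgroup Γ) (x : ℚ → U) (m : ℕ → U)
    (γ : ℕ → Γ) (r : U) : Prop where
  self : ∀ a, δ a a = 0
  symm : ∀ a b, δ a b = δ b a
  ultra : ∀ a b c, a ≠ b → b ≠ c → a ≠ c → δ a c ≤ max (δ a b) (δ b c)
  memH : ∀ a ∈ M, ∀ b ∈ M, δ a b ∈ H
  surj : ∀ h ∈ H, ∃ y ∈ M, δ y (m 0) = h
  xM : ∀ t, x t ∈ M
  xpos : ∀ t, 0 < δ (x t) (m 0)
  arch : ∀ s t, s < t → ∀ n : ℕ, n • δ (x s) (m 0) < δ (x t) (m 0)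
  mM : ∀ i, m i ∈ M
  mγ : ∀ i, δ (m (i + 1)) (m i) = γ i
  γneg : ∀ i, γ i < 0
  γanti : ∀ i, γ (i + 1) < γ i
  γcoinit : ∀ h ∈ H, ∃ i, γ i < h
  avoid : ∀ u ∈ M, ∃ i, u ≠ m (i + 1) ∧ γ i ≤ δ (m (i + 1)) u
  hr : ∀ i, δ r (m (i + 1)) < γ i

/-- The types of pairs considered. -/
structure ToQ (δ : U → U → Γ) (M : Set U) (H : AddSubgroup Γ) (m : ℕ → U) (γ : ℕ → Γ)
    (G : Ultrafilter (Fin 2 → U)) : Prop where
  inM : ∀ᶠ a in (G : Filter (Fin 2 → U)), ∀ i, a i ∈ M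
  big : ∀ c ∈ H, ∀ᶠ a in (G : Filter (Fin 2 → U)), c < δ (a 0) (m 0)
  conv : ∀ i, ∀ᶠ a in (G : Filter (Fin 2 → U)), δ (a 1) (m (i + 1)) < γ i

/-- The types of points considered. -/
structure ToS (δ : U → U → Γ) (x : ℚ → U) (m : ℕ → U) (s : ℝ)
    (F : Ultrafilter (Fin 1 → U)) : Prop where
  inX : ∀ᶠ a in (F : Filter (Fin 1 → U)), ∃ t : ℚ, (t : ℝ) < s ∧ a 0 = x t
  tends : ∀ t : ℚ, (t : ℝ) < s → ∀ᶠ a in (F : Filter (Fin 1 → U)),
    δ (x t) (m 0) < δ (a 0) (m 0)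

variable {δ : U → U → Γ} {M : Set U} {H : AddSubgroup Γ} {x : ℚ → U} {m : ℕ → U}
  {γ : ℕ → Γ} {r : U}

namespace Ctx

variable (C : Ctx δ M H x m γ r)

include C

theorem iso {a b c : U} (hab : a ≠ b) (hbc : b ≠ c) (hac : a ≠ c) (h : δ a b < δ b c) :
    δ a c = δ b c := by
  apply le_antisymm
  · have := C.ultra a b c hab hbc hac
    rwa [max_eq_right h.le] at this
  · have := C.ultra b a c hab.symm hac hbc
    rw [C.symm b a] at this
    rcases le_max_iff.mp this with h1 | h1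
    · exact absurd h (not_lt.mpr h1)
    · exact h1

theorem ne_of_ne {a b : U} (h : δ a b ≠ 0) : a ≠ b := fun hab => h (by rw [hab, C.self])

theorem m0M : m 0 ∈ M := C.mM 0

theorem γmem (i : ℕ) : γ i ∈ H := by
  rw [← C.mγ]
  exact C.memH _ (C.mM _) _ (C.mM _)

theorem r_ne (i : ℕ) : r ≠ m (i + 1) :=
  C.ne_of_ne (((C.hr i).trans (C.γneg i)).ne)

theorem r_not : r ∉ M := by
  intro h
  obtain ⟨i, h1, h2⟩ := C.avoid r h
  rw [C.symm] at h2
  exact absurd (C.hr i) (not_lt.mpr h2)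

theorem η_mem {u : U} (hu : u ∈ M) : δ u r ∈ H := by
  obtain ⟨i, h1, h2⟩ := C.avoid u hu
  have h3 : r ≠ u := fun h => C.r_not (h ▸ hu)
  have h4 := C.iso (C.r_ne i) h1.symm h3 (lt_of_lt_of_le (C.hr i) h2)
  rw [C.symm, h4]
  exact C.memH _ (C.mM _) _ hu

theorem arch0 {s t : ℚ} (h : s < t) : δ (x s) (m 0) < δ (x t) (m 0) := by
  have := C.arch s t h 1
  rwa [one_smul] at this

variable {G : Ultrafilter (Fin 2 → U)} (hG : ToQ δ M H m γ G)

include hG

theorem y_pos : ∀ᶠ a in (G : Filter (Fin 2 → U)), 0 < δ (a 0) (m 0) := hG.big 0 H.zero_mem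

theorem z_m0 : ∀ᶠ a in (G : Filter (Fin 2 → U)), a 1 ≠ m 0 ∧ δ (a 1) (m 0) = γ 0 := by
  filter_upwards [hG.conv 0] with a ha
  have h1 : a 1 ≠ m (0 + 1) := C.ne_of_ne (ha.trans (C.γneg 0)).ne
  have h2 : m (0 + 1) ≠ m 0 := C.ne_of_ne (by rw [C.mγ]; exact (C.γneg 0).ne)
  have h3 : a 1 ≠ m 0 := by
    intro h
    rw [h, C.symm, C.mγ] at ha
    exact lt_irrefl _ ha
  refine ⟨h3, ?_⟩
  rw [C.iso h1 h2 h3 (by rw [C.mγ]; exact ha), C.mγ]

theorem uy (u : U) : (∀ᶠ a in (G : Filter (Fin 2 → U)), u ≠ a 0) ∧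
    ((∀ᶠ a in (G : Filter (Fin 2 → U)), δ u (a 0) = δ (a 0) (m 0)) ∨
      ∀ᶠ a in (G : Filter (Fin 2 → U)), δ u (a 0) = δ u (m 0)) := by
  have h1 : ¬ ∀ᶠ a in (G : Filter (Fin 2 → U)), δ u (m 0) = δ (a 0) (m 0) := by
    intro h
    obtain ⟨a, ha1, ha2⟩ := (h.and hG.inM).exists
    have h2 : δ u (m 0) ∈ H := ha1 ▸ C.memH _ (ha2 0) _ C.m0M
    obtain ⟨a, ha1, ha2⟩ := (h.and (hG.big _ h2)).exists
    exact absurd ha1 ha2.ne
  rw [← Ultrafilter.eventually_not] at h1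
  refine ⟨?_, ?_⟩
  · filter_upwards [h1] with a ha
    exact fun h => ha (by rw [h])
  · rcases (Ultrafilter.eventually_or (f := G) (p := fun a => δ u (m 0) < δ (a 0) (m 0))
      (q := fun a => δ (a 0) (m 0) < δ u (m 0))).mp (by
        filter_upwards [h1] with a ha
        exact lt_or_gt_of_ne ha) with h | h
    · left
      by_cases hu : u = m 0
      · filter_upwards with a
        rw [hu, C.symm]
      · filter_upwards [h, C.y_pos hG] with a ha hp
        have h3 : m 0 ≠ a 0 := (C.ne_of_ne hp.ne').symm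
        have h4 : u ≠ a 0 := fun h => ha.ne (by rw [h])
        rw [C.symm (a 0)]
        exact C.iso hu h3 h4 (by rw [C.symm (m 0) (a 0)]; exact ha)
    · right
      filter_upwards [h, C.y_pos hG] with a ha hp
      have h3 : a 0 ≠ m 0 := C.ne_of_ne hp.ne'
      have h4 : a 0 ≠ u := fun h => ha.ne (by rw [h])
      have h5 : m 0 ≠ u := (C.ne_of_ne (hp.trans ha).ne').symm
      rw [C.symm u, C.symm u]
      exact C.iso h3 h5 h4 (by rw [C.symm (m 0) u]; exact ha)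

theorem z_r : ∀ᶠ a in (G : Filter (Fin 2 → U)), a 1 ≠ r := by
  filter_upwards [hG.inM] with a ha
  exact fun h => C.r_not (h ▸ ha 1)

theorem η_small {h : Γ} (hh : h ∈ H) : ∀ᶠ a in (G : Filter (Fin 2 → U)), δ (a 1) r < h := by
  obtain ⟨i, hi⟩ := C.γcoinit h hh
  filter_upwards [hG.conv i, C.z_r hG] with a ha hr
  have h1 : a 1 ≠ m (i + 1) := C.ne_of_ne (ha.trans (C.γneg i)).ne
  have h2 := C.ultra _ _ _ h1 (C.r_ne i).symm hr
  refine lt_of_le_of_lt h2 (max_lt (ha.trans hi) ?_)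
  rw [C.symm]
  exact (C.hr i).trans hi

theorem uz (u : U) : (∀ᶠ a in (G : Filter (Fin 2 → U)), u ≠ a 1) ∧
    ((∀ᶠ a in (G : Filter (Fin 2 → U)), δ u (a 1) = δ (a 1) r) ∨
      ∀ᶠ a in (G : Filter (Fin 2 → U)), δ u (a 1) = δ u r) := by
  by_cases hur : u = r
  · subst hur
    refine ⟨?_, Or.inl ?_⟩
    · filter_upwards [C.z_r hG] with a ha
      exact ha.symm
    · filter_upwards with a
      rw [C.symm]
  have h1 : ¬ ∀ᶠ a in (G : Filter (Fin 2 → U)), δ u r = δ (a 1) r := by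
    intro h
    obtain ⟨a, ha1, ha2⟩ := (h.and hG.inM).exists
    have h2 : δ u r ∈ H := ha1 ▸ C.η_mem (ha2 1)
    obtain ⟨a, ha1, ha2⟩ := (h.and (C.η_small hG h2)).exists
    exact absurd ha1.symm ha2.ne
  rw [← Ultrafilter.eventually_not] at h1
  refine ⟨?_, ?_⟩
  · filter_upwards [h1] with a ha
    exact fun h => ha (by rw [h])
  · rcases (Ultrafilter.eventually_or (f := G) (p := fun a => δ u r < δ (a 1) r)
      (q := fun a => δ (a 1) r < δ u r)).mp (by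
        filter_upwards [h1] with a ha
        exact lt_or_gt_of_ne ha) with h | h
    · left
      filter_upwards [h, C.z_r hG] with a ha hp
      have h4 : u ≠ a 1 := fun h => ha.ne (by rw [h])
      rw [C.symm (a 1)]
      exact C.iso hur hp.symm h4 (by rw [C.symm r (a 1)]; exact ha)
    · right
      filter_upwards [h, C.z_r hG] with a ha hp
      have h4 : a 1 ≠ u := fun h => ha.ne (by rw [h])
      rw [C.symm u, C.symm u]
      exact C.iso hp (fun h => hur h.symm) h4 (by rw [C.symm r u]; exact ha)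

theorem yz : ∀ᶠ a in (G : Filter (Fin 2 → U)), a 0 ≠ a 1 ∧ δ (a 0) (a 1) = δ (a 0) (m 0) := by
  filter_upwards [C.y_pos hG, C.z_m0 hG] with a h1 h2
  have h3 : a 0 ≠ m 0 := C.ne_of_ne h1.ne'
  have h4 : a 1 ≠ a 0 := by
    intro h
    rw [← h, h2.2] at h1
    exact absurd h1 (not_lt.mpr (C.γneg 0).le)
  refine ⟨h4.symm, ?_⟩
  rw [C.symm (a 0), C.symm (a 0)]
  refine C.iso h2.1 h3.symm h4 ?_
  rw [h2.2, C.symm]
  exact (C.γneg 0).trans h1

omit hG

/-- Smaller than the cut `s`. -/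
def Kb (δ : U → U → Γ) (x : ℚ → U) (m : ℕ → U) (s : ℝ) (β : Γ) : Prop :=
  ∃ t : ℚ, (t : ℝ) < s ∧ β < δ (x t) (m 0)

omit C in
theorem Kb_mono {s : ℝ} {a b : Γ} (h : Kb δ x m s b) (hab : a ≤ b) : Kb δ x m s a := by
  obtain ⟨t, ht, hb⟩ := h
  exact ⟨t, ht, lt_of_le_of_lt hab hb⟩

theorem Kb_nsmul {s : ℝ} {a : Γ} (h : Kb δ x m s a) (n : ℕ) : Kb δ x m s (n • a) := by
  obtain ⟨t, ht, hb⟩ := h
  obtain ⟨t', h1, h2⟩ := exists_rat_btwn ht
  refine ⟨t', h2, lt_of_le_of_lt (nsmul_le_nsmul_right hb.le n) ?_⟩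
  exact C.arch t t' (by exact_mod_cast h1) n

theorem Kb_add {s : ℝ} {a b : Γ} (h : Kb δ x m s a) (h' : Kb δ x m s b) :
    Kb δ x m s (a + b) := by
  rcases le_total a b with hab | hab
  · refine Kb_mono (C.Kb_nsmul h' 2) ?_
    rw [two_nsmul]
    gcongr
  · refine Kb_mono (C.Kb_nsmul h 2) ?_
    rw [two_nsmul]
    gcongr

omit C in
theorem lt_of_Kb {s : ℝ} {a b : Γ} (h : Kb δ x m s a) (h' : ¬ Kb δ x m s b) : a < b :=
  not_le.mp fun hab => h' (Kb_mono h hab)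

theorem Kb_g {s : ℝ} {t : ℚ} (ht : (t : ℝ) < s) : Kb δ x m s (δ (x t) (m 0)) := by
  obtain ⟨t', h1, h2⟩ := exists_rat_btwn ht
  exact ⟨t', h2, C.arch0 (by exact_mod_cast h1)⟩

variable {s : ℝ} {F : Ultrafilter (Fin 1 → U)} (hF : ToS δ x m s F)

include hF

theorem κ_Kb : ∀ᶠ a in (F : Filter (Fin 1 → U)), Kb δ x m s (δ (a 0) (m 0)) := by
  filter_upwards [hF.inX] with a ha
  obtain ⟨t, ht, h⟩ := ha
  rw [h]
  exact C.Kb_g ht

theorem κ_big {β : Γ} (h : Kb δ x m s β) :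
    ∀ᶠ a in (F : Filter (Fin 1 → U)), β < δ (a 0) (m 0) := by
  obtain ⟨t, ht, hb⟩ := h
  filter_upwards [hF.tends t ht] with a ha
  exact hb.trans ha

theorem κ_pos : ∀ᶠ a in (F : Filter (Fin 1 → U)), 0 < δ (a 0) (m 0) := by
  filter_upwards [hF.inX] with a ha
  obtain ⟨t, ht, h⟩ := ha
  rw [h]
  exact C.xpos t

theorem ux (u : U) : (∀ᶠ a in (F : Filter (Fin 1 → U)), u ≠ a 0) ∧
    ((∀ᶠ a in (F : Filter (Fin 1 → U)), δ u (a 0) = δ (a 0) (m 0)) ∨
      ∀ᶠ a in (F : Filter (Fin 1 → U)), δ u (a 0) = δ u (m 0)) := by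
  by_cases hK : Kb δ x m s (δ u (m 0))
  · refine ⟨?_, Or.inl ?_⟩
    · filter_upwards [C.κ_big hF hK] with a ha
      exact fun h => ha.ne (by rw [h])
    · by_cases hu : u = m 0
      · filter_upwards with a
        rw [hu, C.symm]
      · filter_upwards [C.κ_big hF hK, C.κ_pos hF] with a ha hp
        have h3 : m 0 ≠ a 0 := (C.ne_of_ne hp.ne').symm
        have h4 : u ≠ a 0 := fun h => ha.ne (by rw [h])
        rw [C.symm (a 0)]
        exact C.iso hu h3 h4 (by rw [C.symm (m 0) (a 0)]; exact ha)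
  · have h : ∀ᶠ a in (F : Filter (Fin 1 → U)), δ (a 0) (m 0) < δ u (m 0) := by
      filter_upwards [C.κ_Kb hF] with a ha
      exact lt_of_Kb ha hK
    refine ⟨?_, Or.inr ?_⟩
    · filter_upwards [h] with a ha
      exact fun h => ha.ne (by rw [h])
    · filter_upwards [h, C.κ_pos hF] with a ha hp
      have h3 : a 0 ≠ m 0 := C.ne_of_ne hp.ne'
      have h4 : a 0 ≠ u := fun h => ha.ne (by rw [h])
      have h5 : m 0 ≠ u := (C.ne_of_ne (hp.trans ha).ne').symm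
      rw [C.symm u, C.symm u]
      exact C.iso h3 h5 h4 (by rw [C.symm (m 0) u]; exact ha)

include hG

theorem xy : ∀ᶠ p in (F : Filter (Fin 1 → U)) ×ˢ (G : Filter (Fin 2 → U)),
    p.1 0 ≠ p.2 0 ∧ δ (p.1 0) (p.2 0) = δ (p.2 0) (m 0) := by
  obtain ⟨t, ht⟩ := exists_rat_gt s
  have h1 : ∀ᶠ a in (F : Filter (Fin 1 → U)), δ (a 0) (m 0) < δ (x t) (m 0) := by
    filter_upwards [hF.inX] with a ha
    obtain ⟨t', ht', h⟩ := ha
    rw [h]
    exact C.arch0 (by exact_mod_cast ht'.trans ht)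
  have h2 := hG.big _ (C.memH _ (C.xM t) _ C.m0M)
  filter_upwards [h1.prod_inl _, h2.prod_inr _, (C.κ_pos hF).prod_inl _,
    (C.y_pos hG).prod_inr _] with p h1 h2 h3 h4
  have h5 := h1.trans h2
  have h6 : p.1 0 ≠ p.2 0 := fun h => h5.ne (by rw [h])
  refine ⟨h6, ?_⟩
  rw [C.symm (p.2 0)]
  exact C.iso (C.ne_of_ne h3.ne') (C.ne_of_ne h4.ne').symm h6
    (by rw [C.symm (m 0) (p.2 0)]; exact h5)

theorem xz : ∀ᶠ p in (F : Filter (Fin 1 → U)) ×ˢ (G : Filter (Fin 2 → U)),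
    p.1 0 ≠ p.2 1 ∧ δ (p.1 0) (p.2 1) = δ (p.1 0) (m 0) := by
  filter_upwards [(C.κ_pos hF).prod_inl _, (C.z_m0 hG).prod_inr _] with p h1 h2
  have h5 : δ (p.2 1) (m 0) < δ (p.1 0) (m 0) := by
    rw [h2.2]
    exact (C.γneg 0).trans h1
  have h6 : p.1 0 ≠ p.2 1 := fun h => h5.ne (by rw [h])
  refine ⟨h6, ?_⟩
  rw [C.symm (p.1 0), C.symm (p.1 0)]
  exact C.iso h2.1 (C.ne_of_ne h1.ne').symm h6.symm
    (by rw [C.symm (m 0) (p.1 0)]; exact h5)

omit C hF hG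

/-- The kinds of points occurring in formulas. -/
inductive Kind (U : Type*)
  | c (u : U) | x | y | z

/-- The point of a kind. -/
def Kind.ev : Kind U → (Fin 1 → U) × (Fin 2 → U) → U
  | .c u, _ => u
  | .x, p => p.1 0
  | .y, p => p.2 0
  | .z, p => p.2 1

/-- Linear forms in the three distances. -/
def lf (δ : U → U → Γ) (m : ℕ → U) (r : U) (A : Γ) (c : Fin 3 → ℤ)
    (p : (Fin 1 → U) × (Fin 2 → U)) : Γ :=
  A + c 0 • δ (p.1 0) (m 0) + c 1 • δ (p.2 0) (m 0) + c 2 • δ (p.2 1) r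

theorem lf_add (A A' : Γ) (c c' : Fin 3 → ℤ) (p : (Fin 1 → U) × (Fin 2 → U)) :
    lf δ m r A c p + lf δ m r A' c' p = lf δ m r (A + A') (c + c') p := by
  unfold lf
  simp only [Pi.add_apply, add_smul]
  abel

theorem lf_smul (n : ℤ) (A : Γ) (c : Fin 3 → ℤ) (p : (Fin 1 → U) × (Fin 2 → U)) :
    n • lf δ m r A c p = lf δ m r (n • A) (n • c) p := by
  unfold lf
  simp only [Pi.smul_apply, smul_add, smul_assoc]

include C hF hG

theorem kinds (k k' : Kind U) : (∃ τ : Prop,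
      ∀ᶠ p in (F : Filter (Fin 1 → U)) ×ˢ (G : Filter (Fin 2 → U)), (k.ev p = k'.ev p ↔ τ)) ∧
    ∃ (A : Γ) (c : Fin 3 → ℤ), ∀ᶠ p in (F : Filter (Fin 1 → U)) ×ˢ (G : Filter (Fin 2 → U)),
      δ (k.ev p) (k'.ev p) = lf δ m r A c p := by
  -- the symmetric statement
  have hs : ∀ k k' : Kind U, ((∃ τ : Prop,
      ∀ᶠ p in (F : Filter (Fin 1 → U)) ×ˢ (G : Filter (Fin 2 → U)), (k.ev p = k'.ev p ↔ τ)) ∧
      ∃ (A : Γ) (c : Fin 3 → ℤ), ∀ᶠ p in (F : Filter (Fin 1 → U)) ×ˢ (G : Filter (Fin 2 → U)),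
      δ (k.ev p) (k'.ev p) = lf δ m r A c p) → ((∃ τ : Prop,
      ∀ᶠ p in (F : Filter (Fin 1 → U)) ×ˢ (G : Filter (Fin 2 → U)), (k'.ev p = k.ev p ↔ τ)) ∧
      ∃ (A : Γ) (c : Fin 3 → ℤ), ∀ᶠ p in (F : Filter (Fin 1 → U)) ×ˢ (G : Filter (Fin 2 → U)),
      δ (k'.ev p) (k.ev p) = lf δ m r A c p) := by
    rintro k k' ⟨⟨τ, h1⟩, A, c, h2⟩
    refine ⟨⟨τ, ?_⟩, A, c, ?_⟩
    · filter_upwards [h1] with p hp
      rw [← hp]
      exact eq_comm
    · filter_upwards [h2] with p hp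
      rw [C.symm, hp]
  have hd : ∀ k : Kind U, ((∃ τ : Prop,
      ∀ᶠ p in (F : Filter (Fin 1 → U)) ×ˢ (G : Filter (Fin 2 → U)), (k.ev p = k.ev p ↔ τ)) ∧
      ∃ (A : Γ) (c : Fin 3 → ℤ), ∀ᶠ p in (F : Filter (Fin 1 → U)) ×ˢ (G : Filter (Fin 2 → U)),
      δ (k.ev p) (k.ev p) = lf δ m r A c p) := by
    intro k
    refine ⟨⟨True, ?_⟩, 0, 0, ?_⟩
    · filter_upwards with p
      simp
    · filter_upwards with p
      rw [C.self]
      simp [lf]
  have hne : ∀ {k k' : Kind U} {A : Γ} {c : Fin 3 → ℤ},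
      (∀ᶠ p in (F : Filter (Fin 1 → U)) ×ˢ (G : Filter (Fin 2 → U)), k.ev p ≠ k'.ev p) →
      (∀ᶠ p in (F : Filter (Fin 1 → U)) ×ˢ (G : Filter (Fin 2 → U)),
        δ (k.ev p) (k'.ev p) = lf δ m r A c p) → ((∃ τ : Prop,
      ∀ᶠ p in (F : Filter (Fin 1 → U)) ×ˢ (G : Filter (Fin 2 → U)), (k.ev p = k'.ev p ↔ τ)) ∧
      ∃ (A : Γ) (c : Fin 3 → ℤ), ∀ᶠ p in (F : Filter (Fin 1 → U)) ×ˢ (G : Filter (Fin 2 → U)),
      δ (k.ev p) (k'.ev p) = lf δ m r A c p) := by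
    intro k k' A c h1 h2
    refine ⟨⟨False, ?_⟩, A, c, h2⟩
    filter_upwards [h1] with p hp
    simpa using hp
  have hcx : ∀ u : U, _ := fun u => (show ((∃ τ : Prop,
      ∀ᶠ p in (F : Filter (Fin 1 → U)) ×ˢ (G : Filter (Fin 2 → U)),
        ((Kind.c u).ev p = Kind.x.ev p ↔ τ)) ∧
      ∃ (A : Γ) (c : Fin 3 → ℤ), ∀ᶠ p in (F : Filter (Fin 1 → U)) ×ˢ (G : Filter (Fin 2 → U)),
      δ ((Kind.c u).ev p) (Kind.x.ev p) = lf δ m r A c p) from by
    obtain ⟨h1, h2⟩ := C.ux hF u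
    rcases h2 with h2 | h2
    · refine hne (A := 0) (c := ![1, 0, 0]) (h1.prod_inl _) ?_
      filter_upwards [h2.prod_inl _] with p hp
      simpa [lf, Kind.ev] using hp
    · refine hne (A := δ u (m 0)) (c := 0) (h1.prod_inl _) ?_
      filter_upwards [h2.prod_inl _] with p hp
      simpa [lf, Kind.ev] using hp)
  have hcy : ∀ u : U, _ := fun u => (show ((∃ τ : Prop,
      ∀ᶠ p in (F : Filter (Fin 1 → U)) ×ˢ (G : Filter (Fin 2 → U)),
        ((Kind.c u).ev p = Kind.y.ev p ↔ τ)) ∧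
      ∃ (A : Γ) (c : Fin 3 → ℤ), ∀ᶠ p in (F : Filter (Fin 1 → U)) ×ˢ (G : Filter (Fin 2 → U)),
      δ ((Kind.c u).ev p) (Kind.y.ev p) = lf δ m r A c p) from by
    obtain ⟨h1, h2⟩ := C.uy hG u
    rcases h2 with h2 | h2
    · refine hne (A := 0) (c := ![0, 1, 0]) (h1.prod_inr _) ?_
      filter_upwards [h2.prod_inr _] with p hp
      simpa [lf, Kind.ev] using hp
    · refine hne (A := δ u (m 0)) (c := 0) (h1.prod_inr _) ?_
      filter_upwards [h2.prod_inr _] with p hp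
      simpa [lf, Kind.ev] using hp)
  have hcz : ∀ u : U, _ := fun u => (show ((∃ τ : Prop,
      ∀ᶠ p in (F : Filter (Fin 1 → U)) ×ˢ (G : Filter (Fin 2 → U)),
        ((Kind.c u).ev p = Kind.z.ev p ↔ τ)) ∧
      ∃ (A : Γ) (c : Fin 3 → ℤ), ∀ᶠ p in (F : Filter (Fin 1 → U)) ×ˢ (G : Filter (Fin 2 → U)),
      δ ((Kind.c u).ev p) (Kind.z.ev p) = lf δ m r A c p) from by
    obtain ⟨h1, h2⟩ := C.uz hG u
    rcases h2 with h2 | h2
    · refine hne (A := 0) (c := ![0, 0, 1]) (h1.prod_inr _) ?_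
      filter_upwards [h2.prod_inr _] with p hp
      simpa [lf, Kind.ev] using hp
    · refine hne (A := δ u r) (c := 0) (h1.prod_inr _) ?_
      filter_upwards [h2.prod_inr _] with p hp
      simpa [lf, Kind.ev] using hp)
  have hxy := hne (k := Kind.x) (k' := Kind.y) (A := 0) (c := ![0, 1, 0])
    ((C.xy hG hF).mono fun p hp => hp.1) ((C.xy hG hF).mono fun p hp => by
      simpa [lf, Kind.ev] using hp.2)
  have hxz := hne (k := Kind.x) (k' := Kind.z) (A := 0) (c := ![1, 0, 0])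
    ((C.xz hG hF).mono fun p hp => hp.1) ((C.xz hG hF).mono fun p hp => by
      simpa [lf, Kind.ev] using hp.2)
  have hyz := hne (k := Kind.y) (k' := Kind.z) (A := 0) (c := ![0, 1, 0])
    (((C.yz hG).prod_inr _).mono fun p hp => hp.1) (((C.yz hG).prod_inr _).mono fun p hp => by
      simpa [lf, Kind.ev] using hp.2)
  rcases k with u | _ | _ | _ <;> rcases k' with u' | _ | _ | _
  · refine ⟨⟨u = u', ?_⟩, δ u u', 0, ?_⟩
    · filter_upwards with p
      rfl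
    · filter_upwards with p
      simp [lf, Kind.ev]
  · exact hcx u
  · exact hcy u
  · exact hcz u
  · exact hs _ _ (hcx u')
  · exact hd _
  · exact hxy
  · exact hxz
  · exact hs _ _ (hcy u')
  · exact hs _ _ hxy
  · exact hd _
  · exact hyz
  · exact hs _ _ (hcz u')
  · exact hs _ _ hxz
  · exact hs _ _ hyz
  · exact hd _

theorem forms {β : Type*} (k : β → Kind U) (l : β × β →₀ ℤ) :
    ∃ (A : Γ) (c : Fin 3 → ℤ), ∀ᶠ p in (F : Filter (Fin 1 → U)) ×ˢ (G : Filter (Fin 2 → U)),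
      evd δ l (fun i => (k i).ev p) = lf δ m r A c p := by
  classical
  induction l using Finsupp.induction with
  | zero =>
    refine ⟨0, 0, ?_⟩
    filter_upwards with p
    rw [evd_zero]
    simp [lf]
  | single_add q n l _ _ ih =>
    obtain ⟨A, c, h⟩ := ih
    obtain ⟨_, A', c', h'⟩ := C.kinds hG hF (k q.1) (k q.2)
    refine ⟨n • A' + A, n • c' + c, ?_⟩
    filter_upwards [h, h'] with p hp hp'
    rw [evd_add, hp, evd_single, hp', lf_smul, lf_add]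

omit C hG hF

/-- The part of a form depending on the pair. -/
def bf (δ : U → U → Γ) (m : ℕ → U) (r : U) (A : Γ) (c2 c3 : ℤ) (a : Fin 2 → U) : Γ :=
  A + c2 • δ (a 0) (m 0) + c3 • δ (a 1) r

theorem lf_eq (A : Γ) (c : Fin 3 → ℤ) (p : (Fin 1 → U) × (Fin 2 → U)) :
    lf δ m r A c p = c 0 • δ (p.1 0) (m 0) + bf δ m r A (c 1) (c 2) p.2 := by
  unfold lf bf
  abel

/-- The cut `s` is met by a form along `G`. -/
def Bad (δ : U → U → Γ) (x : ℚ → U) (m : ℕ → U) (r : U) (G : Ultrafilter (Fin 2 → U))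
    (s : ℝ) (c2 c3 : ℤ) : Prop :=
  ∃ A : Γ, (∀ᶠ a in (G : Filter (Fin 2 → U)), Kb δ x m s |bf δ m r A c2 c3 a|) ∧
    ∀ β, Kb δ x m s β → ∀ᶠ a in (G : Filter (Fin 2 → U)), β < |bf δ m r A c2 c3 a|

include C hF

theorem stable_sign (hbad : ∀ c2 c3, ¬ Bad δ x m r G s c2 c3) (A : Γ) (c : Fin 3 → ℤ) :
    Stable (F : Filter (Fin 1 → U)) (G : Filter (Fin 2 → U))
      (fun a b => 0 < lf δ m r A c (a, b)) ∧
    Stable (F : Filter (Fin 1 → U)) (G : Filter (Fin 2 → U))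
      (fun a b => lf δ m r A c (a, b) < 0) := by
  simp only [lf_eq]
  set B := bf δ m r A (c 1) (c 2) with hB
  have hu : ∀ P : (Fin 2 → U) → Prop, ∃ τ : Prop,
      ∀ᶠ a in (G : Filter (Fin 2 → U)), (P a ↔ τ) := by
    intro P
    refine ⟨∀ᶠ a in (G : Filter (Fin 2 → U)), P a, ?_⟩
    by_cases h : ∀ᶠ a in (G : Filter (Fin 2 → U)), P a
    · filter_upwards [h] with a ha
      simp [ha, h]
    · filter_upwards [Ultrafilter.eventually_not.mpr h] with a ha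
      simp [ha, h]
  obtain ⟨τ, hτ⟩ := hu (fun a => 0 < B a)
  obtain ⟨τ', hτ'⟩ := hu (fun a => B a < 0)
  by_cases h0 : c 0 = 0
  · constructor
    · refine Stable.of_const (τ := τ) ?_
      filter_upwards [hτ.prod_inr _] with p hp
      simpa [h0] using hp
    · refine Stable.of_const (τ := τ') ?_
      filter_upwards [hτ'.prod_inr _] with p hp
      simpa [h0] using hp
  · rcases G.em (fun a => Kb δ x m s |B a|) with h | h
    · have h1 : ∃ β, Kb δ x m s β ∧ ∀ᶠ a in (G : Filter (Fin 2 → U)), |B a| ≤ β := by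
        by_contra hc
        push Not at hc
        exact hbad (c 1) (c 2) ⟨A, h, fun β hβ => hc β hβ⟩
      obtain ⟨β, hβ, h1⟩ := h1
      have h2 : ∀ᶠ p in (F : Filter (Fin 1 → U)) ×ˢ (G : Filter (Fin 2 → U)),
          |B p.2| < |c 0 • δ (p.1 0) (m 0)| ∧ 0 < δ (p.1 0) (m 0) := by
        filter_upwards [h1.prod_inr _, (C.κ_big hF hβ).prod_inl _, (C.κ_pos hF).prod_inl _]
          with p h1 h2 h3
        exact ⟨lt_of_lt_of_le (lt_of_le_of_lt h1 h2) (le_abs_zsmul h0 h3.le), h3⟩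
      constructor
      · refine Stable.of_const (τ := 0 < c 0) ?_
        filter_upwards [h2] with p hp
        rw [(sign_big hp.1).1, (zsmul_sign h0 hp.2).1]
      · refine Stable.of_const (τ := c 0 < 0) ?_
        filter_upwards [h2] with p hp
        rw [(sign_big hp.1).2, (zsmul_sign h0 hp.2).2]
    · have h2 : ∀ᶠ p in (F : Filter (Fin 1 → U)) ×ˢ (G : Filter (Fin 2 → U)),
          |c 0 • δ (p.1 0) (m 0)| < |B p.2| := by
        filter_upwards [h.prod_inr _, (C.κ_Kb hF).prod_inl _, (C.κ_pos hF).prod_inl _]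
          with p h1 h2 h3
        refine lt_of_Kb ?_ h1
        rw [abs_zsmul, abs_of_pos h3]
        have := C.Kb_nsmul h2 (c 0).natAbs
        rwa [← natCast_zsmul, Int.natCast_natAbs] at this
      constructor
      · refine Stable.of_const (τ := τ) ?_
        filter_upwards [h2, hτ.prod_inr _] with p hp hp'
        rw [add_comm, (sign_big hp).1, hp']
      · refine Stable.of_const (τ := τ') ?_
        filter_upwards [h2, hτ'.prod_inr _] with p hp hp'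
        rw [add_comm, (sign_big hp).2, hp']

include hG

/-- If no form along `G` meets the cut `s`, all iterated limits commute. -/
theorem stable_all (hbad : ∀ c2 c3, ¬ Bad δ x m r G s c2 c3) {β : Type*}
    (D : (β → U) → Prop) (E : Finset (β × β)) (Λ : Finset (β × β →₀ ℤ))
    (hD : ∀ v v', Same δ E Λ v v' → (D v ↔ D v')) (k : β → Kind U) :
    Stable (F : Filter (Fin 1 → U)) (G : Filter (Fin 2 → U))
      (fun a b => D (fun i => (k i).ev (a, b))) := by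
  let P : E ⊕ (Λ ⊕ Λ) → (Fin 1 → U) → (Fin 2 → U) → Prop := fun i a b => match i with
    | Sum.inl p => (k p.1.1).ev (a, b) = (k p.1.2).ev (a, b)
    | Sum.inr (Sum.inl l) => 0 < evd δ l.1 (fun i => (k i).ev (a, b))
    | Sum.inr (Sum.inr l) => evd δ l.1 (fun i => (k i).ev (a, b)) < 0
  refine Stable.finite (P := P) ?_ _ ?_
  · rintro (p | l | l)
    · obtain ⟨⟨τ, h⟩, _⟩ := C.kinds hG hF (k p.1.1) (k p.1.2)
      exact Stable.of_const h
    · obtain ⟨A, c, h⟩ := C.forms hG hF k l.1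
      refine Stable.congr ?_ (C.stable_sign hF hbad A c).1
      filter_upwards [h] with p hp
      simp only [P, Prod.mk.eta]
      rw [hp]
    · obtain ⟨A, c, h⟩ := C.forms hG hF k l.1
      refine Stable.congr ?_ (C.stable_sign hF hbad A c).2
      filter_upwards [h] with p hp
      simp only [P, Prod.mk.eta]
      rw [hp]
  · intro a b a' b' h
    refine hD _ _ ⟨fun p hp => h (Sum.inl ⟨p, hp⟩), fun l hl => ⟨h (Sum.inr (Sum.inl ⟨l, hl⟩)),
      h (Sum.inr (Sum.inr ⟨l, hl⟩))⟩⟩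

omit hF hG

theorem bad_unique (c2 c3 : ℤ) : {s : ℝ | Bad δ x m r G s c2 c3}.Subsingleton := by
  -- it is enough to exclude `s < s'`
  have key : ∀ s s' : ℝ, s < s' → Bad δ x m r G s c2 c3 → Bad δ x m r G s' c2 c3 → False := by
    rintro s s' hss ⟨A, h1, _⟩ ⟨A', h1', h2'⟩
    obtain ⟨t, ht1, ht2⟩ := exists_rat_btwn hss
    have e : ∀ a, bf δ m r A' c2 c3 a - bf δ m r A c2 c3 a = A' - A := by
      intro a
      unfold bf
      abel
    have hsmall : ∀ᶠ a in (G : Filter (Fin 2 → U)), |bf δ m r A c2 c3 a| < δ (x t) (m 0) := by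
      filter_upwards [h1] with a ha
      obtain ⟨t', h3, h4⟩ := ha
      exact h4.trans (C.arch0 (by exact_mod_cast h3.trans ht1))
    have hK : Kb δ x m s' |A' - A| := by
      obtain ⟨a, ha1, ha2⟩ := (hsmall.and h1').exists
      refine Kb_mono (C.Kb_add ha2 (C.Kb_g ht2)) ?_
      rw [← e a]
      exact (abs_sub _ _).trans (by gcongr)
    have h3 := h2' _ (C.Kb_add hK (C.Kb_g ht2))
    obtain ⟨a, ha1, ha2⟩ := (h3.and hsmall).exists
    have h4 : |bf δ m r A' c2 c3 a| ≤ |A' - A| + |bf δ m r A c2 c3 a| := by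
      have : bf δ m r A' c2 c3 a = (A' - A) + bf δ m r A c2 c3 a := by rw [← e a]; abel
      rw [this]
      exact abs_add_le _ _
    have h5 : |A' - A| + |bf δ m r A c2 c3 a| < |A' - A| + δ (x t) (m 0) := by gcongr
    exact absurd (ha1.trans_le h4) (not_lt.mpr h5.le)
  intro s hs s' hs'
  rcases lt_trichotomy s s' with h | h | h
  · exact (key _ _ h hs hs').elim
  · exact h
  · exact (key _ _ h hs' hs).elim

theorem bad_countable (G : Ultrafilter (Fin 2 → U)) :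
    {s : ℝ | ∃ c2 c3, Bad δ x m r G s c2 c3}.Countable := by
  have : {s : ℝ | ∃ c2 c3, Bad δ x m r G s c2 c3} =
      ⋃ c2 : ℤ, ⋃ c3 : ℤ, {s | Bad δ x m r G s c2 c3} := by
    ext s
    simp
  rw [this]
  exact Set.countable_iUnion fun c2 => Set.countable_iUnion fun c3 =>
    (C.bad_unique c2 c3).countable

omit C

/-- The kinds of points occurring in formulas in two variables. -/
inductive Kind2 (U : Type*)
  | c (u : U) | y | z

/-- The point of a kind. -/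
def Kind2.ev : Kind2 U → (Fin 2 → U) → U
  | .c u, _ => u
  | .y, p => p 0
  | .z, p => p 1

/-- The parameters are in `M`. -/
def Kind2.In (M : Set U) : Kind2 U → Prop
  | .c u => u ∈ M
  | .y => True
  | .z => True

include C

theorem kinds2 {k k' : Kind2 U} (hk : k.In M) (hk' : k'.In M) : ∃ (τ : Prop) (A : Γ) (b : ℤ),
    A ∈ H ∧ ∀ G : Ultrafilter (Fin 2 → U), ToQ δ M H m γ G →
      ∀ᶠ p in (G : Filter (Fin 2 → U)), (k.ev p = k'.ev p ↔ τ) ∧
      δ (k.ev p) (k'.ev p) = A + b • δ (p 0) (m 0) := by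
  have hs : ∀ k k' : Kind2 U, (∃ (τ : Prop) (A : Γ) (b : ℤ),
      A ∈ H ∧ ∀ G : Ultrafilter (Fin 2 → U), ToQ δ M H m γ G →
      ∀ᶠ p in (G : Filter (Fin 2 → U)), (k.ev p = k'.ev p ↔ τ) ∧
      δ (k.ev p) (k'.ev p) = A + b • δ (p 0) (m 0)) →
      ∃ (τ : Prop) (A : Γ) (b : ℤ),
      A ∈ H ∧ ∀ G : Ultrafilter (Fin 2 → U), ToQ δ M H m γ G →
      ∀ᶠ p in (G : Filter (Fin 2 → U)), (k'.ev p = k.ev p ↔ τ) ∧
      δ (k'.ev p) (k.ev p) = A + b • δ (p 0) (m 0) := by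
    rintro k k' ⟨τ, A, b, hA, h⟩
    refine ⟨τ, A, b, hA, fun G hG => ?_⟩
    filter_upwards [h G hG] with p hp
    rw [← hp.1, C.symm, hp.2]
    exact ⟨eq_comm, rfl⟩
  have hd : ∀ k : Kind2 U, ∃ (τ : Prop) (A : Γ) (b : ℤ),
      A ∈ H ∧ ∀ G : Ultrafilter (Fin 2 → U), ToQ δ M H m γ G →
      ∀ᶠ p in (G : Filter (Fin 2 → U)), (k.ev p = k.ev p ↔ τ) ∧
      δ (k.ev p) (k.ev p) = A + b • δ (p 0) (m 0) := by
    intro k
    refine ⟨True, 0, 0, H.zero_mem, fun G hG => ?_⟩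
    filter_upwards with p
    rw [C.self]
    simp
  have hcy : ∀ u ∈ M, ∃ (τ : Prop) (A : Γ) (b : ℤ),
      A ∈ H ∧ ∀ G : Ultrafilter (Fin 2 → U), ToQ δ M H m γ G →
      ∀ᶠ p in (G : Filter (Fin 2 → U)), ((Kind2.c u).ev p = Kind2.y.ev p ↔ τ) ∧
      δ ((Kind2.c u).ev p) (Kind2.y.ev p) = A + b • δ (p 0) (m 0) := by
    intro u hu
    refine ⟨False, 0, 1, H.zero_mem, fun G hG => ?_⟩
    filter_upwards [hG.big _ (C.memH _ hu _ C.m0M), C.y_pos hG] with a ha hp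
    have h4 : u ≠ a 0 := fun h => ha.ne (by rw [h])
    refine ⟨by simpa [Kind2.ev] using h4, ?_⟩
    by_cases hum : u = m 0
    · simp [Kind2.ev, hum, C.symm]
    · have h3 : m 0 ≠ a 0 := (C.ne_of_ne hp.ne').symm
      have := C.iso hum h3 h4 (by rw [C.symm (m 0) (a 0)]; exact ha)
      rw [C.symm (m 0)] at this
      simpa [Kind2.ev] using this
  have hcz : ∀ u ∈ M, ∃ (τ : Prop) (A : Γ) (b : ℤ),
      A ∈ H ∧ ∀ G : Ultrafilter (Fin 2 → U), ToQ δ M H m γ G →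
      ∀ᶠ p in (G : Filter (Fin 2 → U)), ((Kind2.c u).ev p = Kind2.z.ev p ↔ τ) ∧
      δ ((Kind2.c u).ev p) (Kind2.z.ev p) = A + b • δ (p 0) (m 0) := by
    intro u hu
    obtain ⟨i, h1, h2⟩ := C.avoid u hu
    refine ⟨False, δ (m (i + 1)) u, 0, C.memH _ (C.mM _) _ hu, fun G hG => ?_⟩
    filter_upwards [hG.conv i] with a ha
    have h3 : a 1 ≠ m (i + 1) := C.ne_of_ne (ha.trans (C.γneg i)).ne
    have h4 : a 1 ≠ u := by
      intro h
      rw [h, C.symm] at ha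
      exact absurd ha (not_lt.mpr h2)
    refine ⟨by simpa [Kind2.ev] using h4.symm, ?_⟩
    have := C.iso h3 h1.symm h4 (lt_of_lt_of_le ha h2)
    rw [C.symm (a 1)] at this
    simpa [Kind2.ev] using this
  have hyz : ∃ (τ : Prop) (A : Γ) (b : ℤ),
      A ∈ H ∧ ∀ G : Ultrafilter (Fin 2 → U), ToQ δ M H m γ G →
      ∀ᶠ p in (G : Filter (Fin 2 → U)), (Kind2.y.ev p = Kind2.z.ev p ↔ τ) ∧
      δ (Kind2.y.ev p) (Kind2.z.ev p) = A + b • δ (p 0) (m 0) := by
    refine ⟨False, 0, 1, H.zero_mem, fun G hG => ?_⟩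
    filter_upwards [C.yz hG] with a ha
    refine ⟨by simpa [Kind2.ev] using ha.1, ?_⟩
    simpa [Kind2.ev] using ha.2
  rcases k with u | _ | _ <;> rcases k' with u' | _ | _
  · refine ⟨u = u', δ u u', 0, C.memH _ hk _ hk', fun G hG => ?_⟩
    filter_upwards with p
    simp [Kind2.ev]
  · exact hcy u hk
  · exact hcz u hk
  · exact hs _ _ (hcy u' hk')
  · exact hd _
  · exact hyz
  · exact hs _ _ (hcz u' hk')
  · exact hs _ _ hyz
  · exact hd _

theorem forms2 {β : Type*} {k : β → Kind2 U} (hk : ∀ i, (k i).In M) (l : β × β →₀ ℤ) :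
    ∃ (A : Γ) (b : ℤ), A ∈ H ∧ ∀ G : Ultrafilter (Fin 2 → U), ToQ δ M H m γ G →
      ∀ᶠ p in (G : Filter (Fin 2 → U)),
      evd δ l (fun i => (k i).ev p) = A + b • δ (p 0) (m 0) := by
  classical
  induction l using Finsupp.induction with
  | zero =>
    refine ⟨0, 0, H.zero_mem, fun G hG => ?_⟩
    filter_upwards with p
    rw [evd_zero]
    simp
  | single_add q n l _ _ ih =>
    obtain ⟨A, b, hA, h⟩ := ih
    obtain ⟨_, A', b', hA', h'⟩ := C.kinds2 (hk q.1) (hk q.2)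
    refine ⟨n • A' + A, n • b' + b, H.add_mem (H.zsmul_mem hA' n) hA, fun G hG => ?_⟩
    filter_upwards [h G hG, h' G hG] with p hp hp'
    rw [evd_add, hp, evd_single, hp'.2, smul_add, add_smul, smul_assoc]
    abel

/-- The sign of a form over `M` is determined. -/
theorem sign2 {A : Γ} (hA : A ∈ H) (b : ℤ) : ∃ τ τ' : Prop,
    ∀ G : Ultrafilter (Fin 2 → U), ToQ δ M H m γ G → ∀ᶠ p in (G : Filter (Fin 2 → U)),
      (0 < A + b • δ (p 0) (m 0) ↔ τ) ∧ (A + b • δ (p 0) (m 0) < 0 ↔ τ') := by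
  by_cases hb : b = 0
  · refine ⟨0 < A, A < 0, fun G hG => ?_⟩
    filter_upwards with p
    simp [hb]
  · refine ⟨0 < b, b < 0, fun G hG => ?_⟩
    have hA' : |A| ∈ H := by
      rcases abs_choice A with h | h <;> rw [h]
      · exact hA
      · exact H.neg_mem hA
    filter_upwards [hG.big _ hA', C.y_pos hG] with p h1 h2
    have h3 : |A| < |b • δ (p 0) (m 0)| := lt_of_lt_of_le h1 (le_abs_zsmul hb h2.le)
    rw [add_comm, (sign_big h3).1, (sign_big h3).2, (zsmul_sign hb h2).1, (zsmul_sign hb h2).2]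
    exact ⟨Iff.rfl, Iff.rfl⟩

/-- All the ultrafilters considered have the same type over `M`. -/
theorem det {β : Type*} (D : (β → U) → Prop) (E : Finset (β × β)) (Λ : Finset (β × β →₀ ℤ))
    (hD : ∀ v v', Same δ E Λ v v' → (D v ↔ D v')) {k : β → Kind2 U} (hk : ∀ i, (k i).In M)
    {G G' : Ultrafilter (Fin 2 → U)} (hG : ToQ δ M H m γ G) (hG' : ToQ δ M H m γ G')
    (h : ∀ᶠ p in (G : Filter (Fin 2 → U)), D (fun i => (k i).ev p)) :
    ∀ᶠ p in (G' : Filter (Fin 2 → U)), D (fun i => (k i).ev p) := by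
  -- a common configuration
  have h1 : ∀ q : E, ∃ τ : Prop, ∀ G : Ultrafilter (Fin 2 → U), ToQ δ M H m γ G →
      ∀ᶠ p in (G : Filter (Fin 2 → U)), ((k q.1.1).ev p = (k q.1.2).ev p ↔ τ) := by
    intro q
    obtain ⟨τ, A, b, _, h⟩ := C.kinds2 (hk q.1.1) (hk q.1.2)
    exact ⟨τ, fun G hG => (h G hG).mono fun p hp => hp.1⟩
  have h2 : ∀ l : Λ, ∃ τ τ' : Prop, ∀ G : Ultrafilter (Fin 2 → U), ToQ δ M H m γ G →
      ∀ᶠ p in (G : Filter (Fin 2 → U)), (0 < evd δ l.1 (fun i => (k i).ev p) ↔ τ) ∧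
        (evd δ l.1 (fun i => (k i).ev p) < 0 ↔ τ') := by
    intro l
    obtain ⟨A, b, hA, h⟩ := C.forms2 hk l.1
    obtain ⟨τ, τ', h'⟩ := C.sign2 hA b
    refine ⟨τ, τ', fun G hG => ?_⟩
    filter_upwards [h G hG, h' G hG] with p hp hp'
    rw [hp]
    exact hp'
  choose τ1 hτ1 using h1
  choose τ2 τ3 hτ2 using h2
  have h3 := fun (G : Ultrafilter (Fin 2 → U)) (hG : ToQ δ M H m γ G) =>
    (eventually_all.mpr fun q => hτ1 q G hG).and (eventually_all.mpr fun l => hτ2 l G hG)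
  obtain ⟨p0, hp0, hp1, hp2⟩ := (h.and (h3 G hG)).exists
  filter_upwards [h3 G' hG'] with p hp
  refine (hD _ _ ⟨fun q hq => ?_, fun l hl => ⟨?_, ?_⟩⟩).mp hp0
  · rw [hp1 ⟨q, hq⟩, hp.1 ⟨q, hq⟩]
  · rw [(hp2 ⟨l, hl⟩).1, (hp.2 ⟨l, hl⟩).1]
  · rw [(hp2 ⟨l, hl⟩).2, (hp.2 ⟨l, hl⟩).2]

theorem chain {i k : ℕ} (hik : i < k) : m k ≠ m i ∧ δ (m k) (m i) = γ i := by
  induction k with
  | zero => omega
  | succ k ih =>
    have h1 : m (k + 1) ≠ m k := C.ne_of_ne (by rw [C.mγ]; exact (C.γneg k).ne)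
    rcases Nat.lt_succ_iff_lt_or_eq.mp hik with h | h
    · obtain ⟨h2, h3⟩ := ih h
      have h4 : γ k < γ i := strictAnti_nat_of_succ_lt C.γanti h
      have h5 : m (k + 1) ≠ m i := by
        intro h
        have := C.mγ k
        rw [h, C.symm, h3] at this
        exact h4.ne' this
      refine ⟨h5, ?_⟩
      rw [C.iso h1 h2 h5 (by rw [C.mγ, h3]; exact h4), h3]
    · subst h
      exact ⟨h1, C.mγ i⟩

theorem r_dist (i : ℕ) : δ (m i) r = γ i := by
  have h1 := C.hr i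
  have h2 : m (i + 1) ≠ m i := C.ne_of_ne (by rw [C.mγ]; exact (C.γneg i).ne)
  have h3 : r ≠ m i := fun h => C.r_not (h ▸ C.mM i)
  have h4 := C.iso (C.r_ne i) h2 h3 (by rw [C.mγ]; exact h1)
  rw [C.symm, h4, C.mγ]

omit C in
theorem exists_seq_rat (s : ℝ) : ∃ t : ℕ → ℚ, (∀ k, (t k : ℝ) < s) ∧
    ∀ t' : ℚ, (t' : ℝ) < s → ∀ᶠ k in atTop, t' < t k := by
  have h : ∀ k : ℕ, ∃ t : ℚ, s - 1 / ((k : ℝ) + 1) < t ∧ (t : ℝ) < s := fun k =>
    exists_rat_btwn (by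
      have : (0 : ℝ) < 1 / ((k : ℝ) + 1) := by positivity
      linarith)
  choose t ht1 ht2 using h
  refine ⟨t, ht2, fun t' ht' => ?_⟩
  obtain ⟨n, hn⟩ := exists_nat_one_div_lt (sub_pos.mpr ht')
  filter_upwards [eventually_ge_atTop n] with k hk
  have h1 : (1 : ℝ) / ((k : ℝ) + 1) ≤ 1 / ((n : ℝ) + 1) := by
    have : (n : ℝ) ≤ k := by exact_mod_cast hk
    gcongr
  have h2 : (t' : ℝ) < t k := by
    have := ht1 k
    linarith
  exact_mod_cast h2

/-- The two types attached to the cut `s`. -/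
theorem exists_pair (s : ℝ) : ∃ (F : Ultrafilter (Fin 1 → U)) (G : Ultrafilter (Fin 2 → U)),
    ToS δ x m s F ∧ ToQ δ M H m γ G ∧
    (∀ᶠ a in (F : Filter (Fin 1 → U)), ∀ i, a i ∈ M) ∧
    (∀ᶠ a in (F : Filter (Fin 1 → U)), ∀ᶠ b in (G : Filter (Fin 2 → U)),
      δ (a 0) (m 0) < δ (b 0) (m 0) + δ (b 1) r) ∧
    ∀ᶠ b in (G : Filter (Fin 2 → U)), ∀ᶠ a in (F : Filter (Fin 1 → U)),
      ¬ δ (a 0) (m 0) < δ (b 0) (m 0) + δ (b 1) r := by
  obtain ⟨t, ht1, ht2⟩ := exists_seq_rat s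
  have hy : ∀ k, ∃ y ∈ M, δ y (m 0) = δ (x (t k)) (m 0) - γ k := fun k =>
    C.surj _ (H.sub_mem (C.memH _ (C.xM _) _ C.m0M) (C.γmem k))
  choose y hyM hy using hy
  let F : Ultrafilter (Fin 1 → U) := (hyperfilter ℕ).map (fun k _ => x (t k))
  let G : Ultrafilter (Fin 2 → U) := (hyperfilter ℕ).map (fun k => ![y k, m k])
  have hFe : ∀ P : (Fin 1 → U) → Prop, (∀ᶠ k in atTop, P (fun _ => x (t k))) →
      ∀ᶠ a in (F : Filter (Fin 1 → U)), P a := by
    intro P hP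
    change ∀ᶠ a in Filter.map _ ((hyperfilter ℕ : Ultrafilter ℕ) : Filter ℕ), P a
    rw [eventually_map]
    exact hP.filter_mono Nat.hyperfilter_le_atTop
  have hGe : ∀ P : (Fin 2 → U) → Prop, (∀ᶠ k in atTop, P ![y k, m k]) →
      ∀ᶠ a in (G : Filter (Fin 2 → U)), P a := by
    intro P hP
    change ∀ᶠ a in Filter.map _ ((hyperfilter ℕ : Ultrafilter ℕ) : Filter ℕ), P a
    rw [eventually_map]
    exact hP.filter_mono Nat.hyperfilter_le_atTop
  have hsum : ∀ k, δ (y k) (m 0) + δ (m k) r = δ (x (t k)) (m 0) := by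
    intro k
    rw [hy, C.r_dist, sub_add_cancel]
  refine ⟨F, G, ⟨?_, ?_⟩, ⟨?_, ?_, ?_⟩, ?_, ?_, ?_⟩
  · exact hFe _ (Eventually.of_forall fun k => ⟨t k, ht1 k, rfl⟩)
  · intro t' ht'
    exact hFe _ ((ht2 t' ht').mono fun k hk => C.arch0 hk)
  · refine hGe _ (Eventually.of_forall fun k i => ?_)
    fin_cases i
    · exact hyM k
    · exact C.mM k
  · intro c hc
    obtain ⟨i, hi⟩ := C.γcoinit _ (H.neg_mem hc)
    refine hGe _ ?_
    filter_upwards [eventually_ge_atTop i] with k hk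
    have h1 : γ k ≤ γ i := (strictAnti_nat_of_succ_lt C.γanti).antitone hk
    have h2 : c < - γ k := by
      have := lt_of_le_of_lt h1 hi
      exact lt_neg.mpr this
    have h3 := C.xpos (t k)
    simp only [Matrix.cons_val_zero, hy]
    calc c < - γ k := h2
      _ < δ (x (t k)) (m 0) - γ k := by
        rw [sub_eq_add_neg]
        exact lt_add_of_pos_left _ h3
  · intro i
    refine hGe _ ?_
    filter_upwards [eventually_gt_atTop (i + 1)] with k hk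
    simp only [Matrix.cons_val_one]
    have := (C.chain hk).2
    simp only [Matrix.cons_val_fin_one]
    rw [this]
    exact C.γanti i
  · exact hFe _ (Eventually.of_forall fun k i => C.xM _)
  · refine hFe _ (Eventually.of_forall fun j => hGe _ ?_)
    filter_upwards [ht2 _ (ht1 j)] with k hk
    simp only [Matrix.cons_val_zero, Matrix.cons_val_one, Matrix.cons_val_fin_one]
    rw [hsum]
    exact C.arch0 hk
  · refine hGe _ (Eventually.of_forall fun k => hFe _ ?_)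
    filter_upwards [ht2 _ (ht1 k)] with j hj
    simp only [Matrix.cons_val_zero, Matrix.cons_val_one, Matrix.cons_val_fin_one]
    rw [hsum]
    exact not_lt.mpr (C.arch0 hj).le

end Ctx

end Context

end Q201.UM
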