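import Pool.Agent.Q201.UMQE
import Pool.Agent.Q200.NIPCount

/-!
# dp-minimality and NIP for generic ultrametric spaces
-/

namespace Q201.UM

open FirstOrder FirstOrder.Language Q200.DOAG

section

variable {X Γ : Type*} [AddCommGroup Γ] [LinearOrder Γ] {d : X → X → Γ}
  [IsOrderedAddMonoid Γ] [Nontrivial Γ]

/-- For a formula `φ(x; y)` with a single variable `x`, the truth of `φ(x; a)` depends on the
position of `x` with respect to boundedly many balls. -/
theorem one_var (hdiv : ∀ (m : ℤ), m ≠ 0 → ∀ g : Γ, ∃ h : Γ, m • h = g) (hd : Generic d) {p : ℕ}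
    (φ : Lu.Formula (Fin 1 ⊕ Fin p)) :
    ∃ (ι : Type) (_ : Fintype ι) (B : (Fin p → X) → ι → Set X), (∀ a i, IsBall d (B a i)) ∧
      ∀ a x x', (∀ i, x ∈ B a i ↔ x' ∈ B a i) →
        (@Formula.Realize Lu X (umStructure d) _ φ (Sum.elim (fun _ => x) a) ↔
          @Formula.Realize Lu X (umStructure d) _ φ (Sum.elim (fun _ => x') a)) := by
  classical
  obtain ⟨E, Λ, h⟩ := qe' hdiv hd φ
  let e : Fin 1 ⊕ Fin p → Option (Fin p) := Sum.elim (fun _ => none) some
  obtain ⟨ι, i, B, hB, hB'⟩ := ball_family hdiv hd (E.image (Prod.map e e))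
    (Λ.image (fun l => l.mapDomain (Prod.map e e)))
  refine ⟨ι, i, B, hB, fun a x x' hxx' => h _ _ ?_⟩
  have h1 := (hB' a x x' hxx').comap (E := E) (Λ := Λ) e
    (fun p hp => Finset.mem_image_of_mem _ hp) (fun l hl => Finset.mem_image_of_mem _ hl)
  have e1 : ∀ x : X, ext1 a x ∘ e = Sum.elim (fun _ : Fin 1 => x) a := by
    intro x
    funext o
    rcases o with o | o <;> rfl
  rw [e1, e1] at h1
  exact h1

/-- There are no large patterns of depth two in one variable. -/
theorem no_pattern (hdiv : ∀ (m : ℤ), m ≠ 0 → ∀ g : Γ, ∃ h : Γ, m • h = g) (hd : Generic d)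
    {p q : ℕ} (φ : Lu.Formula (Fin 1 ⊕ Fin p)) (ψ : Lu.Formula (Fin 1 ⊕ Fin q)) :
    ∃ N : ℕ, ∀ (a : Fin N → Fin p → X) (b : Fin N → Fin q → X) (c : Fin N → Fin N → X),
      ¬ ∀ i j k, (@Formula.Realize Lu X (umStructure d) _ φ (Sum.elim (fun _ => c i j) (a k)) ↔
          k = i) ∧
        (@Formula.Realize Lu X (umStructure d) _ ψ (Sum.elim (fun _ => c i j) (b k)) ↔ k = j) := by
  classical
  obtain ⟨ι₁, i₁, B₁, hB₁, h₁⟩ := one_var hdiv hd φ
  obtain ⟨ι₂, i₂, B₂, hB₂, h₂⟩ := one_var hdiv hd ψ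
  set N := Fintype.card ι₁ + Fintype.card ι₂ + 2 with hN
  refine ⟨N, fun a b c hc => ?_⟩
  let B : (Fin N × ι₁) ⊕ (Fin N × ι₂) → Set X :=
    Sum.elim (fun u => B₁ (a u.1) u.2) (fun u => B₂ (b u.1) u.2)
  have hB : ∀ u, IsBall d (B u) := by
    rintro (u | u)
    · exact hB₁ _ _
    · exact hB₂ _ _
  obtain ⟨code, hcode⟩ := laminar_code B (fun u v h => ball_laminar hd (hB u) (hB v) h)
  have hinj : Function.Injective (fun u : Fin N × Fin N => code (c u.1 u.2)) := by
    rintro ⟨i, j⟩ ⟨i', j'⟩ h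
    have h3 := hcode _ _ h
    have e1 : i = i' := by
      have h4 := h₁ (a i) (c i j) (c i' j') (fun t => h3 (Sum.inl (i, t)))
      rw [(hc i j i).1, (hc i' j' i).1] at h4
      exact h4.mp rfl
    have e2 : j = j' := by
      have h4 := h₂ (b j) (c i j) (c i' j') (fun t => h3 (Sum.inr (j, t)))
      rw [(hc i j j).2, (hc i' j' j).2] at h4
      exact h4.mp rfl
    rw [e1, e2]
  have hcard := Fintype.card_le_of_injective _ hinj
  simp only [Fintype.card_prod, Fintype.card_fin, Fintype.card_option, Fintype.card_sum] at hcard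
  nlinarith

end

section NIP

variable {X Γ : Type*} [AddCommGroup Γ] [LinearOrder Γ] {d : X → X → Γ}

/-- A set `{i : 0 < μ i + t}` is determined by its cardinality. -/
theorem chain_eq [IsOrderedAddMonoid Γ] {n : ℕ} (μ : Fin n → Γ) (s t : Γ)
    (h : (Finset.univ.filter (fun i => 0 < μ i + s)).card =
      (Finset.univ.filter (fun i => 0 < μ i + t)).card) (i : Fin n) :
    (0 < μ i + s ↔ 0 < μ i + t) := by
  classical
  have key : ∀ s t : Γ, s ≤ t → (Finset.univ.filter (fun i => 0 < μ i + s)).card =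
      (Finset.univ.filter (fun i => 0 < μ i + t)).card → ∀ i, (0 < μ i + s ↔ 0 < μ i + t) := by
    intro s t hst h i
    have hsub : Finset.univ.filter (fun i => 0 < μ i + s) ⊆
        Finset.univ.filter (fun i => 0 < μ i + t) := by
      intro j hj
      rw [Finset.mem_filter] at hj ⊢
      exact ⟨hj.1, lt_of_lt_of_le hj.2 (by gcongr)⟩
    have heq := Finset.eq_of_subset_of_card_le hsub h.ge
    have := Finset.ext_iff.mp heq i
    simpa using this
  rcases le_total s t with hst | hst
  · exact key s t hst h i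
  · exact (key t s hst h.symm i).symm

/-- A set `{i : μ i + t < 0}` is determined by its cardinality. -/
theorem chain_eq' [IsOrderedAddMonoid Γ] {n : ℕ} (μ : Fin n → Γ) (s t : Γ)
    (h : (Finset.univ.filter (fun i => μ i + s < 0)).card =
      (Finset.univ.filter (fun i => μ i + t < 0)).card) (i : Fin n) :
    (μ i + s < 0 ↔ μ i + t < 0) := by
  classical
  have key : ∀ s t : Γ, s ≤ t → (Finset.univ.filter (fun i => μ i + s < 0)).card =
      (Finset.univ.filter (fun i => μ i + t < 0)).card → ∀ i, (μ i + s < 0 ↔ μ i + t < 0) := by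
    intro s t hst h i
    have hsub : Finset.univ.filter (fun i => μ i + t < 0) ⊆
        Finset.univ.filter (fun i => μ i + s < 0) := by
      intro j hj
      rw [Finset.mem_filter] at hj ⊢
      exact ⟨hj.1, lt_of_le_of_lt (by gcongr) hj.2⟩
    have heq := Finset.eq_of_subset_of_card_le hsub h.le
    have := Finset.ext_iff.mp heq i
    simpa using this.symm
  rcases le_total s t with hst | hst
  · exact key s t hst h i
  · exact (key t s hst h.symm i).symm

omit [AddCommGroup Γ] in
/-- A set `{i : Q i ∧ t < μ i}` is determined by its cardinality. -/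
theorem chain_eq3 {n : ℕ} (Q : Fin n → Prop) (μ : Fin n → Γ) (s t : Γ)
    (h : by classical exact (Finset.univ.filter (fun i => Q i ∧ s < μ i)).card =
      (Finset.univ.filter (fun i => Q i ∧ t < μ i)).card) (i : Fin n) :
    (Q i ∧ s < μ i ↔ Q i ∧ t < μ i) := by
  classical
  have key : ∀ s t : Γ, s ≤ t → (Finset.univ.filter (fun i => Q i ∧ s < μ i)).card =
      (Finset.univ.filter (fun i => Q i ∧ t < μ i)).card →
      ∀ i, (Q i ∧ s < μ i ↔ Q i ∧ t < μ i) := by
    intro s t hst h i
    have hsub : Finset.univ.filter (fun i => Q i ∧ t < μ i) ⊆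
        Finset.univ.filter (fun i => Q i ∧ s < μ i) := by
      intro j hj
      rw [Finset.mem_filter] at hj ⊢
      exact ⟨hj.1, hj.2.1, lt_of_le_of_lt hst hj.2.2⟩
    have heq := Finset.eq_of_subset_of_card_le hsub h.le
    have := Finset.ext_iff.mp heq i
    simpa using this.symm
  rcases le_total s t with hst | hst
  · exact key s t hst (by convert h) i
  · exact (key t s hst (by convert h.symm) i).symm

section Count

variable {p q n : ℕ} (A : Fin n → Fin p → X)

/-- `s k` is the index of a point of `A` nearest to `b k`. -/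
def Nearest (d : X → X → Γ) (b : Fin q → X) (s : Fin q → Fin n × Fin p) : Prop :=
  ∀ k, (∀ i j, A i j = b k → A (s k).1 (s k).2 = b k) ∧
    ∀ i j, d (A (s k).1 (s k).2) (b k) ≤ d (A i j) (b k) ∨ A (s k).1 (s k).2 = b k

omit [AddCommGroup Γ] in
theorem exists_nearest (d : X → X → Γ) [Nonempty (Fin n)] [Nonempty (Fin p)] (b : Fin q → X) :
    ∃ s, Nearest A d b s := by
  classical
  have h : ∀ k, ∃ s : Fin n × Fin p, (∀ i j, A i j = b k → A s.1 s.2 = b k) ∧
      ∀ i j, d (A s.1 s.2) (b k) ≤ d (A i j) (b k) ∨ A s.1 s.2 = b k := by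
    intro k
    by_cases h : ∃ i j, A i j = b k
    · obtain ⟨i, j, h⟩ := h
      exact ⟨(i, j), fun _ _ _ => h, fun _ _ => Or.inr h⟩
    · push Not at h
      obtain ⟨s, _, hs⟩ := Finset.exists_min_image (Finset.univ : Finset (Fin n × Fin p))
        (fun s => d (A s.1 s.2) (b k)) Finset.univ_nonempty
      exact ⟨s, fun i j hij => absurd hij (h i j), fun i j => Or.inl (hs (i, j)
        (Finset.mem_univ _))⟩
  choose s hs using h
  exact ⟨s, hs⟩

open Classical in
/-- The pairs `(j, k)` for which the distance from `A i j` to `b k` is that to the nearest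
point. -/
noncomputable def pat (d : X → X → Γ) (b : Fin q → X) (s : Fin q → Fin n × Fin p) (i : Fin n) :
    Finset (Fin p × Fin q) :=
  Finset.univ.filter fun u => A (s u.2).1 (s u.2).2 = b u.2 ∨
    (A i u.1 ≠ A (s u.2).1 (s u.2).2 ∧
      d (A (s u.2).1 (s u.2).2) (b u.2) < d (A (s u.2).1 (s u.2).2) (A i u.1))

theorem dist_pat (hd : Generic d) {b : Fin q → X} {s : Fin q → Fin n × Fin p}
    (hs : Nearest A d b s) (i : Fin n) (j : Fin p) (k : Fin q) :
    ((j, k) ∈ pat A d b s i → d (A i j) (b k) = d (A (s k).1 (s k).2) (A i j)) ∧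
    ((j, k) ∉ pat A d b s i → d (A i j) (b k) = d (A (s k).1 (s k).2) (b k)) := by
  classical
  obtain ⟨h1, h2⟩ := hs k
  unfold pat
  rw [Finset.mem_filter]
  simp only [Finset.mem_univ, true_and]
  by_cases hf : A (s k).1 (s k).2 = b k
  · refine ⟨fun _ => ?_, fun h => absurd (Or.inl hf) h⟩
    rw [hf, hd.symm]
  · have hne : ∀ i j, A i j ≠ b k := fun i j hij => hf (h1 i j hij)
    constructor
    · rintro (h | ⟨h3, h4⟩)
      · exact absurd h hf
      · have := isosc hd (x := b k) (y := A (s k).1 (s k).2) (z := A i j)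
          (fun h => hf h.symm) h3.symm (hne i j).symm (by rwa [hd.symm (b k)])
        rw [hd.symm, this]
    · intro h
      push Not at h
      have h3 := h.2
      by_cases he : A i j = A (s k).1 (s k).2
      · rw [he]
      · have h4 := h3 he
        apply le_antisymm
        · have := hd.ultra (A i j) (A (s k).1 (s k).2) (b k) he hf (hne i j)
          rwa [hd.symm (A i j) (A (s k).1 (s k).2), max_eq_right h4] at this
        · exact (h2 i j).resolve_right hf

open Classical in
/-- The part of the distance of two variables depending on `A i`. -/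
noncomputable def M1 (d : X → X → Γ) (s : Fin q → Fin n × Fin p) (P : Finset (Fin p × Fin q))
    (i : Fin n) : (Fin p ⊕ Fin q) × (Fin p ⊕ Fin q) → Γ
  | (Sum.inl j, Sum.inl j') => d (A i j) (A i j')
  | (Sum.inl j, Sum.inr k) => if (j, k) ∈ P then d (A (s k).1 (s k).2) (A i j) else 0
  | (Sum.inr k, Sum.inl j) => if (j, k) ∈ P then d (A (s k).1 (s k).2) (A i j) else 0
  | (Sum.inr _, Sum.inr _) => 0

open Classical in
/-- The part of the distance of two variables depending on `b`. -/
noncomputable def T1 (d : X → X → Γ) (b : Fin q → X) (s : Fin q → Fin n × Fin p)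
    (P : Finset (Fin p × Fin q)) : (Fin p ⊕ Fin q) × (Fin p ⊕ Fin q) → Γ
  | (Sum.inl _, Sum.inl _) => 0
  | (Sum.inl j, Sum.inr k) => if (j, k) ∈ P then 0 else d (A (s k).1 (s k).2) (b k)
  | (Sum.inr k, Sum.inl j) => if (j, k) ∈ P then 0 else d (A (s k).1 (s k).2) (b k)
  | (Sum.inr k, Sum.inr k') => d (b k) (b k')

/-- The part of a form depending on `A i`. -/
noncomputable def M2 (d : X → X → Γ) (s : Fin q → Fin n × Fin p) (P : Finset (Fin p × Fin q))
    (l : (Fin p ⊕ Fin q) × (Fin p ⊕ Fin q) →₀ ℤ) (i : Fin n) : Γ :=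
  ∑ u ∈ l.support, l u • M1 A d s P i u

/-- The part of a form depending on `b`. -/
noncomputable def T2 (d : X → X → Γ) (b : Fin q → X) (s : Fin q → Fin n × Fin p)
    (P : Finset (Fin p × Fin q)) (l : (Fin p ⊕ Fin q) × (Fin p ⊕ Fin q) →₀ ℤ) : Γ :=
  ∑ u ∈ l.support, l u • T1 A d b s P u

theorem evd_split (hd : Generic d) {b : Fin q → X} {s : Fin q → Fin n × Fin p}
    (hs : Nearest A d b s) (i : Fin n) (l : (Fin p ⊕ Fin q) × (Fin p ⊕ Fin q) →₀ ℤ) :
    evd d l (Sum.elim (A i) b) = M2 A d s (pat A d b s i) l i +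
      T2 A d b s (pat A d b s i) l := by
  classical
  unfold M2 T2 evd
  rw [Finsupp.sum, ← Finset.sum_add_distrib]
  refine Finset.sum_congr rfl fun u _ => ?_
  rw [← smul_add]
  congr 1
  rcases u with ⟨j | k, j' | k'⟩
  · simp [M1, T1]
  · by_cases h : (j, k') ∈ pat A d b s i
    · simp only [M1, T1, Sum.elim_inl, Sum.elim_inr, if_pos h, add_zero]
      exact (dist_pat A hd hs i j k').1 h
    · simp only [M1, T1, Sum.elim_inl, Sum.elim_inr, if_neg h, zero_add]
      exact (dist_pat A hd hs i j k').2 h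
  · rw [hd.symm]
    by_cases h : (j', k) ∈ pat A d b s i
    · simp only [M1, T1, Sum.elim_inl, Sum.elim_inr, if_pos h, add_zero]
      exact (dist_pat A hd hs i j' k).1 h
    · simp only [M1, T1, Sum.elim_inl, Sum.elim_inr, if_neg h, zero_add]
      exact (dist_pat A hd hs i j' k).2 h
  · simp [M1, T1]

end Count

/-- The type of codes. -/
abbrev Code (n p q : ℕ) (Λ : Finset ((Fin p ⊕ Fin q) × (Fin p ⊕ Fin q) →₀ ℤ)) :=
  (Fin q → Fin n × Fin p) × (Fin q → Bool) × (Fin q → Fin q → Bool) ×
    (Fin p → Fin q → Fin (n + 1)) × (Finset (Fin p × Fin q) → Λ → Fin (n + 1)) ×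
    (Finset (Fin p × Fin q) → Λ → Fin (n + 1))

theorem card_filter_lt {n : ℕ} (Q : Fin n → Prop) [DecidablePred Q] :
    (Finset.univ.filter Q).card < n + 1 := by
  have := Finset.card_filter_le (Finset.univ : Finset (Fin n)) Q
  rw [Finset.card_univ, Fintype.card_fin] at this
  omega

/-- The traces of tuples `b` on the tuples `A i` are coded by polynomially many codes. -/
theorem exists_code [IsOrderedAddMonoid Γ] (hd : Generic d) {p q : ℕ}
    (E : Finset ((Fin p ⊕ Fin q) × (Fin p ⊕ Fin q)))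
    (Λ : Finset ((Fin p ⊕ Fin q) × (Fin p ⊕ Fin q) →₀ ℤ)) {n : ℕ} [Nonempty (Fin n)]
    [Nonempty (Fin p)] (A : Fin n → Fin p → X) :
    ∃ code : (Fin q → X) → Code n p q Λ, ∀ b b', code b = code b' →
      ∀ i, Same d E Λ (Sum.elim (A i) b) (Sum.elim (A i) b') := by
  classical
  choose s hs using exists_nearest A d (q := q)
  refine ⟨fun b => (s b, fun k => decide (A (s b k).1 (s b k).2 = b k),
    fun k k' => decide (b k = b k'),
    fun j k => ⟨_, card_filter_lt fun i => A i j ≠ A (s b k).1 (s b k).2 ∧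
      d (A (s b k).1 (s b k).2) (b k) < d (A (s b k).1 (s b k).2) (A i j)⟩,
    fun P l => ⟨_, card_filter_lt fun i => 0 < M2 A d (s b) P l.1 i + T2 A d b (s b) P l.1⟩,
    fun P l => ⟨_, card_filter_lt fun i => M2 A d (s b) P l.1 i + T2 A d b (s b) P l.1 < 0⟩), ?_⟩
  intro b b' h i
  simp only [Prod.mk.injEq] at h
  obtain ⟨h1, h2, h3, h4, h5, h6⟩ := h
  have hf : ∀ k, (A (s b k).1 (s b k).2 = b k ↔ A (s b k).1 (s b k).2 = b' k) := by
    intro k
    have := congrFun h2 k
    rw [← h1] at this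
    simpa using this
  have hb : ∀ k k', (b k = b k' ↔ b' k = b' k') := by
    intro k k'
    have := congrFun (congrFun h3 k) k'
    simpa using this
  have hs' : Nearest A d b' (s b) := by
    rw [h1]
    exact hs b'
  have hP : pat A d b (s b) i = pat A d b' (s b) i := by
    ext ⟨j, k⟩
    unfold pat
    rw [Finset.mem_filter, Finset.mem_filter]
    simp only [Finset.mem_univ, true_and]
    have h7 := congrArg Fin.val (congrFun (congrFun h4 j) k)
    simp only [← h1] at h7
    have h8 := chain_eq3 (fun i => A i j ≠ A (s b k).1 (s b k).2)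
      (fun i => d (A (s b k).1 (s b k).2) (A i j)) _ _ (by convert h7) i
    rw [hf k]
    exact or_congr Iff.rfl h8
  refine ⟨fun u _ => ?_, fun l hl => ?_⟩
  · have hmix : ∀ j k, (A i j = b k ↔ A i j = b' k) := by
      intro j k
      constructor
      · intro h
        have h8 := (hs b k).1 i j h
        have h9 := (hf k).mp h8
        rw [h, ← h8, h9]
      · intro h
        have h8 := (hs' k).1 i j h
        have h9 := (hf k).mpr h8
        rw [h, ← h8, h9]
    rcases u with ⟨j | k, j' | k'⟩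
    · exact Iff.rfl
    · exact hmix j k'
    · constructor
      · intro h
        exact ((hmix j' k).mp h.symm).symm
      · intro h
        exact ((hmix j' k).mpr h.symm).symm
    · exact hb k k'
  · rw [evd_split A hd (hs b) i l, evd_split A hd hs' i l, ← hP]
    have h7 := congrArg Fin.val (congrFun (congrFun h5 (pat A d b (s b) i)) ⟨l, hl⟩)
    have h8 := congrArg Fin.val (congrFun (congrFun h6 (pat A d b (s b) i)) ⟨l, hl⟩)
    simp only [← h1] at h7 h8
    exact ⟨chain_eq _ _ _ (by convert h7) i, chain_eq' _ _ _ (by convert h8) i⟩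

set_option synthInstance.maxSize 2000 in
/-- No formula shatters arbitrarily large sets of tuples. -/
theorem not_shatter [IsOrderedAddMonoid Γ] [Nontrivial Γ]
    (hdiv : ∀ (m : ℤ), m ≠ 0 → ∀ g : Γ, ∃ h : Γ, m • h = g) (hd : Generic d) {p q : ℕ}
    (φ : Lu.Formula (Fin p ⊕ Fin q)) :
    ∃ n : ℕ, ¬ ∃ (a : Fin n → Fin p → X) (b : Set (Fin n) → Fin q → X), ∀ i S,
      (@Formula.Realize Lu X (umStructure d) _ φ (Sum.elim (a i) (b S)) ↔ i ∈ S) := by
  classical
  rcases Nat.eq_zero_or_pos p with rfl | hp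
  · refine ⟨2, ?_⟩
    rintro ⟨a, b, h⟩
    have h0 := (h 0 {0}).mpr rfl
    have h1 : a 0 = a 1 := Subsingleton.elim _ _
    rw [h1] at h0
    have := (h 1 {0}).mp h0
    simp at this
  obtain ⟨E, Λ, h⟩ := qe' hdiv hd φ
  set L := Fintype.card Λ with hL
  obtain ⟨n, hn⟩ := Q200.NIPCount.exists_big (p ^ q * 2 ^ q * (2 ^ q) ^ q)
    (q + q * p + 2 * (L * 2 ^ (p * q)))
  have : Nonempty (Fin p) := ⟨⟨0, hp⟩⟩
  refine ⟨n, ?_⟩
  rintro ⟨a, b, hab⟩
  have hn0 : 0 < n := by
    rcases Nat.eq_zero_or_pos n with rfl | h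
    · exfalso
      have h1 : 1 ≤ p ^ q * 2 ^ q * (2 ^ q) ^ q := Nat.one_le_iff_ne_zero.mpr (by positivity)
      simp at hn
      omega
    · exact h
  have : Nonempty (Fin n) := ⟨⟨0, hn0⟩⟩
  obtain ⟨code, hcode⟩ := exists_code (q := q) hd E Λ a
  have hinj : Function.Injective (fun S => code (b S)) := by
    intro S S' hS
    ext i
    rw [← hab i S, ← hab i S']
    exact h _ _ (hcode _ _ hS i)
  have hcard := Fintype.card_le_of_injective _ hinj
  have hc2 : Fintype.card (Code n p q Λ) ≤ p ^ q * 2 ^ q * (2 ^ q) ^ q *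
      (n + 1) ^ (q + q * p + 2 * (L * 2 ^ (p * q))) := by
    simp only [Code, Fintype.card_prod, Fintype.card_fun, Fintype.card_fin, Fintype.card_bool,
      Fintype.card_finset]
    rw [← hL]
    have h1 : (n * p) ^ q ≤ ((n + 1) * p) ^ q := by gcongr; omega
    calc _ ≤ ((n + 1) * p) ^ q * (2 ^ q * ((2 ^ q) ^ q * (((n + 1) ^ q) ^ p *
          (((n + 1) ^ L) ^ 2 ^ (p * q) * ((n + 1) ^ L) ^ 2 ^ (p * q))))) := by gcongr
      _ = _ := by
        rw [mul_pow]
        ring
  rw [Fintype.card_set, Fintype.card_fin] at hcard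
  omega

end NIP

end Q201.UM
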