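import Pool.Agent.Q201.UMModel
import Pool.Agent.Q201.UMCtx

/-!
# Existence of the configuration in saturated models
-/

set_option linter.unusedSectionVars false

namespace Q201.UM

open FirstOrder FirstOrder.Language Filter Cardinal

universe u v w

section Exist

variable {U W Γ : Type*} [Lu.Structure U] [AddCommGroup Γ] [LinearOrder Γ]
  [IsOrderedAddMonoid Γ] {d : W → W → Γ}
  (j : @ElementaryEmbedding Lu U W _ (umStructure d))

/-- The branching property in a model. -/
theorem branchU (hd : Generic d) (u u' a b c e : U) : ∃ z : U, z ≠ u ∧ z ≠ u' ∧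
    dl j z u = dl j a b - dl j c e ∧ dl j a b - dl j c e ≤ dl j z u' := by
  classical
  obtain ⟨z, h1, h2, h3, h4⟩ := hd.branch {j u'} (j u) (d (j a) (j b) - d (j c) (j e))
  have h5 : d (j a) (j b) - d (j c) (j e) ≤ d z (j u') := by
    by_cases h : j u' = j u
    · rw [h, h3]
    · exact h4 _ (Finset.mem_singleton_self _) h
  let w : Fin 6 → U := ![u, u', a, b, c, e]
  let q : Option (Fin 6) × Option (Fin 6) →₀ ℤ := Finsupp.single (some 2, some 3) 1 -
    Finsupp.single (some 4, some 5) 1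
  let l1 : Option (Fin 6) × Option (Fin 6) →₀ ℤ := Finsupp.single (none, some 0) 1 - q
  let l2 : Option (Fin 6) × Option (Fin 6) →₀ ℤ := Finsupp.single (none, some 1) 1 - q
  obtain ⟨z', hz1, hz2⟩ := realize_in j {(none, some 0), (none, some 1)} {l1, l2} w z
  have hne : ∀ i : Fin 6, (none, some i) ∈ ({(none, some 0), (none, some 1)} :
      Finset (Option (Fin 6) × Option (Fin 6))) → z ≠ j (w i) → z' ≠ w i := by
    intro i hi hz h
    exact hz ((hz1 (none, some i) hi).mpr (congrArg j h))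
  have ev : ∀ (i : Fin 6) (z : W), evd d (Finsupp.single (none, some i) 1 - q)
      (ext1 (j ∘ w) z) = d z (j (w i)) - (d (j a) (j b) - d (j c) (j e)) := by
    intro i z
    simp only [q]
    rw [evd_sub, evd_sub, evd_single, evd_single, evd_single]
    simp only [one_smul]
    rfl
  refine ⟨z', hne 0 (by simp) h1, hne 1 (by simp) (fun h => h2 (by
    rw [h]; exact Finset.mem_singleton_self _)), ?_, ?_⟩
  · have h6 := hz2 l1 (by simp)
    rw [ev, ev] at h6
    have h7 : d z (j (w 0)) - (d (j a) (j b) - d (j c) (j e)) = 0 := sub_eq_zero.mpr h3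
    rw [h7] at h6
    have h8 : d (j z') (j (w 0)) - (d (j a) (j b) - d (j c) (j e)) = 0 := by
      apply le_antisymm
      · exact not_lt.mp fun h => lt_irrefl _ (h6.1.mpr h)
      · exact not_lt.mp fun h => lt_irrefl _ (h6.2.mpr h)
    exact sub_eq_zero.mp h8
  · have h6 := hz2 l2 (by simp)
    rw [ev, ev] at h6
    have h7 : ¬ d z (j (w 1)) - (d (j a) (j b) - d (j c) (j e)) < 0 :=
      not_lt.mpr (sub_nonneg.mpr h5)
    have h8 := fun h => h7 (h6.2.mpr h)
    exact sub_nonneg.mp (not_lt.mp h8)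

/-- Positive distances. -/
theorem exists_posU [Nontrivial Γ] (hd : Generic d) (o : U) : ∃ a : U, 0 < dl j a o := by
  classical
  obtain ⟨g, hg⟩ := exists_ne (0 : Γ)
  obtain ⟨z, h1, h2, h3, h4⟩ := hd.branch ∅ (j o) |g|
  let l1 : Option (Fin 1) × Option (Fin 1) →₀ ℤ := Finsupp.single (none, some 0) 1
  obtain ⟨z', hz1, hz2⟩ := realize_in j ∅ {l1} (fun _ : Fin 1 => o) z
  have h6 := (hz2 l1 (by simp)).1
  simp only [l1] at h6
  rw [evd_single, evd_single, one_smul, one_smul] at h6
  refine ⟨z', h6.mp ?_⟩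
  change 0 < d z (j o)
  rw [h3]
  exact abs_pos.mpr hg

/-- Large distances. -/
theorem exists_bigU (hd : Generic d) {o a : U} (ha : 0 < dl j a o) (N : ℕ) :
    ∃ b : U, N • dl j a o < dl j b o := by
  classical
  obtain ⟨z, h1, h2, h3, h4⟩ := hd.branch ∅ (j o) ((N + 1) • d (j a) (j o))
  let l1 : Option (Fin 2) × Option (Fin 2) →₀ ℤ := Finsupp.single (none, some 0) 1 -
    (N : ℤ) • Finsupp.single (some 1, some 0) 1
  obtain ⟨z', hz1, hz2⟩ := realize_in j ∅ {l1} ![o, a] z
  have h6 := (hz2 l1 (by simp)).1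
  simp only [l1] at h6
  rw [evd_sub, evd_smul, evd_single, evd_single, evd_sub, evd_smul, evd_single, evd_single] at h6
  simp only [one_smul, natCast_zsmul] at h6
  refine ⟨z', sub_pos.mp (h6.mp (sub_pos.mpr ?_))⟩
  change N • d (j a) (j o) < d z (j o)
  rw [h3, add_smul, one_smul]
  exact lt_add_of_pos_right _ ha

/-- Intermediate distances. -/
theorem exists_betweenU (hd : Generic d) {o a b : U} (ha : 0 < dl j a o)
    (hab : ∀ n : ℕ, n • dl j a o < dl j b o) (N : ℕ) :
    ∃ c : U, N • dl j a o < dl j c o ∧ N • dl j c o < dl j b o := by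
  classical
  obtain ⟨z, h1, h2, h3, h4⟩ := hd.branch ∅ (j o) ((N + 1) • d (j a) (j o))
  let l1 : Option (Fin 3) × Option (Fin 3) →₀ ℤ := Finsupp.single (none, some 0) 1 -
    (N : ℤ) • Finsupp.single (some 1, some 0) 1
  let l2 : Option (Fin 3) × Option (Fin 3) →₀ ℤ := Finsupp.single (some 2, some 0) 1 -
    (N : ℤ) • Finsupp.single (none, some 0) 1
  obtain ⟨z', hz1, hz2⟩ := realize_in j ∅ {l1, l2} ![o, a, b] z
  have h6 := (hz2 l1 (by simp)).1
  have h7 := (hz2 l2 (by simp)).1
  simp only [l1] at h6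
  simp only [l2] at h7
  rw [evd_sub, evd_smul, evd_single, evd_single, evd_sub, evd_smul, evd_single, evd_single] at h6 h7
  simp only [one_smul, natCast_zsmul] at h6 h7
  refine ⟨z', sub_pos.mp (h6.mp (sub_pos.mpr ?_)), sub_pos.mp (h7.mp (sub_pos.mpr ?_))⟩
  · change N • d (j a) (j o) < d z (j o)
    rw [h3, add_smul, one_smul]
    exact lt_add_of_pos_right _ ha
  · change N • d z (j o) < d (j b) (j o)
    rw [h3, smul_smul]
    exact hab _

/-- Saturation for countably many linear inequalities. -/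
def Sat (δ : U → U → Γ) : Prop :=
  ∀ (w : ℕ → U) (l : ℕ → (Option ℕ × Option ℕ →₀ ℤ)),
    (∀ N : ℕ, ∃ z : U, ∀ i < N, 0 < evd δ (l i) (ext1 w z)) →
      ∃ z : U, ∀ i, 0 < evd δ (l i) (ext1 w z)

/-- An infinitely larger distance. -/
theorem exists_hugeU (hd : Generic d) (hs : Sat (dl j)) {o a : U} (ha : 0 < dl j a o) :
    ∃ b : U, ∀ N : ℕ, N • dl j a o < dl j b o := by
  let w : ℕ → U := fun i => if i = 0 then o else a
  let l : ℕ → (Option ℕ × Option ℕ →₀ ℤ) := fun N => Finsupp.single (none, some 0) 1 -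
    (N : ℤ) • Finsupp.single (some 1, some 0) 1
  have hl : ∀ N z, evd (dl j) (l N) (ext1 w z) = dl j z o - N • dl j a o := by
    intro N z
    simp only [l]
    rw [evd_sub, evd_smul, evd_single, evd_single]
    simp only [one_smul, natCast_zsmul]
    rfl
  obtain ⟨z, hz⟩ := hs w l (fun N => by
    obtain ⟨b, hb⟩ := exists_bigU j hd ha N
    refine ⟨b, fun i hi => ?_⟩
    rw [hl, sub_pos]
    exact lt_of_le_of_lt (nsmul_le_nsmul_left ha.le hi.le) hb)
  refine ⟨z, fun N => ?_⟩
  have := hz N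
  rwa [hl, sub_pos] at this

/-- A distance in between, for the archimedean classes. -/
theorem exists_midU (hd : Generic d) (hs : Sat (dl j)) {o a b : U} (ha : 0 < dl j a o)
    (hab : ∀ n : ℕ, n • dl j a o < dl j b o) :
    ∃ c : U, (∀ N : ℕ, N • dl j a o < dl j c o) ∧ ∀ N : ℕ, N • dl j c o < dl j b o := by
  let w : ℕ → U := fun i => if i = 0 then o else if i = 1 then a else b
  let l1 : ℕ → (Option ℕ × Option ℕ →₀ ℤ) := fun N => Finsupp.single (none, some 0) 1 -
    (N : ℤ) • Finsupp.single (some 1, some 0) 1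
  let l2 : ℕ → (Option ℕ × Option ℕ →₀ ℤ) := fun N => Finsupp.single (some 2, some 0) 1 -
    (N : ℤ) • Finsupp.single (none, some 0) 1
  let l : ℕ → (Option ℕ × Option ℕ →₀ ℤ) := fun N => if N % 2 = 0 then l1 (N / 2) else l2 (N / 2)
  have hl1 : ∀ N z, evd (dl j) (l1 N) (ext1 w z) = dl j z o - N • dl j a o := by
    intro N z
    simp only [l1]
    rw [evd_sub, evd_smul, evd_single, evd_single]
    simp only [one_smul, natCast_zsmul]
    rfl
  have hl2 : ∀ N z, evd (dl j) (l2 N) (ext1 w z) = dl j b o - N • dl j z o := by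
    intro N z
    simp only [l2]
    rw [evd_sub, evd_smul, evd_single, evd_single]
    simp only [one_smul, natCast_zsmul]
    rfl
  obtain ⟨z, hz⟩ := hs w l (fun N => by
    obtain ⟨c, hc1, hc2⟩ := exists_betweenU j hd ha hab N
    have hc0 : 0 ≤ dl j c o := le_trans (nsmul_nonneg ha.le N) hc1.le
    refine ⟨c, fun i hi => ?_⟩
    have hi' : i / 2 ≤ N := by omega
    by_cases h : i % 2 = 0
    · simp only [l, if_pos h]
      rw [hl1, sub_pos]
      exact lt_of_le_of_lt (nsmul_le_nsmul_left ha.le hi') hc1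
    · simp only [l, if_neg h]
      rw [hl2, sub_pos]
      exact lt_of_le_of_lt (nsmul_le_nsmul_left hc0 hi') hc2)
  refine ⟨z, fun N => ?_, fun N => ?_⟩
  · have := hz (2 * N)
    simp only [l] at this
    rw [if_pos (by omega), hl1, sub_pos] at this
    rwa [Nat.mul_div_cancel_left _ two_pos] at this
  · have := hz (2 * N + 1)
    simp only [l] at this
    rw [if_neg (by omega), hl2, sub_pos] at this
    rwa [show (2 * N + 1) / 2 = N by omega] at this

/-- A family of points whose distances to `o` have increasing archimedean classes. -/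
theorem exists_xU [Nontrivial Γ] (hd : Generic d) (hs : Sat (dl j)) (o : U) : ∃ x : ℚ → U,
    (∀ t, 0 < dl j (x t) o) ∧ ∀ s t, s < t → ∀ n : ℕ, n • dl j (x s) o < dl j (x t) o := by
  let P : Set (ArchimedeanClass Γ)ᵒᵈ :=
    {c | ∃ a : U, 0 < dl j a o ∧ OrderDual.toDual (ArchimedeanClass.mk (dl j a o)) = c}
  have hlt : ∀ {a b : U}, 0 < dl j a o → 0 < dl j b o →
      (OrderDual.toDual (ArchimedeanClass.mk (dl j a o)) <
        OrderDual.toDual (ArchimedeanClass.mk (dl j b o)) ↔
        ∀ n : ℕ, n • dl j a o < dl j b o) := by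
    intro a b ha hb
    rw [OrderDual.toDual_lt_toDual, ArchimedeanClass.mk_lt_mk, abs_of_pos ha, abs_of_pos hb]
  have _ : DenselyOrdered P := ⟨by
    rintro ⟨_, a, ha, rfl⟩ ⟨_, b, hb, rfl⟩ h
    have h1 := (hlt ha hb).mp h
    obtain ⟨c, hc1, hc2⟩ := exists_midU j hd hs ha h1
    have hc : 0 < dl j c o := by
      have := hc1 0
      rwa [zero_smul] at this
    exact ⟨⟨_, c, hc, rfl⟩, (hlt ha hc).mpr hc1, (hlt hc hb).mpr hc2⟩⟩
  have _ : Nontrivial P := by
    obtain ⟨a, ha⟩ := exists_posU j hd o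
    obtain ⟨b, hb⟩ := exists_hugeU j hd hs ha
    have hb' : 0 < dl j b o := by
      have := hb 0
      rwa [zero_smul] at this
    exact ⟨⟨_, a, ha, rfl⟩, ⟨_, b, hb', rfl⟩, fun h =>
      ((hlt ha hb').mpr hb).ne (congrArg Subtype.val h)⟩
  obtain ⟨e⟩ := Order.embedding_from_countable_to_dense ℚ P
  choose x hx1 hx2 using fun t => (e t).2
  refine ⟨x, hx1, fun s t hst => (hlt (hx1 s) (hx1 t)).mp ?_⟩
  rw [hx2, hx2]
  exact e.lt_iff_lt.mpr hst

instance : Countable (Σ n, Lu.Functions n) := by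
  have : IsEmpty (Σ n, Lu.Functions n) := ⟨fun f => Empty.elim f.2⟩
  infer_instance

instance : Countable (Σ n, Lu.Relations n) := by
  have : ∀ n, Countable (Lu.Relations n) := fun n =>
    inferInstanceAs (Countable (Fin n → Fin n → ℤ))
  infer_instance

theorem card_Lu : Lu.card ≤ ℵ₀ := by
  have h : Countable Lu.Symbols := by
    unfold Language.Symbols
    infer_instance
  exact mk_le_aleph0_iff.mpr h

end Exist

section Exist2

variable {U : Type u} {W Γ : Type*} [Lu.Structure U] [AddCommGroup Γ] [LinearOrder Γ]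
  [IsOrderedAddMonoid Γ] {d : W → W → Γ}
  (j : @ElementaryEmbedding Lu U W _ (umStructure d))

theorem exists_M [Infinite U] (S : Set U) (hS : S.Countable) :
    ∃ M : Lu.ElementarySubstructure U, S ⊆ M ∧ (M : Set U).Countable := by
  obtain ⟨M, h1, h2⟩ := exists_elementarySubstructure_card_eq (L := Lu) (M := U) S
    (ℵ₀ : Cardinal.{u}) le_rfl (by
      rw [Cardinal.lift_id, Cardinal.lift_id]
      exact mk_le_aleph0_iff.mpr hS.to_subtype) (by
      rw [Cardinal.lift_aleph0]
      have := card_Lu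
      rw [← Cardinal.lift_le_aleph0.{0, u}] at this
      simpa using this) (by
      rw [Cardinal.lift_id, Cardinal.lift_id]
      exact aleph0_le_mk U)
  refine ⟨M, h1, ?_⟩
  rw [Cardinal.lift_id, Cardinal.lift_id] at h2
  exact Set.countable_coe_iff.mp (mk_le_aleph0_iff.mp h2.le)

/-- The restriction of an embedding to an elementary substructure. -/
def restr (M : Lu.ElementarySubstructure U) :
    @ElementaryEmbedding Lu M W _ (umStructure d) :=
  @ElementaryEmbedding.comp Lu M U W _ _ (umStructure d) j M.subtype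

theorem dl_restr (M : Lu.ElementarySubstructure U) (a b : M) : dl (restr j M) a b = dl j a b := rfl

/-- The distances in `M`. -/
def distGroup (hd : Generic d) (M : Lu.ElementarySubstructure U) (o : M) : AddSubgroup Γ where
  carrier := {g | ∃ a b : M, dl j a b = g}
  zero_mem' := ⟨o, o, hd.self _⟩
  add_mem' := by
    rintro _ _ ⟨a, b, rfl⟩ ⟨c, e, rfl⟩
    obtain ⟨z, _, _, hz, _⟩ := branchU (restr j M) hd o o o o c e
    obtain ⟨z', _, _, hz', _⟩ := branchU (restr j M) hd o o a b z o
    refine ⟨z', o, ?_⟩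
    rw [hz, dl_restr, dl_restr, dl_restr, dl_restr] at hz'
    rw [hz']
    have : dl j (o : U) o = 0 := hd.self _
    rw [this]
    abel
  neg_mem' := by
    rintro _ ⟨c, e, rfl⟩
    obtain ⟨z, _, _, hz, _⟩ := branchU (restr j M) hd o o o o c e
    refine ⟨z, o, ?_⟩
    rw [dl_restr, dl_restr, dl_restr] at hz
    rw [hz]
    have : dl j (o : U) o = 0 := hd.self _
    rw [this]
    abel

/-- The configuration exists in saturated models. -/
theorem exists_ctx [Nonempty U] [Infinite U] [Nontrivial Γ] (hd : Generic d)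
    (hs : Sat (dl j)) : ∃ (M : Lu.ElementarySubstructure U) (H : AddSubgroup Γ) (x : ℚ → U)
      (m : ℕ → U) (γ : ℕ → Γ) (r : U), (M : Set U).Countable ∧
      Ctx (dl j) (M : Set U) H x m γ r := by
  classical
  obtain ⟨o⟩ := ‹Nonempty U›
  obtain ⟨x, hx1, hx2⟩ := exists_xU j hd hs o
  obtain ⟨M, hM1, hM2⟩ := exists_M (insert o (Set.range x)) ((Set.countable_range x).insert o)
  have hoM : o ∈ M := hM1 (Set.mem_insert _ _)
  have hxM : ∀ t, x t ∈ M := fun t => hM1 (Set.mem_insert_of_mem _ ⟨t, rfl⟩)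
  set H := distGroup j hd M ⟨o, hoM⟩ with hH
  have hHmem : ∀ a ∈ M, ∀ b ∈ M, dl j a b ∈ H := fun a ha b hb => ⟨⟨a, ha⟩, ⟨b, hb⟩, rfl⟩
  have hHpos : ∃ ε ∈ H, 0 < ε := ⟨_, hHmem _ (hxM 0) _ hoM, hx1 0⟩
  obtain ⟨ε, hε, hε0⟩ := hHpos
  have hMc : Countable M := hM2.to_subtype
  have hMn : Nonempty M := ⟨⟨o, hoM⟩⟩
  obtain ⟨u, hu⟩ := exists_surjective_nat M
  have hHc : Countable H := by
    have : Function.Surjective (fun p : M × M =>
        (⟨dl j p.1 p.2, hHmem _ p.1.2 _ p.2.2⟩ : H)) := by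
      rintro ⟨_, a, b, rfl⟩
      exact ⟨(a, b), rfl⟩
    exact this.countable
  obtain ⟨h, hh⟩ := exists_surjective_nat H
  -- the recursion
  have hstep : ∀ (i : ℕ) (a : M) (g : H), ∃ (z : M) (g' : H), (g' : Γ) < g ∧ (g' : Γ) < 0 ∧
      (g' : Γ) < h i ∧ z ≠ u i ∧ dl j z a = g' ∧ (g' : Γ) ≤ dl j z (u i) := by
    intro i a g
    have hmin : min (g : Γ) (min 0 (h i : Γ)) - ε ∈ H := by
      apply H.sub_mem _ hε
      rcases min_choice (g : Γ) (min 0 (h i : Γ)) with h1 | h1 <;> rw [h1]
      · exact g.2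
      · rcases min_choice (0 : Γ) (h i : Γ) with h1 | h1 <;> rw [h1]
        · exact H.zero_mem
        · exact (h i).2
    obtain ⟨b, c, hbc⟩ := id hmin
    obtain ⟨z, h1, h2, h3, h4⟩ := branchU (restr j M) hd a (u i) b c c c
    have h5 : dl (restr j M) c c = 0 := hd.self _
    rw [h5, sub_zero, dl_restr, dl_restr, hbc] at h3
    rw [h5, sub_zero, dl_restr, dl_restr, hbc] at h4
    refine ⟨z, ⟨_, hmin⟩, ?_, ?_, ?_, h2, h3, h4⟩
    · exact lt_of_lt_of_le (sub_lt_self _ hε0) (min_le_left _ _)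
    · exact lt_of_lt_of_le (sub_lt_self _ hε0) ((min_le_right _ _).trans (min_le_left _ _))
    · exact lt_of_lt_of_le (sub_lt_self _ hε0) ((min_le_right _ _).trans (min_le_right _ _))
  choose nz ng hstep using hstep
  let st : ℕ → M × H := fun n => Nat.rec (⟨o, hoM⟩, 0) (fun i p => (nz i p.1 p.2, ng i p.1 p.2)) n
  have hst : ∀ i, st (i + 1) = (nz i (st i).1 (st i).2, ng i (st i).1 (st i).2) := fun i => rfl
  let m : ℕ → U := fun i => (st i).1
  let γ : ℕ → Γ := fun i => (st (i + 1)).2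
  have hm0 : m 0 = o := rfl
  have key : ∀ i, γ i < (st i).2 ∧ γ i < 0 ∧ γ i < h i ∧ m (i + 1) ≠ u i ∧
      dl j (m (i + 1)) (m i) = γ i ∧ γ i ≤ dl j (m (i + 1)) (u i) := by
    intro i
    obtain ⟨h1, h2, h3, h4, h5, h6⟩ := hstep i (st i).1 (st i).2
    refine ⟨h1, h2, h3, fun h => h4 (Subtype.ext h), h5, h6⟩
  have hchain : ∀ {i k : ℕ}, i < k → m k ≠ m i ∧ dl j (m k) (m i) = γ i := by
    intro i k hik
    have hne : ∀ k, m (k + 1) ≠ m k := by
      intro k h
      have h1 := (key k).2.2.2.2.1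
      rw [h] at h1
      have h2 : dl j (m k) (m k) = 0 := hd.self _
      rw [h2] at h1
      exact (key k).2.1.ne h1.symm
    have hanti : ∀ i, γ (i + 1) < γ i := fun i => (key (i + 1)).1
    induction k with
    | zero => omega
    | succ k ih =>
      rcases Nat.lt_succ_iff_lt_or_eq.mp hik with h | h
      · obtain ⟨h2, h3⟩ := ih h
        have h4 : γ k < γ i := strictAnti_nat_of_succ_lt hanti h
        have h5 : m (k + 1) ≠ m i := by
          intro h
          have h6 := (key k).2.2.2.2.1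
          have h7 : dl j (m i) (m k) = dl j (m k) (m i) := hd.symm _ _
          rw [h, h7, h3] at h6
          exact h4.ne' h6
        refine ⟨h5, ?_⟩
        have h8 := isosc hd (x := j (m (k + 1))) (y := j (m k)) (z := j (m i))
          (fun h => hne k (j_inj j h)) (fun h => h2 (j_inj j h)) (fun h => h5 (j_inj j h)) (by
            change dl j (m (k + 1)) (m k) < dl j (m k) (m i)
            rw [(key k).2.2.2.2.1, h3]
            exact h4)
        change dl j (m (k + 1)) (m i) = dl j (m k) (m i) at h8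
        rw [h8, h3]
      · subst h
        exact ⟨hne i, (key i).2.2.2.2.1⟩
  -- the pseudolimit
  obtain ⟨r, hr⟩ : ∃ r : U, ∀ i, dl j r (m (i + 1)) < γ i := by
    let l : ℕ → (Option ℕ × Option ℕ →₀ ℤ) := fun i =>
      Finsupp.single (some (i + 1), some i) 1 - Finsupp.single (none, some (i + 1)) 1
    have hl : ∀ i z, evd (dl j) (l i) (ext1 m z) = γ i - dl j z (m (i + 1)) := by
      intro i z
      simp only [l]
      rw [evd_sub, evd_single, evd_single, one_smul, one_smul]
      change dl j (m (i + 1)) (m i) - _ = _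
      rw [(key i).2.2.2.2.1]
      rfl
    obtain ⟨r, hr⟩ := hs m l (fun N => by
      refine ⟨m (N + 2), fun i hi => ?_⟩
      rw [hl, sub_pos, (hchain (show i + 1 < N + 2 by omega)).2]
      exact (key (i + 1)).1)
    refine ⟨r, fun i => ?_⟩
    have := hr i
    rwa [hl, sub_pos] at this
  refine ⟨M, H, x, m, γ, r, hM2, ?_⟩
  exact {
    self := fun a => hd.self _
    symm := fun a b => hd.symm _ _
    ultra := fun a b c h1 h2 h3 => hd.ultra _ _ _ (fun h => h1 (j_inj j h))
      (fun h => h2 (j_inj j h)) (fun h => h3 (j_inj j h))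
    memH := hHmem
    surj := by
      rintro _ ⟨a, b, rfl⟩
      obtain ⟨z, _, _, hz, _⟩ := branchU (restr j M) hd ⟨o, hoM⟩ ⟨o, hoM⟩ a b b b
      have h5 : dl (restr j M) b b = 0 := hd.self _
      rw [h5, sub_zero, dl_restr, dl_restr] at hz
      exact ⟨z, z.2, hz⟩
    xM := hxM
    xpos := hx1
    arch := hx2
    mM := fun i => (st i).1.2
    mγ := fun i => (key i).2.2.2.2.1
    γneg := fun i => (key i).2.1
    γanti := fun i => (key (i + 1)).1
    γcoinit := by
      intro g hg
      obtain ⟨i, hi⟩ := hh ⟨g, hg⟩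
      refine ⟨i, ?_⟩
      have := (key i).2.2.1
      rwa [hi] at this
    avoid := by
      intro v hv
      obtain ⟨i, hi⟩ := hu ⟨v, hv⟩
      refine ⟨i, ?_, ?_⟩
      · have := (key i).2.2.2.1
        rw [hi] at this
        exact fun h => this h.symm
      · have := (key i).2.2.2.2.2
        rwa [hi] at this
    hr := hr }

end Exist2

end Q201.UM
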