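import Pool.Agent.Q201.UMUltra

/-!
# Models of the theory of the generic ultrametric space
-/

namespace Q201.UM

open FirstOrder FirstOrder.Language Filter

universe u v w

section Model

variable {U W Γ : Type*} [Lu.Structure U] [AddCommGroup Γ] [LinearOrder Γ] {d : W → W → Γ}
  (j : @ElementaryEmbedding Lu U W _ (umStructure d))

/-- The distance induced by an embedding. -/
def dl : U → U → Γ := fun a b => d (j a) (j b)

theorem j_inj : Function.Injective j := by
  let _ := umStructure d
  exact ElementaryEmbedding.injective j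

theorem map_form {α : Type*} (φ : Lu.Formula α) (x : α → U) :
    @Formula.Realize Lu W (umStructure d) _ φ (j ∘ x) ↔ φ.Realize x := by
  let _ := umStructure d
  exact ElementaryEmbedding.map_formula j φ x

theorem evd_dl {β : Type*} (l : β × β →₀ ℤ) (v : β → U) : evd (dl j) l v = evd d l (j ∘ v) := rfl

theorem realize_formF_U {β : Type*} (l : β × β →₀ ℤ) (v : β → U) :
    (formF l).Realize v ↔ 0 < evd (dl j) l v := by
  rw [← map_form j, realize_formF]
  rfl

theorem Same_dl {β : Type*} {E : Finset (β × β)} {Λ : Finset (β × β →₀ ℤ)} {v v' : β → U} :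
    Same (dl j) E Λ v v' ↔ Same d E Λ (j ∘ v) (j ∘ v') := by
  unfold Same
  simp only [Function.comp_apply, (j_inj j).eq_iff]
  exact Iff.rfl

theorem qeU [IsOrderedAddMonoid Γ] [Nontrivial Γ]
    (hdiv : ∀ (m : ℤ), m ≠ 0 → ∀ g : Γ, ∃ h : Γ, m • h = g) (hd : Generic d)
    {α : Type*} (φ : Lu.Formula α) :
    ∃ (E : Finset (α × α)) (Λ : Finset (α × α →₀ ℤ)),
      ∀ (v v' : α → U), Same (dl j) E Λ v v' → (φ.Realize v ↔ φ.Realize v') := by
  obtain ⟨E, Λ, h⟩ := qe' hdiv hd φ
  refine ⟨E, Λ, fun v v' hs => ?_⟩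
  rw [← map_form j, ← map_form j]
  exact h _ _ ((Same_dl j).mp hs)

open Classical in
/-- The formula describing the configuration of `v`. -/
noncomputable def config {β : Type*} (d : W → W → Γ) (E : Finset (β × β))
    (Λ : Finset (β × β →₀ ℤ)) (v : β → W) : Lu.Formula β :=
  (Formula.iInf (fun p : E => if v p.1.1 = v p.1.2 then (Term.var p.1.1).equal (Term.var p.1.2)
    else ((Term.var p.1.1).equal (Term.var p.1.2)).not)) ⊓
  ((Formula.iInf (fun l : Λ => if 0 < evd d l.1 v then formF l.1 else (formF l.1).not)) ⊓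
  (Formula.iInf (fun l : Λ => if evd d l.1 v < 0 then formF (-l.1) else (formF (-l.1)).not)))

theorem realize_config {β : Type*} (E : Finset (β × β)) (Λ : Finset (β × β →₀ ℤ)) (v v' : β → W)
    [IsOrderedAddMonoid Γ] :
    @Formula.Realize Lu W (umStructure d) _ (config d E Λ v) v' ↔ Same d E Λ v v' := by
  classical
  let _ := umStructure d
  unfold config
  rw [Formula.realize_inf, Formula.realize_inf, Formula.realize_iInf, Formula.realize_iInf,
    Formula.realize_iInf]
  have h1 : ∀ p : E, ((if v p.1.1 = v p.1.2 then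
      (Term.var p.1.1 : Lu.Term β).equal (Term.var p.1.2)
      else ((Term.var p.1.1 : Lu.Term β).equal (Term.var p.1.2)).not).Realize v' ↔
      (v p.1.1 = v p.1.2 ↔ v' p.1.1 = v' p.1.2)) := by
    intro p
    by_cases h : v p.1.1 = v p.1.2
    · rw [if_pos h, Formula.realize_equal]
      simp [h]
    · rw [if_neg h, Formula.realize_not, Formula.realize_equal]
      simp [h]
  have h2 : ∀ l : Λ, ((if 0 < evd d l.1 v then formF l.1 else (formF l.1).not).Realize v' ↔
      (0 < evd d l.1 v ↔ 0 < evd d l.1 v')) := by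
    intro l
    by_cases h : 0 < evd d l.1 v
    · rw [if_pos h, realize_formF]
      simp [h]
    · rw [if_neg h, Formula.realize_not, realize_formF]
      simp [h]
  have h3 : ∀ l : Λ, ((if evd d l.1 v < 0 then formF (-l.1) else (formF (-l.1)).not).Realize v' ↔
      (evd d l.1 v < 0 ↔ evd d l.1 v' < 0)) := by
    intro l
    by_cases h : evd d l.1 v < 0
    · rw [if_pos h, realize_formF, evd_neg, neg_pos]
      simp [h]
    · rw [if_neg h, Formula.realize_not, realize_formF, evd_neg, neg_pos]
      simp [h]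
  simp only [h1, h2, h3]
  constructor
  · rintro ⟨a, b, c⟩
    exact ⟨fun p hp => a ⟨p, hp⟩, fun l hl => ⟨b ⟨l, hl⟩, c ⟨l, hl⟩⟩⟩
  · rintro ⟨a, b⟩
    exact ⟨fun p => a p.1 p.2, fun l => (b l.1 l.2).1, fun l => (b l.1 l.2).2⟩

/-- A configuration of a point of the big model over the small model is realised in the small
model. -/
theorem realize_in [IsOrderedAddMonoid Γ] {β : Type*} (E : Finset (Option β × Option β))
    (Λ : Finset (Option β × Option β →₀ ℤ)) (w : β → U) (z : W) :
    ∃ z' : U, Same d E Λ (ext1 (j ∘ w) z) (ext1 (j ∘ w) (j z')) := by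
  classical
  let _ := umStructure d
  let e : Option β → β ⊕ Unit := fun o => o.elim (Sum.inr ()) Sum.inl
  let χ : Lu.Formula β := ((config d E Λ (ext1 (j ∘ w) z)).relabel e).iExs Unit
  have he : ∀ (w : β → W) (i : Unit → W), Sum.elim w i ∘ e = ext1 w (i ()) := by
    intro w i
    funext o
    rcases o with _ | a <;> rfl
  have he' : ∀ (w : β → U) (i : Unit → U), Sum.elim w i ∘ e = ext1 w (i ()) := by
    intro w i
    funext o
    rcases o with _ | a <;> rfl
  have h1 : χ.Realize (j ∘ w) := by
    change (Formula.iExs _ _).Realize _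
    rw [Formula.realize_iExs]
    refine ⟨fun _ => z, ?_⟩
    rw [Formula.realize_relabel, he, realize_config]
    exact Same.refl _ _ _
  have h2 : χ.Realize w := (map_form j χ w).mp h1
  change (Formula.iExs _ _).Realize _ at h2
  rw [Formula.realize_iExs] at h2
  obtain ⟨i, hi⟩ := h2
  refine ⟨i (), ?_⟩
  rw [Formula.realize_relabel, he', ← map_form j, realize_config] at hi
  have h3 : (j ∘ ext1 w (i ()) : Option β → W) = ext1 (j ∘ w) (j (i ())) := by
    funext o
    rcases o with _ | a <;> rfl
  rw [h3] at hi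
  exact hi

end Model

end Q201.UM
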