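import Pool.Agent.Q201.UM

/-!
# Quantifier elimination and dp-minimality for generic ultrametric spaces
-/

namespace Q201.UM

open FirstOrder FirstOrder.Language Q200.DOAG

section QE

variable {X Γ : Type*} [AddCommGroup Γ] [LinearOrder Γ] {d : X → X → Γ}

theorem term_var {β : Type*} (t : Lu.Term β) : ∃ i : β, t = Term.var i := by
  cases t with
  | var i => exact ⟨i, rfl⟩
  | func f ts => exact Empty.elim f

theorem Same.refl {β : Type*} (E : Finset (β × β)) (Λ : Finset (β × β →₀ ℤ)) (v : β → X) :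
    Same d E Λ v v :=
  ⟨fun _ _ => Iff.rfl, fun _ _ => ⟨Iff.rfl, Iff.rfl⟩⟩

theorem Same.comap {β γ : Type*} (e : β → γ) {E : Finset (β × β)} {Λ : Finset (β × β →₀ ℤ)}
    {E' : Finset (γ × γ)} {Λ' : Finset (γ × γ →₀ ℤ)}
    (hE : ∀ p ∈ E, Prod.map e e p ∈ E') (hΛ : ∀ l ∈ Λ, l.mapDomain (Prod.map e e) ∈ Λ')
    {v v' : γ → X} (h : Same d E' Λ' v v') : Same d E Λ (v ∘ e) (v' ∘ e) := by
  refine ⟨fun p hp => h.1 _ (hE p hp), fun l hl => ?_⟩
  have := h.2 _ (hΛ l hl)
  rw [evd_mapDomain, evd_mapDomain] at this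
  exact this

/-- Splitting off the last variable. -/
def lastOpt {α : Type*} {n : ℕ} : α ⊕ Fin (n + 1) → Option (α ⊕ Fin n) :=
  Sum.elim (fun a => some (Sum.inl a)) (Fin.lastCases none fun i => some (Sum.inr i))

theorem elim_snoc {α : Type*} {n : ℕ} (v : α → X) (xs : Fin n → X) (z : X) :
    (Sum.elim v (Fin.snoc (α := fun _ => X) xs z) : α ⊕ Fin (n + 1) → X) =
      ext1 (Sum.elim v xs) z ∘ lastOpt := by
  funext o
  rcases o with a | i
  · rfl
  · induction i using Fin.lastCases with
    | last => simp [lastOpt, ext1]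
    | cast i => simp [lastOpt, ext1]

variable [IsOrderedAddMonoid Γ] [Nontrivial Γ]

/-- Quantifier elimination, in a semantic form. -/
theorem qe (hdiv : ∀ (m : ℤ), m ≠ 0 → ∀ g : Γ, ∃ h : Γ, m • h = g) (hd : Generic d)
    {α : Type*} {n : ℕ} (φ : Lu.BoundedFormula α n) :
    ∃ (E : Finset ((α ⊕ Fin n) × (α ⊕ Fin n))) (Λ : Finset ((α ⊕ Fin n) × (α ⊕ Fin n) →₀ ℤ)),
      ∀ (v v' : α → X) (xs xs' : Fin n → X), Same d E Λ (Sum.elim v xs) (Sum.elim v' xs') →
        (@BoundedFormula.Realize Lu X (umStructure d) _ _ φ v xs ↔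
          @BoundedFormula.Realize Lu X (umStructure d) _ _ φ v' xs') := by
  classical
  let _ := umStructure d
  induction φ with
  | falsum => exact ⟨∅, ∅, fun _ _ _ _ _ => Iff.rfl⟩
  | equal t₁ t₂ =>
    obtain ⟨i, rfl⟩ := term_var t₁
    obtain ⟨j, rfl⟩ := term_var t₂
    refine ⟨{(i, j)}, ∅, fun v v' xs xs' hs => ?_⟩
    exact hs.1 (i, j) (Finset.mem_singleton_self _)
  | rel R ts =>
    rename_i n k
    choose τ hτ using fun i => term_var (ts i)
    obtain rfl : ts = fun i => Term.var (τ i) := funext hτ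
    refine ⟨∅, {∑ i, ∑ j, (R : Fin k → Fin k → ℤ) i j • Finsupp.single (τ i, τ j) 1},
      fun v v' xs xs' hs => ?_⟩
    have := (hs.2 _ (Finset.mem_singleton_self _)).1
    have e : ∀ v : α ⊕ Fin n → X, evd d
        (∑ i, ∑ j, (R : Fin k → Fin k → ℤ) i j • Finsupp.single (τ i, τ j) (1 : ℤ)) v =
        ∑ i, ∑ j, (R : Fin k → Fin k → ℤ) i j • d (v (τ i)) (v (τ j)) := by
      intro v
      rw [evd_finsum]
      refine Finset.sum_congr rfl fun i _ => ?_
      rw [evd_finsum]
      refine Finset.sum_congr rfl fun j _ => ?_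
      rw [evd_smul, evd_single, one_smul]
    rw [e, e] at this
    exact this
  | imp φ ψ ih₁ ih₂ =>
    obtain ⟨E₁, Λ₁, h₁⟩ := ih₁
    obtain ⟨E₂, Λ₂, h₂⟩ := ih₂
    refine ⟨E₁ ∪ E₂, Λ₁ ∪ Λ₂, fun v v' xs xs' hs => ?_⟩
    rw [BoundedFormula.realize_imp, BoundedFormula.realize_imp,
      h₁ v v' xs xs' (hs.mono Finset.subset_union_left Finset.subset_union_left),
      h₂ v v' xs xs' (hs.mono Finset.subset_union_right Finset.subset_union_right)]
  | all φ ih =>
    obtain ⟨E, Λ, h⟩ := ih
    obtain ⟨E', Λ', h'⟩ := one_point hdiv hd (E.image (Prod.map lastOpt lastOpt))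
      (Λ.image (fun l => l.mapDomain (Prod.map lastOpt lastOpt)))
    refine ⟨E', Λ', fun v v' xs xs' hs => ?_⟩
    have key : ∀ (v v' : α → X) xs xs', Same d E' Λ' (Sum.elim v xs) (Sum.elim v' xs') →
        ∀ z : X, ∃ z' : X, Same d E Λ (Sum.elim v (Fin.snoc (α := fun _ => X) xs z))
          (Sum.elim v' (Fin.snoc (α := fun _ => X) xs' z')) := by
      intro v v' xs xs' hs z
      obtain ⟨z', hz'⟩ := h' _ _ hs z
      refine ⟨z', ?_⟩
      rw [elim_snoc, elim_snoc]
      exact hz'.comap _ (fun p hp => Finset.mem_image_of_mem _ hp)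
        (fun l hl => Finset.mem_image_of_mem _ hl)
    rw [BoundedFormula.realize_all, BoundedFormula.realize_all]
    constructor
    · intro hh z'
      obtain ⟨z, hz⟩ := key v' v xs' xs hs.symm z'
      exact (h _ _ _ _ hz).mpr (hh z)
    · intro hh z
      obtain ⟨z', hz'⟩ := key v v' xs xs' hs z
      exact (h _ _ _ _ hz').mpr (hh z')

/-- Quantifier elimination for formulas. -/
theorem qe' (hdiv : ∀ (m : ℤ), m ≠ 0 → ∀ g : Γ, ∃ h : Γ, m • h = g) (hd : Generic d)
    {α : Type*} (φ : Lu.Formula α) :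
    ∃ (E : Finset (α × α)) (Λ : Finset (α × α →₀ ℤ)),
      ∀ (v v' : α → X), Same d E Λ v v' →
        (@Formula.Realize Lu X (umStructure d) _ φ v ↔
          @Formula.Realize Lu X (umStructure d) _ φ v') := by
  classical
  obtain ⟨E, Λ, h⟩ := qe hdiv hd φ
  let e : α ⊕ Fin 0 → α := Sum.elim id (fun i => i.elim0)
  refine ⟨E.image (Prod.map e e), Λ.image (fun l => l.mapDomain (Prod.map e e)),
    fun v v' hs => ?_⟩
  have h1 := hs.comap (E := E) (Λ := Λ) e (fun p hp => Finset.mem_image_of_mem _ hp)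
    (fun l hl => Finset.mem_image_of_mem _ hl)
  have e1 : ∀ v : α → X, v ∘ e = Sum.elim v (default : Fin 0 → X) := by
    intro v
    funext o
    rcases o with a | i
    · rfl
    · exact i.elim0
  rw [e1, e1] at h1
  exact h _ _ _ _ h1

/-- The relation symbol of a matrix. -/
def matSym {k : ℕ} (c : Fin k → Fin k → ℤ) : Lu.Relations k := c

open Classical in
/-- The formula saying that a form is positive. -/
noncomputable def formF {β : Type*} (l : β × β →₀ ℤ) : Lu.Formula β :=
  let S : Finset β := l.support.image Prod.fst ∪ l.support.image Prod.snd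
  Relations.formula (matSym fun i j : Fin S.card => l (S.equivFin.symm i, S.equivFin.symm j))
    (fun i => Term.var (S.equivFin.symm i : β))

omit [IsOrderedAddMonoid Γ] [Nontrivial Γ] in
theorem realize_formF {β : Type*} (l : β × β →₀ ℤ) (v : β → X) :
    @Formula.Realize Lu X (umStructure d) _ (formF l) v ↔ 0 < evd d l v := by
  classical
  let _ := umStructure d
  unfold formF
  simp only
  rw [Formula.realize_rel]
  set S : Finset β := l.support.image Prod.fst ∪ l.support.image Prod.snd with hS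
  have e : evd d l v = ∑ i, ∑ j, l (S.equivFin.symm i, S.equivFin.symm j) •
      d (v (S.equivFin.symm i)) (v (S.equivFin.symm j)) := by
    have h1 : evd d l v = ∑ p ∈ S ×ˢ S, l p • d (v p.1) (v p.2) := by
      unfold evd Finsupp.sum
      apply Finset.sum_subset
      · intro p hp
        exact Finset.mem_product.mpr ⟨Finset.mem_union_left _ (Finset.mem_image_of_mem _ hp),
          Finset.mem_union_right _ (Finset.mem_image_of_mem _ hp)⟩
      · intro p _ hp
        rw [Finsupp.notMem_support_iff.mp hp]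
        exact zero_smul _ _
    rw [h1, Finset.sum_product, ← Finset.sum_coe_sort S]
    refine (Fintype.sum_equiv S.equivFin.symm _ _ fun i => ?_).symm
    rw [← Finset.sum_coe_sort S]
    exact Fintype.sum_equiv S.equivFin.symm _ _ fun j => rfl
  rw [e]
  exact Iff.rfl

end QE

section Balls

variable {X Γ : Type*} [AddCommGroup Γ] [LinearOrder Γ] (d : X → X → Γ)

/-- The relation given by a lower set `R` of distances. -/
def Near (R : Γ → Prop) (x y : X) : Prop := x = y ∨ R (d x y)

/-- Balls. -/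
def IsBall (B : Set X) : Prop :=
  ∃ (y : X) (R : Γ → Prop), (∀ a b, a ≤ b → R b → R a) ∧ B = {x | Near d R x y}

variable {d}

theorem Near.symm (hd : Generic d) {R : Γ → Prop} {x y : X} (h : Near d R x y) :
    Near d R y x := by
  rcases h with h | h
  · exact Or.inl h.symm
  · exact Or.inr (by rwa [hd.symm])

theorem Near.trans (hd : Generic d) {R : Γ → Prop} (hR : ∀ a b, a ≤ b → R b → R a) {x y z : X}
    (h : Near d R x y) (h' : Near d R y z) : Near d R x z := by
  by_cases hxy : x = y
  · rwa [hxy]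
  by_cases hyz : y = z
  · rwa [← hyz]
  by_cases hxz : x = z
  · exact Or.inl hxz
  have h1 := h.resolve_left hxy
  have h2 := h'.resolve_left hyz
  refine Or.inr (hR _ _ (hd.ultra x y z hxy hyz hxz) ?_)
  rcases max_choice (d x y) (d y z) with h | h <;> rw [h] <;> assumption

theorem ball_laminar (hd : Generic d) {B B' : Set X} (hB : IsBall d B) (hB' : IsBall d B')
    (h : (B ∩ B').Nonempty) : B ⊆ B' ∨ B' ⊆ B := by
  obtain ⟨y, R, hR, rfl⟩ := hB
  obtain ⟨y', R', hR', rfl⟩ := hB'
  obtain ⟨u, hu, hu'⟩ := h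
  have hcomp : (∀ a, R a → R' a) ∨ ∀ a, R' a → R a := by
    by_contra hc
    push Not at hc
    obtain ⟨⟨a, ha, ha'⟩, ⟨b, hb, hb'⟩⟩ := hc
    rcases le_total a b with h | h
    · exact ha' (hR' a b h hb)
    · exact hb' (hR b a h ha)
  rcases hcomp with h | h
  · left
    intro x hx
    have h1 : ∀ {x y}, Near d R x y → Near d R' x y := fun hxy => hxy.imp_right (h _)
    exact ((h1 hx).trans hd hR' ((h1 hu).symm hd)).trans hd hR' hu'
  · right
    intro x hx
    have h1 : ∀ {x y}, Near d R' x y → Near d R x y := fun hxy => hxy.imp_right (h _)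
    exact ((h1 hx).trans hd hR ((h1 hu').symm hd)).trans hd hR hu

/-- Points are coded by their least set of a laminar family. -/
theorem laminar_code {κ : Type*} [Finite κ] (B : κ → Set X)
    (hB : ∀ i j, (B i ∩ B j).Nonempty → B i ⊆ B j ∨ B j ⊆ B i) :
    ∃ code : X → Option κ, ∀ x x', code x = code x' → ∀ i, x ∈ B i ↔ x' ∈ B i := by
  classical
  have h : ∀ x, (∃ i, x ∈ B i) → ∃ i, x ∈ B i ∧ ∀ j, x ∈ B j → B i ⊆ B j := by
    intro x hx
    obtain ⟨i, hi, hmin⟩ := Set.Finite.exists_minimalFor B {i | x ∈ B i} (Set.toFinite _) hx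
    refine ⟨i, hi, fun j hj => ?_⟩
    rcases hB i j ⟨x, hi, hj⟩ with h | h
    · exact h
    · exact hmin hj h
  choose f hf using h
  refine ⟨fun x => if h : ∃ i, x ∈ B i then some (f x h) else none, fun x x' hxx' i => ?_⟩
  dsimp only at hxx'
  by_cases h1 : ∃ i, x ∈ B i
  · by_cases h2 : ∃ i, x' ∈ B i
    · rw [dif_pos h1, dif_pos h2, Option.some.injEq] at hxx'
      obtain ⟨h3, h4⟩ := hf x h1
      obtain ⟨h5, h6⟩ := hf x' h2
      constructor
      · intro h
        exact h4 i h (by rw [hxx']; exact h5)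
      · intro h
        exact h6 i h (by rw [← hxx']; exact h3)
    · rw [dif_pos h1, dif_neg h2] at hxx'
      exact absurd hxx' (by simp)
  · by_cases h2 : ∃ i, x' ∈ B i
    · rw [dif_neg h1, dif_pos h2] at hxx'
      exact absurd hxx'.symm (by simp)
    · exact ⟨fun h => absurd ⟨i, h⟩ h1, fun h => absurd ⟨i, h⟩ h2⟩

theorem no_vars (hd : Generic d) {β : Type*} {E : Finset (Option β × Option β)}
    {Λ : Finset (Option β × Option β →₀ ℤ)} (hJ : vars E Λ = ∅) (w w' : β → X) (z z' : X) :
    Same d E Λ (ext1 w z) (ext1 w' z') := by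
  have hE : ∀ p ∈ E, p = (none, none) := by
    rintro ⟨_ | a, _ | b⟩ hp
    · rfl
    · have := (mem_vars_E (Λ := Λ) hp (a := b)).2 rfl
      rw [hJ] at this
      exact absurd this (Finset.notMem_empty _)
    · have := (mem_vars_E (Λ := Λ) hp (a := a)).1 rfl
      rw [hJ] at this
      exact absurd this (Finset.notMem_empty _)
    · have := (mem_vars_E (Λ := Λ) hp (a := a)).1 rfl
      rw [hJ] at this
      exact absurd this (Finset.notMem_empty _)
  have hΛ : ∀ l ∈ Λ, ∀ p ∈ l.support, p = (none, none) := by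
    rintro l hl ⟨_ | a, _ | b⟩ hp
    · rfl
    · have := (mem_vars_Λ (E := E) hl hp (a := b)).2 rfl
      rw [hJ] at this
      exact absurd this (Finset.notMem_empty _)
    · have := (mem_vars_Λ (E := E) hl hp (a := a)).1 rfl
      rw [hJ] at this
      exact absurd this (Finset.notMem_empty _)
    · have := (mem_vars_Λ (E := E) hl hp (a := a)).1 rfl
      rw [hJ] at this
      exact absurd this (Finset.notMem_empty _)
  refine ⟨fun p hp => ?_, fun l hl => ?_⟩
  · rw [hE p hp]
    exact ⟨fun _ => rfl, fun _ => rfl⟩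
  · have : ∀ (w : β → X) (z : X), evd d l (ext1 w z) = 0 := by
      intro w z
      unfold evd
      refine Finset.sum_eq_zero fun p hp => ?_
      rw [hΛ l hl p hp]
      simp [ext1, hd.self]
    rw [this, this]
    exact ⟨Iff.rfl, Iff.rfl⟩

/-- The position of one new point with respect to finitely many balls around the old points
determines the signs of finitely many forms. -/
theorem ball_family [IsOrderedAddMonoid Γ]
    (hdiv : ∀ (m : ℤ), m ≠ 0 → ∀ g : Γ, ∃ h : Γ, m • h = g) (hd : Generic d) {β : Type}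
    (E : Finset (Option β × Option β)) (Λ : Finset (Option β × Option β →₀ ℤ)) :
    ∃ (ι : Type) (_ : Fintype ι) (B : (β → X) → ι → Set X), (∀ w i, IsBall d (B w i)) ∧
      ∀ w x x', (∀ i, x ∈ B w i ↔ x' ∈ B w i) → Same d E Λ (ext1 w x) (ext1 w x') := by
  classical
  set J := vars E Λ with hJdef
  set C : Finset ((β × β →₀ ℤ) × ℤ) := J.biUnion fun j0 => J.powerset.biUnion (crit J Λ j0) with hC
  have hp : ∀ (w : β → X) (c : (β × β →₀ ℤ) × ℤ), ∃ ρ : Γ, c.2 ≠ 0 →
      c.2 • ρ = - evd d c.1 w := by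
    intro w c
    by_cases hc : c.2 = 0
    · exact ⟨0, fun h' => absurd hc h'⟩
    · obtain ⟨ρ, hρ⟩ := hdiv c.2 hc (- evd d c.1 w)
      exact ⟨ρ, fun _ => hρ⟩
  choose ρ hρ using hp
  refine ⟨J ⊕ (J × C × Bool), inferInstance, fun w i => match i with
    | Sum.inl j => {x | Near d (fun _ => False) x (w j)}
    | Sum.inr (j, c, true) => {x | Near d (fun γ => γ ≤ ρ w c) x (w j)}
    | Sum.inr (j, c, false) => {x | Near d (fun γ => γ < ρ w c) x (w j)}, ?_, ?_⟩
  · rintro w (j | ⟨j, c, (_ | _)⟩)
    · exact ⟨w j, _, fun _ _ _ h => h, rfl⟩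
    · exact ⟨w j, _, fun _ _ h h' => lt_of_le_of_lt h h', rfl⟩
    · exact ⟨w j, _, fun _ _ h h' => h.trans h', rfl⟩
  · intro w x x' h
    have hpt : ∀ j ∈ J, (w j = x ↔ w j = x') := by
      intro j hj
      have := h (Sum.inl ⟨j, hj⟩)
      simp only [Set.mem_ofPred_eq, Near, or_false] at this
      exact ⟨fun h => (this.mp h.symm).symm, fun h => (this.mpr h.symm).symm⟩
    by_cases hx : ∃ b ∈ J, w b = x
    · obtain ⟨b, hb, hbx⟩ := hx
      have := (hpt b hb).mp hbx
      rw [← hbx, ← this]
      exact Same.refl _ _ _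
    push Not at hx
    have hx' : ∀ b ∈ J, w b ≠ x' := fun b hb hb' => hx b hb ((hpt b hb).mpr hb')
    by_cases hJ : J.Nonempty
    · obtain ⟨j0, hj0, P, hPJ, hAt, hPiff, hmin⟩ := exists_at hd hJ w x hx
      have hle : ∀ j ∈ J, ∀ c ∈ C, (d (w j) x ≤ ρ w c ↔ d (w j) x' ≤ ρ w c) := by
        intro j hj c hc
        have := h (Sum.inr (⟨j, hj⟩, ⟨c, hc⟩, true))
        simp only [Set.mem_ofPred_eq, Near] at this
        rw [hd.symm (w j) x, hd.symm (w j) x']
        constructor
        · intro h1
          exact (this.mp (Or.inr h1)).resolve_left (hx' j hj).symm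
        · intro h1
          exact (this.mpr (Or.inr h1)).resolve_left (hx j hj).symm
      have hlt : ∀ j ∈ J, ∀ c ∈ C, (d (w j) x < ρ w c ↔ d (w j) x' < ρ w c) := by
        intro j hj c hc
        have := h (Sum.inr (⟨j, hj⟩, ⟨c, hc⟩, false))
        simp only [Set.mem_ofPred_eq, Near] at this
        rw [hd.symm (w j) x, hd.symm (w j) x']
        constructor
        · intro h1
          exact (this.mp (Or.inr h1)).resolve_left (hx' j hj).symm
        · intro h1
          exact (this.mpr (Or.inr h1)).resolve_left (hx j hj).symm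
      -- distances among the old points are critical
      have hcrit : ∀ a ∈ J, ∀ b ∈ J, ∃ c ∈ C, ρ w c = d (w a) (w b) := by
        intro a ha b hb
        set c : (β × β →₀ ℤ) × ℤ := (Finset.sum {b} fun b => Finsupp.single (a, b) 1, -1) with hc
        have hcC : c ∈ C := Finset.mem_biUnion.mpr ⟨a, ha, Finset.mem_biUnion.mpr
          ⟨∅, Finset.mem_powerset.mpr (Finset.empty_subset _),
            Finset.mem_union_right _ (Finset.mem_image_of_mem _ hb)⟩⟩
        refine ⟨c, hcC, ?_⟩
        have := hρ w c (by norm_num [hc])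
        rw [hc] at this ⊢
        simpa [evd_single] using this
      have hlt' : ∀ j ∈ J, ∀ a ∈ J, ∀ b ∈ J, (d (w j) x < d (w a) (w b) ↔
          d (w j) x' < d (w a) (w b)) := by
        intro j hj a ha b hb
        obtain ⟨c, hc, h1⟩ := hcrit a ha b hb
        rw [← h1]
        exact hlt j hj c hc
      have hle' : ∀ j ∈ J, ∀ a ∈ J, ∀ b ∈ J, (d (w j) x ≤ d (w a) (w b) ↔
          d (w j) x' ≤ d (w a) (w b)) := by
        intro j hj a ha b hb
        obtain ⟨c, hc, h1⟩ := hcrit a ha b hb
        rw [← h1]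
        exact hle j hj c hc
      have hAt' : At d J w j0 P (d (w j0) x') x' := by
        intro a ha
        constructor
        · intro haP
          obtain ⟨hne, hlt1⟩ := (hPiff a ha).mp haP
          have hlt2 := (hlt' j0 hj0 j0 hj0 a ha).mp hlt1
          rw [hd.symm (w a) x', hd.symm (w j0) (w a)]
          rw [hd.symm (w j0) x', hd.symm (w j0) (w a)] at hlt2
          rw [hd.symm (w a) (w j0)] at hlt2 ⊢
          exact isosc hd (hx' j0 hj0).symm hne.symm (hx' a ha).symm hlt2
        · intro haP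
          by_cases hne : w a = w j0
          · rw [hne]
          · have hnlt : ¬ d (w j0) x < d (w j0) (w a) := fun hc => haP ((hPiff a ha).mpr ⟨hne, hc⟩)
            have hge : d (w j0) (w a) ≤ d (w j0) x' :=
              not_lt.mp fun hc => hnlt ((hlt' j0 hj0 j0 hj0 a ha).mpr hc)
            apply le_antisymm
            · have := hd.ultra (w a) (w j0) x' hne (hx' j0 hj0) (hx' a ha)
              rw [hd.symm (w a) (w j0), max_eq_right hge] at this
              exact this
            · rcases hge.lt_or_eq with h1 | h1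
              · have := isosc hd hne (hx' j0 hj0) (hx' a ha) (by rwa [hd.symm (w a) (w j0)])
                exact this.ge
              · by_contra hc
                push Not at hc
                have h2 : d (w a) x' < d (w j0) (w a) := by rw [h1]; exact hc
                have h3 := (hlt' a ha j0 hj0 a ha).mpr h2
                have h4 := hmin a ha
                exact hnlt (lt_of_le_of_lt h4 h3)
      refine ⟨fun p hp => ?_, fun l hl => ?_⟩
      · rcases p with ⟨_ | a, _ | b⟩
        · exact ⟨fun _ => rfl, fun _ => rfl⟩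
        · have hb : b ∈ J := (mem_vars_E (Λ := Λ) hp).2 rfl
          exact ⟨fun h => absurd h.symm (hx b hb), fun h => absurd h.symm (hx' b hb)⟩
        · have ha : a ∈ J := (mem_vars_E (Λ := Λ) hp).1 rfl
          exact ⟨fun h => absurd h (hx a ha), fun h => absurd h (hx' a ha)⟩
        · exact Iff.rfl
      · rw [evd_red hd hAt hl, evd_red hd hAt' hl]
        have hcC : red j0 P l ∈ C := Finset.mem_biUnion.mpr ⟨j0, hj0, Finset.mem_biUnion.mpr
          ⟨P, Finset.mem_powerset.mpr hPJ, Finset.mem_union_left _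
            (Finset.mem_image_of_mem _ hl)⟩⟩
        refine sign_transfer (fun _ => ⟨Iff.rfl, Iff.rfl⟩) (fun hm => ⟨hρ w _ hm, hρ w _ hm, ?_,
          hlt j0 hj0 _ hcC⟩)
        rw [← not_le, ← not_le, hle j0 hj0 _ hcC]
    · exact no_vars hd (Finset.not_nonempty_iff_eq_empty.mp hJ) _ _ _ _

end Balls

end Q201.UM
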