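import Pool.Agent.Q201.UMDp
import Pool.Agent.Q201.Frayne

/-!
# A generic ultrametric space, and its ultrapowers
-/

namespace Q201.UM

open FirstOrder FirstOrder.Language Filter

universe u

section Base

/-- The countable space. -/
abbrev X0 := ℚ →₀ ℕ

open Classical in
/-- The places where two functions differ. -/
noncomputable def diffs (f g : X0) : Finset ℚ := (f.support ∪ g.support).filter fun q => f q ≠ g q

theorem mem_diffs (f g : X0) (q : ℚ) : q ∈ diffs f g ↔ f q ≠ g q := by
  classical
  unfold diffs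
  rw [Finset.mem_filter, Finset.mem_union, Finsupp.mem_support_iff, Finsupp.mem_support_iff]
  constructor
  · exact fun h => h.2
  · intro h
    refine ⟨?_, h⟩
    by_contra hc
    push Not at hc
    exact h (hc.1.trans hc.2.symm)

theorem diffs_nonempty {f g : X0} (h : f ≠ g) : (diffs f g).Nonempty := by
  by_contra hc
  rw [Finset.not_nonempty_iff_eq_empty] at hc
  apply h
  ext q
  by_contra hq
  have := (mem_diffs f g q).mpr hq
  rw [hc] at this
  exact absurd this (Finset.notMem_empty _)

open Classical in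
/-- The distance: the last place where two functions differ. -/
noncomputable def d0 (f g : X0) : ℚ := if h : f ≠ g then (diffs f g).max' (diffs_nonempty h) else 0

theorem d0_mem {f g : X0} (h : f ≠ g) : f (d0 f g) ≠ g (d0 f g) := by
  rw [← mem_diffs]
  unfold d0
  rw [dif_pos h]
  exact Finset.max'_mem _ _

theorem le_d0 {f g : X0} {q : ℚ} (hq : f q ≠ g q) : q ≤ d0 f g := by
  have h : f ≠ g := fun h => hq (by rw [h])
  unfold d0
  rw [dif_pos h]
  exact Finset.le_max' _ _ ((mem_diffs f g q).mpr hq)

theorem generic0 : Generic d0 where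
  self x := by simp [d0]
  symm x y := by
    by_cases h : x = y
    · rw [h]
    · exact le_antisymm (le_d0 (d0_mem h).symm) (le_d0 (d0_mem (Ne.symm h)).symm)
  ultra x y z _ _ hxz := by
    have h1 := d0_mem hxz
    by_cases h : x (d0 x z) = y (d0 x z)
    · rw [h] at h1
      exact (le_d0 h1).trans (le_max_right _ _)
    · exact (le_d0 h).trans (le_max_left _ _)
  branch S x γ := by
    classical
    obtain ⟨m, hm⟩ := Finset.exists_notMem ((insert x S).image fun s => s γ)
    have hm' : ∀ s ∈ insert x S, s γ ≠ m := fun s hs h =>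
      hm (Finset.mem_image.mpr ⟨s, hs, h⟩)
    have hz : ∀ s ∈ insert x S, (x.update γ m) γ ≠ s γ := by
      intro s hs
      rw [Finsupp.update_apply, if_pos rfl]
      exact (hm' s hs).symm
    refine ⟨x.update γ m, fun h => ?_, fun h => ?_, ?_, fun s hs _ => ?_⟩
    · exact hz x (Finset.mem_insert_self _ _) (by rw [h])
    · exact hz _ (Finset.mem_insert_of_mem h) rfl
    · apply le_antisymm
      · by_contra hc
        push Not at hc
        have hne : x.update γ m ≠ x := fun h => hz x (Finset.mem_insert_self _ _) (by rw [h])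
        have h1 := d0_mem hne
        rw [Finsupp.update_apply, if_neg hc.ne'] at h1
        exact h1 rfl
      · exact le_d0 (hz x (Finset.mem_insert_self _ _))
    · exact le_d0 (hz s (Finset.mem_insert_of_mem hs))

end Base

section Ultra

variable {I : Type u} (𝒰 : Ultrafilter I)

/-- The ultrapower of the countable space. -/
abbrev XU := (𝒰 : Filter I).Product (fun _ => X0)

/-- The distance on the ultrapower. -/
noncomputable def dU (x y : XU 𝒰) : Germ (𝒰 : Filter I) ℚ :=
  Quotient.liftOn₂' x y (fun f g => ((fun i => d0 (f i) (g i) : I → ℚ) : Germ (𝒰 : Filter I) ℚ))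
    (by
      intro a₁ b₁ a₂ b₂ h1 h2
      apply Germ.coe_eq.mpr
      have h1' : ∀ᶠ i in (𝒰 : Filter I), a₁ i = a₂ i := h1
      have h2' : ∀ᶠ i in (𝒰 : Filter I), b₁ i = b₂ i := h2
      filter_upwards [h1', h2'] with i e1 e2
      rw [e1, e2])

theorem dU_coe (f g : I → X0) : dU 𝒰 ((f : ∀ _ : I, X0) : XU 𝒰) ((g : ∀ _ : I, X0) : XU 𝒰) =
    ((fun i => d0 (f i) (g i) : I → ℚ) : Germ (𝒰 : Filter I) ℚ) := rfl

theorem coe_ne {f g : I → X0} (h : ((f : ∀ _ : I, X0) : XU 𝒰) ≠ ((g : ∀ _ : I, X0) : XU 𝒰)) :
    ∀ᶠ i in (𝒰 : Filter I), f i ≠ g i := by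
  rw [Ultrafilter.eventually_not]
  intro h1
  exact h (Quotient.sound' h1)

theorem genericU : Generic (dU 𝒰) where
  self x := by
    induction x using Quotient.inductionOn' with
    | h f =>
      change ((fun i => d0 (f i) (f i) : I → ℚ) : Germ (𝒰 : Filter I) ℚ) = 0
      simp only [generic0.self]
      rfl
  symm x y := by
    induction x using Quotient.inductionOn' with
    | h f =>
    induction y using Quotient.inductionOn' with
    | h g =>
      change ((fun i => d0 (f i) (g i) : I → ℚ) : Germ (𝒰 : Filter I) ℚ) =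
        ((fun i => d0 (g i) (f i) : I → ℚ) : Germ (𝒰 : Filter I) ℚ)
      simp only [generic0.symm]
  ultra x y z hxy hyz hxz := by
    induction x using Quotient.inductionOn' with
    | h f =>
    induction y using Quotient.inductionOn' with
    | h g =>
    induction z using Quotient.inductionOn' with
    | h k =>
      have h1 := coe_ne 𝒰 hxy
      have h2 := coe_ne 𝒰 hyz
      have h3 := coe_ne 𝒰 hxz
      change ((fun i => d0 (f i) (k i) : I → ℚ) : Germ (𝒰 : Filter I) ℚ) ≤
        max ((fun i => d0 (f i) (g i) : I → ℚ) : Germ (𝒰 : Filter I) ℚ)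
          ((fun i => d0 (g i) (k i) : I → ℚ) : Germ (𝒰 : Filter I) ℚ)
      rw [Germ.max_def, Germ.map₂_coe, Germ.coe_le]
      filter_upwards [h1, h2, h3] with i e1 e2 e3
      exact generic0.ultra _ _ _ e1 e2 e3
  branch S x γ := by
    classical
    induction x using Quotient.inductionOn' with
    | h f =>
    induction γ using Germ.inductionOn with
    | _ γ =>
      -- representatives of the points of `S`
      let rep : XU 𝒰 → (I → X0) := fun s => Quotient.out s
      have hrep : ∀ s, ((rep s : ∀ _ : I, X0) : XU 𝒰) = s := fun s => Quotient.out_eq' s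
      choose z hz1 hz2 hz3 hz4 using fun i =>
        generic0.branch (S.image fun s => rep s i) (f i) (γ i)
      refine ⟨((z : ∀ _ : I, X0) : XU 𝒰), ?_, ?_, ?_, ?_⟩
      · intro h
        have h1 : ∀ᶠ i in (𝒰 : Filter I), z i = f i := Quotient.exact' h
        obtain ⟨i, hi⟩ := h1.exists
        exact hz1 i hi
      · intro h
        have h0 := hrep ((z : ∀ _ : I, X0) : XU 𝒰)
        have h1 : ∀ᶠ i in (𝒰 : Filter I), rep ((z : ∀ _ : I, X0) : XU 𝒰) i = z i :=
          Quotient.exact' h0
        obtain ⟨i, hi⟩ := h1.exists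
        exact hz2 i (Finset.mem_image.mpr ⟨_, h, hi⟩)
      · change ((fun i => d0 (z i) (f i) : I → ℚ) : Germ (𝒰 : Filter I) ℚ) = _
        simp only [hz3]
      · intro s hs hne
        rw [← hrep s]
        rw [← hrep s] at hne
        have h1 := coe_ne 𝒰 hne
        change (γ : Germ (𝒰 : Filter I) ℚ) ≤
          ((fun i => d0 (z i) (rep s i) : I → ℚ) : Germ (𝒰 : Filter I) ℚ)
        rw [Germ.coe_le]
        filter_upwards [h1] with i hi
        exact hz4 i _ (Finset.mem_image_of_mem _ hs) hi

/-- The structure on the ultrapower is that given by its distance. -/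
theorem structure_eq :
    (@Ultraproduct.structure I (fun _ => X0) 𝒰 Lu (fun _ => umStructure d0)) =
      umStructure (dU 𝒰) := by
  refine Structure.ext ?_ ?_
  · funext n f
    exact Empty.elim f
  · funext k r v
    apply propext
    let rep : Fin k → (I → X0) := fun i => Quotient.out (v i)
    have hrep : ∀ i, ((rep i : ∀ _ : I, X0) : XU 𝒰) = v i := fun i => Quotient.out_eq' (v i)
    have hv : v = fun i => ((rep i : ∀ _ : I, X0) : XU 𝒰) := funext fun i => (hrep i).symm
    have h1 : (@Structure.RelMap Lu (XU 𝒰)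
        (@Ultraproduct.structure I (fun _ => X0) 𝒰 Lu (fun _ => umStructure d0)) k r v) ↔
        ∀ᶠ a in (𝒰 : Filter I), 0 < ∑ i, ∑ j, (r : Fin k → Fin k → ℤ) i j •
          d0 (rep i a) (rep j a) := by
      have h2 := @Ultraproduct.realize_formula_cast I (fun _ => X0) 𝒰 Lu
        (fun _ => umStructure d0) _ (Fin k) (Relations.formula r Term.var) rep
      rw [hv]
      exact h2
    rw [h1]
    change _ ↔ 0 < ∑ i, ∑ j, (r : Fin k → Fin k → ℤ) i j • dU 𝒰 (v i) (v j)
    have h3 : (∑ i, ∑ j, (r : Fin k → Fin k → ℤ) i j • dU 𝒰 (v i) (v j)) =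
        ((fun a => ∑ i, ∑ j, (r : Fin k → Fin k → ℤ) i j • d0 (rep i a) (rep j a) : I → ℚ) :
          Germ (𝒰 : Filter I) ℚ) := by
      have h4 : (fun a => ∑ i, ∑ j, (r : Fin k → Fin k → ℤ) i j • d0 (rep i a) (rep j a) : I → ℚ) =
          ∑ i, ∑ j, (r : Fin k → Fin k → ℤ) i j • (fun a => d0 (rep i a) (rep j a)) := by
        funext a
        simp only [Finset.sum_apply, Pi.smul_apply]
      rw [h4]
      change _ = Germ.coeAddHom (𝒰 : Filter I) _
      rw [map_sum]
      refine Finset.sum_congr rfl fun i _ => ?_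
      rw [map_sum]
      refine Finset.sum_congr rfl fun j _ => ?_
      rw [map_zsmul]
      rw [← hrep i, ← hrep j]
      rfl
    rw [h3, Germ.coe_pos]

/-- The complete theory of the countable generic space. -/
def T0 : Lu.Theory := @Language.completeTheory Lu X0 (umStructure d0)

/-- Every model of `T0` embeds elementarily in a generic ultrametric space over a divisible
ordered abelian group. -/
theorem exists_embed (U : Type u) [Lu.Structure U] [Nonempty U] (hU : U ⊨ T0) :
    ∃ (W Γ : Type u) (_ : AddCommGroup Γ) (_ : LinearOrder Γ) (_ : IsOrderedAddMonoid Γ)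
      (_ : Nontrivial Γ) (d : W → W → Γ), Generic d ∧
      (∀ (m : ℤ), m ≠ 0 → ∀ g : Γ, ∃ h : Γ, m • h = g) ∧
      Nonempty (@ElementaryEmbedding Lu U W _ (umStructure d)) := by
  let s0 := umStructure d0
  have _ : U ⊨ Lu.completeTheory X0 := hU
  obtain ⟨I, 𝒰, ⟨j⟩⟩ := @Q201.Frayne.frayne Lu X0 (umStructure d0) _ U _ _ hU
  refine ⟨XU 𝒰, Germ (𝒰 : Filter I) ℚ, inferInstance, inferInstance, inferInstance, inferInstance,
    dU 𝒰, genericU 𝒰, ?_, ?_⟩
  · intro m hm g
    refine ⟨(m : Germ (𝒰 : Filter I) ℚ)⁻¹ * g, ?_⟩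
    rw [zsmul_eq_mul, ← mul_assoc, mul_inv_cancel₀ (by exact_mod_cast hm), one_mul]
  · rw [← structure_eq]
    exact ⟨j⟩

end Ultra

end Q201.UM
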