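import Pool.Agent.Q201.IndRep

/-!
# Existence of the universal group C*-algebra
-/

namespace Q201.GroupCStar

universe u

/-- A unitary representation of `G` on a Hilbert space. -/
structure URep (G : Type u) [Group G] where
  E : Type u
  [nacg : NormedAddCommGroup E]
  [ips : InnerProductSpace ℂ E]
  [compl : CompleteSpace E]
  π : G →* (E ≃ₗᵢ[ℂ] E)

attribute [instance] URep.nacg URep.ips URep.compl

section Direct

variable {G : Type u} [Group G] {I : Type u} (r : I → URep G)

/-- The Hilbert space direct sum. -/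
abbrev DSpace := lp (fun i : I => (r i).E) 2

theorem dact_mem (g : G) (ξ : DSpace r) : Memℓp (fun i : I => (r i).π g (ξ i)) 2 := by
  have h1 : Memℓp (fun i : I => ξ i) 2 := lp.memℓp ξ
  rw [memℓp_gen_iff (by rw [two_toReal]; norm_num)] at h1 ⊢
  refine h1.congr fun i => ?_
  simp only [LinearIsometryEquiv.norm_map]

/-- The action of `g` on the direct sum. -/
noncomputable def dact (g : G) (ξ : DSpace r) : DSpace r := ⟨fun i => (r i).π g (ξ i), dact_mem r g ξ⟩

theorem dact_apply (g : G) (ξ : DSpace r) (i : I) : dact r g ξ i = (r i).π g (ξ i) := rfl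

theorem dact_mul (g h : G) (ξ : DSpace r) : dact r (g * h) ξ = dact r g (dact r h ξ) := by
  apply lp.ext
  funext i
  rw [dact_apply, dact_apply, dact_apply, map_mul]
  rfl

theorem dact_one (ξ : DSpace r) : dact r 1 ξ = ξ := by
  apply lp.ext
  funext i
  rw [dact_apply, map_one]
  rfl

theorem dact_norm (g : G) (ξ : DSpace r) : ‖dact r g ξ‖ = ‖ξ‖ := by
  rw [lp.norm_eq_tsum_rpow (by rw [two_toReal]; norm_num),
    lp.norm_eq_tsum_rpow (by rw [two_toReal]; norm_num)]
  congr 1
  refine tsum_congr fun i => ?_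
  rw [dact_apply, LinearIsometryEquiv.norm_map]

/-- The action of `g` as a linear isometric automorphism. -/
noncomputable def dactEquiv (g : G) : DSpace r ≃ₗᵢ[ℂ] DSpace r where
  toFun := dact r g
  map_add' ξ η := by
    apply lp.ext
    funext i
    simp only [dact_apply, lp.coeFn_add, Pi.add_apply, map_add]
  map_smul' c ξ := by
    apply lp.ext
    funext i
    simp only [dact_apply, lp.coeFn_smul, Pi.smul_apply, RingHom.id_apply, map_smul]
  invFun := dact r g⁻¹
  left_inv ξ := by rw [← dact_mul, inv_mul_cancel, dact_one]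
  right_inv ξ := by rw [← dact_mul, mul_inv_cancel, dact_one]
  norm_map' := dact_norm r g

/-- The direct sum representation. -/
noncomputable def dsum : G →* (DSpace r ≃ₗᵢ[ℂ] DSpace r) where
  toFun := dactEquiv r
  map_one' := by
    ext1 ξ
    exact dact_one r ξ
  map_mul' g h := by
    ext1 ξ
    exact dact_mul r g h ξ

open Classical in
theorem dsum_single (g : G) (i : I) (v : (r i).E) :
    dsum r g (lp.single 2 i v) = lp.single 2 i ((r i).π g v) := by
  apply lp.ext
  funext j
  change dact r g _ j = _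
  rw [dact_apply]
  by_cases hj : j = i
  · subst hj
    rw [lp.single_apply_self, lp.single_apply_self]
  · rw [lp.single_apply_ne _ _ _ hj, lp.single_apply_ne _ _ _ hj, map_zero]

/-- The unitary group version. -/
noncomputable def toU {E : Type u} [NormedAddCommGroup E] [InnerProductSpace ℂ E] [CompleteSpace E]
    (π : G →* (E ≃ₗᵢ[ℂ] E)) : G →* unitary (E →L[ℂ] E) :=
  Unitary.linearIsometryEquiv.symm.toMonoidHom.comp π

theorem norm_le_dsum (f : G →₀ ℂ) (i : I) :
    ‖f.sum fun g z => z • (toU (r i).π g : (r i).E →L[ℂ] (r i).E)‖ ≤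
      ‖f.sum fun g z => z • (toU (dsum r) g : DSpace r →L[ℂ] DSpace r)‖ := by
  classical
  refine ContinuousLinearMap.opNorm_le_bound _ (norm_nonneg _) fun v => ?_
  have h2 : (f.sum fun g z => z • (toU (dsum r) g : DSpace r →L[ℂ] DSpace r))
      (lp.single 2 i v) = lp.single 2 i
        ((f.sum fun g z => z • (toU (r i).π g : (r i).E →L[ℂ] (r i).E)) v) := by
    unfold Finsupp.sum
    rw [sum_apply, sum_apply]
    have h3 : ∀ (s : Finset G) (F : G → (r i).E),
        lp.single 2 i (∑ w ∈ s, F w) =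
          ∑ w ∈ s, (lp.single 2 i (F w) : DSpace r) := fun s F =>
      map_sum (lp.singleAddMonoidHom (E := fun i : I => (r i).E) 2 i) F s
    rw [h3]
    refine Finset.sum_congr rfl fun w _ => ?_
    rw [smul_apply, smul_apply, lp.single_smul]
    congr 1
    exact dsum_single r w i v
  have h3 := ContinuousLinearMap.le_opNorm
    (f.sum fun g z => z • (toU (dsum r) g : DSpace r →L[ℂ] DSpace r)) (lp.single 2 i v)
  rw [h2, lp.norm_single (by norm_num), lp.norm_single (by norm_num)] at h3
  exact h3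

end Direct

/-- There is a representation attaining all universal norms. -/
theorem exists_universal_rep (G : Type u) [Group G] :
    ∃ r : URep G, ∀ f : G →₀ ℂ,
      ‖f.sum fun g z => z • (toU r.π g : r.E →L[ℂ] r.E)‖ = univNorm G f := by
  have h : ∀ i : (G →₀ ℂ) × ℕ, ∃ r : URep G, univNorm G i.1 - 1 / (i.2 + 1) <
      ‖i.1.sum fun g z => z • (toU r.π g : r.E →L[ℂ] r.E)‖ := by
    intro i
    have hlt : univNorm G i.1 - 1 / ((i.2 : ℝ) + 1) < sSup (repNorms G i.1) := by
      have : (0 : ℝ) < 1 / ((i.2 : ℝ) + 1) := by positivity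
      change _ < univNorm G i.1
      linarith
    obtain ⟨_, ⟨E, _, _, _, π, rfl⟩, hE⟩ := exists_lt_of_lt_csSup (repNorms_nonempty i.1) hlt
    refine ⟨⟨E, Unitary.linearIsometryEquiv.toMonoidHom.comp π⟩, ?_⟩
    exact hE
  choose r hr using h
  refine ⟨⟨DSpace r, dsum r⟩, fun f => le_antisymm (le_univNorm f (toU (dsum r))) ?_⟩
  refine le_of_forall_pos_le_add fun ε hε => ?_
  obtain ⟨n, hn⟩ := exists_nat_one_div_lt hε
  have h1 := hr (f, n)
  have h2 := norm_le_dsum r f (f, n)
  have h3 : univNorm G f - 1 / ((n : ℝ) + 1) <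
      ‖f.sum fun g z => z • (toU (dsum r) g : DSpace r →L[ℂ] DSpace r)‖ := lt_of_lt_of_le h1 h2
  change univNorm G f ≤
    ‖f.sum fun g z => z • (toU (dsum r) g : DSpace r →L[ℂ] DSpace r)‖ + ε
  linarith

/-- The star subalgebra spanned by a unitary group. -/
noncomputable def spanAlg {G : Type u} [Group G] {B : Type u} [CStarAlgebra B]
    (ρ : G →* unitary B) : StarSubalgebra ℂ B where
  carrier := Set.range fun f : G →₀ ℂ => f.sum fun g z => z • (ρ g : B)
  mul_mem' := by
    classical
    rintro _ _ ⟨f, rfl⟩ ⟨f', rfl⟩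
    induction f using Finsupp.induction_linear with
    | zero => exact ⟨0, by simp⟩
    | add f₁ f₂ h₁ h₂ =>
      obtain ⟨d₁, h₁⟩ := h₁
      obtain ⟨d₂, h₂⟩ := h₂
      refine ⟨d₁ + d₂, ?_⟩
      have e : ∀ f₁ f₂ : G →₀ ℂ, ((f₁ + f₂).sum fun g z => z • (ρ g : B)) =
          (f₁.sum fun g z => z • (ρ g : B)) + f₂.sum fun g z => z • (ρ g : B) := fun f₁ f₂ =>
        Finsupp.sum_add_index' (by simp) (by intro x y z; rw [add_smul])
      simp only at h₁ h₂ ⊢
      rw [e, e, h₁, h₂, add_mul]
    | single w z =>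
      induction f' using Finsupp.induction_linear with
      | zero => exact ⟨0, by simp⟩
      | add f₁ f₂ h₁ h₂ =>
        obtain ⟨d₁, h₁⟩ := h₁
        obtain ⟨d₂, h₂⟩ := h₂
        refine ⟨d₁ + d₂, ?_⟩
        have e : ∀ f₁ f₂ : G →₀ ℂ, ((f₁ + f₂).sum fun g z => z • (ρ g : B)) =
            (f₁.sum fun g z => z • (ρ g : B)) + f₂.sum fun g z => z • (ρ g : B) := fun f₁ f₂ =>
          Finsupp.sum_add_index' (by simp) (by intro x y z; rw [add_smul])
        simp only at h₁ h₂ ⊢
        rw [e, e, h₁, h₂, mul_add]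
      | single w' z' =>
        refine ⟨Finsupp.single (w * w') (z * z'), ?_⟩
        simp only
        rw [Finsupp.sum_single_index (by simp), Finsupp.sum_single_index (by simp),
          Finsupp.sum_single_index (by simp), map_mul, Submonoid.coe_mul, smul_mul_smul_comm]
  add_mem' := by
    classical
    rintro _ _ ⟨f, rfl⟩ ⟨f', rfl⟩
    exact ⟨f + f', Finsupp.sum_add_index' (by simp) (by intro x y z; rw [add_smul])⟩
  algebraMap_mem' := by
    intro z
    refine ⟨Finsupp.single 1 z, ?_⟩
    simp only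
    rw [Finsupp.sum_single_index (by simp), map_one, Algebra.algebraMap_eq_smul_one]
    rfl
  star_mem' := by
    classical
    rintro _ ⟨f, rfl⟩
    induction f using Finsupp.induction_linear with
    | zero => exact ⟨0, by simp⟩
    | add f₁ f₂ h₁ h₂ =>
      obtain ⟨d₁, h₁⟩ := h₁
      obtain ⟨d₂, h₂⟩ := h₂
      refine ⟨d₁ + d₂, ?_⟩
      have e : ∀ f₁ f₂ : G →₀ ℂ, ((f₁ + f₂).sum fun g z => z • (ρ g : B)) =
          (f₁.sum fun g z => z • (ρ g : B)) + f₂.sum fun g z => z • (ρ g : B) := fun f₁ f₂ =>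
        Finsupp.sum_add_index' (by simp) (by intro x y z; rw [add_smul])
      simp only at h₁ h₂ ⊢
      rw [e, e, h₁, h₂, star_add]
    | single w z =>
      refine ⟨Finsupp.single w⁻¹ (star z), ?_⟩
      simp only
      rw [Finsupp.sum_single_index (by simp), Finsupp.sum_single_index (by simp), star_smul,
        map_inv, ← Unitary.star_eq_inv, Unitary.coe_star]

/-- Existence of the universal group C*-algebra. -/
theorem exists_cstar (G : Type u) [Group G] :
    ∃ (A : Type u) (_ : CStarAlgebra A) (v : G →* unitary A),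
      (∀ f : G →₀ ℂ, ‖f.sum fun g z => z • (v g : A)‖ = univNorm G f) ∧
      Dense (Set.range fun f : G →₀ ℂ => f.sum fun g z => z • (v g : A)) := by
  classical
  obtain ⟨r, hr⟩ := exists_universal_rep G
  let ρ := toU r.π
  let S := (spanAlg ρ).topologicalClosure
  have hcl : IsClosed (S : Set (r.E →L[ℂ] r.E)) := (spanAlg ρ).isClosed_topologicalClosure
  have hmem : ∀ f : G →₀ ℂ, (f.sum fun g z => z • (ρ g : r.E →L[ℂ] r.E)) ∈ S := fun f =>
    (spanAlg ρ).le_topologicalClosure ⟨f, rfl⟩
  have hg : ∀ g : G, (ρ g : r.E →L[ℂ] r.E) ∈ S := fun g => by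
    have := hmem (Finsupp.single g 1)
    rwa [Finsupp.sum_single_index (by simp), one_smul] at this
  let v : G →* unitary S :=
    { toFun := fun g => ⟨⟨ρ g, hg g⟩, by
        rw [Unitary.mem_iff]
        exact ⟨Subtype.ext (Unitary.coe_star_mul_self (ρ g)),
          Subtype.ext (Unitary.coe_mul_star_self (ρ g))⟩⟩
      map_one' := by
        apply Subtype.ext
        apply Subtype.ext
        simp
      map_mul' := fun g h => by
        apply Subtype.ext
        apply Subtype.ext
        simp }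
  have hcoe : ∀ f : G →₀ ℂ, ((f.sum fun g z => z • (v g : S) : S) : r.E →L[ℂ] r.E) =
      f.sum fun g z => z • (ρ g : r.E →L[ℂ] r.E) := by
    intro f
    unfold Finsupp.sum
    rw [AddSubmonoidClass.coe_finsetSum]
    rfl
  refine ⟨S, inferInstance, v, fun f => ?_, ?_⟩
  · rw [← hr f, ← hcoe]
    rfl
  · intro s
    rw [Metric.mem_closure_iff]
    intro ε hε
    have hs : (s : r.E →L[ℂ] r.E) ∈ closure (spanAlg ρ : Set (r.E →L[ℂ] r.E)) := s.2
    obtain ⟨b, ⟨f, rfl⟩, hb⟩ := Metric.mem_closure_iff.mp hs ε hε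
    refine ⟨_, ⟨f, rfl⟩, ?_⟩
    rw [Subtype.dist_eq, hcoe]
    exact hb

end Q201.GroupCStar
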