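import Mathlib

set_option autoImplicit false

/-! The group of integers with the set of all integers whose last nonzero base-3 digit is 1:
back-and-forth analysis of first-order formulas. -/

namespace Pool.Agent.Q201.Val3

/-- the 3-adic valuation -/
def v (x : ℤ) : ℤ := padicValInt 3 x

/-- the residue of the 3-free part modulo 3 (and 0 for 0) -/
def ac (x : ℤ) : ZMod 3 := ((x / 3 ^ padicValInt 3 x : ℤ) : ZMod 3)

theorem exists_form {x : ℤ} (hx : x ≠ 0) : ∃ (n : ℕ) (u : ℤ), x = 3 ^ n * u ∧ ¬ (3 : ℤ) ∣ u := by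
  obtain ⟨u, h1, h2⟩ := (Int.finiteMultiplicity_iff.2 ⟨by decide, hx⟩ :
    FiniteMultiplicity (3 : ℤ) x).exists_eq_pow_mul_and_not_dvd
  exact ⟨_, u, h1, h2⟩

theorem val_form (n : ℕ) {u : ℤ} (hu : ¬ (3 : ℤ) ∣ u) : padicValInt 3 (3 ^ n * u) = n := by
  have : Fact (Nat.Prime 3) := ⟨Nat.prime_three⟩
  have hu0 : u ≠ 0 := by rintro rfl; exact hu (dvd_zero _)
  induction n with
  | zero =>
    rw [pow_zero, one_mul]
    exact padicValInt.eq_zero_of_not_dvd (by exact_mod_cast hu)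
  | succ n ih =>
    have h0 : (3 : ℤ) ^ n * u ≠ 0 := mul_ne_zero (by positivity) hu0
    have h := padicValInt_mul_eq_succ (p := 3) ((3 : ℤ) ^ n * u) h0
    have h2 : (3 : ℤ) ^ (n + 1) * u = 3 ^ n * u * (3 : ℕ) := by push_cast; ring
    rw [h2, h, ih]

theorem v_form (n : ℕ) {u : ℤ} (hu : ¬ (3 : ℤ) ∣ u) : v (3 ^ n * u) = n := by
  unfold v; rw [val_form n hu]

theorem ac_form (n : ℕ) {u : ℤ} (hu : ¬ (3 : ℤ) ∣ u) : ac (3 ^ n * u) = (u : ZMod 3) := by
  unfold ac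
  rw [val_form n hu, Int.mul_ediv_cancel_left _ (by positivity)]

theorem ac_zero : ac 0 = 0 := by simp [ac]

theorem cast_ne_zero {u : ℤ} : ¬ (3 : ℤ) ∣ u ↔ (u : ZMod 3) ≠ 0 := by
  rw [Ne, ZMod.intCast_zmod_eq_zero_iff_dvd]; rfl

theorem ac_eq_zero {x : ℤ} : ac x = 0 ↔ x = 0 := by
  constructor
  · intro h
    by_contra hx
    obtain ⟨n, u, rfl, hu⟩ := exists_form hx
    rw [ac_form n hu] at h
    exact cast_ne_zero.1 hu h
  · rintro rfl; exact ac_zero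

theorem v_nonneg (x : ℤ) : 0 ≤ v x := Int.natCast_nonneg _

theorem v_one : v 1 = 0 := by simp [v]

theorem v_mul {x y : ℤ} (hx : x ≠ 0) (hy : y ≠ 0) : v (x * y) = v x + v y := by
  have : Fact (Nat.Prime 3) := ⟨Nat.prime_three⟩
  unfold v
  rw [padicValInt.mul hx hy]; push_cast; rfl

theorem not_dvd_mul {u w : ℤ} (hu : ¬ (3 : ℤ) ∣ u) (hw : ¬ (3 : ℤ) ∣ w) : ¬ (3 : ℤ) ∣ u * w := by
  intro h
  rcases (Int.prime_three.dvd_or_dvd h) with h | h
  · exact hu h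
  · exact hw h

theorem ac_mul (x y : ℤ) : ac (x * y) = ac x * ac y := by
  by_cases hx : x = 0
  · subst hx; rw [zero_mul, ac_zero, zero_mul]
  by_cases hy : y = 0
  · subst hy; rw [mul_zero, ac_zero, mul_zero]
  obtain ⟨n, u, rfl, hu⟩ := exists_form hx
  obtain ⟨m, w, rfl, hw⟩ := exists_form hy
  have : (3 : ℤ) ^ n * u * (3 ^ m * w) = 3 ^ (n + m) * (u * w) := by ring
  rw [this, ac_form _ (not_dvd_mul hu hw), ac_form _ hu, ac_form _ hw]; push_cast; rfl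

/-- sums of elements of different valuations -/
theorem add_lt {x y : ℤ} (hx : x ≠ 0) (hy : y ≠ 0) (h : v x < v y) :
    v (x + y) = v x ∧ ac (x + y) = ac x := by
  obtain ⟨n, u, rfl, hu⟩ := exists_form hx
  obtain ⟨m, w, rfl, hw⟩ := exists_form hy
  rw [v_form _ hu, v_form _ hw] at h
  obtain ⟨k, rfl⟩ : ∃ k, m = n + 1 + k := ⟨m - (n + 1), by omega⟩
  have e : (3 : ℤ) ^ n * u + 3 ^ (n + 1 + k) * w = 3 ^ n * (u + 3 * (3 ^ k * w)) := by ring
  have h1 : ¬ (3 : ℤ) ∣ u + 3 * (3 ^ k * w) := by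
    rwa [Int.dvd_add_left (dvd_mul_right _ _)]
  rw [e, v_form _ h1, ac_form _ h1, v_form _ hu, ac_form _ hu]
  refine ⟨rfl, ?_⟩
  have h3 : (3 : ZMod 3) = 0 := by decide
  push_cast
  rw [h3]; ring

/-- sums of elements of the same valuation, without cancellation -/
theorem add_eq {x y : ℤ} (hx : x ≠ 0) (hy : y ≠ 0) (h : v x = v y) (hc : ac x + ac y ≠ 0) :
    v (x + y) = v x ∧ ac (x + y) = ac x + ac y := by
  obtain ⟨n, u, rfl, hu⟩ := exists_form hx
  obtain ⟨m, w, rfl, hw⟩ := exists_form hy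
  rw [v_form _ hu, v_form _ hw] at h
  obtain rfl : n = m := by exact_mod_cast h
  have e : (3 : ℤ) ^ n * u + 3 ^ n * w = 3 ^ n * (u + w) := by ring
  rw [ac_form _ hu, ac_form _ hw] at hc
  have h1 : ¬ (3 : ℤ) ∣ u + w := by
    rw [cast_ne_zero]; push_cast; exact hc
  rw [e, v_form _ h1, ac_form _ h1, v_form _ hu, ac_form _ hu, ac_form _ hw]
  refine ⟨rfl, by push_cast; rfl⟩

/-- sums of elements of the same valuation, with cancellation -/
theorem add_cancel {x y : ℤ} (hx : x ≠ 0) (hy : y ≠ 0) (h : v x = v y) (hc : ac x + ac y = 0)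
    (hxy : x + y ≠ 0) : v x < v (x + y) := by
  obtain ⟨n, u, rfl, hu⟩ := exists_form hx
  obtain ⟨m, w, rfl, hw⟩ := exists_form hy
  rw [v_form _ hu, v_form _ hw] at h
  obtain rfl : n = m := by exact_mod_cast h
  have e : (3 : ℤ) ^ n * u + 3 ^ n * w = 3 ^ n * (u + w) := by ring
  rw [ac_form _ hu, ac_form _ hw] at hc
  have h1 : (3 : ℤ) ∣ u + w := by
    have : ((u + w : ℤ) : ZMod 3) = 0 := by push_cast; exact hc
    rwa [ZMod.intCast_zmod_eq_zero_iff_dvd] at this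
  obtain ⟨t, ht⟩ := h1
  rw [e, ht] at hxy ⊢
  have ht0 : t ≠ 0 := by rintro rfl; simp at hxy
  have e2 : (3 : ℤ) ^ n * (3 * t) = 3 ^ (n + 1) * t := by ring
  rw [e2, v_mul (by positivity) ht0, v_form _ hu]
  have h2 := v_nonneg t
  have h3 : v (3 ^ (n + 1)) = ((n + 1 : ℕ) : ℤ) := by
    have := v_form (n + 1) (u := 1) (by decide)
    rwa [mul_one] at this
  rw [h3]; push_cast; omega

theorem v_neg (x : ℤ) : v (-x) = v x := by
  unfold v padicValInt; rw [Int.natAbs_neg]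

theorem ac_neg (x : ℤ) : ac (-x) = -ac x := by
  by_cases hx : x = 0
  · subst hx; simp [ac_zero]
  obtain ⟨n, u, rfl, hu⟩ := exists_form hx
  have hu' : ¬ (3 : ℤ) ∣ -u := by rwa [Int.dvd_neg]
  have : -((3 : ℤ) ^ n * u) = 3 ^ n * (-u) := by ring
  rw [this, ac_form _ hu', ac_form _ hu]; push_cast; rfl

/-- `3 ^ n ∣ x` in terms of the valuation -/
theorem pow_dvd {x : ℤ} (hx : x ≠ 0) (n : ℕ) : (3 : ℤ) ^ n ∣ x ↔ (n : ℤ) ≤ v x := by
  obtain ⟨m, u, rfl, hu⟩ := exists_form hx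
  rw [v_form _ hu]
  constructor
  · intro h
    by_contra hlt
    push Not at hlt
    obtain ⟨k, rfl⟩ : ∃ k, n = m + 1 + k := ⟨n - (m + 1), by omega⟩
    have h2 : (3 : ℤ) ^ (m + 1) ∣ 3 ^ m * u := (pow_dvd_pow 3 (by omega)).trans h
    rw [pow_succ, mul_dvd_mul_iff_left (by positivity)] at h2
    exact hu h2
  · intro h
    have h' : n ≤ m := by exact_mod_cast h
    exact (pow_dvd_pow 3 h').mul_right u

/-! ### Clamping -/

/-- `n` and `m` are equal, or both at least `D`, or both at most `-D` -/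
def ceq (D : ℕ) (n m : ℤ) : Prop :=
  n = m ∨ ((D : ℤ) ≤ n ∧ (D : ℤ) ≤ m) ∨ (n ≤ -(D : ℤ) ∧ m ≤ -(D : ℤ))

theorem ceq_symm {D : ℕ} {n m : ℤ} (h1 : ceq D n m) : ceq D m n := by
  unfold ceq at h1 ⊢; omega

theorem ceq_mono {D D' : ℕ} (h : D' ≤ D) {n m : ℤ} (h1 : ceq D n m) : ceq D' n m := by
  unfold ceq at h1 ⊢; omega

theorem ceq_shift {D e : ℕ} {n m δ : ℤ} (hδ : |δ| ≤ e) (h1 : ceq (D + e) n m) :
    ceq D (n - δ) (m - δ) := by
  unfold ceq at h1 ⊢
  rw [abs_le] at hδ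
  push_cast at h1
  omega

/-- transferring a position relative to finitely many values -/
theorem position {S : Set (ℤ × ℤ)} (hfin : S.Finite) (h0 : ((0 : ℤ), (0 : ℤ)) ∈ S)
    (hpos : ∀ p ∈ S, 0 ≤ p.1 ∧ 0 ≤ p.2)
    {D : ℕ} (hD : 1 ≤ D) (hS : ∀ p ∈ S, ∀ q ∈ S, ceq (2 * D) (p.1 - q.1) (p.2 - q.2))
    (γ : ℤ) (hγ : 0 ≤ γ) :
    ∃ γ' : ℤ, 0 ≤ γ' ∧ ∀ p ∈ S, ceq D (γ - p.1) (γ' - p.2) := by
  unfold ceq at hS ⊢
  push_cast at hS
  by_cases hA : ∃ s ∈ S, |γ - s.1| < D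
  · obtain ⟨s, hs, hsD⟩ := hA
    rw [abs_lt] at hsD
    refine ⟨s.2 + (γ - s.1), ?_, fun p hp => ?_⟩
    · have := hS s hs _ h0
      simp only at this
      omega
    · have := hS p hp s hs
      omega
  · push Not at hA
    -- the largest value below `γ`
    have hT : (S ∩ {p | p.1 ≤ γ}).Finite := hfin.inter_of_left _
    obtain ⟨s, ⟨hs, hsγ⟩, hmax⟩ := Set.exists_max_image _ Prod.fst hT ⟨_, h0, hγ⟩
    have hsγ' : s.1 ≤ γ := hsγ
    refine ⟨s.2 + D, by have := (hpos s hs).2; omega, fun p hp => ?_⟩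
    have h1 := hS p hp s hs
    have h2 := hA p hp
    have h3 := hA s hs
    by_cases hpγ : p.1 ≤ γ
    · have h4 := hmax p ⟨hp, hpγ⟩
      have h5 : (D : ℤ) ≤ γ - p.1 := by rwa [abs_of_nonneg (by omega)] at h2
      omega
    · have h5 : (D : ℤ) ≤ p.1 - γ := by rwa [abs_of_nonpos (by omega), neg_sub] at h2
      have h6 : (D : ℤ) ≤ γ - s.1 := by rwa [abs_of_nonneg (by omega)] at h3
      omega

/-- elements with a given valuation, residue and class modulo a number coprime to 3 -/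
theorem exists_elt (γ : ℕ) (ε : ZMod 3) (hε : ε ≠ 0) (r : ℤ) {M : ℤ} (hM : IsCoprime M 3) :
    ∃ z : ℤ, z ≠ 0 ∧ v z = γ ∧ ac z = ε ∧ M ∣ z - r := by
  obtain ⟨e, rfl⟩ := ZMod.intCast_surjective ε
  have he : ¬ (3 : ℤ) ∣ e := cast_ne_zero.2 hε
  obtain ⟨p, q, hpq⟩ := (hM.symm.pow_left (m := γ + 1))
  let z := r * p * 3 ^ (γ + 1) + 3 ^ γ * e * q * M
  have hz : z = 3 ^ γ * (e + 3 * (p * (r - 3 ^ γ * e))) := by
    have : q * M = 1 - p * 3 ^ (γ + 1) := by rw [← hpq]; ring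
    calc z = r * p * 3 ^ (γ + 1) + 3 ^ γ * e * (q * M) := by simp only [z]; ring
      _ = _ := by rw [this]; ring
  have hnd : ¬ (3 : ℤ) ∣ e + 3 * (p * (r - 3 ^ γ * e)) := by
    rwa [Int.dvd_add_left (dvd_mul_right _ _)]
  refine ⟨z, ?_, ?_, ?_, ?_⟩
  · rw [hz]
    refine mul_ne_zero (by positivity) ?_
    intro h; rw [h] at hnd; exact hnd (dvd_zero _)
  · rw [hz, v_form _ hnd]
  · rw [hz, ac_form _ hnd]
    have h3 : (3 : ZMod 3) = 0 := by decide
    push_cast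
    rw [h3]; ring
  · refine ⟨3 ^ γ * e * q - r * q, ?_⟩
    have : r = r * (p * 3 ^ (γ + 1) + q * M) := by rw [hpq, mul_one]
    calc z - r = z - r * (p * 3 ^ (γ + 1) + q * M) := by rw [← this]
      _ = _ := by simp only [z]; ring

/-! ### Linear combinations of pairs -/

/-- the pairs of values of the linear forms with coefficients bounded by `K` -/
def PS (K : ℤ) : List (ℤ × ℤ) → Set (ℤ × ℤ)
  | [] => {p | ∃ c : ℤ, |c| ≤ K ∧ p = (c, c)}
  | q :: l => {p | ∃ w ∈ PS K l, ∃ m : ℤ, |m| ≤ K ∧ p = (w.1 + m * q.1, w.2 + m * q.2)}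

theorem PS_mono {K K' : ℤ} (h : K ≤ K') : ∀ l, PS K l ⊆ PS K' l
  | [] => by rintro p ⟨c, hc, rfl⟩; exact ⟨c, hc.trans h, rfl⟩
  | q :: l => by
    rintro p ⟨w, hw, m, hm, rfl⟩
    exact ⟨w, PS_mono h l hw, m, hm.trans h, rfl⟩

theorem PS_finite (K : ℤ) : ∀ l, (PS K l).Finite
  | [] => by
    refine ((Set.finite_Icc (-K) K).image fun c => (c, c)).subset ?_
    rintro p ⟨c, hc, rfl⟩
    exact ⟨c, ⟨(abs_le.1 hc).1, (abs_le.1 hc).2⟩, rfl⟩
  | q :: l => by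
    refine (((PS_finite K l).prod (Set.finite_Icc (-K) K)).image
      fun p : (ℤ × ℤ) × ℤ => (p.1.1 + p.2 * q.1, p.1.2 + p.2 * q.2)).subset ?_
    rintro p ⟨w, hw, m, hm, rfl⟩
    exact ⟨(w, m), ⟨hw, (abs_le.1 hm).1, (abs_le.1 hm).2⟩, rfl⟩

theorem PS_zero {K : ℤ} (hK : 0 ≤ K) : ∀ l, ((0 : ℤ), (0 : ℤ)) ∈ PS K l
  | [] => ⟨0, by simpa using hK, rfl⟩
  | q :: l => ⟨_, PS_zero hK l, 0, by simpa using hK, by simp⟩

theorem PS_int {K c : ℤ} (hc : |c| ≤ K) : ∀ l, (c, c) ∈ PS K l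
  | [] => ⟨c, hc, rfl⟩
  | q :: l => ⟨_, PS_int hc l, 0, by simpa using (abs_nonneg c).trans hc, by simp⟩

theorem PS_mem {q : ℤ × ℤ} : ∀ {l : List (ℤ × ℤ)}, q ∈ l → q ∈ PS 1 l
  | r :: l, h => by
    rcases List.mem_cons.1 h with rfl | h
    · exact ⟨_, PS_zero (by norm_num) l, 1, by norm_num, by simp⟩
    · exact ⟨_, PS_mem h, 0, by norm_num, by simp⟩

theorem PS_comb {K₁ K₂ : ℤ} (i j : ℤ) : ∀ l, ∀ p ∈ PS K₁ l, ∀ q ∈ PS K₂ l,
    (i * p.1 + j * q.1, i * p.2 + j * q.2) ∈ PS (|i| * K₁ + |j| * K₂) l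
  | [], p, hp, q, hq => by
    obtain ⟨c, hc, rfl⟩ := hp
    obtain ⟨d, hd, rfl⟩ := hq
    refine ⟨i * c + j * d, ?_, rfl⟩
    calc |i * c + j * d| ≤ |i * c| + |j * d| := abs_add_le _ _
      _ = |i| * |c| + |j| * |d| := by rw [abs_mul, abs_mul]
      _ ≤ _ := by gcongr
  | r :: l, p, hp, q, hq => by
    obtain ⟨w, hw, m, hm, rfl⟩ := hp
    obtain ⟨w', hw', m', hm', rfl⟩ := hq
    refine ⟨_, PS_comb i j l w hw w' hw', i * m + j * m', ?_, ?_⟩
    · calc |i * m + j * m'| ≤ |i * m| + |j * m'| := abs_add_le _ _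
        _ = |i| * |m| + |j| * |m'| := by rw [abs_mul, abs_mul]
        _ ≤ _ := by gcongr
    · ext <;> simp only <;> ring

/-- Approximate equality of types. -/
structure Sim (K : ℤ) (D : ℕ) (M : ℤ) (l : List (ℤ × ℤ)) : Prop where
  ac : ∀ p ∈ PS K l, ac p.1 = ac p.2
  cong : ∀ p ∈ PS K l, M ∣ p.1 - p.2
  val : ∀ p ∈ PS K l, ∀ q ∈ PS K l, p.1 ≠ 0 → q.1 ≠ 0 →
    ceq D (v p.1 - v q.1) (v p.2 - v q.2)

theorem Sim.mono {K K' : ℤ} {D D' : ℕ} {M M' : ℤ} {l : List (ℤ × ℤ)} (h : Sim K D M l)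
    (hK : K' ≤ K) (hD : D' ≤ D) (hM : M' ∣ M) : Sim K' D' M' l where
  ac := fun p hp => h.ac p (PS_mono hK l hp)
  cong := fun p hp => hM.trans (h.cong p (PS_mono hK l hp))
  val := fun p hp q hq h1 h2 =>
    ceq_mono hD (h.val p (PS_mono hK l hp) q (PS_mono hK l hq) h1 h2)

theorem Sim.ne_zero {K : ℤ} {D : ℕ} {M : ℤ} {l : List (ℤ × ℤ)} (h : Sim K D M l) {p : ℤ × ℤ}
    (hp : p ∈ PS K l) : p.1 = 0 ↔ p.2 = 0 := by
  rw [← ac_eq_zero, ← ac_eq_zero, h.ac p hp]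

theorem PS_swap (K : ℤ) : ∀ l, ∀ p, p ∈ PS K (l.map Prod.swap) ↔ p.swap ∈ PS K l
  | [], p => by
    constructor
    · rintro ⟨c, hc, rfl⟩; exact ⟨c, hc, rfl⟩
    · rintro ⟨c, hc, h⟩
      refine ⟨c, hc, ?_⟩
      rw [← Prod.swap_swap p, h]; rfl
  | r :: l, p => by
    constructor
    · rintro ⟨w, hw, m, hm, rfl⟩
      exact ⟨w.swap, (PS_swap K l w).1 hw, m, hm, rfl⟩
    · rintro ⟨w, hw, m, hm, h⟩
      refine ⟨w.swap, (PS_swap K l w.swap).2 (by rwa [Prod.swap_swap]), m, hm, ?_⟩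
      rw [← Prod.swap_swap p, h]; rfl

theorem Sim.swap {K : ℤ} {D : ℕ} {M : ℤ} {l : List (ℤ × ℤ)} (h : Sim K D M l) :
    Sim K D M (l.map Prod.swap) where
  ac := fun p hp => (h.ac p.swap ((PS_swap K l p).1 hp)).symm
  cong := fun p hp => by
    have := h.cong p.swap ((PS_swap K l p).1 hp)
    rw [← dvd_neg, neg_sub] at this
    exact this
  val := fun p hp q hq h1 h2 => by
    have hp' := (PS_swap K l p).1 hp
    have hq' := (PS_swap K l q).1 hq
    exact ceq_symm (h.val p.swap hp' q.swap hq' (fun h3 => h1 ((h.ne_zero hp').1 h3))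
      (fun h3 => h2 ((h.ne_zero hq').1 h3)))

/-- pairs of integers of the same (approximate) kind -/
structure Good (D : ℕ) (Q : Set (ℤ × ℤ)) : Prop where
  ac : ∀ p ∈ Q, ac p.1 = ac p.2
  val : ∀ p ∈ Q, ∀ q ∈ Q, p.1 ≠ 0 → q.1 ≠ 0 → ceq D (v p.1 - v q.1) (v p.2 - v q.2)

theorem v_le_of_dvd {μ : ℤ} {L : ℕ} (hL : 0 < L) (h : μ ∣ L) : μ ≠ 0 ∧ 0 ≤ v μ ∧ v μ ≤ L := by
  have h0 : (L : ℤ) ≠ 0 := by exact_mod_cast hL.ne'
  obtain ⟨ν, hν⟩ := h
  have hμ : μ ≠ 0 := by rintro rfl; simp at hν; omega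
  have hν0 : ν ≠ 0 := by rintro rfl; simp at hν; omega
  refine ⟨hμ, v_nonneg _, ?_⟩
  have h1 : v μ ≤ v L := by
    rw [hν, v_mul hμ hν0]; have := v_nonneg ν; omega
  have h2 : (3 : ℤ) ^ (padicValInt 3 L) ∣ L := padicValInt_dvd (p := 3) (L : ℤ)
  have h3 : (3 : ℤ) ^ (padicValInt 3 L) ≤ L := Int.le_of_dvd (by exact_mod_cast hL) h2
  have h4 : padicValInt 3 (L : ℤ) < 3 ^ padicValInt 3 (L : ℤ) := Nat.lt_pow_self (by norm_num)
  have h5 : 3 ^ padicValInt 3 (L : ℤ) ≤ L := by exact_mod_cast h3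
  unfold v at h1 ⊢
  omega

theorem finish {K : ℤ} {D L : ℕ} {M : ℤ} {l : List (ℤ × ℤ)} (hL : 0 < L) {Q : Set (ℤ × ℤ)}
    (hQ : Good (D + L) Q) (hp : ∀ p ∈ PS K l, ∃ μ : ℤ, μ ∣ L ∧ (μ * p.1, μ * p.2) ∈ Q)
    (hM : ∀ p ∈ PS K l, M ∣ p.1 - p.2) : Sim K D M l where
  ac := fun p hpp => by
    obtain ⟨μ, hμ, hq⟩ := hp p hpp
    obtain ⟨h1, -, -⟩ := v_le_of_dvd hL hμ
    have h2 := hQ.ac _ hq
    simp only [ac_mul] at h2
    have h3 : Val3.ac μ ≠ 0 := fun h => h1 (ac_eq_zero.1 h)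
    exact mul_left_cancel₀ h3 h2
  cong := hM
  val := fun p hpp q hqq h1 h2 => by
    obtain ⟨μ, hμ, hpQ⟩ := hp p hpp
    obtain ⟨ν, hν, hqQ⟩ := hp q hqq
    obtain ⟨hμ0, h3, h4⟩ := v_le_of_dvd hL hμ
    obtain ⟨hν0, h5, h6⟩ := v_le_of_dvd hL hν
    have h7 := hQ.ac _ hpQ
    have h8 := hQ.ac _ hqQ
    have h9 : p.2 ≠ 0 := by
      intro h
      simp only [h, mul_zero, ac_zero] at h7
      exact (mul_ne_zero hμ0 h1) (ac_eq_zero.1 h7)
    have h10 : q.2 ≠ 0 := by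
      intro h
      simp only [h, mul_zero, ac_zero] at h8
      exact (mul_ne_zero hν0 h2) (ac_eq_zero.1 h8)
    have h11 := hQ.val _ hpQ _ hqQ (mul_ne_zero hμ0 h1) (mul_ne_zero hν0 h2)
    simp only at h11
    rw [v_mul hμ0 h1, v_mul hν0 h2, v_mul hμ0 h9, v_mul hν0 h10] at h11
    have h12 : |v μ - v ν| ≤ (L : ℤ) := by rw [abs_le]; omega
    have h13 := ceq_shift h12 h11
    unfold ceq at h13 ⊢
    omega

theorem extend (K : ℕ) (D : ℕ) {M : ℤ} (hM : IsCoprime M 3) :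
    ∃ (K' : ℕ) (D' : ℕ) (M' : ℤ), IsCoprime M' 3 ∧ ∀ l, Sim K' D' M' l → ∀ x, ∃ y,
      Sim K D M ((x, y) :: l) := by
  let L : ℕ := K.factorial
  have hL : 0 < L := K.factorial_pos
  have hL0 : (L : ℤ) ≠ 0 := by exact_mod_cast hL.ne'
  obtain ⟨ℓ, L₃, hLL, hL₃⟩ := exists_form hL0
  have hLc : IsCoprime L₃ (3 : ℤ) := (Prime.coprime_iff_not_dvd Int.prime_three).2 hL₃ |>.symm
  have hℓ : (ℓ : ℤ) ≤ L := by
    have h1 := (v_le_of_dvd hL (dvd_refl (L : ℤ))).2.2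
    have h2 : v (L : ℤ) = ℓ := by rw [hLL, v_form ℓ hL₃]
    omega
  let B : ℤ := L * K
  have hB : 0 ≤ B := by positivity
  let D₁ : ℕ := D + L
  have hD₁ : 1 ≤ D₁ := by simp only [D₁]; omega
  have hBK : (K : ℤ) ≤ B := by
    have : (1 : ℤ) ≤ L := by exact_mod_cast hL
    simp only [B]
    nlinarith [Int.natCast_nonneg K]
  refine ⟨2 * (L * K) + K * (L * K) + 1, 2 * D₁, L₃ * M, hLc.mul_left hM, ?_⟩
  intro l hS x
  set K' : ℤ := ((2 * (L * K) + K * (L * K) + 1 : ℕ) : ℤ) with hK'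
  have hK'1 : (1 : ℤ) ≤ K' := by rw [hK']; push_cast; nlinarith [Int.natCast_nonneg K, Int.natCast_nonneg L, mul_nonneg (Int.natCast_nonneg L) (Int.natCast_nonneg K), mul_nonneg (Int.natCast_nonneg K) (mul_nonneg (Int.natCast_nonneg L) (Int.natCast_nonneg K))]
  have hK'2 : 2 * B ≤ K' := by
    rw [hK']; push_cast; simp only [B]
    nlinarith [Int.natCast_nonneg K, Int.natCast_nonneg L, mul_nonneg (Int.natCast_nonneg K) (mul_nonneg (Int.natCast_nonneg L) (Int.natCast_nonneg K))]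
  have hK'3 : B + K * B ≤ K' := by
    rw [hK']; push_cast; simp only [B]
    nlinarith [Int.natCast_nonneg K, Int.natCast_nonneg L, mul_nonneg (Int.natCast_nonneg L) (Int.natCast_nonneg K)]
  have h11 : ((1 : ℤ), (1 : ℤ)) ∈ PS K' l := PS_int (by simpa using hK'1) l
  -- divisibility of the partner by `L`
  have hdiv : ∀ y' : ℤ, L₃ ∣ L * x - y' → ((L : ℤ) * x = 0 → y' = 0) →
      (L * x ≠ 0 → (ℓ : ℤ) ≤ v (L * x) → (ℓ : ℤ) ≤ v y') → (L : ℤ) ∣ y' := by
    intro y' h1 h2 h3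
    by_cases hx : (L : ℤ) * x = 0
    · rw [h2 hx]; exact dvd_zero _
    by_cases hy : y' = 0
    · rw [hy]; exact dvd_zero _
    have h4 : (ℓ : ℤ) ≤ v (L * x) := by
      rw [← pow_dvd hx, hLL, mul_assoc]; exact dvd_mul_right _ _
    have h5 : (3 : ℤ) ^ ℓ ∣ y' := (pow_dvd hy ℓ).2 (h3 hx h4)
    have h6 : L₃ ∣ y' := by
      have h7 : L₃ ∣ L * x := by rw [hLL]; exact ⟨3 ^ ℓ * x, by ring⟩
      have := dvd_sub h7 h1
      simpa using this
    rw [hLL]
    exact (hLc.symm.pow_left).mul_dvd h5 h6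
  -- congruence of `x` and its partner
  have hcong : ∀ y : ℤ, L₃ * M ∣ L * x - L * y → M ∣ x - y := by
    intro y h
    have h1 : (L : ℤ) * x - L * y = L₃ * (3 ^ ℓ * (x - y)) := by rw [hLL]; ring
    have hL₃0 : L₃ ≠ 0 := by rintro rfl; exact hL₃ (dvd_zero _)
    rw [h1, mul_dvd_mul_iff_left hL₃0] at h
    exact (hM.pow_right).dvd_of_dvd_mul_left h
  have hcong' : ∀ y : ℤ, L₃ * M ∣ L * x - L * y → ∀ p ∈ PS K ((x, y) :: l), M ∣ p.1 - p.2 := by
    intro y hy p hp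
    obtain ⟨w, hw, m, hm, rfl⟩ := hp
    have h1 : M ∣ w.1 - w.2 := (dvd_mul_left M L₃).trans
      (hS.cong w (PS_mono (hBK.trans (by linarith)) l hw))
    have h2 := hcong y hy
    have h3 : w.1 + m * x - (w.2 + m * y) = (w.1 - w.2) + m * (x - y) := by ring
    simp only
    rw [h3]
    exact dvd_add h1 (Dvd.dvd.mul_left h2 m)
  by_cases h0 : ∃ s ∈ PS B l, s.1 = L * x
  · -- the element is a linear combination
    obtain ⟨s, hs, hsx⟩ := h0
    have hs' : s ∈ PS K' l := PS_mono (by linarith) l hs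
    have hcg := hS.cong s hs'
    have hLs : (L : ℤ) ∣ s.2 := by
      refine hdiv s.2 ?_ ?_ ?_
      · rw [← hsx]; exact (dvd_mul_right L₃ M).trans hcg
      · intro h; rw [← hsx] at h; exact (hS.ne_zero hs').1 h
      · intro h1 h2
        rw [← hsx] at h1 h2
        have h3 := hS.val s hs' _ h11 h1 (by norm_num)
        simp only [v_one, sub_zero] at h3
        unfold ceq at h3
        have : ℓ ≤ 2 * D₁ := by simp only [D₁]; omega
        omega
    obtain ⟨y, hy⟩ := hLs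
    refine ⟨y, ?_⟩
    refine finish (L := L) (Q := PS K' l) hL ?_ ?_ (hcong' y (by rw [← hsx, ← hy]; exact hcg))
    · exact ⟨hS.ac, fun p hp q hq h1 h2 => ceq_mono (by simp only [D₁]; omega) (hS.val p hp q hq h1 h2)⟩
    · rintro p ⟨w, hw, m, hm, rfl⟩
      refine ⟨L, dvd_refl _, ?_⟩
      have h1 := PS_comb (L : ℤ) m l w hw s hs
      have h2 : |(L : ℤ)| * K + |m| * B ≤ K' := by
        have : |m| * B ≤ K * B := mul_le_mul_of_nonneg_right hm hB
        rw [abs_of_nonneg (Int.natCast_nonneg L)]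
        simp only [B] at hK'3 this ⊢
        linarith
      have h3 := PS_mono h2 l h1
      have e1 : (L : ℤ) * (w.1 + m * x) = L * w.1 + m * s.1 := by rw [hsx]; ring
      have e2 : (L : ℤ) * (w.2 + m * y) = L * w.2 + m * s.2 := by rw [hy]; ring
      simp only
      rw [e1, e2]
      exact h3
  · push Not at h0
    -- the nearest linear combination
    obtain ⟨s, hs, hmax⟩ := Set.exists_max_image (PS B l) (fun s => v (L * x - s.1))
      (PS_finite B l) ⟨_, PS_zero hB l⟩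
    set z : ℤ := L * x - s.1 with hz
    have hz0 : z ≠ 0 := fun h => h0 s hs (by omega)
    let S : Set (ℤ × ℤ) := {p | ∃ w ∈ PS (2 * B + 1) l, w.1 ≠ 0 ∧ p = (v w.1, v w.2)}
    have hK'4 : 2 * B + 1 ≤ K' := by
      rw [hK']; push_cast; simp only [B]
      nlinarith [Int.natCast_nonneg K, Int.natCast_nonneg L, mul_nonneg (Int.natCast_nonneg K) (mul_nonneg (Int.natCast_nonneg L) (Int.natCast_nonneg K))]
    have hSfin : S.Finite := by
      refine ((PS_finite (2 * B + 1) l).image fun w => (v w.1, v w.2)).subset ?_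
      rintro p ⟨w, hw, -, rfl⟩
      exact ⟨w, hw, rfl⟩
    have hS0 : ((0 : ℤ), (0 : ℤ)) ∈ S :=
      ⟨(1, 1), PS_int (by rw [abs_one]; linarith) l, by norm_num, by simp only [v_one]⟩
    have hSS : ∀ p ∈ S, ∀ q ∈ S, ceq (2 * D₁) (p.1 - q.1) (p.2 - q.2) := by
      rintro p ⟨w, hw, hw0, rfl⟩ q ⟨w', hw', hw0', rfl⟩
      exact hS.val w (PS_mono hK'4 l hw) w' (PS_mono hK'4 l hw') hw0 hw0'
    obtain ⟨γ', hγ', hpos⟩ := position hSfin hS0
      (by rintro p ⟨w, -, -, rfl⟩; exact ⟨v_nonneg _, v_nonneg _⟩) hD₁ hSS (v z) (v_nonneg z)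
    obtain ⟨z', hz'0, hvz', hacz', hMz'⟩ := exists_elt γ'.toNat (ac z)
      (fun h => hz0 (ac_eq_zero.1 h)) z (hLc.mul_left hM)
    have hvz'' : v z' = γ' := by rw [hvz']; omega
    -- the transfer
    have key : ∀ t ∈ PS B l, ac (L * x - t.1) = ac (s.2 + z' - t.2) ∧
        ((v (L * x - t.1), v (s.2 + z' - t.2)) ∈ S ∨
          (v (L * x - t.1) = v z ∧ v (s.2 + z' - t.2) = γ')) := by
      intro t ht
      have hw : (1 * s.1 + (-1) * t.1, 1 * s.2 + (-1) * t.2) ∈ PS (2 * B) l := by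
        have := PS_comb 1 (-1) l s hs t ht
        have e : |(1 : ℤ)| * B + |(-1 : ℤ)| * B = 2 * B := by norm_num; ring
        rwa [e] at this
      have e1 : 1 * s.1 + (-1) * t.1 = s.1 - t.1 := by ring
      have e2 : 1 * s.2 + (-1) * t.2 = s.2 - t.2 := by ring
      rw [e1, e2] at hw
      have hwK : (s.1 - t.1, s.2 - t.2) ∈ PS K' l := PS_mono hK'2 l hw
      have e3 : L * x - t.1 = z + (s.1 - t.1) := by rw [hz]; ring
      have e4 : s.2 + z' - t.2 = z' + (s.2 - t.2) := by ring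
      have hne : L * x - t.1 ≠ 0 := fun h => h0 t ht (by omega)
      have hmx := hmax t ht
      rw [e3] at hne hmx ⊢
      rw [e4]
      set w₁ := s.1 - t.1 with hw₁
      set w₂ := s.2 - t.2 with hw₂
      have hac : ac w₁ = ac w₂ := hS.ac _ hwK
      by_cases hw0 : w₁ = 0
      · have hw0' : w₂ = 0 := (hS.ne_zero hwK).1 hw0
        rw [hw0, hw0', add_zero, add_zero]
        exact ⟨hacz'.symm, Or.inr ⟨rfl, hvz''⟩⟩
      · have hw0' : w₂ ≠ 0 := fun h => hw0 ((hS.ne_zero hwK).2 h)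
        have hwS : (v w₁, v w₂) ∈ S := ⟨_, PS_mono (by linarith) l hw, hw0, rfl⟩
        have hp := hpos _ hwS
        simp only at hp
        rcases lt_trichotomy (v z) (v w₁) with h | h | h
        · have h' : v z' < v w₂ := by rw [hvz'']; unfold ceq at hp; omega
          obtain ⟨a1, a2⟩ := add_lt hz0 hw0 h
          obtain ⟨b1, b2⟩ := add_lt hz'0 hw0' h'
          rw [a1, a2, b1, b2]
          exact ⟨hacz'.symm, Or.inr ⟨rfl, hvz''⟩⟩
        · have h' : v z' = v w₂ := by rw [hvz'']; unfold ceq at hp; omega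
          have hc : ac z + ac w₁ ≠ 0 := by
            intro hc
            have := add_cancel hz0 hw0 h hc hne
            omega
          obtain ⟨a1, a2⟩ := add_eq hz0 hw0 h hc
          obtain ⟨b1, b2⟩ := add_eq hz'0 hw0' h' (by rw [hacz', ← hac]; exact hc)
          rw [a1, a2, b1, b2, hacz', hac]
          exact ⟨rfl, Or.inr ⟨rfl, hvz''⟩⟩
        · have h' : v w₂ < v z' := by rw [hvz'']; unfold ceq at hp; omega
          obtain ⟨a1, a2⟩ := add_lt hw0 hz0 h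
          obtain ⟨b1, b2⟩ := add_lt hw0' hz'0 h'
          rw [add_comm z, add_comm z', a1, a2, b1, b2]
          exact ⟨hac, Or.inl hwS⟩
    have hcg0 : L₃ * M ∣ L * x - (s.2 + z') := by
      have h1 := hS.cong s (PS_mono (by linarith) l hs)
      have h2 : L * x - (s.2 + z') = (s.1 - s.2) - (z' - z) := by rw [hz]; ring
      rw [h2]
      exact dvd_sub h1 hMz'
    have hLy : (L : ℤ) ∣ s.2 + z' := by
      have hk := key _ (PS_zero hB l)
      simp only [sub_zero] at hk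
      refine hdiv _ ((dvd_mul_right L₃ M).trans hcg0) ?_ ?_
      · intro h; exact absurd h.symm (h0 _ (PS_zero hB l))
      · intro h1 h2
        have hℓD : ℓ ≤ D₁ := by simp only [D₁]; omega
        rcases hk.2 with h3 | ⟨h3, h4⟩
        · have h4 := hSS _ h3 _ hS0
          simp only [sub_zero] at h4
          unfold ceq at h4; omega
        · have h5 := hpos _ hS0
          simp only [sub_zero] at h5
          unfold ceq at h5; omega
    obtain ⟨y, hy⟩ := hLy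
    refine ⟨y, ?_⟩
    let Q : Set (ℤ × ℤ) := {q | ac q.1 = ac q.2 ∧ (q.1 ≠ 0 →
      ((v q.1, v q.2) ∈ S ∨ (v q.1 = v z ∧ v q.2 = γ')))}
    refine finish (L := L) (Q := Q) hL ⟨fun p hp => hp.1, ?_⟩ ?_ (hcong' y (by rw [← hy]; exact hcg0))
    · intro p hp q hq h1 h2
      rcases hp.2 h1 with h3 | ⟨h3, h3'⟩ <;> rcases hq.2 h2 with h4 | ⟨h4, h4'⟩
      · exact ceq_mono (by omega) (hSS _ h3 _ h4)
      · have := hpos _ h3
        rw [h4, h4']
        unfold ceq at this ⊢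
        simp only at this
        omega
      · have := hpos _ h4
        rw [h3, h3']
        exact this
      · rw [h3, h3', h4, h4']
        left; ring
    · rintro p ⟨w, hw, m, hm, rfl⟩
      by_cases hm0 : m = 0
      · subst hm0
        refine ⟨L, dvd_refl _, ?_⟩
        have hwK : w ∈ PS K' l := PS_mono (hBK.trans (by linarith)) l hw
        simp only [zero_mul, add_zero]
        refine ⟨by simp only [ac_mul, hS.ac w hwK], fun h1 => Or.inl ?_⟩
        have h2 := PS_comb (L : ℤ) 0 l w hw _ (PS_zero (K := 0) le_rfl l)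
        simp only [mul_zero, add_zero] at h2
        refine ⟨_, PS_mono ?_ l h2, h1, rfl⟩
        rw [abs_of_nonneg (Int.natCast_nonneg L)]
        simp only [B] at hB ⊢
        linarith
      · obtain ⟨μ, hμ⟩ : m ∣ (L : ℤ) := by
          have h1 : m.natAbs ∣ L := Nat.dvd_factorial (by omega) (by
            have : (m.natAbs : ℤ) ≤ K := by rw [Int.natCast_natAbs]; exact hm
            exact_mod_cast this)
          exact Int.natAbs_dvd_natAbs.1 (by simpa using h1)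
        refine ⟨μ, ⟨m, by rw [hμ]; ring⟩, ?_⟩
        have ht := PS_comb (-μ) 0 l w hw _ (PS_zero (K := 0) le_rfl l)
        simp only [mul_zero, add_zero] at ht
        have hμL : |μ| ≤ L := by
          have h1 : (L : ℤ) = |m| * |μ| := by
            rw [← abs_mul, ← hμ, abs_of_nonneg (Int.natCast_nonneg L)]
          have h2 : 1 ≤ |m| := Int.one_le_abs hm0
          have h3 : 0 ≤ |μ| := abs_nonneg μ
          nlinarith
        have ht' : (-μ * w.1, -μ * w.2) ∈ PS B l := by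
          refine PS_mono ?_ l ht
          rw [abs_neg]
          exact mul_le_mul_of_nonneg_right hμL (Int.natCast_nonneg K)
        obtain ⟨k1, k2⟩ := key _ ht'
        have e1 : μ * (w.1 + m * x) = L * x - -μ * w.1 := by rw [hμ]; ring
        have e2 : μ * (w.2 + m * y) = s.2 + z' - -μ * w.2 := by rw [hy, hμ]; ring
        simp only
        rw [e1, e2]
        exact ⟨k1, fun _ => k2⟩

end Pool.Agent.Q201.Val3
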